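import Pool.Agent.Lib.SDC.Spec

namespace Pool.Agent.Lib.SDC

open Finset Pool.Agent.Lib.SD

private theorem Ana_sum {R : Type} [CommRing R] (g : Polynomial (Polynomial ℤ)) (I J : ℕ)
    (hI : ∀ j, (g.coeff j).natDegree < I) (hJ : g.natDegree < J) (T S : R) :
    ev2 T S g = ∑ j ∈ range J, ∑ i ∈ range I,
      (((g.coeff j).coeff i : ℤ) : R) * T ^ i * S ^ j := by
  unfold ev2
  rw [Polynomial.eval₂_eq_sum_range' _ hJ]
  refine Finset.sum_congr rfl fun j _ => ?_
  rw [Polynomial.coe_eval₂RingHom, Polynomial.eval₂_eq_sum_range' _ (hI j), Finset.sum_mul]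
  rfl

/-- absolute convergence of the Taylor shift -/
private theorem Ana_summ (u r : ℝ) (hur : |u| < r) (f : PowerSeries ℝ)
    (hf : Summable (fun n => |PowerSeries.coeff n f| * r ^ n)) (k : ℕ) :
    Summable (fun n : ℕ => PowerSeries.coeff (n + k) f * ((n + k).choose k : ℝ) * u ^ n) := by
  have hr : 0 < r := lt_of_le_of_lt (abs_nonneg u) hur
  have h1 : ‖|u| / r‖ < 1 := by
    rw [Real.norm_eq_abs, abs_of_nonneg (by positivity), div_lt_one hr]
    exact hur
  have h2 : Summable (fun n : ℕ => ((n + k).choose k : ℝ) * (|u| / r) ^ n) :=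
    summable_choose_mul_geometric_of_norm_lt_one k h1
  set B := ∑' n : ℕ, ((n + k).choose k : ℝ) * (|u| / r) ^ n with hB
  have h3 : ∀ n : ℕ, ((n + k).choose k : ℝ) * (|u| / r) ^ n ≤ B := by
    intro n
    exact h2.le_tsum n (fun j _ => by positivity)
  have h4 : Summable (fun n : ℕ => |PowerSeries.coeff (n + k) f| * r ^ (n + k)) :=
    (summable_nat_add_iff k).2 hf
  refine Summable.of_norm_bounded (h4.mul_left (B / r ^ k)) ?_
  intro n
  rw [norm_mul, norm_mul, norm_pow, Real.norm_eq_abs, Real.norm_eq_abs, Real.norm_eq_abs,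
    abs_of_nonneg (show (0 : ℝ) ≤ ((n + k).choose k : ℝ) by positivity)]
  have h5 : |PowerSeries.coeff (n + k) f| * ((n + k).choose k : ℝ) * |u| ^ n =
      (((n + k).choose k : ℝ) * (|u| / r) ^ n) * (|PowerSeries.coeff (n + k) f| * r ^ n) := by
    rw [div_pow]
    field_simp
  rw [h5]
  have h6 : B / r ^ k * (|PowerSeries.coeff (n + k) f| * r ^ (n + k)) =
      B * (|PowerSeries.coeff (n + k) f| * r ^ n) := by
    rw [pow_add]
    field_simp
  rw [h6]
  exact mul_le_mul_of_nonneg_right (h3 n) (by positivity)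

private theorem Ana_one (u : ℝ) : sft u 1 = 1 := by
  ext k
  rw [sft, PowerSeries.coeff_mk, PowerSeries.coeff_one]
  rw [tsum_eq_single 0]
  · by_cases hk : k = 0
    · subst hk
      simp
    · simp [hk, PowerSeries.coeff_one]
  · intro n hn
    rw [PowerSeries.coeff_one, if_neg (by omega)]
    ring

private theorem Ana_X (u : ℝ) : sft u PowerSeries.X = PowerSeries.C u + PowerSeries.X := by
  ext k
  rw [sft, PowerSeries.coeff_mk, map_add, PowerSeries.coeff_C, PowerSeries.coeff_X]
  rcases Nat.lt_or_ge k 2 with hk | hk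
  · rw [tsum_eq_single (1 - k)]
    · interval_cases k
      · simp [PowerSeries.coeff_X]
      · simp [PowerSeries.coeff_X]
    · intro n hn
      rw [PowerSeries.coeff_X, if_neg (by omega)]
      ring
  · rw [if_neg (by omega), if_neg (by omega), add_zero]
    rw [show (fun n : ℕ => PowerSeries.coeff (n + k) (PowerSeries.X : PowerSeries ℝ) *
      ((n + k).choose k : ℝ) * u ^ n) = fun _ => 0 from ?_, tsum_zero]
    funext n
    rw [PowerSeries.coeff_X, if_neg (by omega)]
    ring

/-- the subring of the series which converge absolutely for r -/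
private def Ana_sub (h : SftStmt) (u r : ℝ) (hur : |u| < r) : Subring (PowerSeries ℝ) where
  carrier := {f | Summable (fun n => |PowerSeries.coeff n f| * r ^ n)}
  mul_mem' := fun {a b} ha hb => (h u r a b hur ha hb).1
  one_mem' := by
    refine summable_of_ne_finset_zero (s := {0}) ?_
    intro n hn
    rw [Finset.mem_singleton] at hn
    rw [PowerSeries.coeff_one, if_neg hn, abs_zero, zero_mul]
  add_mem' := by
    intro a b ha hb
    have hr : 0 < r := lt_of_le_of_lt (abs_nonneg u) hur
    refine Summable.of_nonneg_of_le (fun n => by positivity) (fun n => ?_) (ha.add hb)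
    rw [map_add, ← add_mul]
    exact mul_le_mul_of_nonneg_right (abs_add_le _ _) (by positivity)
  zero_mem' := by
    refine (summable_zero : Summable (fun _ : ℕ => (0 : ℝ))).congr ?_
    intro n
    rw [map_zero, abs_zero, zero_mul]
  neg_mem' := by
    intro a ha
    refine Summable.congr ha ?_
    intro n
    rw [map_neg, abs_neg]

/-- the Taylor shift as a ring homomorphism -/
private noncomputable def Ana_hom (h : SftStmt) (u r : ℝ) (hur : |u| < r) :
    Ana_sub h u r hur →+* PowerSeries ℝ where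
  toFun f := sft u f.1
  map_one' := Ana_one u
  map_mul' := fun a b => (h u r a.1 b.1 hur a.2 b.2).2
  map_zero' := by
    ext k
    change PowerSeries.coeff k (sft u 0) = _
    rw [sft, PowerSeries.coeff_mk, map_zero]
    simp
  map_add' := by
    intro a b
    ext k
    change PowerSeries.coeff k (sft u (a.1 + b.1)) = PowerSeries.coeff k (sft u a.1 + sft u b.1)
    rw [map_add, sft, sft, sft, PowerSeries.coeff_mk, PowerSeries.coeff_mk, PowerSeries.coeff_mk,
      ← (Ana_summ u r hur a.1 a.2 k).tsum_add (Ana_summ u r hur b.1 b.2 k)]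
    congr 1
    funext n
    rw [map_add]
    ring

private theorem Ana_hom_apply (h : SftStmt) (u r : ℝ) (hur : |u| < r) (f : PowerSeries ℝ)
    (hf : Summable (fun n => |PowerSeries.coeff n f| * r ^ n)) :
    Ana_hom h u r hur ⟨f, hf⟩ = sft u f := rfl

private theorem Ana_eis {F : Type} [Field F] [NumberField F] (ρ : F →+* ℝ) (C0 : ℕ)
    (hC0 : 1 ≤ C0) (E : PowerSeries F) (hE : EisC C0 E) (r : ℝ) (hr : 0 ≤ r) (hr2 : (C0 : ℝ) * r < 1) :
    Summable (fun n => |PowerSeries.coeff n (PowerSeries.map ρ E)| * r ^ n) := by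
  have h1 : ∀ n, |PowerSeries.coeff n (PowerSeries.map ρ E)| ≤ (C0 : ℝ) ^ (n + 1) := by
    intro n
    rw [PowerSeries.coeff_map]
    have h2 := NumberField.norm_embedding_le_house (PowerSeries.coeff n E)
      (Complex.ofRealHom.comp ρ)
    rw [RingHom.comp_apply] at h2
    have h3 : ‖Complex.ofRealHom (ρ (PowerSeries.coeff n E))‖ = |ρ (PowerSeries.coeff n E)| := by
      change ‖((ρ (PowerSeries.coeff n E) : ℝ) : ℂ)‖ = _
      rw [Complex.norm_real, Real.norm_eq_abs]
    rw [h3] at h2
    exact h2.trans (hE n).2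
  have h4 : Summable (fun n : ℕ => (C0 : ℝ) * ((C0 : ℝ) * r) ^ n) :=
    (summable_geometric_of_lt_one (by positivity) hr2).mul_left _
  refine Summable.of_nonneg_of_le (fun n => by positivity) (fun n => ?_) h4
  calc |PowerSeries.coeff n (PowerSeries.map ρ E)| * r ^ n ≤ (C0 : ℝ) ^ (n + 1) * r ^ n :=
        mul_le_mul_of_nonneg_right (h1 n) (by positivity)
    _ = (C0 : ℝ) * ((C0 : ℝ) * r) ^ n := by
        rw [mul_pow, pow_succ]
        ring

private theorem Ana_formal {F : Type} [Field F] (m μ : ℕ) (g : Polynomial (Polynomial ℤ))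
    (I J : ℕ) (hI : ∀ j, (g.coeff j).natDegree < I) (hJ : g.natDegree < J)
    (E Y : PowerSeries F) (h : ev2 (lau m E) (lau μ Y) g = 0) :
    ∑ j ∈ range J, ∑ i ∈ range I, (((g.coeff j).coeff i : ℤ) : PowerSeries F) *
      PowerSeries.X ^ (m * I + μ * J - m * i - μ * j) * E ^ i * Y ^ j = 0 := by
  apply HahnSeries.ofPowerSeries_injective (Γ := ℤ)
  rw [map_zero]
  rw [Ana_sum g I J hI hJ] at h
  have h2 := congrArg (fun z : LaurentSeries F =>
    HahnSeries.single (((m * I + μ * J : ℕ) : ℤ)) (1 : F) * z) h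
  simp only [mul_zero] at h2
  rw [← h2, Finset.mul_sum, map_sum]
  refine Finset.sum_congr rfl fun j hj => ?_
  rw [Finset.mul_sum, map_sum]
  refine Finset.sum_congr rfl fun i hi => ?_
  rw [Finset.mem_range] at hi hj
  rw [map_mul, map_mul, map_mul, HahnSeries.ofPowerSeries_X_pow, map_pow, map_pow]
  simp only [map_intCast]
  unfold lau
  rw [mul_pow, mul_pow, HahnSeries.single_pow, HahnSeries.single_pow, one_pow, one_pow]
  have h3 : HahnSeries.single (((m * I + μ * J : ℕ) : ℤ)) (1 : F) *
      (HahnSeries.single (i • (-(m : ℤ))) (1 : F) * HahnSeries.single (j • (-(μ : ℤ))) (1 : F)) =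
      HahnSeries.single (((m * I + μ * J - m * i - μ * j : ℕ) : ℤ)) (1 : F) := by
    rw [HahnSeries.single_mul_single, HahnSeries.single_mul_single, one_mul, one_mul]
    have e1 : m * i ≤ m * I := Nat.mul_le_mul_left m hi.le
    have e2 : μ * j ≤ μ * J := Nat.mul_le_mul_left μ hj.le
    have e3 : m * I + μ * J - m * i - μ * j + m * i + μ * j = m * I + μ * J := by omega
    have e4 : ((m * I + μ * J - m * i - μ * j : ℕ) : ℤ) + m * i + μ * j =
        ((m * I + μ * J : ℕ) : ℤ) := by
      exact_mod_cast e3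
    have e5 : ((m * I + μ * J : ℕ) : ℤ) + (i • (-(m : ℤ)) + j • (-(μ : ℤ))) =
        ((m * I + μ * J - m * i - μ * j : ℕ) : ℤ) := by
      rw [nsmul_eq_mul, nsmul_eq_mul]
      linear_combination -e4
    rw [e5]
  rw [← h3]
  ring

theorem tAna (h1 : SftStmt) : AnaStmt := by
  intro F _ _ ρ m μ C0 g E Y hC0 hE hY hg u Tr Sr hu hT hS
  obtain ⟨I, hI⟩ : ∃ I : ℕ, ∀ j, (g.coeff j).natDegree < I := by
    refine ⟨(g.support.sup fun j => (g.coeff j).natDegree) + 1, fun j => ?_⟩
    by_cases hj : j ∈ g.support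
    · exact Nat.lt_succ_of_le (Finset.le_sup (f := fun j => (g.coeff j).natDegree) hj)
    · rw [Polynomial.notMem_support_iff.1 hj, Polynomial.natDegree_zero]
      exact Nat.succ_pos _
  obtain ⟨J, hJ⟩ : ∃ J : ℕ, g.natDegree < J := ⟨g.natDegree + 1, Nat.lt_succ_self _⟩
  have hC : (1 : ℝ) ≤ C0 := by exact_mod_cast hC0
  set r : ℝ := 1 / (2 * C0) with hr
  have hr0 : 0 < r := by positivity
  have hur : |u| < r := by
    rw [hr, lt_div_iff₀ (by positivity)]
    linarith
  have hr2 : (C0 : ℝ) * r < 1 := by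
    rw [hr]
    rw [mul_one_div, div_lt_one (by positivity)]
    linarith
  have gE := Ana_eis ρ C0 hC0 E hE r hr0.le hr2
  have gY := Ana_eis ρ C0 hC0 Y hY r hr0.le hr2
  have gX : Summable (fun n => |PowerSeries.coeff n (PowerSeries.X : PowerSeries ℝ)| * r ^ n) := by
    refine summable_of_ne_finset_zero (s := {1}) ?_
    intro n hn
    rw [Finset.mem_singleton] at hn
    rw [PowerSeries.coeff_X, if_neg hn, abs_zero, zero_mul]
  set K := Ana_sub h1 u r hur with hK
  set Θ := Ana_hom h1 u r hur with hΘ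
  set e : K := ⟨PowerSeries.map ρ E, gE⟩ with he
  set y : K := ⟨PowerSeries.map ρ Y, gY⟩ with hy
  set x : K := ⟨PowerSeries.X, gX⟩ with hx
  have f1 := congrArg (PowerSeries.map ρ) (Ana_formal m μ g I J hI hJ E Y hg)
  rw [map_zero] at f1
  have f2 : ∑ j ∈ range J, ∑ i ∈ range I, (((g.coeff j).coeff i : ℤ) : K) *
      x ^ (m * I + μ * J - m * i - μ * j) * e ^ i * y ^ j = 0 := by
    apply Subtype.ext
    have f3 : K.subtype (∑ j ∈ range J, ∑ i ∈ range I, (((g.coeff j).coeff i : ℤ) : K) *
      x ^ (m * I + μ * J - m * i - μ * j) * e ^ i * y ^ j) = 0 := by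
      rw [← f1]
      simp only [map_sum, map_mul, map_pow, map_intCast, PowerSeries.map_X]
      rfl
    exact f3
  have f4 := congrArg Θ f2
  rw [map_zero] at f4
  simp only [map_sum, map_mul, map_pow, map_intCast] at f4
  have tx : Θ x = PowerSeries.C u + PowerSeries.X := Ana_X u
  have te : Θ e = (PowerSeries.C u + PowerSeries.X) ^ m * Tr := hT.symm
  have ty : Θ y = (PowerSeries.C u + PowerSeries.X) ^ μ * Sr := hS.symm
  rw [tx, te, ty] at f4
  have f5 : (PowerSeries.C u + PowerSeries.X) ^ (m * I + μ * J) * ev2 Tr Sr g = 0 := by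
    rw [← f4, Ana_sum g I J hI hJ, Finset.mul_sum]
    refine Finset.sum_congr rfl fun j hj => ?_
    rw [Finset.mul_sum]
    refine Finset.sum_congr rfl fun i hi => ?_
    rw [Finset.mem_range] at hi hj
    rw [mul_pow, mul_pow, ← pow_mul, ← pow_mul]
    have e1 : m * i ≤ m * I := Nat.mul_le_mul_left m hi.le
    have e2 : μ * j ≤ μ * J := Nat.mul_le_mul_left μ hj.le
    have e3 : (PowerSeries.C u + PowerSeries.X) ^ (m * I + μ * J) =
        (PowerSeries.C u + PowerSeries.X) ^ (m * I + μ * J - m * i - μ * j) *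
        (PowerSeries.C u + PowerSeries.X) ^ (m * i) *
        (PowerSeries.C u + PowerSeries.X : PowerSeries ℝ) ^ (μ * j) := by
      rw [← pow_add, ← pow_add]
      congr 1
      omega
    rw [e3]
    ring
  have f6 : (PowerSeries.C u + PowerSeries.X : PowerSeries ℝ) ≠ 0 := by
    intro hcon
    have := congrArg (PowerSeries.coeff 1) hcon
    rw [map_add, PowerSeries.coeff_C, PowerSeries.coeff_one_X] at this
    simp at this
  exact (mul_eq_zero.1 f5).resolve_left (pow_ne_zero _ f6)

end Pool.Agent.Lib.SDC
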