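import Pool.Agent.Lib.SDC.Spec

/-!
MP_9f7b43_nt, Lib/SDC, module Aux (helper40; the file name Aux.lean is reserved on some systems): the auxiliary polynomial (Siegel's lemma).
-/

namespace Pool.Agent.Lib.SDC

open Finset Pool.Agent.Lib.SD

section

attribute [local instance] Matrix.seminormedAddCommGroup

/-- Siegel's lemma -/
theorem Aux_siegel {α β : Type} [Fintype α] [Fintype β] (A : α → β → ℤ) (A1 θ : ℝ)
    (hA1 : 1 ≤ A1) (hθ : 0 < θ) (hθ1 : θ < 1) (hα : 0 < Fintype.card α)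
    (hb : ∀ i j, |(A i j : ℝ)| ≤ A1) (hβ : 0 < Fintype.card β)
    (hc : (Fintype.card α : ℝ) ≤ θ * Fintype.card β) :
    ∃ t : β → ℤ, t ≠ 0 ∧ (∀ i, ∑ j, A i j * t j = 0) ∧
      ∀ j, |(t j : ℝ)| ≤ ((Fintype.card β : ℝ) * A1) ^ (θ / (1 - θ)) := by
  have hβ' : (0 : ℝ) < Fintype.card β := by exact_mod_cast hβ
  have hβ1 : (1 : ℝ) ≤ Fintype.card β := by exact_mod_cast hβ
  have hlt' : (Fintype.card α : ℝ) < Fintype.card β := by
    refine lt_of_le_of_lt hc ?_
    nlinarith
  have hlt : Fintype.card α < Fintype.card β := by exact_mod_cast hlt'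
  obtain ⟨t, ht1, ht2, ht3⟩ := Int.Matrix.exists_ne_zero_int_vec_norm_le (Matrix.of A) hlt hα
  refine ⟨t, ht1, fun i => ?_, fun j => ?_⟩
  · exact congrFun ht2 i
  · have h1 : |(t j : ℝ)| ≤ ‖t‖ := by
      have := norm_le_pi_norm t j
      rwa [Int.norm_eq_abs] at this
    refine h1.trans (ht3.trans ?_)
    have h2 : max 1 ‖Matrix.of A‖ ≤ A1 := by
      refine max_le hA1 ?_
      rw [Matrix.norm_le_iff (by linarith)]
      intro i j
      rw [Int.norm_eq_abs]
      exact hb i j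
    have h3 : (0 : ℝ) < Fintype.card β - Fintype.card α := sub_pos.2 hlt'
    have h4 : (Fintype.card α : ℝ) / ((Fintype.card β : ℝ) - Fintype.card α) ≤ θ / (1 - θ) := by
      rw [div_le_div_iff₀ h3 (by linarith)]
      nlinarith
    have h5 : (1 : ℝ) ≤ max 1 ‖Matrix.of A‖ := le_max_left _ _
    calc ((Fintype.card β : ℝ) * max 1 ‖Matrix.of A‖) ^
          ((Fintype.card α : ℝ) / ((Fintype.card β : ℝ) - Fintype.card α))
        ≤ ((Fintype.card β : ℝ) * A1) ^
          ((Fintype.card α : ℝ) / ((Fintype.card β : ℝ) - Fintype.card α)) := by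
          apply Real.rpow_le_rpow (by positivity)
          · exact mul_le_mul_of_nonneg_left h2 hβ'.le
          · exact div_nonneg (Nat.cast_nonneg _) h3.le
      _ ≤ ((Fintype.card β : ℝ) * A1) ^ (θ / (1 - θ)) := by
          apply Real.rpow_le_rpow_of_exponent_le _ h4
          nlinarith

end

theorem Aux_int {F : Type} [Field F] [NumberField F] (C d m c0 : ℕ) (E Y : PowerSeries F)
    (hC : 1 ≤ C)
    (hG : ∀ a j l n : ℕ, j ≤ d →
      IsIntegral ℤ ((C : F) ^ (a + n + 1) *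
        PowerSeries.coeff n (PowerSeries.X ^ l * (E ^ a * Y ^ j))) ∧
      NumberField.house (PowerSeries.coeff n (PowerSeries.X ^ l * (E ^ a * Y ^ j))) ≤
        (C : ℝ) ^ (a + n + 1)) (n a j μ : ℕ) (ha : a < n) (hj : j < d) :
    ∃ x : NumberField.RingOfIntegers F,
      algebraMap (NumberField.RingOfIntegers F) F x =
        (C : F) ^ (n + μ + 1) * PowerSeries.coeff μ (Phi m c0 d n E Y a j) ∧
      NumberField.house (algebraMap (NumberField.RingOfIntegers F) F x) ≤
        (C : ℝ) ^ (2 * (n + μ + 1)) := by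
  obtain ⟨h1, h2⟩ := hG a j (m * (n - a) + c0 * (d - j)) μ hj.le
  have h3 : PowerSeries.coeff μ (Phi m c0 d n E Y a j) =
      PowerSeries.coeff μ (PowerSeries.X ^ (m * (n - a) + c0 * (d - j)) * (E ^ a * Y ^ j)) := rfl
  rw [← h3] at h1 h2
  have hC1 : (1 : ℝ) ≤ C := by exact_mod_cast hC
  have h4 : IsIntegral ℤ ((C : F) ^ (n + μ + 1) * PowerSeries.coeff μ (Phi m c0 d n E Y a j)) := by
    have h5 : (C : F) ^ (n + μ + 1) * PowerSeries.coeff μ (Phi m c0 d n E Y a j) =
        (C : F) ^ (n - a) *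
          ((C : F) ^ (a + μ + 1) * PowerSeries.coeff μ (Phi m c0 d n E Y a j)) := by
      rw [← mul_assoc, ← pow_add]
      congr 2
      omega
    rw [h5]
    refine IsIntegral.mul (IsIntegral.pow ?_ _) h1
    have : (C : F) = algebraMap ℤ F (C : ℤ) := by simp
    rw [this]
    exact isIntegral_algebraMap
  obtain ⟨x, hx⟩ := (IsIntegralClosure.isIntegral_iff
    (A := NumberField.RingOfIntegers F)).1 h4
  refine ⟨x, hx, ?_⟩
  rw [hx]
  have h6 : (C : F) ^ (n + μ + 1) = ((C ^ (n + μ + 1) : ℕ) : F) := by push_cast; rfl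
  rw [h6, NumberField.house_nat_mul]
  push_cast
  have h7 : (C : ℝ) ^ (a + μ + 1) ≤ (C : ℝ) ^ (n + μ + 1) :=
    pow_le_pow_right₀ hC1 (by omega)
  calc (C : ℝ) ^ (n + μ + 1) * NumberField.house (PowerSeries.coeff μ (Phi m c0 d n E Y a j))
      ≤ (C : ℝ) ^ (n + μ + 1) * (C : ℝ) ^ (n + μ + 1) :=
        mul_le_mul_of_nonneg_left (h2.trans h7) (by positivity)
    _ = (C : ℝ) ^ (2 * (n + μ + 1)) := by
        rw [two_mul, pow_add _ (n + μ + 1) (n + μ + 1)]

theorem Aux_sum {F : Type} [CommRing F] (n0 n1 d : ℕ)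
    (t : Fin n0 × Fin d × Fin n1 × Fin d → F) (f : ℕ → ℕ → F) (g : ℕ → ℕ → F)
    (p : ℕ → ℕ → ℕ → ℕ → F)
    (hp : ∀ (a : Fin n0) (j : Fin d) (b : Fin n1) (k : Fin d), p a j b k = t (a, j, b, k)) :
    ∑ a ∈ range n0, ∑ j ∈ range d, ∑ b ∈ range n1, ∑ k ∈ range d,
      p a j b k * f a j * g b k =
    ∑ c : Fin n0 × Fin d × Fin n1 × Fin d,
      t c * (f c.1 c.2.1 * g c.2.2.1 c.2.2.2) := by
  rw [Fintype.sum_prod_type, Finset.sum_range]
  apply Finset.sum_congr rfl
  intro a _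
  rw [Fintype.sum_prod_type, Finset.sum_range]
  apply Finset.sum_congr rfl
  intro j _
  rw [Fintype.sum_prod_type, Finset.sum_range]
  apply Finset.sum_congr rfl
  intro b _
  rw [Finset.sum_range]
  apply Finset.sum_congr rfl
  intro k _
  rw [hp a j b k]
  ring

theorem Aux_num (d C n0 n1 : ℕ) (C' τ m : ℝ) (hd : 1 ≤ d) (hC : 1 ≤ C) (hC' : 1 ≤ C')
    (hτ : 0 < τ) (hm : 0 ≤ m) (hn0 : 1 ≤ n0) (hn1 : 1 ≤ n1) :
    ((n0 * (d * (n1 * d)) : ℕ) : ℝ) *
      (C' * Real.exp ((2 * (1 + τ * m) * ((n0 : ℝ) + n1) + 4) * Real.log C)) ≤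
    Real.exp ((2 * Real.log d + 1 + Real.log C' + (2 * (1 + τ * m) + 4) * Real.log C) *
      ((n0 : ℝ) + n1)) := by
  have hd1 : (1 : ℝ) ≤ d := by exact_mod_cast hd
  have hC1 : (1 : ℝ) ≤ C := by exact_mod_cast hC
  have hn0' : (1 : ℝ) ≤ n0 := by exact_mod_cast hn0
  have hn1' : (1 : ℝ) ≤ n1 := by exact_mod_cast hn1
  have l1 := Real.log_nonneg hd1
  have l2 := Real.log_nonneg hC1
  have l3 := Real.log_nonneg hC'
  set N : ℝ := (n0 : ℝ) + n1 with hN
  have hN1 : 1 ≤ N := by linarith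
  have e1 : (n0 : ℝ) ≤ Real.exp n0 := by
    have := Real.add_one_le_exp (n0 : ℝ)
    linarith
  have e2 : (n1 : ℝ) ≤ Real.exp n1 := by
    have := Real.add_one_le_exp (n1 : ℝ)
    linarith
  have e3 : (n0 : ℝ) * n1 ≤ Real.exp N := by
    rw [hN, Real.exp_add]
    exact mul_le_mul e1 e2 (by linarith) (Real.exp_pos _).le
  have e4 : (d : ℝ) * d ≤ Real.exp (2 * Real.log d * N) := by
    have h1 : (d : ℝ) * d = Real.exp (2 * Real.log d) := by
      rw [two_mul, Real.exp_add, Real.exp_log (by linarith)]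
    rw [h1]
    apply Real.exp_le_exp.2
    nlinarith
  have e5 : C' ≤ Real.exp (Real.log C' * N) := by
    have h1 : C' = Real.exp (Real.log C') := (Real.exp_log (by linarith)).symm
    calc C' = Real.exp (Real.log C') := h1
      _ ≤ Real.exp (Real.log C' * N) := by
        apply Real.exp_le_exp.2
        nlinarith
  have e6 : Real.exp ((2 * (1 + τ * m) * N + 4) * Real.log C) ≤
      Real.exp (((2 * (1 + τ * m) + 4) * Real.log C) * N) := by
    apply Real.exp_le_exp.2
    have : 4 * Real.log C ≤ 4 * Real.log C * N := by nlinarith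
    nlinarith
  have e7 : ((n0 * (d * (n1 * d)) : ℕ) : ℝ) = ((n0 : ℝ) * n1) * ((d : ℝ) * d) := by
    push_cast
    ring
  rw [e7]
  have hpos : (0 : ℝ) ≤ (n0 : ℝ) * n1 := by positivity
  calc (n0 : ℝ) * n1 * ((d : ℝ) * d) *
        (C' * Real.exp ((2 * (1 + τ * m) * N + 4) * Real.log C))
      ≤ Real.exp N * Real.exp (2 * Real.log d * N) *
        (Real.exp (Real.log C' * N) * Real.exp (((2 * (1 + τ * m) + 4) * Real.log C) * N)) := by
        apply mul_le_mul
        · exact mul_le_mul e3 e4 (by positivity) (Real.exp_pos _).le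
        · exact mul_le_mul e5 e6 (Real.exp_pos _).le (Real.exp_pos _).le
        · exact mul_nonneg (by linarith) (Real.exp_pos _).le
        · positivity
    _ = Real.exp ((2 * Real.log d + 1 + Real.log C' + (2 * (1 + τ * m) + 4) * Real.log C) * N) := by
        rw [← Real.exp_add, ← Real.exp_add, ← Real.exp_add]
        congr 1
        ring

theorem tAux (h1 : GrwStmt) (h2 : CooStmt) (h3 : CntStmt) (h4 : RowStmt) : AuxStmt := by
  classical
  intro F _ _ d m c0 C0 E Y τ hd hm hC0 hE hY hτ hineq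
  obtain ⟨C, hC, hG⟩ := h1 F C0 d E Y hC0 hE hY
  obtain ⟨C', hC', hCoo⟩ := h2 F
  have he : 1 ≤ Module.finrank ℚ F := Module.finrank_pos
  obtain ⟨θ, n, hθ, hθ1, hn, hRow⟩ := h4 τ (Module.finrank ℚ F) m d hτ he hm hd hineq
  have hC1 : (1 : ℝ) ≤ C := by exact_mod_cast hC
  have hd1 : (1 : ℝ) ≤ d := by exact_mod_cast hd
  have hm1 : (1 : ℝ) ≤ m := by exact_mod_cast hm
  have l1 := Real.log_nonneg hd1
  have l2 := Real.log_nonneg hC1
  have l3 := Real.log_nonneg hC'
  have hθ' : 0 < θ / (1 - θ) := div_pos hθ (by linarith)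
  set K : ℝ := 2 * Real.log d + 1 + Real.log C' + (2 * (1 + τ * m) + 4) * Real.log C with hK
  have hK0 : 0 ≤ K := by positivity
  refine ⟨K * (θ / (1 - θ)), n, by positivity, hn, ?_⟩
  intro n0 n1 hn0 hn1
  have hn0' : (1 : ℝ) ≤ n0 := by exact_mod_cast hn.trans hn0
  have hn1' : (1 : ℝ) ≤ n1 := by exact_mod_cast hn.trans hn1
  -- the integral elements
  have hα : ∀ n a j μ : ℕ, ∃ x : NumberField.RingOfIntegers F, a < n → j < d →
      (algebraMap (NumberField.RingOfIntegers F) F x =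
        (C : F) ^ (n + μ + 1) * PowerSeries.coeff μ (Phi m c0 d n E Y a j) ∧
      NumberField.house (algebraMap (NumberField.RingOfIntegers F) F x) ≤
        (C : ℝ) ^ (2 * (n + μ + 1))) := by
    intro n a j μ
    by_cases ha : a < n
    · by_cases hj : j < d
      · obtain ⟨x, hx⟩ := Aux_int C d m c0 E Y hC hG n a j μ ha hj
        exact ⟨x, fun _ _ => hx⟩
      · exact ⟨0, fun _ h => absurd h hj⟩
    · exact ⟨0, fun h => absurd h ha⟩
  choose α hα using hα
  -- the rows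
  set x : ℝ := (m : ℝ) * n0 with hx
  set y : ℝ := (m : ℝ) * n1 with hy
  have hx1 : 1 ≤ x := by nlinarith
  have hy1 : 1 ≤ y := by nlinarith
  set M : ℕ := ⌈τ * (x + y)⌉₊ + 1 with hM
  have hcnt := h3 τ x y M hτ hx1 hy1
  set Q : Finset (ℕ × ℕ) := ((range M) ×ˢ (range M)).filter
    (fun q : ℕ × ℕ => (q.1 : ℝ) / x + (q.2 : ℝ) / y < τ) with hQ
  have hQmem : ∀ μ ν : ℕ, (μ : ℝ) / x + (ν : ℝ) / y < τ →
      (μ : ℝ) < τ * x ∧ (ν : ℝ) < τ * y ∧ (μ, ν) ∈ Q := by
    intro μ ν hμν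
    have a1 : 0 ≤ (μ : ℝ) / x := by positivity
    have a2 : 0 ≤ (ν : ℝ) / y := by positivity
    have a3 : (μ : ℝ) < τ * x := by
      rw [← div_lt_iff₀ (by linarith)]
      linarith
    have a4 : (ν : ℝ) < τ * y := by
      rw [← div_lt_iff₀ (by linarith)]
      linarith
    have a5 : τ * (x + y) ≤ (⌈τ * (x + y)⌉₊ : ℝ) := Nat.le_ceil _
    have a6 : 0 < τ * x := by positivity
    have a7 : 0 < τ * y := by positivity
    refine ⟨a3, a4, ?_⟩
    rw [hQ, Finset.mem_filter, Finset.mem_product, Finset.mem_range, Finset.mem_range]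
    refine ⟨⟨?_, ?_⟩, hμν⟩
    · have : (μ : ℝ) < (M : ℝ) := by
        rw [hM]
        push_cast
        nlinarith
      exact_mod_cast this
    · have : (ν : ℝ) < (M : ℝ) := by
        rw [hM]
        push_cast
        nlinarith
      exact_mod_cast this
  -- numbers of rows and columns
  have hι : Fintype.card (Module.Free.ChooseBasisIndex ℤ (NumberField.RingOfIntegers F)) =
      Module.finrank ℚ F := by
    rw [← Module.finrank_eq_card_chooseBasisIndex, NumberField.RingOfIntegers.rank]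
  have hrows : Fintype.card (Q × Module.Free.ChooseBasisIndex ℤ (NumberField.RingOfIntegers F)) =
      Q.card * Module.finrank ℚ F := by
    rw [Fintype.card_prod, Fintype.card_coe, hι]
  have hcols : Fintype.card (Fin n0 × Fin d × Fin n1 × Fin d) = n0 * (d * (n1 * d)) := by
    simp only [Fintype.card_prod, Fintype.card_fin]
  have hcols0 : 0 < n0 * (d * (n1 * d)) :=
    Nat.mul_pos (hn.trans hn0) (Nat.mul_pos hd (Nat.mul_pos (hn.trans hn1) hd))
  have hQ0 : 0 < Q.card := by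
    apply Finset.card_pos.2
    refine ⟨(0, 0), (hQmem 0 0 ?_).2.2⟩
    simpa using hτ
  -- the matrix
  have hs := Aux_siegel
    (fun (r : Q × Module.Free.ChooseBasisIndex ℤ (NumberField.RingOfIntegers F))
      (c : Fin n0 × Fin d × Fin n1 × Fin d) =>
      (NumberField.RingOfIntegers.basis F).repr
        (α n0 c.1 c.2.1 r.1.1.1 * α n1 c.2.2.1 c.2.2.2 r.1.1.2) r.2)
    (C' * Real.exp ((2 * (1 + τ * m) * ((n0 : ℝ) + n1) + 4) * Real.log C)) θ ?_ hθ hθ1 ?_ ?_ ?_ ?_
  · obtain ⟨t, ht0, ht1, ht2⟩ := hs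
    let p : ℕ → ℕ → ℕ → ℕ → ℤ := fun a j b k =>
      if h : a < n0 ∧ j < d ∧ b < n1 ∧ k < d then
        t (⟨a, h.1⟩, ⟨j, h.2.1⟩, ⟨b, h.2.2.1⟩, ⟨k, h.2.2.2⟩) else 0
    have hp : ∀ (a : Fin n0) (j : Fin d) (b : Fin n1) (k : Fin d),
        p a j b k = t (a, j, b, k) := by
      intro a j b k
      have h : (a : ℕ) < n0 ∧ (j : ℕ) < d ∧ (b : ℕ) < n1 ∧ (k : ℕ) < d :=
        ⟨a.2, j.2, b.2, k.2⟩
      exact dif_pos h
    refine ⟨p, ?_, ?_, ?_⟩
    · -- nonzero
      obtain ⟨c, hc⟩ := Function.ne_iff.1 ht0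
      obtain ⟨a, j, b, k⟩ := c
      refine ⟨a, a.2, j, j.2, b, b.2, k, k.2, ?_⟩
      rw [hp]
      exact hc
    · -- size
      intro a j b k
      by_cases h : a < n0 ∧ j < d ∧ b < n1 ∧ k < d
      · have h5 : p a j b k = t (⟨a, h.1⟩, ⟨j, h.2.1⟩, ⟨b, h.2.2.1⟩, ⟨k, h.2.2.2⟩) := dif_pos h
        rw [h5]
        refine (ht2 _).trans ?_
        rw [hcols]
        have h6 := Aux_num d C n0 n1 C' τ m hd hC hC' hτ (by linarith) (hn.trans hn0)
          (hn.trans hn1)
        rw [← hK] at h6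
        calc (((n0 * (d * (n1 * d)) : ℕ) : ℝ) *
              (C' * Real.exp ((2 * (1 + τ * m) * ((n0 : ℝ) + n1) + 4) * Real.log C))) ^
                (θ / (1 - θ))
            ≤ (Real.exp (K * ((n0 : ℝ) + n1))) ^ (θ / (1 - θ)) := by
              apply Real.rpow_le_rpow _ h6 hθ'.le
              positivity
          _ = Real.exp (K * (θ / (1 - θ)) * ((n0 : ℝ) + n1)) := by
              rw [← Real.exp_mul]
              congr 1
              ring
      · have h5 : p a j b k = 0 := dif_neg h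
        rw [h5]
        simp only [Int.cast_zero, abs_zero]
        exact (Real.exp_pos _).le
    · -- vanishing
      intro μ ν hμν
      obtain ⟨_, _, hq⟩ := hQmem μ ν hμν
      have hCF : (C : F) ≠ 0 := by
        have : C ≠ 0 := by omega
        exact_mod_cast this
      -- the integral combination
      have hz : ∑ c : Fin n0 × Fin d × Fin n1 × Fin d,
          t c • (α n0 c.1 c.2.1 μ * α n1 c.2.2.1 c.2.2.2 ν) = 0 := by
        apply (NumberField.RingOfIntegers.basis F).repr.injective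
        ext i
        rw [map_sum, map_zero, Finsupp.finset_sum_apply, Finsupp.zero_apply]
        have h5 := ht1 (⟨(μ, ν), hq⟩, i)
        rw [← h5]
        apply Finset.sum_congr rfl
        intro c _
        rw [map_zsmul, Finsupp.smul_apply, smul_eq_mul, mul_comm]
      have hz2 := congrArg (algebraMap (NumberField.RingOfIntegers F) F) hz
      rw [map_sum, map_zero] at hz2
      have h6 : (C : F) ^ (n0 + μ + 1) * (C : F) ^ (n1 + ν + 1) *
          cc m c0 d n0 n1 p E Y μ ν = 0 := by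
        rw [← hz2]
        unfold cc
        rw [Aux_sum n0 n1 d (fun c => (t c : F))
          (fun a j => PowerSeries.coeff μ (Phi m c0 d n0 E Y a j))
          (fun b k => PowerSeries.coeff ν (Phi m c0 d n1 E Y b k))
          (fun a j b k => (p a j b k : F)) (fun a j b k => by rw [hp]), Finset.mul_sum]
        apply Finset.sum_congr rfl
        intro c _
        rw [map_zsmul, map_mul, (hα n0 c.1 c.2.1 μ c.1.2 c.2.1.2).1,
          (hα n1 c.2.2.1 c.2.2.2 ν c.2.2.1.2 c.2.2.2.2).1, zsmul_eq_mul]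
        ring
      rcases mul_eq_zero.1 h6 with h7 | h7
      · exact absurd h7 (mul_ne_zero (pow_ne_zero _ hCF) (pow_ne_zero _ hCF))
      · exact h7
  · -- 1 ≤ A1
    have : 1 ≤ Real.exp ((2 * (1 + τ * m) * ((n0 : ℝ) + n1) + 4) * Real.log C) := by
      apply Real.one_le_exp
      positivity
    nlinarith
  · -- rows
    rw [hrows]
    exact Nat.mul_pos hQ0 he
  · -- entries
    rintro ⟨⟨⟨μ, ν⟩, hq⟩, i⟩ ⟨a, j, b, k⟩
    have hq' : (μ : ℝ) / x + (ν : ℝ) / y < τ := by
      rw [hQ, Finset.mem_filter] at hq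
      exact hq.2
    obtain ⟨q1, q2, _⟩ := hQmem μ ν hq'
    refine (hCoo _ i).trans ?_
    apply mul_le_mul_of_nonneg_left _ (by linarith)
    rw [map_mul]
    refine (NumberField.house_mul_le _ _).trans ?_
    have b1 := (hα n0 a j μ a.2 j.2).2
    have b2 := (hα n1 b k ν b.2 k.2).2
    calc NumberField.house (algebraMap (NumberField.RingOfIntegers F) F (α n0 a j μ)) *
          NumberField.house (algebraMap (NumberField.RingOfIntegers F) F (α n1 b k ν))
        ≤ (C : ℝ) ^ (2 * (n0 + μ + 1)) * (C : ℝ) ^ (2 * (n1 + ν + 1)) :=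
          mul_le_mul b1 b2 (NumberField.house_nonneg _) (by positivity)
      _ = Real.exp (((2 * (n0 + μ + 1) + 2 * (n1 + ν + 1) : ℕ) : ℝ) * Real.log C) := by
          rw [← pow_add, Real.exp_nat_mul, Real.exp_log (by linarith)]
      _ ≤ Real.exp ((2 * (1 + τ * m) * ((n0 : ℝ) + n1) + 4) * Real.log C) := by
          apply Real.exp_le_exp.2
          apply mul_le_mul_of_nonneg_right _ l2
          push_cast
          rw [hx] at q1
          rw [hy] at q2
          nlinarith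
  · rw [hcols]
    exact hcols0
  · rw [hrows, hcols]
    have h5 := hRow n0 n1 hn0 hn1
    have h6 : ((Q.card : ℕ) : ℝ) ≤ τ ^ 2 * x * y / 2 + (τ + 1) * (x + y) + 1 := hcnt
    push_cast
    have he' : (0 : ℝ) ≤ Module.finrank ℚ F := Nat.cast_nonneg _
    calc (Q.card : ℝ) * (Module.finrank ℚ F : ℝ)
        ≤ (τ ^ 2 * x * y / 2 + (τ + 1) * (x + y) + 1) * (Module.finrank ℚ F : ℝ) :=
          mul_le_mul_of_nonneg_right h6 he'
      _ = (Module.finrank ℚ F : ℝ) * (τ ^ 2 * x * y / 2 + (τ + 1) * (x + y) + 1) := by ring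
      _ ≤ θ * ((d : ℝ) ^ 2 * n0 * n1) := by
          refine le_trans (le_of_eq ?_) h5
          rw [hx, hy]
      _ = θ * ((n0 : ℝ) * (d * (n1 * d))) := by ring

end Pool.Agent.Lib.SDC
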