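import Pool.Agent.Lib.SDC.Spec

/-!
MP_9f7b43_nt, Lib/SDC, module Cfp (helper40): coefficients of two-variable series.
-/

namespace Pool.Agent.Lib.SDC

open Finset Pool.Agent.Lib.SD

theorem Cfp_add (a b : ℕ) (F G : PowerSeries (PowerSeries ℚ)) :
    cf a b (F + G) = cf a b F + cf a b G := by
  unfold cf
  rw [map_add, map_add]

theorem Cfp_sum {ι : Type} (s : Finset ι) (a b : ℕ) (f : ι → PowerSeries (PowerSeries ℚ)) :
    cf a b (∑ i ∈ s, f i) = ∑ i ∈ s, cf a b (f i) := by
  unfold cf
  rw [map_sum, map_sum]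

theorem Cfp_mul (a b : ℕ) (F G : PowerSeries ℚ) :
    cf a b (e0 F * e1 G) = PowerSeries.coeff a F * PowerSeries.coeff b G := by
  unfold cf e0 e1
  rw [PowerSeries.coeff_C_mul, PowerSeries.coeff_map, PowerSeries.coeff_mul_C]

theorem Cfp_int (a b : ℕ) (z : ℤ) (F G : PowerSeries ℚ) :
    cf a b ((z : PowerSeries (PowerSeries ℚ)) * e0 F * e1 G) =
      (z : ℚ) * PowerSeries.coeff a F * PowerSeries.coeff b G := by
  have h1 : (z : PowerSeries (PowerSeries ℚ)) * e0 F * e1 G = e0 ((z : PowerSeries ℚ) * F) * e1 G := by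
    rw [map_mul, map_intCast]
  rw [h1, Cfp_mul]
  congr 1
  have h2 : (z : PowerSeries ℚ) = PowerSeries.C (z : ℚ) := by
    rw [map_intCast]
  rw [h2, PowerSeries.coeff_C_mul]

theorem tCfp : CfpStmt := by
  refine ⟨?_, ?_⟩
  · intro n0 n1 d p T0 S0 T1 S1 k0 k1
    unfold pv pc
    rw [Cfp_sum]
    apply Finset.sum_congr rfl
    intro a _
    rw [Cfp_sum]
    apply Finset.sum_congr rfl
    intro j _
    rw [Cfp_sum]
    apply Finset.sum_congr rfl
    intro b _
    rw [Cfp_sum]
    apply Finset.sum_congr rfl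
    intro k _
    rw [← Cfp_int, map_mul, map_mul, map_pow, map_pow, map_pow, map_pow]
  · intro F G a b h
    by_contra hcon
    push Not at hcon
    apply h
    unfold cf
    rw [PowerSeries.coeff_mul, map_sum]
    apply Finset.sum_eq_zero
    intro q hq
    rw [PowerSeries.coeff_mul]
    apply Finset.sum_eq_zero
    intro r hr
    have h1 := Finset.HasAntidiagonal.mem_antidiagonal.1 hq
    have h2 := Finset.HasAntidiagonal.mem_antidiagonal.1 hr
    have h3 := hcon r.1 (by omega) q.1 (by omega)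
    unfold cf at h3
    rw [h3, zero_mul]

end Pool.Agent.Lib.SDC
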