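import Pool.Agent.Lib.SDC.Spec

/-! # Module Cnt: counting lattice points below a line -/

namespace Pool.Agent.Lib.SDC

open Finset Pool.Agent.Lib.SD

private theorem Cnt_sum (τ x y : ℝ) (hx : 0 < x) (k : ℕ) :
    ∑ μ ∈ range k, (y * (τ - (μ : ℝ) / x) + 1) =
      y / x * (k * (τ * x) - k * (k - 1) / 2) + k := by
  induction k with
  | zero => simp
  | succ k ih =>
    rw [Finset.sum_range_succ, ih]
    push_cast
    field_simp
    ring

open Classical in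
/-- **Cnt.** -/
theorem tCnt : CntStmt := by
  intro τ x y M hτ hx hy
  have hx0 : 0 < x := by linarith
  have hy0 : 0 < y := by linarith
  set k : ℕ := ⌈τ * x⌉₊ with hk
  have hsub : ((range M) ×ˢ (range M)).filter
      (fun q : ℕ × ℕ => (q.1 : ℝ) / x + (q.2 : ℝ) / y < τ) ⊆
      (range k).biUnion (fun μ => (range ⌈y * (τ - (μ : ℝ) / x)⌉₊).image
        (fun ν => (μ, ν))) := by
    rintro ⟨a, b⟩ hq
    rw [Finset.mem_filter] at hq
    have h1 : (a : ℝ) / x + (b : ℝ) / y < τ := hq.2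
    have ha0 : 0 ≤ (a : ℝ) / x := by positivity
    have hb0 : 0 ≤ (b : ℝ) / y := by positivity
    have ha : (a : ℝ) < τ * x := by
      rw [← div_lt_iff₀ hx0]; linarith
    have hb : (b : ℝ) < y * (τ - (a : ℝ) / x) := by
      rw [mul_comm, ← div_lt_iff₀ hy0]; linarith
    rw [Finset.mem_biUnion]
    refine ⟨a, Finset.mem_range.mpr (Nat.lt_ceil.mpr ha), ?_⟩
    rw [Finset.mem_image]
    exact ⟨b, Finset.mem_range.mpr (Nat.lt_ceil.mpr hb), rfl⟩
  have hcard := (Finset.card_le_card hsub).trans Finset.card_biUnion_le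
  have h2 : ∀ μ ∈ range k, (((range ⌈y * (τ - (μ : ℝ) / x)⌉₊).image
      (fun ν => (μ, ν))).card : ℝ) ≤ y * (τ - (μ : ℝ) / x) + 1 := by
    intro μ hμ
    have h3 : (μ : ℝ) < τ * x := Nat.lt_ceil.mp (Finset.mem_range.mp hμ)
    have h4 : 0 ≤ y * (τ - (μ : ℝ) / x) := by
      have : (μ : ℝ) / x < τ := by rw [div_lt_iff₀ hx0]; exact h3
      have : 0 ≤ τ - (μ : ℝ) / x := by linarith
      positivity
    calc (((range ⌈y * (τ - (μ : ℝ) / x)⌉₊).image (fun ν => (μ, ν))).card : ℝ)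
        ≤ ((range ⌈y * (τ - (μ : ℝ) / x)⌉₊).card : ℝ) := by
          exact_mod_cast Finset.card_image_le
      _ = (⌈y * (τ - (μ : ℝ) / x)⌉₊ : ℝ) := by rw [Finset.card_range]
      _ ≤ y * (τ - (μ : ℝ) / x) + 1 := (Nat.ceil_lt_add_one h4).le
  have h5 : ((((range M) ×ˢ (range M)).filter
      (fun q : ℕ × ℕ => (q.1 : ℝ) / x + (q.2 : ℝ) / y < τ)).card : ℝ) ≤
      ∑ μ ∈ range k, (y * (τ - (μ : ℝ) / x) + 1) := by
    calc ((((range M) ×ˢ (range M)).filter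
        (fun q : ℕ × ℕ => (q.1 : ℝ) / x + (q.2 : ℝ) / y < τ)).card : ℝ)
        ≤ ((∑ μ ∈ range k, ((range ⌈y * (τ - (μ : ℝ) / x)⌉₊).image
          (fun ν => (μ, ν))).card : ℕ) : ℝ) := by exact_mod_cast hcard
      _ = ∑ μ ∈ range k, (((range ⌈y * (τ - (μ : ℝ) / x)⌉₊).image
          (fun ν => (μ, ν))).card : ℝ) := by push_cast; rfl
      _ ≤ _ := Finset.sum_le_sum h2
  refine h5.trans ?_
  rw [Cnt_sum τ x y hx0 k]
  have hkle : (k : ℝ) ≤ τ * x + 1 := (Nat.ceil_lt_add_one (by positivity)).le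
  have h6 : (k : ℝ) * (τ * x) - k * (k - 1) / 2 ≤ (τ * x + 1 / 2) ^ 2 / 2 := by
    nlinarith [sq_nonneg ((k : ℝ) - τ * x - 1 / 2)]
  have h7 : y / x * (k * (τ * x) - k * (k - 1) / 2) ≤ y / x * ((τ * x + 1 / 2) ^ 2 / 2) :=
    mul_le_mul_of_nonneg_left h6 (by positivity)
  have h8 : y / x * ((τ * x + 1 / 2) ^ 2 / 2) = τ ^ 2 * x * y / 2 + τ * y / 2 + y / x / 8 := by
    field_simp
    ring
  have h9 : y / x ≤ y := by
    rw [div_le_iff₀ hx0]
    nlinarith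
  have h10 : 0 < τ * y := by positivity
  nlinarith

end Pool.Agent.Lib.SDC
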