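import Pool.Agent.Lib.SDC.Spec

/-!
SDC module Coo: coordinates of algebraic integers.
-/

namespace Pool.Agent.Lib.SDC

open Finset Pool.Agent.Lib.SD

theorem tCoo : CooStmt := by
  classical
  intro F _ _
  obtain ⟨c, hc⟩ : ∃ c : ℝ, ∀ (α : NumberField.RingOfIntegers F) (i : F →+* ℂ),
      ‖((((NumberField.integralBasis F).reindex (NumberField.equivReindex F).symm).repr
        (algebraMap (NumberField.RingOfIntegers F) F α) i : ℚ) : ℂ)‖ ≤
        c * NumberField.house (algebraMap (NumberField.RingOfIntegers F) F α) :=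
    ⟨_, fun α i => NumberField.house.basis_repr_norm_le_const_mul_house F α i⟩
  refine ⟨max c 1, le_max_right _ _, fun x i => ?_⟩
  have h := hc x ((NumberField.equivReindex F).symm i)
  rw [Module.Basis.repr_reindex, Finsupp.mapDomain_equiv_apply, Equiv.symm_symm, Equiv.apply_symm_apply,
    NumberField.integralBasis_repr_apply] at h
  have h1 : ‖(((algebraMap ℤ ℚ) ((NumberField.RingOfIntegers.basis F).repr x i) : ℚ) : ℂ)‖ =
      |(((NumberField.RingOfIntegers.basis F).repr x i : ℤ) : ℝ)| := by
    rw [eq_intCast, Rat.cast_intCast, Complex.norm_intCast]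
  rw [h1] at h
  exact h.trans (mul_le_mul_of_nonneg_right (le_max_left _ _) (NumberField.house_nonneg _))

end Pool.Agent.Lib.SDC
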