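import Pool.Agent.Lib.SDC.Spec

/-! # Lib/SDC: the end of the proof of the core statement -/

set_option autoImplicit false

namespace Pool.Agent.Lib.SDC

open Finset Pool.Agent.Lib.SD

private theorem Cor_eis {F : Type} [Field F] [NumberField F] {X : PowerSeries F} (hX : EisBd X) :
    ∃ C0 : ℕ, 1 ≤ C0 ∧ ∀ k : ℕ, 1 ≤ k → EisC (C0 * k) X := by
  obtain ⟨D, C, hD, hC, h⟩ := hX
  refine ⟨D * C, Nat.mul_pos hD hC, fun k hk n => ⟨?_, ?_⟩⟩
  · have h1 : (((D * C * k : ℕ) : F)) ^ (n + 1) * PowerSeries.coeff n X =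
        (((C * k) ^ (n + 1) : ℕ) : F) * ((D : F) ^ (n + 1) * PowerSeries.coeff n X) := by
      push_cast
      ring
    rw [h1]
    exact IsIntegral.mul (by
      have := isIntegral_algebraMap (R := ℤ) (A := F) (x := (((C * k) ^ (n + 1) : ℕ) : ℤ))
      simpa using this) (h n).1
  · have h1 : NumberField.house (PowerSeries.coeff n X) ≤ (C : ℝ) ^ (n + 1) := by
      rw [NumberField.house]
      refine (pi_norm_le_iff_of_nonneg (by positivity)).2 fun σ => ?_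
      exact (h n).2 σ
    refine h1.trans ?_
    apply pow_le_pow_left₀ (Nat.cast_nonneg _)
    have h2 : C ≤ D * C * k := by
      calc C = 1 * C * 1 := by ring
        _ ≤ D * C * k := Nat.mul_le_mul (Nat.mul_le_mul hD le_rfl) hk
    exact_mod_cast h2

private theorem Cor_pt {F : Type} [Field F] {ρ : F →+* ℝ} {d m c0 : ℕ}
    {g : Polynomial (Polynomial ℤ)} {E Y : PowerSeries F} {C1 : ℝ}
    (hP : ∀ δ : ℝ, 0 < δ → ∃ (u : ℝ) (x : ℚ) (S' : PowerSeries ℚ) (Tr Sr : PowerSeries ℝ) (N' A : ℕ),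
      GPt ρ d m c0 g E Y C1 δ u x S' Tr Sr N' A) (ε M : ℝ) (hε : 0 < ε) :
    ∃ (δ u : ℝ) (x : ℚ) (S' : PowerSeries ℚ) (Tr Sr : PowerSeries ℝ) (N' A : ℕ),
      GPt ρ d m c0 g E Y C1 δ u x S' Tr Sr N' A ∧ M < Real.log (1 / |u|) ∧
        0 < Real.log (1 / |u|) ∧ Real.log N' ≤ ε * Real.log (1 / |u|) := by
  obtain ⟨u, x, S', Tr, Sr, N', A, h⟩ := hP (min ε (Real.exp (-(|M| + 1))))
    (lt_min hε (Real.exp_pos _))
  have h1 : |u| < Real.exp (-(|M| + 1)) := h.small.trans_le (min_le_right _ _)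
  have h2 : 0 < |u| := abs_pos.2 h.u0
  have h3 : |M| + 1 < Real.log (1 / |u|) := by
    rw [one_div, Real.log_inv]
    have := (Real.log_lt_iff_lt_exp h2).2 h1
    linarith
  have h4 : 0 < Real.log (1 / |u|) := by
    have := abs_nonneg M
    linarith
  refine ⟨_, u, x, S', Tr, Sr, N', A, h, ?_, h4, ?_⟩
  · have := le_abs_self M
    linarith
  · exact h.logN.trans (mul_le_mul_of_nonneg_right (min_le_left _ _) h4.le)

theorem tCor (h1 : AuxStmt) (h2 : SizStmt) (h3 : DenStmt) (h4 : LtcStmt) (h5 : ZerStmt)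
    (h6 : ParStmt) (h7 : TriStmt) (h8 : PtsStmt) : CoreStmt := by
  intro F _ _ ρ m μ e G X Y t T S N hm he hF hG hdeg hirr hX0 heq hEX hEY ht ht0 hTs hSs hpt hN0
    hNT hNS hNe
  -- the constant of Eisenstein
  obtain ⟨CX, hCX, hCX'⟩ := Cor_eis hEX
  obtain ⟨CY, hCY, hCY'⟩ := Cor_eis hEY
  obtain ⟨C0, hC0, hEX', hEY'⟩ : ∃ C0 : ℕ, 1 ≤ C0 ∧ EisC C0 X ∧ EisC C0 Y := by
    refine ⟨CX * CY, Nat.mul_pos hCX hCY, hCX' CY hCY, ?_⟩
    rw [mul_comm]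
    exact hCY' CX hCX
  have hX0' : PowerSeries.constantCoeff X ≠ 0 := by
    rwa [← PowerSeries.coeff_zero_eq_constantCoeff_apply]
  -- the parameters
  set d : ℕ := m * e with hd
  have hd1 : 1 ≤ d := Nat.mul_pos hm (by omega)
  have hmR : (0 : ℝ) < m := by exact_mod_cast hm
  have heR : (3 : ℝ) ≤ e := by exact_mod_cast he
  have hτ : (Module.finrank ℚ F : ℝ) * (12 / 5 : ℝ) ^ 2 * (m : ℝ) ^ 2 < 2 * (d : ℝ) ^ 2 := by
    rw [hF, hd]
    push_cast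
    have h9 : 0 < (m : ℝ) ^ 2 * e := by positivity
    nlinarith
  obtain ⟨h, n, hh0, hn1, hAux⟩ := h1 F d m μ C0 X Y (12 / 5) hd1 hm hC0 hEX' hEY' (by norm_num) hτ
  obtain ⟨K1, hK1, hSiz⟩ := h2 F ρ d m μ C0 X Y hd1 hm hC0 hEX' hEY'
  obtain ⟨K2, hK2, hLtc⟩ := h4 F ρ m C0 X hm hC0 hEX' hX0'
  obtain ⟨C1, hC1, hPts⟩ := h8 F ρ m μ C0 d G X Y t T S N hm hd1 hG hdeg hirr hX0' hC0 hEX' hEY' heq
    ht ht0 hTs hSs hpt hN0 hNT hNS hNe
  obtain ⟨K, hK0, hKK1, hKK2⟩ : ∃ K : ℝ, 0 ≤ K ∧ K1 ≤ K ∧ K2 ≤ K :=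
    ⟨max K1 K2, hK1.trans (le_max_left _ _), le_max_left _ _, le_max_right _ _⟩
  obtain ⟨ε, hε, hPar⟩ := h6 m (μ * d) d (12 / 5) K C1 h hm (by norm_num) hK0 hC1 hh0
  obtain ⟨ω, KZ, hω, hKZ, hZer⟩ := h5 d G ε hd1 hG hdeg hε
  obtain ⟨Λ1, hΛ1⟩ := hPar ω KZ n hω hKZ
  -- the first point
  obtain ⟨δ1, u1, x1, S1, T1r, S1r, N1, A1, hp1, hM1, hl1, hN1⟩ := Cor_pt hPts ε (max Λ1 K) hε
  set l1 : ℝ := Real.log (1 / |u1|) with hl1d
  obtain ⟨Λ0, hΛ0⟩ := hΛ1 l1 ((le_max_left _ _).trans hM1.le)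
  have hKl1 : K < l1 := (le_max_right _ _).trans_lt hM1
  -- the second point
  obtain ⟨δ0, u0, x0, S0, T0r, S0r, N0, A0, hp0, hM0, hl0, hN0'⟩ := Cor_pt hPts ε (max Λ0 K) hε
  set l0 : ℝ := Real.log (1 / |u0|) with hl0d
  have hKl0 : K < l0 := (le_max_right _ _).trans_lt hM0
  obtain ⟨n0, n1, L, hnn0, hnn1, hn01, hn11, hωn, hL, hL0, hL1, hZ0, hZ1, hfin⟩ :=
    hΛ0 l0 ((le_max_left _ _).trans hM0.le)
  obtain ⟨p, hpne, hpb, hVan⟩ := hAux n0 n1 hnn0 hnn1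
  have hn0R : (0 : ℝ) < n0 := by exact_mod_cast hn01
  have hn1R : (0 : ℝ) < n1 := by exact_mod_cast hn11
  have hc0 : PowerSeries.constantCoeff (PowerSeries.C x0 + PowerSeries.X : PowerSeries ℚ) = x0 := by
    simp
  have hc1 : PowerSeries.constantCoeff (PowerSeries.C x1 + PowerSeries.X : PowerSeries ℚ) = x1 := by
    simp
  have hlx0 : l0 - K ≤ Real.log |(x0 : ℝ)| := by
    have h9 := hLtc u0 T0r hp0.u0 (by linarith) hp0.reT
    rw [hp0.cx] at h9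
    linarith
  have hlx1 : l1 - K ≤ Real.log |(x1 : ℝ)| := by
    have h9 := hLtc u1 T1r hp1.u0 (by linarith) hp1.reT
    rw [hp1.cx] at h9
    linarith
  obtain ⟨j0, j1, hj, hpj⟩ := hZer n0 n1 p (h * ((n0 : ℝ) + n1)) (PowerSeries.C x0 + PowerSeries.X) S0
    (PowerSeries.C x1 + PowerSeries.X) S1 hn01 hn11 hωn hpne (by positivity) hpb hp0.ptz hp1.ptz
    (by
      rw [hc0]
      exact hZ0.trans (mul_le_mul_of_nonneg_left hlx0 hn0R.le))
    (by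
      rw [hc1]
      exact hZ1.trans (mul_le_mul_of_nonneg_left hlx1 hn1R.le))
  -- a nonzero coefficient of minimal weight
  have hw : ∀ a b : ℕ, (a : ℝ) / n0 + (b : ℝ) / n1 = ((n1 * a + n0 * b : ℕ) : ℝ) / (n0 * n1) := by
    intro a b
    push_cast
    field_simp
  classical
  have hex : ∃ w : ℕ, ∃ a b : ℕ, n1 * a + n0 * b = w ∧
      pc n0 n1 d p (PowerSeries.C x0 + PowerSeries.X) S0 (PowerSeries.C x1 + PowerSeries.X) S1 a b ≠ 0 :=
    ⟨_, j0, j1, rfl, hpj⟩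
  obtain ⟨k0, k1, hkw, hpk⟩ := Nat.find_spec hex
  have hmin : ∀ a b : ℕ, (a : ℝ) / n0 + (b : ℝ) / n1 < (k0 : ℝ) / n0 + (k1 : ℝ) / n1 →
      pc n0 n1 d p (PowerSeries.C x0 + PowerSeries.X) S0 (PowerSeries.C x1 + PowerSeries.X) S1 a b = 0 := by
    intro a b hab
    by_contra hne
    rw [hw a b, hw k0 k1, div_lt_div_iff_of_pos_right (by positivity)] at hab
    have h9 : n1 * a + n0 * b < Nat.find hex := by
      rw [← hkw]
      exact_mod_cast hab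
    exact Nat.find_min hex h9 ⟨a, b, rfl, hne⟩
  have hkε : (k0 : ℝ) / n0 + (k1 : ℝ) / n1 ≤ ε := by
    refine le_trans ?_ hj
    rw [hw k0 k1, hw j0 j1]
    apply div_le_div_of_nonneg_right _ (by positivity)
    have h9 : n1 * k0 + n0 * k1 ≤ n1 * j0 + n0 * j1 := by
      rw [hkw]
      exact Nat.find_min' hex ⟨j0, j1, rfl, hpj⟩
    exact_mod_cast h9
  set q : ℚ := pc n0 n1 d p (PowerSeries.C x0 + PowerSeries.X) S0 (PowerSeries.C x1 + PowerSeries.X) S1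
    k0 k1 with hq
  have hqR : (0 : ℝ) < |(q : ℝ)| := abs_pos.2 (by exact_mod_cast hpk)
  -- the lower bound
  obtain ⟨z, hz⟩ := h3 n0 n1 d N0 A0 N1 A1 p (PowerSeries.C x0 + PowerSeries.X) S0
    (PowerSeries.C x1 + PowerSeries.X) S1 hp0.denT hp0.denS hp1.denT hp1.denS k0 k1
  have hN0p : (0 : ℝ) < N0 := by exact_mod_cast hp0.N1
  have hN1p : (0 : ℝ) < N1 := by exact_mod_cast hp1.N1
  have hA0p : (0 : ℝ) < A0 := by exact_mod_cast hp0.A1
  have hA1p : (0 : ℝ) < A1 := by exact_mod_cast hp1.A1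
  have hlow : 0 ≤ ((n0 : ℝ) + d) * Real.log N0 + k0 * Real.log A0 +
      (((n1 : ℝ) + d) * Real.log N1 + k1 * Real.log A1) + Real.log |(q : ℝ)| := by
    have hzR : (N0 : ℝ) ^ (n0 + d) * (A0 : ℝ) ^ k0 * ((N1 : ℝ) ^ (n1 + d) * (A1 : ℝ) ^ k1) *
        |(q : ℝ)| = |(z : ℝ)| := by
      have h9 : ((N0 : ℝ) ^ (n0 + d) * (A0 : ℝ) ^ k0 * ((N1 : ℝ) ^ (n1 + d) * (A1 : ℝ) ^ k1)) *
        (q : ℝ) = (z : ℝ) := by exact_mod_cast hz
      have h11 : (0 : ℝ) < (N0 : ℝ) ^ (n0 + d) * (A0 : ℝ) ^ k0 *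
          ((N1 : ℝ) ^ (n1 + d) * (A1 : ℝ) ^ k1) := by positivity
      rw [← h9, abs_mul, abs_of_pos h11]
    have hz1 : (1 : ℝ) ≤ |(z : ℝ)| := by
      have hz0 : z ≠ 0 := by
        rintro rfl
        rw [Int.cast_zero, abs_zero] at hzR
        have : (0 : ℝ) < (N0 : ℝ) ^ (n0 + d) * (A0 : ℝ) ^ k0 * ((N1 : ℝ) ^ (n1 + d) * (A1 : ℝ) ^ k1) *
          |(q : ℝ)| := by positivity
        linarith
      exact_mod_cast Int.one_le_abs hz0
    have h10 := Real.log_nonneg hz1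
    rw [← hzR, Real.log_mul (by positivity) (by positivity), Real.log_mul (by positivity) (by positivity),
      Real.log_mul (by positivity) (by positivity), Real.log_mul (by positivity) (by positivity),
      Real.log_pow, Real.log_pow, Real.log_pow, Real.log_pow] at h10
    push_cast at h10
    exact h10
  -- the real coefficient
  have hTri := h7 n0 n1 d p x0 x1 S0 S1 T0r S0r T1r S1r k0 k1 hn01 hn11 hp0.cx hp1.cx hp0.sub hp1.sub
    hmin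
  have hreal : |(q : ℝ)| ≤ |pc n0 n1 d p T0r S0r T1r S1r k0 k1| := by
    rw [hTri, abs_mul, abs_mul, abs_pow, abs_pow, mul_assoc]
    refine le_mul_of_one_le_right (abs_nonneg _) ?_
    exact one_le_mul_of_one_le_of_one_le (one_le_pow₀ hp0.lam) (one_le_pow₀ hp1.lam)
  have hup := hSiz n0 n1 p (h * ((n0 : ℝ) + n1)) (12 / 5) L u0 u1 T0r S0r T1r S1r hn01 hn11 hp0.u0
    hp1.u0 (by linarith) (by linarith) hp0.reT hp0.reS hp1.reT hp1.reS (by norm_num) hL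
    (hL0.trans (mul_le_mul_of_nonneg_left (by linarith) (by positivity)))
    (hL1.trans (mul_le_mul_of_nonneg_left (by linarith) (by positivity))) hpb hVan k0 k1
  have hlog := Real.log_le_log hqR (hreal.trans hup)
  rw [Real.log_exp] at hlog
  have hf := hfin k0 k1 hkε
  have hA0l : Real.log A0 ≤ C1 * l0 := hp0.logA
  have hA1l : Real.log A1 ≤ C1 * l1 := hp1.logA
  have e1 : ((n0 : ℝ) + d) * Real.log N0 ≤ ((n0 : ℝ) + d) * (ε * l0) :=
    mul_le_mul_of_nonneg_left hN0' (by positivity)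
  have e2 : ((n1 : ℝ) + d) * Real.log N1 ≤ ((n1 : ℝ) + d) * (ε * l1) :=
    mul_le_mul_of_nonneg_left hN1 (by positivity)
  have e3 : (k0 : ℝ) * Real.log A0 ≤ k0 * (C1 * l0) := mul_le_mul_of_nonneg_left hA0l (by positivity)
  have e4 : (k1 : ℝ) * Real.log A1 ≤ k1 * (C1 * l1) := mul_le_mul_of_nonneg_left hA1l (by positivity)
  have e5 : K1 * ((n0 : ℝ) + n1 + k0 + k1 + 1) ≤ K * ((n0 : ℝ) + n1 + k0 + k1 + 1) :=
    mul_le_mul_of_nonneg_right hKK1 (by positivity)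
  push_cast at hf
  linarith

end Pool.Agent.Lib.SDC
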