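import Pool.Agent.Lib.SDC.Spec

namespace Pool.Agent.Lib.SDC

open Finset Pool.Agent.Lib.SD

private lemma Den_iff (q : ℚ) : (∃ z : ℤ, q = z) ↔ q ∈ (Int.castRingHom ℚ).range := by
  constructor
  · rintro ⟨z, hz⟩
    exact ⟨z, by rw [hz]; rfl⟩
  · rintro ⟨z, hz⟩
    exact ⟨z, by rw [← hz]; rfl⟩

private lemma Den_mem {N A : ℕ} {f : PowerSeries ℚ} (h : Dnm N A f) (k : ℕ) :
    (N : ℚ) * (A : ℚ) ^ k * PowerSeries.coeff k f ∈ (Int.castRingHom ℚ).range := (Den_iff _).1 (h k)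

private lemma Den_mul {N N' A : ℕ} {f h : PowerSeries ℚ} (hf : Dnm N A f) (hh : Dnm N' A h) :
    Dnm (N * N') A (f * h) := by
  intro k
  rw [Den_iff, PowerSeries.coeff_mul, Finset.mul_sum]
  apply Subring.sum_mem
  intro x hx
  rw [Finset.HasAntidiagonal.mem_antidiagonal] at hx
  have h1 := Subring.mul_mem _ (Den_mem hf x.1) (Den_mem hh x.2)
  have h2 : ((N * N' : ℕ) : ℚ) * (A : ℚ) ^ k * (PowerSeries.coeff x.1 f * PowerSeries.coeff x.2 h) =
      (N : ℚ) * (A : ℚ) ^ x.1 * PowerSeries.coeff x.1 f * ((N' : ℚ) * (A : ℚ) ^ x.2 * PowerSeries.coeff x.2 h) := by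
    rw [← hx, pow_add]
    push_cast
    ring
  rw [h2]
  exact h1

private lemma Den_one (A : ℕ) : Dnm 1 A (1 : PowerSeries ℚ) := by
  intro k
  rw [PowerSeries.coeff_one]
  by_cases h : k = 0
  · exact ⟨1, by simp [h]⟩
  · exact ⟨0, by simp [h]⟩

private lemma Den_pow {N A : ℕ} {f : PowerSeries ℚ} (hf : Dnm N A f) (a : ℕ) : Dnm (N ^ a) A (f ^ a) := by
  induction a with
  | zero =>
    rw [pow_zero, pow_zero]
    exact Den_one A
  | succ a ih =>
    rw [pow_succ, pow_succ]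
    exact Den_mul ih hf

private lemma Den_term {N A n d a j : ℕ} {T S : PowerSeries ℚ} (hT : Dnm N A T) (hS : Dnm N A S) (ha : a < n)
    (hj : j < d) (k : ℕ) :
    (N : ℚ) ^ (n + d) * (A : ℚ) ^ k * PowerSeries.coeff k (T ^ a * S ^ j) ∈ (Int.castRingHom ℚ).range := by
  have h1 := Den_mem (Den_mul (Den_pow hT a) (Den_pow hS j)) k
  have h2 : (N : ℚ) ^ (n + d - (a + j)) ∈ (Int.castRingHom ℚ).range := ⟨(N : ℤ) ^ (n + d - (a + j)), by simp⟩
  have h3 := Subring.mul_mem _ h2 h1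
  have h4 : (N : ℚ) ^ (n + d) = (N : ℚ) ^ (n + d - (a + j)) * ((N : ℚ) ^ a * (N : ℚ) ^ j) := by
    rw [← pow_add, ← pow_add]
    congr 1
    omega
  rw [h4]
  convert h3 using 1
  push_cast
  ring

theorem tDen : DenStmt := by
  intro n0 n1 d N0 A0 N1 A1 p T0 S0 T1 S1 hT0 hS0 hT1 hS1 k0 k1
  rw [Den_iff]
  unfold pc
  rw [Finset.mul_sum]
  refine Subring.sum_mem _ fun a ha => ?_
  rw [Finset.mul_sum]
  refine Subring.sum_mem _ fun j hj => ?_
  rw [Finset.mul_sum]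
  refine Subring.sum_mem _ fun b hb => ?_
  rw [Finset.mul_sum]
  refine Subring.sum_mem _ fun k hk => ?_
  rw [Finset.mem_range] at ha hj hb hk
  have h1 := Den_term hT0 hS0 ha hj k0
  have h2 := Den_term hT1 hS1 hb hk k1
  have h3 : ((p a j b k : ℤ) : ℚ) ∈ (Int.castRingHom ℚ).range := ⟨p a j b k, rfl⟩
  have h4 := Subring.mul_mem _ (Subring.mul_mem _ h3 h1) h2
  convert h4 using 1
  ring

end Pool.Agent.Lib.SDC
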