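import Pool.Agent.Lib.SDC.Spec

namespace Pool.Agent.Lib.SDC

open Finset Pool.Agent.Lib.SD

/-- one coefficient of a shifted series as an absolutely convergent sum -/
private lemma Gbd_one (f : PowerSeries ℝ) (K C u : ℝ) (k : ℕ) (hK : 0 ≤ K) (hC : 0 < C)
    (hu : 4 * C * |u| < 1) (hf : ∀ n, |PowerSeries.coeff n f| ≤ K * C ^ n) :
    Summable (fun i : ℕ => ‖PowerSeries.coeff (i + k) f * ((i + k).choose k : ℝ) * u ^ i‖) ∧
    HasSum (fun i : ℕ => PowerSeries.coeff (i + k) f * ((i + k).choose k : ℝ) * u ^ i)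
      (PowerSeries.coeff k (sft u f)) := by
  have h1 : ∀ i : ℕ, ‖PowerSeries.coeff (i + k) f * ((i + k).choose k : ℝ) * u ^ i‖ ≤
      K * (2 * C) ^ k * (1 / 2) ^ i := by
    intro i
    rw [norm_mul, norm_mul, Real.norm_eq_abs, Real.norm_eq_abs, Real.norm_eq_abs, abs_pow, Nat.abs_cast]
    have h2 : (((i + k).choose k : ℕ) : ℝ) ≤ 2 ^ (i + k) := by exact_mod_cast Nat.choose_le_two_pow (i + k) k
    have h3 : 2 * C * |u| ≤ 1 / 2 := by linarith
    calc |PowerSeries.coeff (i + k) f| * ((i + k).choose k : ℝ) * |u| ^ i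
        ≤ (K * C ^ (i + k)) * 2 ^ (i + k) * |u| ^ i := by
          gcongr
          exact hf _
      _ = K * (2 * C) ^ k * (2 * C * |u|) ^ i := by
          rw [mul_pow, mul_pow, mul_pow, pow_add, pow_add]; ring
      _ ≤ K * (2 * C) ^ k * (1 / 2) ^ i := by gcongr
  have h4 : Summable (fun i : ℕ => K * (2 * C) ^ k * (1 / 2 : ℝ) ^ i) := summable_geometric_two.mul_left _
  have h5 : Summable (fun i : ℕ => ‖PowerSeries.coeff (i + k) f * ((i + k).choose k : ℝ) * u ^ i‖) :=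
    Summable.of_nonneg_of_le (fun i => norm_nonneg _) h1 h4
  refine ⟨h5, ?_⟩
  unfold sft
  rw [PowerSeries.coeff_mk]
  exact h5.of_norm.hasSum

private lemma Gbd_exp (m n0 n1 μ ν : ℕ) (τ L y0 y1 : ℝ) (hm : 1 ≤ m) (hn0 : 1 ≤ n0) (hn1 : 1 ≤ n1)
    (hy0 : 0 < y0) (hy1 : 0 < y1) (hL : 0 ≤ L) (hL0 : L ≤ (m : ℝ) * n0 * Real.log (1 / y0))
    (hL1 : L ≤ (m : ℝ) * n1 * Real.log (1 / y1)) (h : τ ≤ (μ : ℝ) / ((m : ℝ) * n0) + (ν : ℝ) / ((m : ℝ) * n1)) :
    y0 ^ μ * y1 ^ ν ≤ Real.exp (-(τ * L)) := by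
  have hm' : (0 : ℝ) < m := by exact_mod_cast hm
  have hn0' : (0 : ℝ) < n0 := by exact_mod_cast hn0
  have hn1' : (0 : ℝ) < n1 := by exact_mod_cast hn1
  have e0 : y0 ^ μ = Real.exp (-(μ * Real.log (1 / y0))) := by
    rw [one_div, Real.log_inv, mul_neg, neg_neg, ← Real.log_pow, Real.exp_log (pow_pos hy0 _)]
  have e1 : y1 ^ ν = Real.exp (-(ν * Real.log (1 / y1))) := by
    rw [one_div, Real.log_inv, mul_neg, neg_neg, ← Real.log_pow, Real.exp_log (pow_pos hy1 _)]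
  rw [e0, e1, ← Real.exp_add]
  refine Real.exp_le_exp.2 ?_
  have h0 : (μ : ℝ) / ((m : ℝ) * n0) * L ≤ μ * Real.log (1 / y0) := by
    rw [div_mul_eq_mul_div, div_le_iff₀ (by positivity)]
    have : (μ : ℝ) * L ≤ μ * ((m : ℝ) * n0 * Real.log (1 / y0)) := mul_le_mul_of_nonneg_left hL0 (Nat.cast_nonneg _)
    linarith
  have h1 : (ν : ℝ) / ((m : ℝ) * n1) * L ≤ ν * Real.log (1 / y1) := by
    rw [div_mul_eq_mul_div, div_le_iff₀ (by positivity)]
    have : (ν : ℝ) * L ≤ ν * ((m : ℝ) * n1 * Real.log (1 / y1)) := mul_le_mul_of_nonneg_left hL1 (Nat.cast_nonneg _)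
    linarith
  have h2 : τ * L ≤ ((μ : ℝ) / ((m : ℝ) * n0) + (ν : ℝ) / ((m : ℝ) * n1)) * L := mul_le_mul_of_nonneg_right h hL
  linarith

theorem tGbd : GbdStmt := by
  intro F _ ρ d m c0 n0 n1 C E Y p H τ L u0 u1 hm hn0 hn1 hC hgr hu0 hu1 hy0 hy1 hτ hL hL0 hL1 hp hvan k0 k1
  have hC' : (1 : ℝ) ≤ C := by exact_mod_cast hC
  have hCp : (0 : ℝ) < C := by linarith
  have hau0 : 0 < |u0| := abs_pos.2 hu0
  have hau1 : 0 < |u1| := abs_pos.2 hu1
  have hH : 0 ≤ H := (abs_nonneg _).trans (hp 0 0 0 0)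
  -- growth of the coefficients of Phi
  have hg : ∀ (n a j k : ℕ), a < n → j < d →
      |PowerSeries.coeff k (PowerSeries.map ρ (Phi m c0 d n E Y a j))| ≤ (C : ℝ) ^ n * (C : ℝ) ^ k := by
    intro n a j k ha hj
    rw [PowerSeries.coeff_map]
    unfold Phi
    refine (hgr a j _ k hj.le).trans ?_
    rw [← pow_add]
    exact pow_le_pow_right₀ hC' (by omega)
  -- the double sum
  have hs : HasSum (fun q : ℕ × ℕ => ∑ a ∈ range n0, ∑ j ∈ range d, ∑ b ∈ range n1, ∑ k ∈ range d,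
      (p a j b k : ℝ) * ((PowerSeries.coeff (q.1 + k0) (PowerSeries.map ρ (Phi m c0 d n0 E Y a j)) *
        ((q.1 + k0).choose k0 : ℝ) * u0 ^ q.1) *
        (PowerSeries.coeff (q.2 + k1) (PowerSeries.map ρ (Phi m c0 d n1 E Y b k)) *
        ((q.2 + k1).choose k1 : ℝ) * u1 ^ q.2)))
      (∑ a ∈ range n0, ∑ j ∈ range d, ∑ b ∈ range n1, ∑ k ∈ range d, (p a j b k : ℝ) *
        PowerSeries.coeff k0 (sft u0 (PowerSeries.map ρ (Phi m c0 d n0 E Y a j))) *
        PowerSeries.coeff k1 (sft u1 (PowerSeries.map ρ (Phi m c0 d n1 E Y b k)))) := by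
    refine hasSum_sum fun a ha => hasSum_sum fun j hj => hasSum_sum fun b hb => hasSum_sum fun k hk => ?_
    obtain ⟨s0, t0⟩ := Gbd_one (PowerSeries.map ρ (Phi m c0 d n0 E Y a j)) ((C : ℝ) ^ n0) C u0 k0 (by positivity) hCp
      hy0 (fun n => hg n0 a j n (mem_range.1 ha) (mem_range.1 hj))
    obtain ⟨s1, t1⟩ := Gbd_one (PowerSeries.map ρ (Phi m c0 d n1 E Y b k)) ((C : ℝ) ^ n1) C u1 k1 (by positivity) hCp
      hy1 (fun n => hg n1 b k n (mem_range.1 hb) (mem_range.1 hk))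
    have h1 := (summable_mul_of_summable_norm s0 s1).hasSum
    rw [← tsum_mul_tsum_of_summable_norm s0 s1, t0.tsum_eq, t1.tsum_eq] at h1
    have h2 := h1.mul_left (p a j b k : ℝ)
    rw [← mul_assoc] at h2
    exact h2
  -- the bound
  set B : ℝ := H * (d : ℝ) ^ 2 * n0 * n1 * (C : ℝ) ^ (n0 + n1) * (1 / |u0|) ^ k0 * (1 / |u1|) ^ k1 *
    Real.exp (-(τ * L)) with hB
  have hB0 : 0 ≤ B := by positivity
  have hb : HasSum (fun q : ℕ × ℕ => B * ((1 / 2 : ℝ) ^ q.1 * (1 / 2 : ℝ) ^ q.2)) (B * (2 * 2)) := by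
    have hg2 : HasSum (fun n : ℕ => (1 / 2 : ℝ) ^ n) 2 := hasSum_geometric_two
    have h1 : HasSum (fun q : ℕ × ℕ => (1 / 2 : ℝ) ^ q.1 * (1 / 2 : ℝ) ^ q.2) (2 * 2) :=
      hg2.mul hg2 (summable_geometric_two.mul_of_nonneg summable_geometric_two (fun n => by positivity)
        (fun n => by positivity))
    exact h1.mul_left B
  have hbound : ∀ q : ℕ × ℕ, ‖∑ a ∈ range n0, ∑ j ∈ range d, ∑ b ∈ range n1, ∑ k ∈ range d,
      (p a j b k : ℝ) * ((PowerSeries.coeff (q.1 + k0) (PowerSeries.map ρ (Phi m c0 d n0 E Y a j)) *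
        ((q.1 + k0).choose k0 : ℝ) * u0 ^ q.1) *
        (PowerSeries.coeff (q.2 + k1) (PowerSeries.map ρ (Phi m c0 d n1 E Y b k)) *
        ((q.2 + k1).choose k1 : ℝ) * u1 ^ q.2))‖ ≤ B * ((1 / 2 : ℝ) ^ q.1 * (1 / 2 : ℝ) ^ q.2) := by
    rintro ⟨i, l⟩
    -- rewrite with cc
    have e1 : (∑ a ∈ range n0, ∑ j ∈ range d, ∑ b ∈ range n1, ∑ k ∈ range d,
        (p a j b k : ℝ) * ((PowerSeries.coeff (i + k0) (PowerSeries.map ρ (Phi m c0 d n0 E Y a j)) *
        ((i + k0).choose k0 : ℝ) * u0 ^ i) *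
        (PowerSeries.coeff (l + k1) (PowerSeries.map ρ (Phi m c0 d n1 E Y b k)) *
        ((l + k1).choose k1 : ℝ) * u1 ^ l))) =
        ρ (cc m c0 d n0 n1 p E Y (i + k0) (l + k1)) *
          (((i + k0).choose k0 : ℝ) * u0 ^ i * (((l + k1).choose k1 : ℝ) * u1 ^ l)) := by
      unfold cc
      rw [map_sum, sum_mul]
      refine sum_congr rfl fun a _ => ?_
      rw [map_sum, sum_mul]
      refine sum_congr rfl fun j _ => ?_
      rw [map_sum, sum_mul]
      refine sum_congr rfl fun b _ => ?_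
      rw [map_sum, sum_mul]
      refine sum_congr rfl fun k _ => ?_
      rw [map_mul, map_mul, map_intCast, PowerSeries.coeff_map, PowerSeries.coeff_map]
      ring
    show ‖(∑ a ∈ range n0, ∑ j ∈ range d, ∑ b ∈ range n1, ∑ k ∈ range d,
        (p a j b k : ℝ) * ((PowerSeries.coeff (i + k0) (PowerSeries.map ρ (Phi m c0 d n0 E Y a j)) *
        ((i + k0).choose k0 : ℝ) * u0 ^ i) *
        (PowerSeries.coeff (l + k1) (PowerSeries.map ρ (Phi m c0 d n1 E Y b k)) *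
        ((l + k1).choose k1 : ℝ) * u1 ^ l)))‖ ≤ B * ((1 / 2 : ℝ) ^ i * (1 / 2 : ℝ) ^ l)
    rw [e1]
    by_cases hind : ((i + k0 : ℕ) : ℝ) / ((m : ℝ) * n0) + ((l + k1 : ℕ) : ℝ) / ((m : ℝ) * n1) < τ
    · rw [hvan _ _ hind, map_zero, zero_mul, norm_zero]
      positivity
    · have hind' := not_lt.1 hind
      -- bound of cc
      have hcc : |ρ (cc m c0 d n0 n1 p E Y (i + k0) (l + k1))| ≤
          n0 * (d * (n1 * (d * (H * ((C : ℝ) ^ n0 * (C : ℝ) ^ (i + k0)) * ((C : ℝ) ^ n1 * (C : ℝ) ^ (l + k1)))))) := by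
        unfold cc
        rw [map_sum]
        refine (abs_sum_le_sum_abs _ _).trans ?_
        have c1 : ∀ a ∈ range n0, |ρ (∑ j ∈ range d, ∑ b ∈ range n1, ∑ k ∈ range d, (p a j b k : F) *
            PowerSeries.coeff (i + k0) (Phi m c0 d n0 E Y a j) * PowerSeries.coeff (l + k1) (Phi m c0 d n1 E Y b k))| ≤
            d * (n1 * (d * (H * ((C : ℝ) ^ n0 * (C : ℝ) ^ (i + k0)) * ((C : ℝ) ^ n1 * (C : ℝ) ^ (l + k1))))) := by
          intro a ha
          rw [map_sum]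
          refine (abs_sum_le_sum_abs _ _).trans ?_
          have c2 : ∀ j ∈ range d, |ρ (∑ b ∈ range n1, ∑ k ∈ range d, (p a j b k : F) *
              PowerSeries.coeff (i + k0) (Phi m c0 d n0 E Y a j) *
                PowerSeries.coeff (l + k1) (Phi m c0 d n1 E Y b k))| ≤
              n1 * (d * (H * ((C : ℝ) ^ n0 * (C : ℝ) ^ (i + k0)) * ((C : ℝ) ^ n1 * (C : ℝ) ^ (l + k1)))) := by
            intro j hj
            rw [map_sum]
            refine (abs_sum_le_sum_abs _ _).trans ?_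
            have c3 : ∀ b ∈ range n1, |ρ (∑ k ∈ range d, (p a j b k : F) *
                PowerSeries.coeff (i + k0) (Phi m c0 d n0 E Y a j) *
                  PowerSeries.coeff (l + k1) (Phi m c0 d n1 E Y b k))| ≤
                d * (H * ((C : ℝ) ^ n0 * (C : ℝ) ^ (i + k0)) * ((C : ℝ) ^ n1 * (C : ℝ) ^ (l + k1))) := by
              intro b hb
              rw [map_sum]
              refine (abs_sum_le_sum_abs _ _).trans ?_
              have c4 : ∀ k ∈ range d, |ρ ((p a j b k : F) *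
                  PowerSeries.coeff (i + k0) (Phi m c0 d n0 E Y a j) *
                    PowerSeries.coeff (l + k1) (Phi m c0 d n1 E Y b k))| ≤
                  H * ((C : ℝ) ^ n0 * (C : ℝ) ^ (i + k0)) * ((C : ℝ) ^ n1 * (C : ℝ) ^ (l + k1)) := by
                intro k hk
                rw [map_mul, map_mul, map_intCast, abs_mul, abs_mul]
                have d1 := hg n0 a j (i + k0) (mem_range.1 ha) (mem_range.1 hj)
                have d2 := hg n1 b k (l + k1) (mem_range.1 hb) (mem_range.1 hk)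
                rw [PowerSeries.coeff_map] at d1 d2
                have d3 := hp a j b k
                gcongr
              refine (sum_le_sum c4).trans ?_
              rw [sum_const, card_range, nsmul_eq_mul]
            refine (sum_le_sum c3).trans ?_
            rw [sum_const, card_range, nsmul_eq_mul]
          refine (sum_le_sum c2).trans ?_
          rw [sum_const, card_range, nsmul_eq_mul]
        refine (sum_le_sum c1).trans ?_
        rw [sum_const, card_range, nsmul_eq_mul]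
      have hch0 : (((i + k0).choose k0 : ℕ) : ℝ) ≤ 2 ^ (i + k0) := by exact_mod_cast Nat.choose_le_two_pow (i + k0) k0
      have hch1 : (((l + k1).choose k1 : ℕ) : ℝ) ≤ 2 ^ (l + k1) := by exact_mod_cast Nat.choose_le_two_pow (l + k1) k1
      have hexp := Gbd_exp m n0 n1 (i + k0) (l + k1) τ L (4 * C * |u0|) (4 * C * |u1|) hm hn0 hn1 (by positivity)
        (by positivity) hL hL0 hL1 hind'
      rw [norm_mul, Real.norm_eq_abs, Real.norm_eq_abs, abs_mul, abs_mul, abs_mul, abs_pow, abs_pow, Nat.abs_cast,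
        Nat.abs_cast]
      have e2 : (1 / 2 : ℝ) ^ (i + k0) ≤ (1 / 2) ^ i := pow_le_pow_of_le_one (by norm_num) (by norm_num) (by omega)
      have e3 : (1 / 2 : ℝ) ^ (l + k1) ≤ (1 / 2) ^ l := pow_le_pow_of_le_one (by norm_num) (by norm_num) (by omega)
      have e4 : |u0| ^ i = |u0| ^ (i + k0) * (1 / |u0|) ^ k0 := by
        rw [pow_add, mul_assoc, ← mul_pow, mul_one_div_cancel hau0.ne', one_pow, mul_one]
      have e5 : |u1| ^ l = |u1| ^ (l + k1) * (1 / |u1|) ^ k1 := by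
        rw [pow_add, mul_assoc, ← mul_pow, mul_one_div_cancel hau1.ne', one_pow, mul_one]
      calc |ρ (cc m c0 d n0 n1 p E Y (i + k0) (l + k1))| * (((i + k0).choose k0 : ℝ) * |u0| ^ i *
            (((l + k1).choose k1 : ℝ) * |u1| ^ l))
          ≤ (n0 * (d * (n1 * (d * (H * ((C : ℝ) ^ n0 * (C : ℝ) ^ (i + k0)) * ((C : ℝ) ^ n1 * (C : ℝ) ^ (l + k1))))))) *
            ((2 : ℝ) ^ (i + k0) * |u0| ^ i * ((2 : ℝ) ^ (l + k1) * |u1| ^ l)) := by
            gcongr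
        _ = H * (d : ℝ) ^ 2 * n0 * n1 * (C : ℝ) ^ (n0 + n1) * (1 / |u0|) ^ k0 * (1 / |u1|) ^ k1 *
            ((4 * C * |u0|) ^ (i + k0) * (4 * C * |u1|) ^ (l + k1)) * ((1 / 2) ^ (i + k0) * (1 / 2) ^ (l + k1)) := by
            rw [e4, e5, pow_add (C : ℝ) n0 n1]
            have f1 : (4 * (C : ℝ) * |u0|) ^ (i + k0) * (1 / 2) ^ (i + k0) =
                (C : ℝ) ^ (i + k0) * 2 ^ (i + k0) * |u0| ^ (i + k0) := by
              rw [← mul_pow, ← mul_pow, ← mul_pow]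
              congr 1
              ring
            have f2 : (4 * (C : ℝ) * |u1|) ^ (l + k1) * (1 / 2) ^ (l + k1) =
                (C : ℝ) ^ (l + k1) * 2 ^ (l + k1) * |u1| ^ (l + k1) := by
              rw [← mul_pow, ← mul_pow, ← mul_pow]
              congr 1
              ring
            linear_combination (exp := 1) (-(H * (d : ℝ) ^ 2 * n0 * n1 * ((C : ℝ) ^ n0 * (C : ℝ) ^ n1) * (1 / |u0|) ^ k0 *
              (1 / |u1|) ^ k1) * ((4 * C * |u1|) ^ (l + k1) * (1 / 2) ^ (l + k1))) * f1 -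
              (H * (d : ℝ) ^ 2 * n0 * n1 * ((C : ℝ) ^ n0 * (C : ℝ) ^ n1) * (1 / |u0|) ^ k0 *
              (1 / |u1|) ^ k1) * ((C : ℝ) ^ (i + k0) * 2 ^ (i + k0) * |u0| ^ (i + k0)) * f2
        _ ≤ H * (d : ℝ) ^ 2 * n0 * n1 * (C : ℝ) ^ (n0 + n1) * (1 / |u0|) ^ k0 * (1 / |u1|) ^ k1 *
            Real.exp (-(τ * L)) * ((1 / 2) ^ i * (1 / 2) ^ l) := by
            gcongr
        _ = B * ((1 / 2 : ℝ) ^ i * (1 / 2 : ℝ) ^ l) := by rw [hB]
  have hfin := hs.norm_le_of_bounded hb hbound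
  rw [Real.norm_eq_abs] at hfin
  refine hfin.trans ?_
  rw [hB]
  have hpow : (C : ℝ) ^ (n0 + n1) ≤ (C : ℝ) ^ (n0 + n1 + 2) := pow_le_pow_right₀ hC' (by omega)
  calc H * (d : ℝ) ^ 2 * n0 * n1 * (C : ℝ) ^ (n0 + n1) * (1 / |u0|) ^ k0 * (1 / |u1|) ^ k1 *
        Real.exp (-(τ * L)) * (2 * 2)
      = 4 * H * (d : ℝ) ^ 2 * n0 * n1 * (C : ℝ) ^ (n0 + n1) * (1 / |u0|) ^ k0 * (1 / |u1|) ^ k1 *
        Real.exp (-(τ * L)) := by ring
    _ ≤ 4 * H * (d : ℝ) ^ 2 * n0 * n1 * (C : ℝ) ^ (n0 + n1 + 2) * (1 / |u0|) ^ k0 * (1 / |u1|) ^ k1 *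
        Real.exp (-(τ * L)) := by gcongr

end Pool.Agent.Lib.SDC
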