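import Pool.Agent.Lib.SDC.Spec

/-!
SDC module Grw: growth of the coefficients of E^a Y^j.
-/

namespace Pool.Agent.Lib.SDC

open Finset Pool.Agent.Lib.SD

section

variable {F : Type} [Field F] [NumberField F]

/-- integrality class -/
private def Grw_J (C0 k : ℕ) (f : PowerSeries F) : Prop :=
  ∀ n, IsIntegral ℤ ((C0 : F) ^ (n + k) * PowerSeries.coeff n f)

/-- size class -/
private def Grw_G (r A : ℝ) (f : PowerSeries F) : Prop :=
  ∀ M, ∑ n ∈ range M, NumberField.house (PowerSeries.coeff n f) * r ^ n ≤ A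

private theorem Grw_nat (c : ℕ) : IsIntegral ℤ ((c : F)) := by
  have h := isIntegral_algebraMap (R := ℤ) (A := F) (x := (c : ℤ))
  rwa [eq_intCast, Int.cast_natCast] at h

private theorem Grw_Jmul {C0 k l : ℕ} {f h : PowerSeries F} (hf : Grw_J C0 k f) (hh : Grw_J C0 l h) :
    Grw_J C0 (k + l) (f * h) := by
  intro n
  rw [PowerSeries.coeff_mul, Finset.mul_sum]
  apply IsIntegral.sum
  intro p hp
  rw [HasAntidiagonal.mem_antidiagonal] at hp
  have e : (C0 : F) ^ (n + (k + l)) * (PowerSeries.coeff p.1 f * PowerSeries.coeff p.2 h) =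
      ((C0 : F) ^ (p.1 + k) * PowerSeries.coeff p.1 f) * ((C0 : F) ^ (p.2 + l) * PowerSeries.coeff p.2 h) := by
    rw [← hp, show p.1 + p.2 + (k + l) = (p.1 + k) + (p.2 + l) by ring, pow_add]
    ring
  rw [e]
  exact (hf p.1).mul (hh p.2)

private theorem Grw_JX (C0 l : ℕ) : Grw_J C0 0 (PowerSeries.X ^ l : PowerSeries F) := by
  intro n
  rw [PowerSeries.coeff_X_pow]
  apply ((Grw_nat C0).pow _).mul
  split_ifs
  · exact isIntegral_one
  · exact isIntegral_zero

private theorem Grw_Jpow {C0 : ℕ} {f : PowerSeries F} (hf : Grw_J C0 1 f) (a : ℕ) : Grw_J C0 a (f ^ a) := by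
  induction a with
  | zero =>
    have h := Grw_JX (F := F) C0 0
    rwa [pow_zero] at h ⊢
  | succ a ih =>
    rw [pow_succ]
    exact Grw_Jmul ih hf

private theorem Grw_conv (u v : ℕ → ℝ) (hu : ∀ n, 0 ≤ u n) (hv : ∀ n, 0 ≤ v n) (M : ℕ) :
    ∑ n ∈ range M, ∑ p ∈ antidiagonal n, u p.1 * v p.2 ≤ (∑ n ∈ range M, u n) * ∑ n ∈ range M, v n := by
  rw [Finset.sum_mul_sum, ← Finset.sum_product' (range M) (range M) (fun i j => u i * v j)]
  have h1 : ∀ n ∈ range M, ∑ p ∈ antidiagonal n, u p.1 * v p.2 =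
      ∑ p ∈ (range M ×ˢ range M) with p.1 + p.2 = n, u p.1 * v p.2 := by
    intro n hn
    rw [Finset.mem_range] at hn
    apply Finset.sum_congr _ (fun _ _ => rfl)
    ext p
    rw [HasAntidiagonal.mem_antidiagonal, Finset.mem_filter, Finset.mem_product, Finset.mem_range, Finset.mem_range]
    omega
  rw [Finset.sum_congr rfl h1]
  apply Finset.sum_fiberwise_le_sum_of_sum_fiber_nonneg
  intro y _
  exact Finset.sum_nonneg (fun p _ => mul_nonneg (hu _) (hv _))

private theorem Grw_Gmul {r A B : ℝ} (hr : 0 ≤ r) {f h : PowerSeries F} (hf : Grw_G r A f) (hh : Grw_G r B h) :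
    Grw_G r (A * B) (f * h) := by
  intro M
  have hA : 0 ≤ A := by
    have := hf 0
    rwa [Finset.range_zero, Finset.sum_empty] at this
  obtain ⟨u, hu⟩ : ∃ u : ℕ → ℝ, u = fun n => NumberField.house (PowerSeries.coeff n f) * r ^ n := ⟨_, rfl⟩
  obtain ⟨v, hv⟩ : ∃ v : ℕ → ℝ, v = fun n => NumberField.house (PowerSeries.coeff n h) * r ^ n := ⟨_, rfl⟩
  have hu0 : ∀ n, 0 ≤ u n := by
    intro n
    rw [hu]
    exact mul_nonneg (NumberField.house_nonneg _) (pow_nonneg hr n)
  have hv0 : ∀ n, 0 ≤ v n := by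
    intro n
    rw [hv]
    exact mul_nonneg (NumberField.house_nonneg _) (pow_nonneg hr n)
  have h1 : ∑ n ∈ range M, NumberField.house (PowerSeries.coeff n (f * h)) * r ^ n ≤
      ∑ n ∈ range M, ∑ p ∈ antidiagonal n, u p.1 * v p.2 := by
    apply Finset.sum_le_sum
    intro n _
    rw [PowerSeries.coeff_mul]
    have h2 : NumberField.house (∑ p ∈ antidiagonal n, PowerSeries.coeff p.1 f * PowerSeries.coeff p.2 h) ≤
        ∑ p ∈ antidiagonal n, NumberField.house (PowerSeries.coeff p.1 f) *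
          NumberField.house (PowerSeries.coeff p.2 h) :=
      (NumberField.house_sum_le_sum_house _ _).trans
        (Finset.sum_le_sum (fun p _ => NumberField.house_mul_le _ _))
    refine (mul_le_mul_of_nonneg_right h2 (pow_nonneg hr n)).trans (le_of_eq ?_)
    rw [Finset.sum_mul]
    apply Finset.sum_congr rfl
    intro p hp
    rw [HasAntidiagonal.mem_antidiagonal] at hp
    rw [hu, hv, ← hp, pow_add]
    ring
  refine h1.trans ((Grw_conv u v hu0 hv0 M).trans ?_)
  have h3 : ∑ n ∈ range M, u n ≤ A := by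
    rw [hu]
    exact hf M
  have h4 : ∑ n ∈ range M, v n ≤ B := by
    rw [hv]
    exact hh M
  exact mul_le_mul h3 h4 (Finset.sum_nonneg (fun n _ => hv0 n)) hA

private theorem Grw_GX {r : ℝ} (hr : 0 ≤ r) (hr1 : r ≤ 1) (l : ℕ) :
    Grw_G r 1 (PowerSeries.X ^ l : PowerSeries F) := by
  intro M
  have h1 : ∀ n ∈ range M, NumberField.house (PowerSeries.coeff n (PowerSeries.X ^ l : PowerSeries F)) * r ^ n =
      if n = l then r ^ l else 0 := by
    intro n _
    rw [PowerSeries.coeff_X_pow]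
    split_ifs with h
    · have h2 := NumberField.house_intCast (K := F) 1
      rw [Int.cast_one] at h2
      rw [h2, h]
      simp
    · have h2 := NumberField.house_intCast (K := F) 0
      rw [Int.cast_zero] at h2
      rw [h2]
      simp
  rw [Finset.sum_congr rfl h1, Finset.sum_ite_eq']
  split_ifs
  · exact pow_le_one₀ hr hr1
  · exact zero_le_one

private theorem Grw_Gpow {r A : ℝ} (hr : 0 ≤ r) (hr1 : r ≤ 1) {f : PowerSeries F} (hf : Grw_G r A f) (a : ℕ) :
    Grw_G r (A ^ a) (f ^ a) := by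
  induction a with
  | zero =>
    have h := Grw_GX (F := F) hr hr1 0
    rwa [pow_zero] at h ⊢
  | succ a ih =>
    rw [pow_succ, pow_succ]
    exact Grw_Gmul hr ih hf

private theorem Grw_GE {C0 : ℕ} (hC : 1 ≤ C0) {f : PowerSeries F} (hf : EisC C0 f) :
    Grw_G (1 / (2 * (C0 : ℝ))) (2 * (C0 : ℝ)) f := by
  intro M
  have hC0 : (0 : ℝ) < C0 := by exact_mod_cast hC
  have h1 : ∀ n ∈ range M, NumberField.house (PowerSeries.coeff n f) * (1 / (2 * (C0 : ℝ))) ^ n ≤
      (C0 : ℝ) * (1 / 2 : ℝ) ^ n := by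
    intro n _
    have h2 := (hf n).2
    have h3 : (0 : ℝ) ≤ (1 / (2 * (C0 : ℝ))) ^ n := by positivity
    refine (mul_le_mul_of_nonneg_right h2 h3).trans (le_of_eq ?_)
    rw [pow_succ, div_pow, div_pow, mul_pow, one_pow]
    field_simp
  refine (Finset.sum_le_sum h1).trans ?_
  rw [← Finset.mul_sum]
  have h4 : ∑ n ∈ range M, (1 / 2 : ℝ) ^ n ≤ 2 := by
    have h5 := sum_geometric_two_le M
    exact h5
  nlinarith

end

theorem tGrw : GrwStmt := by
  classical
  intro F _ _ C0 d E Y hC hE hY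
  obtain ⟨r, hr⟩ : ∃ r : ℝ, r = 1 / (2 * (C0 : ℝ)) := ⟨_, rfl⟩
  have hC0 : (1 : ℝ) ≤ C0 := by exact_mod_cast hC
  have hr0 : 0 < r := by rw [hr]; positivity
  have hr1 : r ≤ 1 := by
    rw [hr, div_le_one (by positivity)]
    linarith
  refine ⟨(2 * C0) ^ (d + 1), Nat.one_le_pow _ _ (by omega), fun a j l n hj => ⟨?_, ?_⟩⟩
  · have h1 : Grw_J C0 (0 + (a + j)) (PowerSeries.X ^ l * (E ^ a * Y ^ j)) :=
      Grw_Jmul (Grw_JX C0 l) (Grw_Jmul (Grw_Jpow (fun n => (hE n).1) a) (Grw_Jpow (fun n => (hY n).1) j))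
    have h2 := h1 n
    have h3 : n + (0 + (a + j)) ≤ (d + 1) * (a + n + 1) := by
      have e : (d + 1) * (a + n + 1) = d * (a + n) + d + (a + n + 1) := by ring
      have : 0 ≤ d * (a + n) := Nat.zero_le _
      omega
    obtain ⟨t, ht⟩ := Nat.exists_eq_add_of_le h3
    have e : ((((2 * C0) ^ (d + 1) : ℕ) : F)) ^ (a + n + 1) =
        (((2 ^ ((d + 1) * (a + n + 1)) * C0 ^ t : ℕ) : F)) * (C0 : F) ^ (n + (0 + (a + j))) := by
      push_cast
      rw [← pow_mul, mul_pow]
      nth_rewrite 2 [ht]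
      rw [pow_add (C0 : F)]
      ring
    rw [e, mul_assoc]
    exact (Grw_nat _).mul h2
  · have h1 : Grw_G r (1 * ((2 * (C0 : ℝ)) ^ a * (2 * (C0 : ℝ)) ^ j)) (PowerSeries.X ^ l * (E ^ a * Y ^ j)) := by
      have hE' : Grw_G r (2 * (C0 : ℝ)) E := by rw [hr]; exact Grw_GE hC hE
      have hY' : Grw_G r (2 * (C0 : ℝ)) Y := by rw [hr]; exact Grw_GE hC hY
      exact Grw_Gmul hr0.le (Grw_GX hr0.le hr1 l)
        (Grw_Gmul hr0.le (Grw_Gpow hr0.le hr1 hE' a) (Grw_Gpow hr0.le hr1 hY' j))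
    have h2 := h1 (n + 1)
    have h3 : NumberField.house (PowerSeries.coeff n (PowerSeries.X ^ l * (E ^ a * Y ^ j))) * r ^ n ≤
        ∑ i ∈ range (n + 1), NumberField.house (PowerSeries.coeff i (PowerSeries.X ^ l * (E ^ a * Y ^ j))) * r ^ i :=
      Finset.single_le_sum
        (f := fun i => NumberField.house (PowerSeries.coeff i (PowerSeries.X ^ l * (E ^ a * Y ^ j))) * r ^ i)
        (fun i _ => mul_nonneg (NumberField.house_nonneg _) (pow_nonneg hr0.le i))
        (Finset.mem_range.2 (Nat.lt_succ_self n))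
    have h4 := h3.trans h2
    rw [one_mul, ← pow_add] at h4
    have h5 : NumberField.house (PowerSeries.coeff n (PowerSeries.X ^ l * (E ^ a * Y ^ j))) ≤
        (2 * (C0 : ℝ)) ^ (a + j + n) := by
      have h6 : r ^ n * (2 * (C0 : ℝ)) ^ n = 1 := by
        rw [← mul_pow, hr, one_div, inv_mul_cancel₀ (by positivity), one_pow]
      have h7 := mul_le_mul_of_nonneg_right h4 (show (0 : ℝ) ≤ (2 * (C0 : ℝ)) ^ n by positivity)
      rw [mul_assoc, h6, mul_one, ← pow_add] at h7
      exact h7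
    refine h5.trans ?_
    push_cast
    rw [← pow_mul]
    apply pow_le_pow_right₀ (by linarith)
    have e : (d + 1) * (a + n + 1) = d * (a + n) + d + (a + n + 1) := by ring
    have : 0 ≤ d * (a + n) := Nat.zero_le _
    omega

end Pool.Agent.Lib.SDC
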