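import Pool.Agent.Lib.SDC.Spec

/-!
# Lib/SDC/Gsn: the points where the derivative vanishes
-/

namespace Pool.Agent.Lib.SDC

open Finset Pool.Agent.Lib.SD

private theorem Gsn_ev (x s : ℚ) (g : Polynomial (Polynomial ℤ)) :
    ev2 x s g = Polynomial.eval₂ (Polynomial.evalRingHom x) s
      (g.map (Polynomial.mapRingHom (Int.castRingHom ℚ))) := by
  unfold ev2
  have h1 : (Polynomial.evalRingHom x).comp (Polynomial.mapRingHom (Int.castRingHom ℚ))
      = Polynomial.eval₂RingHom (Int.castRingHom ℚ) x := by
    refine Polynomial.ringHom_ext (fun z => ?_) ?_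
    · simp
    · simp
  rw [Polynomial.eval₂_map, h1]

theorem tGsn : GsnStmt := by
  intro g hirr
  set G := g.map (Polynomial.mapRingHom (Int.castRingHom ℚ)) with hG
  have hrat : ratG g = G.map (algebraMap (Polynomial ℚ) (RatFunc ℚ)) := by
    rw [ratG, hG, Polynomial.map_map]
  have hsep : (ratG g).Separable := hirr.separable
  obtain ⟨a, b, hab⟩ := hsep
  obtain ⟨ra, hra⟩ := IsLocalization.integerNormalization_map_to_map (nonZeroDivisors (Polynomial ℚ)) a
  obtain ⟨rb, hrb⟩ := IsLocalization.integerNormalization_map_to_map (nonZeroDivisors (Polynomial ℚ)) b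
  set a' := IsLocalization.integerNormalization (nonZeroDivisors (Polynomial ℚ)) a with ha'
  set b' := IsLocalization.integerNormalization (nonZeroDivisors (Polynomial ℚ)) b with hb'
  set ψ := algebraMap (Polynomial ℚ) (RatFunc ℚ) with hψ
  have hinj : Function.Injective ψ := IsFractionRing.injective (Polynomial ℚ) (RatFunc ℚ)
  have hra' : a'.map ψ = Polynomial.C (ψ (ra : Polynomial ℚ)) * a := by
    rw [hra, ← algebraMap_smul (RatFunc ℚ) (ra : Polynomial ℚ) a, Polynomial.smul_eq_C_mul]
  have hrb' : b'.map ψ = Polynomial.C (ψ (rb : Polynomial ℚ)) * b := by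
    rw [hrb, ← algebraMap_smul (RatFunc ℚ) (rb : Polynomial ℚ) b, Polynomial.smul_eq_C_mul]
  have hid : Polynomial.C (rb : Polynomial ℚ) * a' * G + Polynomial.C (ra : Polynomial ℚ) * b' *
      Polynomial.derivative G = Polynomial.C ((ra : Polynomial ℚ) * (rb : Polynomial ℚ)) := by
    apply Polynomial.map_injective ψ hinj
    rw [Polynomial.map_add, Polynomial.map_mul, Polynomial.map_mul, Polynomial.map_mul, Polynomial.map_mul,
      Polynomial.map_C, Polynomial.map_C, Polynomial.map_C, hra', hrb', ← Polynomial.derivative_map, ← hrat,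
      map_mul, map_mul]
    calc Polynomial.C (ψ (rb : Polynomial ℚ)) * (Polynomial.C (ψ (ra : Polynomial ℚ)) * a) * ratG g +
          Polynomial.C (ψ (ra : Polynomial ℚ)) * (Polynomial.C (ψ (rb : Polynomial ℚ)) * b) *
            Polynomial.derivative (ratG g)
        = Polynomial.C (ψ (ra : Polynomial ℚ)) * Polynomial.C (ψ (rb : Polynomial ℚ)) *
          (a * ratG g + b * Polynomial.derivative (ratG g)) := by ring
      _ = _ := by rw [hab, mul_one]
  have hR0 : (ra : Polynomial ℚ) * (rb : Polynomial ℚ) ≠ 0 :=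
    mul_ne_zero (nonZeroDivisors.ne_zero ra.2) (nonZeroDivisors.ne_zero rb.2)
  refine ⟨IsLocalization.integerNormalization (nonZeroDivisors ℤ) ((ra : Polynomial ℚ) * (rb : Polynomial ℚ)), ?_, ?_⟩
  · rw [Ne, IsFractionRing.integerNormalization_eq_zero_iff]
    exact hR0
  · intro x s h1 h2
    apply IsLocalization.integerNormalization_aeval_eq_zero
    rw [Gsn_ev] at h1 h2
    rw [← Polynomial.derivative_map, ← hG] at h2
    rw [← hG] at h1
    have h3 := congrArg (Polynomial.eval₂ (Polynomial.evalRingHom x) s) hid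
    simp only [Polynomial.eval₂_add, Polynomial.eval₂_mul, h1, h2, mul_zero, add_zero, Polynomial.eval₂_C] at h3
    exact h3.symm

end Pool.Agent.Lib.SDC
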