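import Pool.Agent.Lib.SDC.Spec

/-!
MP_9f7b43_nt, directory Lib/SDC, module Hen (helper50): formal implicit function theorem over any
commutative ring.
-/

namespace Pool.Agent.Lib.SDC

open Finset Pool.Agent.Lib.SD

private theorem Hen_step {R : Type} [CommRing R] (P : Polynomial (PowerSeries R))
    (h1 : PowerSeries.constantCoeff (P.coeff 1) = 1) (a b : PowerSeries R) (n : ℕ)
    (hb : PowerSeries.constantCoeff b = 0)
    (h : (PowerSeries.X : PowerSeries R) ^ (n + 1) ∣ a - b) :
    (PowerSeries.X : PowerSeries R) ^ (n + 2) ∣ (a - P.eval a) - (b - P.eval b) := by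
  obtain ⟨k, hk⟩ := Polynomial.binomExpansion P b (a - b)
  have hab : b + (a - b) = a := by ring
  rw [hab] at hk
  have he : (a - P.eval a) - (b - P.eval b) =
      (a - b) * (1 - P.derivative.eval b - k * (a - b)) := by
    rw [hk]; ring
  rw [he, pow_succ]
  refine mul_dvd_mul h ?_
  rw [PowerSeries.X_dvd_iff]
  have hc : PowerSeries.constantCoeff (a - b) = 0 := by
    rw [← PowerSeries.X_dvd_iff]
    exact dvd_trans (dvd_pow_self _ (Nat.succ_ne_zero n)) h
  have hd : PowerSeries.constantCoeff (P.derivative.eval b) = 1 := by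
    rw [← Polynomial.eval₂_id, Polynomial.hom_eval₂, RingHomCompTriple.comp_eq, hb,
      ← Polynomial.eval_map, ← Polynomial.coeff_zero_eq_eval_zero, Polynomial.coeff_map,
      Polynomial.coeff_derivative]
    simpa using h1
  rw [map_sub, map_sub, map_mul, hc, hd, map_one]
  ring

/-- Successive approximations. -/
private noncomputable def Hen_seq {R : Type} [CommRing R] (P : Polynomial (PowerSeries R)) :
    ℕ → PowerSeries R
  | 0 => 0
  | k + 1 => Hen_seq P k - P.eval (Hen_seq P k)

theorem tHen : HenStmt := by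
  intro R _ G h0 h1
  let P : Polynomial (PowerSeries R) :=
    G.map (Polynomial.coeToPowerSeries.ringHom : Polynomial R →+* PowerSeries R)
  have hP0 : PowerSeries.constantCoeff (P.coeff 0) = 0 := by
    simp only [P, Polynomial.coeff_map, Polynomial.coeToPowerSeries.ringHom_apply]
    rw [Polynomial.constantCoeff_coe, h0]
  have hP1 : PowerSeries.constantCoeff (P.coeff 1) = 1 := by
    simp only [P, Polynomial.coeff_map, Polynomial.coeToPowerSeries.ringHom_apply]
    rw [Polynomial.constantCoeff_coe, h1]
  let s := Hen_seq P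
  have hs0 : s 0 = 0 := rfl
  have hs1 : ∀ k, s (k + 1) = s k - P.eval (s k) := fun k => rfl
  have hev : ∀ a : PowerSeries R, PowerSeries.constantCoeff a = 0 →
      PowerSeries.constantCoeff (P.eval a) = 0 := by
    intro a ha
    rw [← Polynomial.eval₂_id, Polynomial.hom_eval₂, RingHomCompTriple.comp_eq, ha,
      ← Polynomial.eval_map, ← Polynomial.coeff_zero_eq_eval_zero, Polynomial.coeff_map]
    exact hP0
  have hsc : ∀ k, PowerSeries.constantCoeff (s k) = 0 := by
    intro k
    induction k with
    | zero => rw [hs0, map_zero]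
    | succ k ih => rw [hs1, map_sub, ih, hev _ ih, sub_zero]
  have hd : ∀ k, (PowerSeries.X : PowerSeries R) ^ (k + 1) ∣ s (k + 1) - s k := by
    intro k
    induction k with
    | zero =>
      rw [zero_add, pow_one, PowerSeries.X_dvd_iff, map_sub, hsc, hsc, sub_zero]
    | succ k ih =>
      have := Hen_step P hP1 (s (k + 1)) (s k) k (hsc k) ih
      rw [← hs1, ← hs1] at this
      exact this
  have hco : ∀ j m, PowerSeries.coeff j (s (j + m)) = PowerSeries.coeff j (s j) := by
    intro j m
    induction m with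
    | zero => rw [add_zero]
    | succ m ih =>
      have h2 := (PowerSeries.X_pow_dvd_iff.mp (hd (j + m))) j (by omega)
      rw [map_sub, sub_eq_zero] at h2
      rw [← ih, ← h2]
      rfl
  let η : PowerSeries R := PowerSeries.mk fun k => PowerSeries.coeff k (s k)
  have hη : ∀ k, (PowerSeries.X : PowerSeries R) ^ (k + 1) ∣ η - s k := by
    intro k
    rw [PowerSeries.X_pow_dvd_iff]
    intro j hj
    obtain ⟨m, rfl⟩ := Nat.exists_eq_add_of_le (Nat.lt_succ_iff.mp hj)
    rw [map_sub, hco, PowerSeries.coeff_mk, sub_self]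
  have hc : PowerSeries.constantCoeff η = 0 := by
    have := hη 0
    rw [zero_add, pow_one, PowerSeries.X_dvd_iff, map_sub, hsc, sub_zero] at this
    exact this
  refine ⟨η, hc, ?_⟩
  rw [← Polynomial.eval_map]
  change P.eval η = 0
  ext j
  have h2 := Hen_step P hP1 η (s j) j (hsc j) (hη j)
  have h3 := dvd_trans (pow_dvd_pow (PowerSeries.X : PowerSeries R) (Nat.le_succ (j + 1))) (hη (j + 1))
  have h4 : (PowerSeries.X : PowerSeries R) ^ (j + 1) ∣ P.eval η := by
    have h5 := dvd_trans (pow_dvd_pow (PowerSeries.X : PowerSeries R) (Nat.le_succ (j + 1))) h2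
    have h6 := dvd_sub h3 h5
    have h7 : η - s (j + 1) - (η - P.eval η - (s j - P.eval (s j))) = P.eval η := by
      rw [hs1]; ring
    rwa [h7] at h6
  rw [(PowerSeries.X_pow_dvd_iff.mp h4) j (by omega), map_zero]

end Pool.Agent.Lib.SDC
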