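import Pool.Agent.Lib.SDC.Spec

namespace Pool.Agent.Lib.SDC

open Finset Pool.Agent.Lib.SD

private theorem Hns_sum {R : Type} [CommRing R] (g : Polynomial (Polynomial ℤ)) (I J : ℕ)
    (hI : ∀ j, (g.coeff j).natDegree < I) (hJ : g.natDegree < J) (T S : R) :
    ev2 T S g = ∑ j ∈ range J, ∑ i ∈ range I,
      (((g.coeff j).coeff i : ℤ) : R) * T ^ i * S ^ j := by
  unfold ev2
  rw [Polynomial.eval₂_eq_sum_range' _ hJ]
  refine Finset.sum_congr rfl fun j _ => ?_
  rw [Polynomial.coe_eval₂RingHom, Polynomial.eval₂_eq_sum_range' _ (hI j), Finset.sum_mul]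
  rfl

private theorem Hns_der {R : Type} [CommRing R] (g : Polynomial (Polynomial ℤ)) (I J : ℕ)
    (hI : ∀ j, (g.coeff j).natDegree < I) (hJ : g.natDegree < J) (T S : R) :
    ev2 T S (Polynomial.derivative g) = ∑ j ∈ range J, ∑ i ∈ range I,
      (((g.coeff j).coeff i : ℤ) : R) * T ^ i * ((j : R) * S ^ (j - 1)) := by
  unfold ev2
  rw [Polynomial.eval₂_eq_eval_map, ← Polynomial.derivative_map, Polynomial.derivative_eval,
    Polynomial.sum_over_range' _ (fun n => by rw [zero_mul, zero_mul]) J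
      (lt_of_le_of_lt Polynomial.natDegree_map_le hJ)]
  refine Finset.sum_congr rfl fun j _ => ?_
  rw [Polynomial.coeff_map, Polynomial.coe_eval₂RingHom, Polynomial.eval₂_eq_sum_range' _ (hI j),
    Finset.sum_mul, Finset.sum_mul]
  refine Finset.sum_congr rfl fun i _ => ?_
  rw [mul_assoc]
  rfl

/-- the decomposition of the transformed polynomial -/
private theorem Hns_dec0 {R : Type} [CommRing R] (c : ℕ → ℕ → ℤ) (I J D1 : ℕ) (a b δ N : ℤ)
    (ξ η : R)
    (h0 : ∑ j ∈ range J, ∑ i ∈ range I, c i j * N ^ (D1 - i - j) * a ^ i * b ^ j = 0)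
    (hδ : ∑ j ∈ range J, ∑ i ∈ range I, c i j * N ^ (D1 - i - j) * a ^ i *
      ((j : ℤ) * b ^ (j - 1)) = δ) :
    ∃ W1 W2 : R,
      ∑ j ∈ range J, ∑ i ∈ range I, ((c i j : ℤ) : R) * (N : R) ^ (D1 - i - j) *
        ((a : R) + (δ : R) ^ 2 * ξ) ^ i * ((b : R) + (δ : R) * η) ^ j =
      (δ : R) ^ 2 * (η + (ξ * W1 + η ^ 2 * W2)) := by
  have hA : ∀ i : ℕ, ∃ A : R, ((a : R) + (δ : R) ^ 2 * ξ) ^ i = (a : R) ^ i + (δ : R) ^ 2 * ξ * A := by
    intro i
    obtain ⟨A, hA⟩ := sub_dvd_pow_sub_pow ((a : R) + (δ : R) ^ 2 * ξ) (a : R) i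
    refine ⟨A, ?_⟩
    linear_combination hA
  have hB : ∀ j : ℕ, ∃ B : R, ((b : R) + (δ : R) * η) ^ j =
      (b : R) ^ j + (j : R) * (b : R) ^ (j - 1) * ((δ : R) * η) + B * ((δ : R) * η) ^ 2 := by
    intro j
    exact ⟨(Polynomial.powAddExpansion (b : R) ((δ : R) * η) j).1,
      (Polynomial.powAddExpansion (b : R) ((δ : R) * η) j).2⟩
  choose A hA using hA
  choose B hB using hB
  refine ⟨∑ j ∈ range J, ∑ i ∈ range I, ((c i j : ℤ) : R) * (N : R) ^ (D1 - i - j) *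
    A i * ((b : R) + (δ : R) * η) ^ j,
    ∑ j ∈ range J, ∑ i ∈ range I, ((c i j : ℤ) : R) * (N : R) ^ (D1 - i - j) *
    (a : R) ^ i * B j, ?_⟩
  have h0' : ∑ j ∈ range J, ∑ i ∈ range I, ((c i j : ℤ) : R) * (N : R) ^ (D1 - i - j) *
      (a : R) ^ i * (b : R) ^ j = 0 := by
    have := congrArg (Int.cast : ℤ → R) h0
    push_cast at this
    exact this
  have hδ' : ∑ j ∈ range J, ∑ i ∈ range I, ((c i j : ℤ) : R) * (N : R) ^ (D1 - i - j) *
      (a : R) ^ i * ((j : R) * (b : R) ^ (j - 1)) = (δ : R) := by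
    have := congrArg (Int.cast : ℤ → R) hδ
    push_cast at this
    exact this
  have h3 : ∑ j ∈ range J, ∑ i ∈ range I, ((c i j : ℤ) : R) * (N : R) ^ (D1 - i - j) *
      ((a : R) + (δ : R) ^ 2 * ξ) ^ i * ((b : R) + (δ : R) * η) ^ j =
      (∑ j ∈ range J, ∑ i ∈ range I, ((c i j : ℤ) : R) * (N : R) ^ (D1 - i - j) *
        (a : R) ^ i * (b : R) ^ j) +
      (δ : R) * η * (∑ j ∈ range J, ∑ i ∈ range I, ((c i j : ℤ) : R) * (N : R) ^ (D1 - i - j) *
        (a : R) ^ i * ((j : R) * (b : R) ^ (j - 1))) +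
      ((δ : R) ^ 2 * ξ * (∑ j ∈ range J, ∑ i ∈ range I, ((c i j : ℤ) : R) *
        (N : R) ^ (D1 - i - j) * A i * ((b : R) + (δ : R) * η) ^ j) +
      (δ : R) ^ 2 * η ^ 2 * (∑ j ∈ range J, ∑ i ∈ range I, ((c i j : ℤ) : R) *
        (N : R) ^ (D1 - i - j) * (a : R) ^ i * B j)) := by
    simp only [Finset.mul_sum, ← Finset.sum_add_distrib]
    refine Finset.sum_congr rfl fun j _ => Finset.sum_congr rfl fun i _ => ?_
    have e1 := hA i
    have e2 := hB j
    linear_combination (((c i j : ℤ) : R) * (N : R) ^ (D1 - i - j) *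
      ((b : R) + (δ : R) * η) ^ j) * e1 +
      (((c i j : ℤ) : R) * (N : R) ^ (D1 - i - j) * (a : R) ^ i) * e2
  rw [h3, h0', hδ']
  ring

private theorem Hns_dec (c : ℕ → ℕ → ℤ) (I J D1 : ℕ) (a b δ N : ℤ)
    (h0 : ∑ j ∈ range J, ∑ i ∈ range I, c i j * N ^ (D1 - i - j) * a ^ i * b ^ j = 0)
    (hδ : ∑ j ∈ range J, ∑ i ∈ range I, c i j * N ^ (D1 - i - j) * a ^ i * ((j : ℤ) * b ^ (j - 1)) = δ) :
    ∃ G : Polynomial (Polynomial ℤ), (G.coeff 0).coeff 0 = 0 ∧ (G.coeff 1).coeff 0 = 1 ∧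
      ∑ j ∈ range J, ∑ i ∈ range I, ((c i j : ℤ) : Polynomial (Polynomial ℤ)) *
        (N : Polynomial (Polynomial ℤ)) ^ (D1 - i - j) *
        ((a : Polynomial (Polynomial ℤ)) + (δ : Polynomial (Polynomial ℤ)) ^ 2 *
          Polynomial.C Polynomial.X) ^ i *
        ((b : Polynomial (Polynomial ℤ)) + (δ : Polynomial (Polynomial ℤ)) * Polynomial.X) ^ j =
      (δ : Polynomial (Polynomial ℤ)) ^ 2 * G := by
  obtain ⟨W1, W2, hW⟩ := Hns_dec0 c I J D1 a b δ N
    (Polynomial.C Polynomial.X : Polynomial (Polynomial ℤ)) Polynomial.X h0 hδ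
  refine ⟨_, ?_, ?_, hW⟩
  · rw [Polynomial.coeff_add, Polynomial.coeff_add, Polynomial.coeff_add, Polynomial.coeff_add,
      Polynomial.coeff_X_zero, Polynomial.coeff_C_mul,
      Polynomial.coeff_zero_eq_eval_zero (Polynomial.X ^ 2 * W2)]
    simp
  · have h2 : (Polynomial.X ^ 2 * W2).coeff 1 = 0 := by
      rw [Polynomial.coeff_X_pow_mul']
      simp
    rw [Polynomial.coeff_add, Polynomial.coeff_add, Polynomial.coeff_add, Polynomial.coeff_add,
      Polynomial.coeff_X_one, Polynomial.coeff_C_mul, h2]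
    simp

theorem tHns (h1 : HenStmt) : HnsStmt := by
  intro g
  obtain ⟨I, hI⟩ : ∃ I : ℕ, ∀ j, (g.coeff j).natDegree < I := by
    refine ⟨(g.support.sup fun j => (g.coeff j).natDegree) + 1, fun j => ?_⟩
    by_cases hj : j ∈ g.support
    · exact Nat.lt_succ_of_le (Finset.le_sup (f := fun j => (g.coeff j).natDegree) hj)
    · rw [Polynomial.notMem_support_iff.1 hj, Polynomial.natDegree_zero]
      exact Nat.succ_pos _
  obtain ⟨J, hJ⟩ : ∃ J : ℕ, g.natDegree < J := ⟨g.natDegree + 1, Nat.lt_succ_self _⟩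
  refine ⟨I + J - 1, ?_⟩
  intro x s N hN hx hs hg hg'
  obtain ⟨a, ha⟩ := hx
  obtain ⟨b, hb⟩ := hs
  set c : ℕ → ℕ → ℤ := fun i j => (g.coeff j).coeff i with hc
  set D1 := I + J with hD1
  have hN0 : (N : ℚ) ≠ 0 := by exact_mod_cast (by omega : N ≠ 0)
  set δ : ℤ := ∑ j ∈ range J, ∑ i ∈ range I,
    c i j * (N : ℤ) ^ (D1 - i - j) * a ^ i * ((j : ℤ) * b ^ (j - 1)) with hδ
  have h0 : ∑ j ∈ range J, ∑ i ∈ range I, c i j * (N : ℤ) ^ (D1 - i - j) * a ^ i * b ^ j = 0 := by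
    have e1 : ((∑ j ∈ range J, ∑ i ∈ range I,
        c i j * (N : ℤ) ^ (D1 - i - j) * a ^ i * b ^ j : ℤ) : ℚ) = (N : ℚ) ^ D1 * ev2 x s g := by
      rw [Hns_sum g I J hI hJ x s, Finset.mul_sum]
      push_cast
      refine Finset.sum_congr rfl fun j hj => ?_
      rw [Finset.mul_sum]
      refine Finset.sum_congr rfl fun i hi => ?_
      rw [Finset.mem_range] at hi hj
      rw [← ha, ← hb, mul_pow, mul_pow]
      have e2 : (N : ℚ) ^ D1 = (N : ℚ) ^ (D1 - i - j) * (N : ℚ) ^ i * (N : ℚ) ^ j := by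
        rw [← pow_add, ← pow_add]
        congr 1
        omega
      rw [e2]
      ring
    rw [hg, mul_zero] at e1
    exact_mod_cast e1
  have hδq : (δ : ℚ) = (N : ℚ) ^ (I + J - 1) * ev2 x s (Polynomial.derivative g) := by
    rw [Hns_der g I J hI hJ x s, Finset.mul_sum, hδ]
    push_cast
    refine Finset.sum_congr rfl fun j hj => ?_
    rw [Finset.mul_sum]
    refine Finset.sum_congr rfl fun i hi => ?_
    rw [Finset.mem_range] at hi hj
    rcases Nat.eq_zero_or_pos j with h | h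
    · subst h
      simp
    · rw [← ha, ← hb, mul_pow, mul_pow]
      have e2 : (N : ℚ) ^ (I + J - 1) = (N : ℚ) ^ (D1 - i - j) * (N : ℚ) ^ i * (N : ℚ) ^ (j - 1) := by
        rw [← pow_add, ← pow_add]
        congr 1
        omega
      rw [e2]
      ring
  have hδ0 : (δ : ℚ) ≠ 0 := by
    rw [hδq]
    exact mul_ne_zero (pow_ne_zero _ hN0) hg'
  obtain ⟨G, hG0, hG1, hG2⟩ := Hns_dec c I J D1 a b δ N h0 hδ.symm
  obtain ⟨η, hη0, hη⟩ := h1 ℤ G hG0 hG1
  -- the ring homomorphisms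
  set q : ℚ := (N : ℚ) / (δ : ℚ) ^ 2 with hq
  set φ : PowerSeries ℤ →+* PowerSeries ℚ :=
    (PowerSeries.rescale q).comp (PowerSeries.map (Int.castRingHom ℚ)) with hφ
  set ψ : Polynomial (Polynomial ℤ) →+* PowerSeries ℚ :=
    φ.comp (Polynomial.eval₂RingHom
      (Polynomial.coeToPowerSeries.ringHom : Polynomial ℤ →+* PowerSeries ℤ) η) with hψ
  have hψG : ψ G = 0 := by
    rw [hψ, RingHom.comp_apply, Polynomial.coe_eval₂RingHom, hη, map_zero]
  have hψξ : ψ (Polynomial.C Polynomial.X) = PowerSeries.C q * PowerSeries.X := by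
    rw [hψ, RingHom.comp_apply, Polynomial.coe_eval₂RingHom, Polynomial.eval₂_C,
      Polynomial.coeToPowerSeries.ringHom_apply, Polynomial.coe_X, hφ, RingHom.comp_apply,
      PowerSeries.map_X]
    ext n
    rw [PowerSeries.coeff_rescale, PowerSeries.coeff_C_mul, PowerSeries.coeff_X]
    split_ifs with h
    · rw [h, pow_one]
    · rw [mul_zero, mul_zero]
  have hψη : ψ Polynomial.X = φ η := by
    rw [hψ, RingHom.comp_apply, Polynomial.coe_eval₂RingHom, Polynomial.eval₂_X]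
  set S : PowerSeries ℚ := PowerSeries.C s + PowerSeries.C ((δ : ℚ) / N) * φ η with hS
  have hcast : ∀ z : ℤ, ((z : ℤ) : PowerSeries ℚ) = PowerSeries.C (z : ℚ) := by
    intro z
    rw [map_intCast]
  have hcastN : ((N : ℕ) : PowerSeries ℚ) = PowerSeries.C (N : ℚ) := by
    rw [map_natCast]
  have e1 : ((a : ℤ) : PowerSeries ℚ) + (δ : PowerSeries ℚ) ^ 2 *
      (PowerSeries.C q * PowerSeries.X) = PowerSeries.C (N : ℚ) *
        (PowerSeries.C x + PowerSeries.X) := by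
    have e0 : (δ : ℚ) ^ 2 * q = N := by
      rw [hq]
      field_simp
    rw [hcast, hcast, ← ha, map_mul, mul_add, ← map_pow, ← mul_assoc, ← e0, map_mul]
  have e2 : ((b : ℤ) : PowerSeries ℚ) + (δ : PowerSeries ℚ) * φ η = PowerSeries.C (N : ℚ) * S := by
    have e0 : (N : ℚ) * ((δ : ℚ) / N) = δ := by
      field_simp
    rw [hcast, hcast, ← hb, map_mul, hS, mul_add, ← mul_assoc, ← map_mul, ← map_mul, e0, map_mul]
  have hphi0 : PowerSeries.constantCoeff (φ η) = 0 := by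
    rw [hφ, RingHom.comp_apply, ← PowerSeries.coeff_zero_eq_constantCoeff_apply,
      PowerSeries.coeff_rescale, PowerSeries.coeff_map, PowerSeries.coeff_zero_eq_constantCoeff_apply,
      hη0]
    simp
  have hmain : PowerSeries.C ((N : ℚ) ^ D1) * ev2 (PowerSeries.C x + PowerSeries.X) S g = 0 := by
    have e3 := congrArg ψ hG2
    rw [map_mul, hψG, mul_zero] at e3
    rw [← e3, Hns_sum g I J hI hJ, Finset.mul_sum, map_sum]
    refine Finset.sum_congr rfl fun j hj => ?_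
    rw [Finset.mul_sum, map_sum]
    refine Finset.sum_congr rfl fun i hi => ?_
    rw [Finset.mem_range] at hi hj
    simp only [map_mul, map_pow, map_add, map_intCast]
    rw [hψξ, hψη, e1, e2, mul_pow, mul_pow, ← map_pow]
    have e4 : PowerSeries.C ((N : ℚ) ^ D1) = ((N : ℤ) : PowerSeries ℚ) ^ (D1 - i - j) *
        PowerSeries.C (N : ℚ) ^ i * PowerSeries.C (N : ℚ) ^ j := by
      rw [hcast, Int.cast_natCast, ← pow_add, ← pow_add, map_pow]
      congr 1
      omega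
    rw [e4, hc]
    ring
  have hev : ev2 (PowerSeries.C x + PowerSeries.X) S g = 0 := by
    have e5 : PowerSeries.C ((N : ℚ) ^ D1) ≠ 0 := by
      intro h
      have := congrArg PowerSeries.constantCoeff h
      rw [PowerSeries.constantCoeff_C, map_zero] at this
      exact pow_ne_zero _ hN0 this
    exact (mul_eq_zero.1 hmain).resolve_left e5
  refine ⟨S, (δ ^ 2).toNat, ?_, hev, ?_, ?_, ?_⟩
  · rw [hS, map_add, map_mul, hphi0, mul_zero, add_zero, PowerSeries.constantCoeff_C]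
  · have hd : δ ≠ 0 := by exact_mod_cast hδ0
    have : 0 < δ ^ 2 := by positivity
    omega
  · intro k
    have hA : (((δ ^ 2).toNat : ℕ) : ℚ) = (δ : ℚ) ^ 2 := by
      have : (((δ ^ 2).toNat : ℕ) : ℤ) = δ ^ 2 := Int.toNat_of_nonneg (by positivity)
      exact_mod_cast congrArg (Int.cast : ℤ → ℚ) this
    rw [hA]
    rcases Nat.eq_zero_or_pos k with h | h
    · subst h
      refine ⟨b, ?_⟩
      rw [PowerSeries.coeff_zero_eq_constantCoeff_apply, hS, map_add, map_mul, hphi0, mul_zero,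
        add_zero, PowerSeries.constantCoeff_C, pow_zero, mul_one, hb]
    · refine ⟨δ * N ^ k * PowerSeries.coeff k η, ?_⟩
      rw [hS, map_add, PowerSeries.coeff_C, if_neg (by omega), zero_add, PowerSeries.coeff_C_mul,
        hφ, RingHom.comp_apply, PowerSeries.coeff_rescale, PowerSeries.coeff_map, hq]
      push_cast
      simp only [eq_intCast]
      rw [div_pow]
      field_simp
  · have : (((δ ^ 2).toNat : ℕ) : ℤ) = δ ^ 2 := Int.toNat_of_nonneg (by positivity)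
    have h2 : (((δ ^ 2).toNat : ℕ) : ℚ) = (δ : ℚ) ^ 2 := by
      exact_mod_cast congrArg (Int.cast : ℤ → ℚ) this
    rw [h2, hδq]

end Pool.Agent.Lib.SDC
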