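import Pool.Agent.Lib.SDC.Spec

/-!
MP_9f7b43_nt, directory Lib/SDC, module Idp: independence at a rational point.
-/

namespace Pool.Agent.Lib.SDC

open Finset Pool.Agent.Lib.SD

/-- The substitution `T ↦ x + X` from polynomials to power series. -/
noncomputable def Idp_psi (x : ℚ) : Polynomial ℚ →+* PowerSeries ℚ :=
  Polynomial.eval₂RingHom (PowerSeries.C : ℚ →+* PowerSeries ℚ) (PowerSeries.C x + PowerSeries.X)

theorem Idp_psi_eq (x : ℚ) (p : Polynomial ℚ) :
    Idp_psi x p = Polynomial.coeToPowerSeries.ringHom (p.comp (Polynomial.X + Polynomial.C x)) := by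
  have h : Idp_psi x = (Polynomial.coeToPowerSeries.ringHom (R := ℚ)).comp
      (Polynomial.compRingHom (Polynomial.X + Polynomial.C x)) := by
    apply Polynomial.ringHom_ext
    · intro a
      simp [Idp_psi]
    · simp [Idp_psi, add_comm]
  rw [h]
  rfl

theorem Idp_psi_inj (x : ℚ) : Function.Injective (Idp_psi x) := by
  rw [injective_iff_map_eq_zero]
  intro p hp
  rw [Idp_psi_eq] at hp
  have h1 : p.comp (Polynomial.X + Polynomial.C x) = 0 := by
    have h2 : Function.Injective (Polynomial.coeToPowerSeries.ringHom (R := ℚ)) := by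
      intro a b hab
      rw [Polynomial.coeToPowerSeries.ringHom_apply, Polynomial.coeToPowerSeries.ringHom_apply] at hab
      exact Polynomial.coe_injective ℚ hab
    apply h2
    rw [hp, map_zero]
  exact Polynomial.comp_X_add_C_eq_zero_iff.1 h1

theorem tIdp : IdpStmt := by
  intro d g x S hd hmon hdeg hirr hev
  refine ⟨hev, ?_, ?_⟩
  · rw [map_add, PowerSeries.coeff_one_X, PowerSeries.coeff_C, if_neg one_ne_zero, zero_add]
    exact one_ne_zero
  · intro q hq
    set T : PowerSeries ℚ := PowerSeries.C x + PowerSeries.X with hT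
    let K := FractionRing (PowerSeries ℚ)
    let ι : PowerSeries ℚ →+* K := algebraMap (PowerSeries ℚ) K
    have hι : Function.Injective ι := IsFractionRing.injective (PowerSeries ℚ) K
    have hinj : Function.Injective (ι.comp (Idp_psi x)) := hι.comp (Idp_psi_inj x)
    let φ : RatFunc ℚ →+* K := IsFractionRing.lift hinj
    have hφ : ∀ p : Polynomial ℚ, φ (algebraMap (Polynomial ℚ) (RatFunc ℚ) p) = ι (Idp_psi x p) := by
      intro p
      exact IsFractionRing.lift_algebraMap hinj p
    let h : Polynomial ℤ →+* RatFunc ℚ :=
      (algebraMap (Polynomial ℚ) (RatFunc ℚ)).comp (Polynomial.mapRingHom (Int.castRingHom ℚ))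
    have hh : φ.comp h = ι.comp (Polynomial.eval₂RingHom (Int.castRingHom (PowerSeries ℚ)) T) := by
      apply Polynomial.ringHom_ext
      · intro a
        simp
      · show φ (algebraMap (Polynomial ℚ) (RatFunc ℚ) (Polynomial.map (Int.castRingHom ℚ) Polynomial.X)) =
          ι (Polynomial.eval₂ (Int.castRingHom (PowerSeries ℚ)) T Polynomial.X)
        rw [hφ, Polynomial.map_X, Polynomial.eval₂_X]
        congr 1
        rw [Idp_psi, Polynomial.coe_eval₂RingHom, Polynomial.eval₂_X]
    have key : ∀ G : Polynomial (Polynomial ℤ), ev2 T S G = 0 → Polynomial.eval₂ φ (ι S) (G.map h) = 0 := by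
      intro G hG
      rw [Polynomial.eval₂_map, hh, ← Polynomial.hom_eval₂]
      have : Polynomial.eval₂ (Polynomial.eval₂RingHom (Int.castRingHom (PowerSeries ℚ)) T) S G = 0 := hG
      rw [this, map_zero]
    let Q : Polynomial (Polynomial ℤ) := ∑ j ∈ range d, Polynomial.C (q j) * Polynomial.X ^ j
    have hQc : ∀ m, Q.coeff m = if m < d then q m else 0 := by
      intro m
      show (∑ j ∈ range d, Polynomial.C (q j) * Polynomial.X ^ j).coeff m = _
      rw [Polynomial.finsetSum_coeff]
      simp only [Polynomial.coeff_C_mul_X_pow]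
      rw [Finset.sum_ite_eq]
      simp
    have hQ0 : ev2 T S Q = 0 := by
      show Polynomial.eval₂ (Polynomial.eval₂RingHom (Int.castRingHom (PowerSeries ℚ)) T) S
        (∑ j ∈ range d, Polynomial.C (q j) * Polynomial.X ^ j) = 0
      rw [Polynomial.eval₂_finsetSum, ← hq]
      apply Finset.sum_congr rfl
      intro j _
      rw [Polynomial.eval₂_mul, Polynomial.eval₂_C, Polynomial.eval₂_pow, Polynomial.eval₂_X,
        Polynomial.coe_eval₂RingHom, Polynomial.aeval_def, Subsingleton.elim (Int.castRingHom (PowerSeries ℚ))
          (algebraMap ℤ (PowerSeries ℚ))]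
    have h1 := key g hev
    have h2 := key Q hQ0
    have hhinj : Function.Injective h := by
      have a1 : Function.Injective (algebraMap (Polynomial ℚ) (RatFunc ℚ)) := IsFractionRing.injective _ _
      have a2 : Function.Injective (Polynomial.mapRingHom (Int.castRingHom ℚ)) := by
        rw [Polynomial.coe_mapRingHom]
        exact Polynomial.map_injective _ (Int.cast_injective)
      exact a1.comp a2
    have hQz : Q.map h = 0 := by
      by_contra hne
      have hnd : ¬ (g.map h) ∣ (Q.map h) := by
        intro hdvd
        have hle := Polynomial.degree_le_of_dvd hdvd hne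
        have e1 : (g.map h).degree = d := by
          rw [hmon.degree_map, Polynomial.degree_eq_natDegree hmon.ne_zero, hdeg]
        have e2 : (Q.map h).degree < d := by
          refine lt_of_le_of_lt Polynomial.degree_map_le ?_
          rw [Polynomial.degree_lt_iff_coeff_zero]
          intro m hm
          rw [hQc, if_neg (not_lt.2 hm)]
        rw [e1] at hle
        exact absurd (lt_of_le_of_lt hle e2) (lt_irrefl _)
      have hirr' : Irreducible (g.map h) := hirr
      have hcop : IsCoprime (g.map h) (Q.map h) := (hirr'.coprime_iff_not_dvd).2 hnd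
      obtain ⟨a, b, hab⟩ := hcop
      have h3 := congrArg (Polynomial.eval₂ φ (ι S)) hab
      rw [Polynomial.eval₂_add, Polynomial.eval₂_mul, Polynomial.eval₂_mul, h1, h2, mul_zero, mul_zero,
        add_zero, Polynomial.eval₂_one] at h3
      exact zero_ne_one h3
    have hQz' : Q = 0 := Polynomial.map_injective h hhinj (by rw [hQz, Polynomial.map_zero])
    intro j hj
    have := hQc j
    rw [hQz', Polynomial.coeff_zero, if_pos hj] at this
    exact this.symm

end Pool.Agent.Lib.SDC
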