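import Pool.Agent.Lib.SDC.Spec

/-! Module Inv of Lib/SDC: division by `(u + X)^M` (helper43). -/

namespace Pool.Agent.Lib.SDC

open Finset Pool.Agent.Lib.SD

theorem Inv_aux (u B : ℝ) (hu : u ≠ 0) (hB : 0 ≤ B) (M : ℕ) : ∀ (f h : PowerSeries ℝ),
    (PowerSeries.C u + PowerSeries.X) ^ M * f = h →
    (∀ i, |PowerSeries.coeff i h| ≤ B * (1 / |u|) ^ i) →
    ∀ k, |PowerSeries.coeff k f| ≤ ((M + k).choose k : ℝ) * B * (1 / |u|) ^ (M + k) := by
  induction M with
  | zero =>
    intro f h hf hh k
    rw [pow_zero, one_mul] at hf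
    subst hf
    have := hh k
    simpa using this
  | succ M ih =>
    intro f h hf hh
    have hq : 0 < 1 / |u| := by positivity
    have hf1 : (PowerSeries.C u + PowerSeries.X) ^ M *
        ((PowerSeries.C u + PowerSeries.X) * f) = h := by
      rw [← hf]; ring
    have h1 := ih _ _ hf1 hh
    have h0 : PowerSeries.coeff 0 ((PowerSeries.C u + PowerSeries.X) * f) =
        u * PowerSeries.coeff 0 f := by
      rw [add_mul, map_add, PowerSeries.coeff_C_mul, PowerSeries.coeff_zero_X_mul, add_zero]
    have hs : ∀ k, PowerSeries.coeff (k + 1) ((PowerSeries.C u + PowerSeries.X) * f) =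
        u * PowerSeries.coeff (k + 1) f + PowerSeries.coeff k f := by
      intro k
      rw [add_mul, map_add, PowerSeries.coeff_C_mul, PowerSeries.coeff_succ_X_mul]
    intro k
    induction k with
    | zero =>
      have h2 := h1 0
      rw [h0, abs_mul] at h2
      have h3 : |PowerSeries.coeff 0 f| = (|u| * |PowerSeries.coeff 0 f|) * (1 / |u|) := by
        have : |u| ≠ 0 := abs_ne_zero.mpr hu
        field_simp
      rw [h3]
      calc |u| * |PowerSeries.coeff 0 f| * (1 / |u|)
          ≤ (((M + 0).choose 0 : ℝ) * B * (1 / |u|) ^ (M + 0)) * (1 / |u|) := by gcongr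
        _ = _ := by simp; ring
    | succ k ihk =>
      have h2 := h1 (k + 1)
      rw [hs] at h2
      have h3 : |u| * |PowerSeries.coeff (k + 1) f| ≤
          ((M + (k + 1)).choose (k + 1) : ℝ) * B * (1 / |u|) ^ (M + (k + 1)) +
          ((M + 1 + k).choose k : ℝ) * B * (1 / |u|) ^ (M + 1 + k) := by
        rw [← abs_mul]
        have h4 : u * PowerSeries.coeff (k + 1) f =
            (u * PowerSeries.coeff (k + 1) f + PowerSeries.coeff k f) - PowerSeries.coeff k f := by
          ring
        rw [h4]
        exact (abs_sub _ _).trans (add_le_add h2 ihk)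
      have h5 : |PowerSeries.coeff (k + 1) f| =
          (|u| * |PowerSeries.coeff (k + 1) f|) * (1 / |u|) := by
        have : |u| ≠ 0 := abs_ne_zero.mpr hu
        field_simp
      rw [h5]
      have h6 : (((M + 1 + (k + 1)).choose (k + 1) : ℕ) : ℝ) =
          ((M + 1 + k).choose k : ℝ) + ((M + (k + 1)).choose (k + 1) : ℝ) := by
        have e1 : M + 1 + (k + 1) = (M + 1 + k) + 1 := by ring
        have e2 : M + (k + 1) = M + 1 + k := by ring
        rw [e1, e2, Nat.choose_succ_succ]
        push_cast
        ring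
      rw [h6]
      have e2 : M + (k + 1) = M + 1 + k := by ring
      have e3 : M + 1 + (k + 1) = (M + 1 + k) + 1 := by ring
      calc |u| * |PowerSeries.coeff (k + 1) f| * (1 / |u|)
          ≤ (((M + (k + 1)).choose (k + 1) : ℝ) * B * (1 / |u|) ^ (M + (k + 1)) +
          ((M + 1 + k).choose k : ℝ) * B * (1 / |u|) ^ (M + 1 + k)) * (1 / |u|) := by gcongr
        _ = _ := by
          rw [e3, pow_succ (1 / |u|) (M + 1 + k), e2]
          ring

theorem tInv : InvStmt := by
  intro u B M f h hu hB hf hh k
  refine (Inv_aux u B hu hB M f h hf hh k).trans ?_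
  have hq : 0 < 1 / |u| := by positivity
  have h1 : (((M + k).choose k : ℕ) : ℝ) ≤ 2 ^ (M + k) := by
    exact_mod_cast Nat.choose_le_two_pow (M + k) k
  gcongr

end Pool.Agent.Lib.SDC
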