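import Pool.Agent.Lib.SDC.Spec

namespace Pool.Agent.Lib.SDC

open Finset Pool.Agent.Lib.SD

/-- the exponent with entries `a, b` -/
private noncomputable def Jnt_k (a b : ℕ) : Fin 2 →₀ ℕ := Finsupp.single 0 a + Finsupp.single 1 b

private theorem Jnt_k0 (a b : ℕ) : Jnt_k a b 0 = a := by
  simp [Jnt_k]

private theorem Jnt_k1 (a b : ℕ) : Jnt_k a b 1 = b := by
  simp [Jnt_k]

private theorem Jnt_eta (κ : Fin 2 →₀ ℕ) : Jnt_k (κ 0) (κ 1) = κ := by
  ext i
  fin_cases i
  · exact Jnt_k0 _ _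
  · exact Jnt_k1 _ _

private theorem Jnt_expand {B : Type*} [CommRing B] [Algebra ℤ B] (w : MvPolynomial (Fin 2) ℤ) (M : ℕ)
    (hM : w.totalDegree < M) (x y : B) :
    (MvPolynomial.aeval ![x, y] : MvPolynomial (Fin 2) ℤ →ₐ[ℤ] B) w =
      ∑ a ∈ range M, ∑ b ∈ range M,
        ((MvPolynomial.coeff (Jnt_k a b) w : ℤ) : B) * (x ^ a * y ^ b) := by
  rw [MvPolynomial.aeval_def, MvPolynomial.eval₂_eq', ← Finset.sum_product']
  have hinj : Set.InjOn (fun p : ℕ × ℕ => Jnt_k p.1 p.2) ((range M ×ˢ range M : Finset (ℕ × ℕ)) :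
      Set (ℕ × ℕ)) := by
    intro p _ q _ h
    have h0 := DFunLike.congr_fun h 0
    have h1 := DFunLike.congr_fun h 1
    simp only [Jnt_k0, Jnt_k1] at h0 h1
    exact Prod.ext h0 h1
  have h1 : ∑ p ∈ range M ×ˢ range M,
      ((MvPolynomial.coeff (Jnt_k p.1 p.2) w : ℤ) : B) * (x ^ p.1 * y ^ p.2) =
      ∑ κ ∈ (range M ×ˢ range M).image (fun p : ℕ × ℕ => Jnt_k p.1 p.2),
        ((MvPolynomial.coeff κ w : ℤ) : B) * (x ^ κ 0 * y ^ κ 1) := by
    rw [Finset.sum_image hinj]
    simp only [Jnt_k0, Jnt_k1]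
  rw [h1]
  have h2 : w.support ⊆ (range M ×ˢ range M).image (fun p : ℕ × ℕ => Jnt_k p.1 p.2) := by
    intro κ hκ
    rw [Finset.mem_image]
    refine ⟨(κ 0, κ 1), ?_, Jnt_eta κ⟩
    rw [Finset.mem_product, Finset.mem_range, Finset.mem_range]
    have h3 : ∀ i, κ i ≤ w.totalDegree := fun i =>
      (MvPolynomial.monomial_le_degreeOf i hκ).trans (MvPolynomial.degreeOf_le_totalDegree w i)
    exact ⟨(h3 0).trans_lt hM, (h3 1).trans_lt hM⟩
  rw [← Finset.sum_subset h2]
  · refine Finset.sum_congr rfl fun κ _ => ?_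
    rw [Fin.prod_univ_two]
    simp
  · intro κ _ hκ
    rw [MvPolynomial.notMem_support_iff.mp hκ]
    simp

private theorem Jnt_rat (d M : ℕ) (g : Polynomial (Polynomial ℤ)) (T S : PowerSeries ℚ)
    (h : Ptz d g T S) (W : ℕ → ℕ → ℚ)
    (hW : ∑ j ∈ range d, ∑ a ∈ range M, W j a • (T ^ a * S ^ j) = 0) :
    ∀ j < d, ∀ a < M, W j a = 0 := by
  obtain ⟨D, hD⟩ := IsLocalization.exist_integer_multiples_of_finset (nonZeroDivisors ℤ)
    ((range d ×ˢ range M).image fun p : ℕ × ℕ => W p.1 p.2)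
  have hD0 : ((D : ℤ) : ℚ) ≠ 0 := by
    exact_mod_cast nonZeroDivisors.ne_zero D.2
  have hz : ∀ j a, ∃ z : ℤ, j < d → a < M → (z : ℚ) = (D : ℤ) * W j a := by
    intro j a
    by_cases hj : j < d ∧ a < M
    · have := hD (W j a) (Finset.mem_image.mpr ⟨(j, a), by simp [hj.1, hj.2], rfl⟩)
      obtain ⟨z, hz⟩ := this
      refine ⟨z, fun _ _ => ?_⟩
      simpa [Algebra.smul_def] using hz
    · exact ⟨0, fun h1 h2 => absurd ⟨h1, h2⟩ hj⟩
  choose z hz using hz
  have h0 : ∑ j ∈ range d,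
      Polynomial.aeval T (∑ a ∈ range M, Polynomial.C (z j a) * Polynomial.X ^ a) * S ^ j = 0 := by
    have h1 : ∑ j ∈ range d,
        Polynomial.aeval T (∑ a ∈ range M, Polynomial.C (z j a) * Polynomial.X ^ a) * S ^ j =
        ((D : ℤ) : ℚ) • ∑ j ∈ range d, ∑ a ∈ range M, W j a • (T ^ a * S ^ j) := by
      rw [Finset.smul_sum]
      refine Finset.sum_congr rfl fun j hj => ?_
      rw [map_sum, Finset.sum_mul, Finset.smul_sum]
      refine Finset.sum_congr rfl fun a ha => ?_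
      have h2 := hz j a (Finset.mem_range.mp hj) (Finset.mem_range.mp ha)
      rw [smul_smul, ← h2]
      simp only [map_mul, Polynomial.aeval_C, map_pow, Polynomial.aeval_X]
      rw [Algebra.smul_def]
      simp [mul_assoc]
    rw [h1, hW, smul_zero]
  intro j hj a ha
  have h3 := h.ind (fun j => ∑ a ∈ range M, Polynomial.C (z j a) * Polynomial.X ^ a) h0 j hj
  have h4 := congrArg (fun q => Polynomial.coeff q a) h3
  simp only [Polynomial.finsetSum_coeff, Polynomial.coeff_C_mul, Polynomial.coeff_X_pow,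
    Polynomial.coeff_zero] at h4
  have h5 : z j a = 0 := by
    rw [Finset.sum_eq_single a] at h4
    · simpa using h4
    · intro b _ hb
      rw [if_neg (Ne.symm hb), mul_zero]
    · intro h6
      exact absurd (Finset.mem_range.mpr ha) h6
  have h6 := hz j a hj ha
  rw [h5, Int.cast_zero] at h6
  rcases mul_eq_zero.mp h6.symm with h7 | h7
  · exact absurd h7 hD0
  · exact h7

private theorem Jnt_coeff (n : ℕ) (F G : PowerSeries ℚ) :
    PowerSeries.coeff n (e0 F * e1 G) = PowerSeries.coeff n G • F := by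
  rw [e0, PowerSeries.coeff_C_mul, e1, PowerSeries.coeff_map, mul_comm,
    ← PowerSeries.smul_eq_C_mul]

theorem tJnt : JntStmt := by
  intro d g T0 S0 T1 S1 h0 h1 w hw
  set M := (∑ j ∈ range d, ∑ k ∈ range d, (w j k).totalDegree) + 1 with hM
  have hdeg : ∀ j < d, ∀ k < d, (w j k).totalDegree < M := by
    intro j hj k hk
    have e1 : (w j k).totalDegree ≤ ∑ k ∈ range d, (w j k).totalDegree :=
      Finset.single_le_sum (f := fun k => (w j k).totalDegree) (fun _ _ => Nat.zero_le _)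
        (Finset.mem_range.mpr hk)
    have e2 : ∑ k ∈ range d, (w j k).totalDegree ≤
        ∑ j ∈ range d, ∑ k ∈ range d, (w j k).totalDegree :=
      Finset.single_le_sum (f := fun j => ∑ k ∈ range d, (w j k).totalDegree)
        (fun _ _ => Nat.zero_le _) (Finset.mem_range.mpr hj)
    omega
  let c : ℕ → ℕ → ℕ → ℕ → ℤ := fun j k a b => MvPolynomial.coeff (Jnt_k a b) (w j k)
  have hexp : ∑ j ∈ range d, ∑ k ∈ range d, ∑ a ∈ range M, ∑ b ∈ range M,
      ((c j k a b : ℤ) : PowerSeries (PowerSeries ℚ)) *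
        (e0 (T0 ^ a * S0 ^ j) * e1 (T1 ^ b * S1 ^ k)) = 0 := by
    rw [← hw]
    refine Finset.sum_congr rfl fun j hj => Finset.sum_congr rfl fun k hk => ?_
    rw [Jnt_expand (w j k) M (hdeg j (Finset.mem_range.mp hj) k (Finset.mem_range.mp hk)),
      Finset.sum_mul]
    refine Finset.sum_congr rfl fun a _ => ?_
    rw [Finset.sum_mul]
    refine Finset.sum_congr rfl fun b _ => ?_
    simp only [map_mul, map_pow]
    ring
  -- the coefficients
  let W : ℕ → ℕ → ℕ → ℚ := fun n j a => ∑ k ∈ range d, ∑ b ∈ range M,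
    (c j k a b : ℚ) * PowerSeries.coeff n (T1 ^ b * S1 ^ k)
  have hWn : ∀ n, ∀ j < d, ∀ a < M, W n j a = 0 := by
    intro n
    apply Jnt_rat d M g T0 S0 h0
    have h2 := congrArg (PowerSeries.coeff n) hexp
    simp only [map_sum, map_zero] at h2
    rw [← h2]
    refine Finset.sum_congr rfl fun j _ => ?_
    rw [Finset.sum_comm]
    refine Finset.sum_congr rfl fun a _ => ?_
    simp only [W, Finset.sum_smul]
    refine Finset.sum_congr rfl fun k _ => Finset.sum_congr rfl fun b _ => ?_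
    have e1 : ((c j k a b : ℤ) : PowerSeries (PowerSeries ℚ)) =
        PowerSeries.C (PowerSeries.C (c j k a b : ℚ)) := by
      simp
    rw [e1, PowerSeries.coeff_C_mul, Jnt_coeff, ← PowerSeries.smul_eq_C_mul, smul_smul]
  intro j hj k hk
  have hz : ∀ a < M, ∀ b < M, c j k a b = 0 := by
    intro a ha b hb
    have h3 : ∑ k ∈ range d, ∑ b ∈ range M, ((c j k a b : ℤ) : ℚ) • (T1 ^ b * S1 ^ k) = 0 := by
      ext n
      have h4 := hWn n j hj a ha
      simp only [map_sum, map_zero, PowerSeries.coeff_smul, smul_eq_mul]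
      exact h4
    have h5 := Jnt_rat d M g T1 S1 h1 (fun k b => ((c j k a b : ℤ) : ℚ)) h3 k hk b hb
    exact_mod_cast h5
  ext κ
  rw [MvPolynomial.coeff_zero]
  by_cases hκ : κ ∈ (w j k).support
  · have h3 : ∀ i, κ i ≤ (w j k).totalDegree := fun i =>
      (MvPolynomial.monomial_le_degreeOf i hκ).trans
        (MvPolynomial.degreeOf_le_totalDegree (w j k) i)
    have h4 := hdeg j hj k hk
    have h5 := hz (κ 0) ((h3 0).trans_lt h4) (κ 1) ((h3 1).trans_lt h4)
    simp only [c, Jnt_eta] at h5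
    exact h5
  · exact MvPolynomial.notMem_support_iff.mp hκ

end Pool.Agent.Lib.SDC
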