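import Pool.Agent.Lib.SDC.Spec

/-!
# Lib/SDC/Lam: the derivative of `T` with respect to `t` is large
-/

namespace Pool.Agent.Lib.SDC

open Finset Pool.Agent.Lib.SD

private theorem Lam_real {F : Type} [Field F] [NumberField F] (ρ : F →+* ℝ) (x : F) :
    |ρ x| ≤ NumberField.house x := by
  have h := NumberField.norm_embedding_le_house x (Complex.ofRealHom.comp ρ)
  rw [RingHom.comp_apply, Complex.ofRealHom_eq_coe, Complex.norm_real] at h
  exact h

private theorem Lam_coeff_one (f h : PowerSeries ℝ) :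
    PowerSeries.coeff 1 (f * h) = PowerSeries.coeff 0 f * PowerSeries.coeff 1 h +
      PowerSeries.coeff 1 f * PowerSeries.coeff 0 h := by
  rw [PowerSeries.coeff_mul, Finset.Nat.antidiagonal_succ]
  simp

private theorem Lam_c1 (u : ℝ) (m : ℕ) :
    u * PowerSeries.coeff 1 ((PowerSeries.C u + PowerSeries.X) ^ m : PowerSeries ℝ) = m * u ^ m := by
  induction m with
  | zero =>
    rw [pow_zero, PowerSeries.coeff_one]
    simp
  | succ m ih =>
    rw [pow_succ, Lam_coeff_one]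
    have h0 : PowerSeries.coeff 0 ((PowerSeries.C u + PowerSeries.X) ^ m : PowerSeries ℝ) = u ^ m := by
      rw [PowerSeries.coeff_zero_eq_constantCoeff_apply, map_pow, map_add, PowerSeries.constantCoeff_C,
        PowerSeries.constantCoeff_X, add_zero]
    have h1 : PowerSeries.coeff 1 (PowerSeries.C u + PowerSeries.X : PowerSeries ℝ) = 1 := by
      rw [map_add, PowerSeries.coeff_C, PowerSeries.coeff_one_X]
      simp
    have h2 : PowerSeries.coeff 0 (PowerSeries.C u + PowerSeries.X : PowerSeries ℝ) = u := by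
      rw [PowerSeries.coeff_zero_eq_constantCoeff_apply, map_add, PowerSeries.constantCoeff_C,
        PowerSeries.constantCoeff_X, add_zero]
    rw [h0, h1, h2, mul_add, mul_one, ← mul_assoc, ih, pow_succ]
    push_cast
    ring

/-- the two tails -/
private theorem Lam_tail0 (a : ℕ → ℝ) (c u : ℝ) (hc : 0 < c) (ha : ∀ n, |a n| ≤ c ^ (n + 1))
    (hu : 4 * c * |u| ≤ 1) : |∑' n, a n * u ^ n - a 0| ≤ 2 * c ^ 2 * |u| := by
  have hcu : c * |u| ≤ 1 / 4 := by linarith
  have hcu0 : 0 ≤ c * |u| := by positivity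
  have hg : HasSum (fun n : ℕ => c ^ 2 * |u| * (1 / 2 : ℝ) ^ n) (c ^ 2 * |u| * 2) :=
    (hasSum_geometric_two).mul_left _
  have hb : ∀ n, ‖a (n + 1) * u ^ (n + 1)‖ ≤ c ^ 2 * |u| * (1 / 2 : ℝ) ^ n := by
    intro n
    rw [Real.norm_eq_abs, abs_mul, abs_pow]
    have h1 : (c * |u|) ^ n ≤ (1 / 2 : ℝ) ^ n := pow_le_pow_left₀ hcu0 (by linarith) n
    calc |a (n + 1)| * |u| ^ (n + 1) ≤ c ^ (n + 1 + 1) * |u| ^ (n + 1) :=
          mul_le_mul_of_nonneg_right (ha _) (by positivity)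
      _ = c ^ 2 * |u| * (c * |u|) ^ n := by
          rw [mul_pow]
          ring
      _ ≤ _ := mul_le_mul_of_nonneg_left h1 (by positivity)
  have hs : Summable (fun n => a (n + 1) * u ^ (n + 1)) := Summable.of_norm_bounded hg.summable hb
  have hs' : Summable (fun n => a n * u ^ n) := (summable_nat_add_iff 1).1 hs
  have h2 := hs'.sum_add_tsum_nat_add 1
  rw [sum_range_one, pow_zero, mul_one] at h2
  have h3 : ∑' n, a n * u ^ n - a 0 = ∑' n, a (n + 1) * u ^ (n + 1) := by linarith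
  rw [h3]
  have h4 := tsum_of_norm_bounded hg hb
  rw [Real.norm_eq_abs] at h4
  linarith

private theorem Lam_tail1 (a : ℕ → ℝ) (c u : ℝ) (hc : 0 < c) (ha : ∀ n, |a n| ≤ c ^ (n + 1))
    (hu : 4 * c * |u| ≤ 1) : |∑' n : ℕ, a (n + 1) * ((n : ℝ) + 1) * u ^ n| ≤ 2 * c ^ 2 := by
  have hcu : c * |u| ≤ 1 / 4 := by linarith
  have hcu0 : 0 ≤ c * |u| := by positivity
  have hg : HasSum (fun n : ℕ => c ^ 2 * (1 / 2 : ℝ) ^ n) (c ^ 2 * 2) :=
    (hasSum_geometric_two).mul_left _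
  have hb : ∀ n : ℕ, ‖a (n + 1) * ((n : ℝ) + 1) * u ^ n‖ ≤ c ^ 2 * (1 / 2 : ℝ) ^ n := by
    intro n
    rw [Real.norm_eq_abs, abs_mul, abs_mul, abs_pow]
    have h0 : |(n : ℝ) + 1| ≤ 2 ^ n := by
      rw [abs_of_nonneg (by positivity)]
      exact_mod_cast Nat.lt_two_pow_self
    have h1 : (2 * (c * |u|)) ^ n ≤ (1 / 2 : ℝ) ^ n := pow_le_pow_left₀ (by positivity) (by linarith) n
    calc |a (n + 1)| * |(n : ℝ) + 1| * |u| ^ n ≤ c ^ (n + 1 + 1) * 2 ^ n * |u| ^ n :=
          mul_le_mul_of_nonneg_right (mul_le_mul (ha _) h0 (abs_nonneg _) (by positivity)) (by positivity)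
      _ = c ^ 2 * (2 * (c * |u|)) ^ n := by
          rw [mul_pow, mul_pow]
          ring
      _ ≤ _ := mul_le_mul_of_nonneg_left h1 (by positivity)
  have h4 := tsum_of_norm_bounded hg hb
  rw [Real.norm_eq_abs] at h4
  linarith

theorem tLam : LamStmt := by
  intro F _ _ ρ m C0 E hm hC0 hE hE0
  set a : ℕ → ℝ := fun n => ρ (PowerSeries.coeff n E) with ha
  set c : ℝ := (C0 : ℝ) with hc
  have hc1 : (1 : ℝ) ≤ c := by
    rw [hc]
    exact_mod_cast hC0
  have hab : ∀ n, |a n| ≤ c ^ (n + 1) := fun n => (Lam_real ρ _).trans (hE n).2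
  have ha0 : 0 < |a 0| := by
    rw [abs_pos]
    simp only [ha]
    rw [PowerSeries.coeff_zero_eq_constantCoeff_apply]
    exact (map_ne_zero ρ).2 hE0
  refine ⟨min (1 / (4 * c)) (|a 0| / (8 * c ^ 2)), lt_min (by positivity) (by positivity), ?_⟩
  intro u Tr hu hu0 hRex
  have hu1 : 4 * c * |u| ≤ 1 := by
    have h1 := (hu0.trans_le (min_le_left _ _)).le
    rw [le_div_iff₀ (by positivity)] at h1
    linarith
  have hu2 : 8 * c ^ 2 * |u| ≤ |a 0| := by
    have h1 := (hu0.trans_le (min_le_right _ _)).le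
    rw [le_div_iff₀ (by positivity)] at h1
    linarith
  have hupos : 0 < |u| := abs_pos.2 hu
  have hule : |u| ≤ 1 := by nlinarith
  unfold Rex at hRex
  set A0 := ∑' n, a n * u ^ n with hA0
  set A1 := ∑' n : ℕ, a (n + 1) * ((n : ℝ) + 1) * u ^ n with hA1
  have e0 : PowerSeries.coeff 0 (sft u (PowerSeries.map ρ E)) = A0 := by
    rw [sft, PowerSeries.coeff_mk, hA0]
    refine tsum_congr fun n => ?_
    rw [PowerSeries.coeff_map, Nat.choose_zero_right, Nat.cast_one, mul_one]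
    rfl
  have e1 : PowerSeries.coeff 1 (sft u (PowerSeries.map ρ E)) = A1 := by
    rw [sft, PowerSeries.coeff_mk, hA1]
    refine tsum_congr fun n => ?_
    rw [PowerSeries.coeff_map, Nat.choose_one_right]
    push_cast
    rfl
  have h0 : PowerSeries.coeff 0 ((PowerSeries.C u + PowerSeries.X) ^ m : PowerSeries ℝ) = u ^ m := by
    rw [PowerSeries.coeff_zero_eq_constantCoeff_apply, map_pow, map_add, PowerSeries.constantCoeff_C,
      PowerSeries.constantCoeff_X, add_zero]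
  have f0 : u ^ m * PowerSeries.coeff 0 Tr = A0 := by
    rw [← e0, ← hRex, ← h0, PowerSeries.coeff_zero_eq_constantCoeff_apply, PowerSeries.coeff_zero_eq_constantCoeff_apply,
      PowerSeries.coeff_zero_eq_constantCoeff_apply, map_mul]
  have f1 : u ^ (m + 1) * PowerSeries.coeff 1 Tr + m * A0 = u * A1 := by
    rw [← e1, ← hRex, Lam_coeff_one, h0, mul_add, ← mul_assoc u (PowerSeries.coeff 1 _), Lam_c1, ← f0, pow_succ]
    ring
  have t0 := Lam_tail0 a c u (by linarith) hab hu1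
  have t1 := Lam_tail1 a c u (by linarith) hab hu1
  rw [← hA0] at t0
  rw [← hA1] at t1
  have hm1 : (1 : ℝ) ≤ m := by exact_mod_cast hm
  have g0 : |a 0| - 2 * c ^ 2 * |u| ≤ |A0| := by
    have h1 := abs_sub_abs_le_abs_sub (a 0) A0
    rw [abs_sub_comm] at h1
    linarith
  have g1 : |u * A1| ≤ 2 * c ^ 2 * |u| := by
    rw [abs_mul]
    nlinarith
  have g2 : (m : ℝ) * |A0| ≤ |u| ^ (m + 1) * |PowerSeries.coeff 1 Tr| + |u * A1| := by
    have h1 : (m : ℝ) * A0 = u * A1 - u ^ (m + 1) * PowerSeries.coeff 1 Tr := by linarith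
    have h2 : |(m : ℝ) * A0| ≤ |u * A1| + |u ^ (m + 1) * PowerSeries.coeff 1 Tr| := by
      rw [h1]
      exact abs_sub _ _
    rw [abs_mul, abs_mul (u ^ (m + 1)), abs_pow, Nat.abs_cast] at h2
    linarith
  have g3 : |A0| ≤ (m : ℝ) * |A0| := le_mul_of_one_le_left (abs_nonneg _) hm1
  have g4 : |u| ^ (m + 1) ≤ |u| := by
    rw [pow_succ]
    have := pow_le_one₀ (n := m) hupos.le hule
    nlinarith
  have g5 : |a 0| / 2 ≤ |u| ^ (m + 1) * |PowerSeries.coeff 1 Tr| := by linarith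
  have g6 : |u| * 1 ≤ |u| * |PowerSeries.coeff 1 Tr| := by
    have h1 : |u| ^ (m + 1) * |PowerSeries.coeff 1 Tr| ≤ |u| * |PowerSeries.coeff 1 Tr| :=
      mul_le_mul_of_nonneg_right g4 (abs_nonneg _)
    have h2 : |u| ≤ c ^ 2 * |u| := by
      have : 1 ≤ c ^ 2 := one_le_pow₀ hc1
      nlinarith
    linarith
  exact le_of_mul_le_mul_left g6 hupos

end Pool.Agent.Lib.SDC
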