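import Pool.Agent.Lib.SDC.Spec

/-! Module Ltc: size of the first function at a good point. -/

namespace Pool.Agent.Lib.SDC

open Finset Pool.Agent.Lib.SD

private theorem Ltc_coeff {F : Type} [Field F] [NumberField F] (ρ : F →+* ℝ) {C0 : ℕ}
    {E : PowerSeries F} (hE : EisC C0 E) (n : ℕ) :
    |ρ (PowerSeries.coeff n E)| ≤ (C0 : ℝ) ^ (n + 1) := by
  have h1 := NumberField.norm_embedding_le_house (PowerSeries.coeff n E) (Complex.ofRealHom.comp ρ)
  have h2 : ‖(Complex.ofRealHom.comp ρ) (PowerSeries.coeff n E)‖ = |ρ (PowerSeries.coeff n E)| := by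
    rw [RingHom.comp_apply]
    exact Complex.norm_real _
  rw [h2] at h1
  exact h1.trans (hE n).2

/-- the lower bound for the sum of the series -/
private theorem Ltc_sum (e : ℕ → ℝ) (c u : ℝ) (hc : 1 ≤ c) (he : ∀ n, |e n| ≤ c ^ (n + 1))
    (h1 : 2 * c * |u| < 1) (h2 : 4 * c ^ 2 * |u| ≤ |e 0|) :
    |e 0| / 2 ≤ |∑' n : ℕ, e n * u ^ n| := by
  have hw : 0 ≤ |u| := abs_nonneg u
  have hr0 : 0 ≤ c * |u| := by positivity
  have hr1 : c * |u| < 1 := by nlinarith
  have hb : ∀ n, ‖e n * u ^ n‖ ≤ c * (c * |u|) ^ n := by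
    intro n
    rw [norm_mul, norm_pow, Real.norm_eq_abs, Real.norm_eq_abs]
    calc |e n| * |u| ^ n ≤ c ^ (n + 1) * |u| ^ n :=
          mul_le_mul_of_nonneg_right (he n) (pow_nonneg hw n)
      _ = c * (c * |u|) ^ n := by rw [mul_pow]; ring
  have hg : Summable (fun n : ℕ => c * (c * |u|) ^ n) :=
    (summable_geometric_of_lt_one hr0 hr1).mul_left c
  have hs : Summable (fun n : ℕ => e n * u ^ n) := Summable.of_norm_bounded hg hb
  rw [hs.tsum_eq_zero_add]
  have ht : ‖∑' n : ℕ, e (n + 1) * u ^ (n + 1)‖ ≤ (c ^ 2 * |u|) * (1 - c * |u|)⁻¹ := by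
    refine tsum_of_norm_bounded
      (HasSum.mul_left (c ^ 2 * |u|) (hasSum_geometric_of_lt_one hr0 hr1)) fun n => ?_
    refine (hb (n + 1)).trans (le_of_eq ?_)
    rw [pow_succ]
    ring
  have hi : (1 - c * |u|)⁻¹ ≤ 2 := by
    rw [inv_le_comm₀ (by linarith) (by norm_num)]
    nlinarith
  have ht2 : ‖∑' n : ℕ, e (n + 1) * u ^ (n + 1)‖ ≤ |e 0| / 2 := by
    refine ht.trans ?_
    calc (c ^ 2 * |u|) * (1 - c * |u|)⁻¹ ≤ (c ^ 2 * |u|) * 2 :=
          mul_le_mul_of_nonneg_left hi (by positivity)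
      _ ≤ |e 0| / 2 := by linarith
  rw [Real.norm_eq_abs] at ht2
  rw [pow_zero, mul_one]
  have h3 : |e 0| - |∑' n : ℕ, e (n + 1) * u ^ (n + 1)| ≤
      |e 0 + ∑' n : ℕ, e (n + 1) * u ^ (n + 1)| := by
    have := abs_sub_abs_le_abs_sub (e 0) (-∑' n : ℕ, e (n + 1) * u ^ (n + 1))
    rwa [abs_neg, sub_neg_eq_add] at this
  linarith

theorem tLtc : LtcStmt := by
  intro F _ _ ρ m C0 E hm hC0 hE hE0
  set e : ℕ → ℝ := fun n => ρ (PowerSeries.coeff n E) with he
  have hc : (1 : ℝ) ≤ C0 := by exact_mod_cast hC0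
  have hcp : (0 : ℝ) < C0 := by linarith
  have he0 : e 0 ≠ 0 := by
    rw [he]
    intro h
    apply hE0
    have h1 : PowerSeries.coeff 0 E = 0 := (map_eq_zero ρ).1 h
    rwa [PowerSeries.coeff_zero_eq_constantCoeff_apply] at h1
  have he0p : 0 < |e 0| := abs_pos.2 he0
  refine ⟨|Real.log (2 * C0)| + |Real.log (4 * (C0 : ℝ) ^ 2 / |e 0|)| + |Real.log (|e 0| / 2)|,
    by positivity, ?_⟩
  intro u T hu hK hT
  have hw : 0 < |u| := abs_pos.2 hu
  have hwi : 0 < 1 / |u| := by positivity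
  have ha1 := abs_nonneg (Real.log (2 * (C0 : ℝ)))
  have ha2 := abs_nonneg (Real.log (4 * (C0 : ℝ) ^ 2 / |e 0|))
  have ha3 := abs_nonneg (Real.log (|e 0| / 2))
  have hk1 : Real.log (2 * C0) < Real.log (1 / |u|) := by
    have := le_abs_self (Real.log (2 * (C0 : ℝ)))
    linarith
  have hk2 : Real.log (4 * (C0 : ℝ) ^ 2 / |e 0|) < Real.log (1 / |u|) := by
    have := le_abs_self (Real.log (4 * (C0 : ℝ) ^ 2 / |e 0|))
    linarith
  rw [Real.log_lt_log_iff (by positivity) hwi, lt_div_iff₀ hw] at hk1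
  rw [Real.log_lt_log_iff (by positivity) hwi, div_lt_div_iff₀ he0p hw, one_mul] at hk2
  have hS := Ltc_sum e C0 u hc (fun n => Ltc_coeff ρ hE n) hk1 hk2.le
  have hval : u ^ m * PowerSeries.constantCoeff T = ∑' n : ℕ, e n * u ^ n := by
    have h1 := congrArg PowerSeries.constantCoeff hT
    rw [map_mul, map_pow, map_add, PowerSeries.constantCoeff_C, PowerSeries.constantCoeff_X,
      add_zero] at h1
    rw [h1, ← PowerSeries.coeff_zero_eq_constantCoeff_apply, sft, PowerSeries.coeff_mk]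
    refine tsum_congr fun n => ?_
    rw [add_zero, Nat.choose_zero_right, Nat.cast_one, mul_one, PowerSeries.coeff_map]
  rw [← hval, abs_mul, abs_pow] at hS
  have hT0 : 0 < |PowerSeries.constantCoeff T| := by
    by_contra hcon
    have h1 : |PowerSeries.constantCoeff T| = 0 := le_antisymm (not_lt.1 hcon) (abs_nonneg _)
    rw [h1, mul_zero] at hS
    linarith
  have hlog := Real.log_le_log (by positivity) hS
  rw [Real.log_mul (pow_pos hw m).ne' hT0.ne', Real.log_pow] at hlog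
  have h4 : Real.log (1 / |u|) = -Real.log |u| := by
    rw [one_div, Real.log_inv]
  have h5 : 0 ≤ Real.log (1 / |u|) := by linarith
  have hm' : (1 : ℝ) ≤ m := by exact_mod_cast hm
  have h6 : Real.log (1 / |u|) ≤ (m : ℝ) * Real.log (1 / |u|) := le_mul_of_one_le_left h5 hm'
  have h7 := neg_abs_le (Real.log (|e 0| / 2))
  rw [h4] at h6 h5 ⊢
  nlinarith

end Pool.Agent.Lib.SDC
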