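import Pool.Agent.Lib.SDC.Spec

namespace Pool.Agent.Lib.SDC

open Finset Pool.Agent.Lib.SD

private theorem Ndv_row {B : Type} [CommRing B] (d : ℕ) (g : Polynomial (Polynomial ℤ)) (T S : B)
    (hm : g.Monic) (hn : g.natDegree = d) (h : ev2 T S g = 0) :
    ((cmpM d g).map (Polynomial.aeval T : Polynomial ℤ →ₐ[ℤ] B)).mulVec
      (fun i : Fin d => S ^ (i : ℕ)) = fun i : Fin d => S * S ^ (i : ℕ) := by
  funext i
  simp only [Matrix.mulVec, dotProduct, Matrix.map_apply, cmpM, Matrix.of_apply]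
  by_cases hi : (i : ℕ) + 1 < d
  · rw [Finset.sum_eq_single (⟨(i : ℕ) + 1, hi⟩ : Fin d)]
    · simp only [hi, if_true, map_one, one_mul]
      rw [pow_succ, mul_comm]
    · intro j _ hj
      have : (j : ℕ) ≠ (i : ℕ) + 1 := fun h => hj (Fin.ext h)
      simp only [hi, if_true, this, if_false, map_zero, zero_mul]
    · intro h
      exact absurd (Finset.mem_univ _) h
  · have hid : (i : ℕ) + 1 = d := by
      have := i.2
      omega
    simp only [hi, if_false, map_neg, neg_mul, Finset.sum_neg_distrib]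
    have h1 : ∑ j : Fin d, (Polynomial.aeval T) (g.coeff (j : ℕ)) * S ^ (j : ℕ) =
        ∑ j ∈ range d, (Polynomial.aeval T) (g.coeff j) * S ^ j :=
      Fin.sum_univ_eq_sum_range (fun j => (Polynomial.aeval T) (g.coeff j) * S ^ j) d
    rw [h1]
    unfold ev2 at h
    rw [Polynomial.eval₂_eq_sum_range, hn, Finset.sum_range_succ] at h
    have h2 : g.coeff d = 1 := by
      rw [← hn]
      exact hm
    rw [h2, map_one, one_mul] at h
    have h3 : ∀ q : Polynomial ℤ, (Polynomial.eval₂RingHom (Int.castRingHom B) T) q =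
        (Polynomial.aeval T) q := by
      intro q
      rw [Polynomial.aeval_def]
      rfl
    simp only [h3] at h
    rw [← pow_succ', hid]
    linear_combination -h

private theorem Ndv_pow {B : Type} [CommRing B] (d : ℕ) (A : Matrix (Fin d) (Fin d) B) (S : B)
    (v : Fin d → B) (h : A.mulVec v = fun i => S * v i) (j : ℕ) :
    (A ^ j).mulVec v = fun i => S ^ j * v i := by
  induction j with
  | zero =>
    rw [pow_zero, Matrix.one_mulVec]
    funext i
    rw [pow_zero, one_mul]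
  | succ j ih =>
    rw [pow_succ, ← Matrix.mulVec_mulVec, h]
    have h1 : (fun i => S * v i) = S • v := rfl
    rw [h1, Matrix.mulVec_smul, ih]
    funext i
    simp only [Pi.smul_apply, smul_eq_mul]
    ring

private theorem Ndv_kro {B : Type} [CommRing B] (d : ℕ) (A A' : Matrix (Fin d) (Fin d) B)
    (v w : Fin d → B) :
    (Matrix.kroneckerMap (fun s t => s * t) A A').mulVec (fun q : Fin d × Fin d => v q.1 * w q.2) =
      fun q => (A.mulVec v) q.1 * (A'.mulVec w) q.2 := by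
  funext q
  simp only [Matrix.mulVec, dotProduct, Matrix.kroneckerMap_apply]
  rw [Fintype.sum_prod_type, Finset.sum_mul_sum]
  refine Finset.sum_congr rfl fun i _ => Finset.sum_congr rfl fun j _ => ?_
  ring

private theorem Ndv_map {B : Type} [CommRing B] (d : ℕ) (g : Polynomial (Polynomial ℤ))
    (T : Fin 2 → B) (h : Fin 2) (j : ℕ) :
    (((cmpM d g) ^ j).map (Polynomial.aeval (MvPolynomial.X h : MvPolynomial (Fin 2) ℤ))).map
      (MvPolynomial.aeval T : MvPolynomial (Fin 2) ℤ →ₐ[ℤ] B) =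
    ((cmpM d g).map (Polynomial.aeval (T h) : Polynomial ℤ →ₐ[ℤ] B)) ^ j := by
  have h1 : ∀ q : Polynomial ℤ, (MvPolynomial.aeval T : MvPolynomial (Fin 2) ℤ →ₐ[ℤ] B)
      ((Polynomial.aeval (MvPolynomial.X h : MvPolynomial (Fin 2) ℤ)) q) =
      (Polynomial.aeval (T h)) q := by
    intro q
    rw [← Polynomial.aeval_algHom_apply, MvPolynomial.aeval_X]
  have h2 : ((cmpM d g).map (Polynomial.aeval (T h) : Polynomial ℤ →ₐ[ℤ] B)) ^ j =
      ((cmpM d g) ^ j).map (Polynomial.aeval (T h) : Polynomial ℤ →ₐ[ℤ] B) := by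
    have := map_pow ((Polynomial.aeval (T h) : Polynomial ℤ →ₐ[ℤ] B).toRingHom.mapMatrix)
      (cmpM d g) j
    exact this.symm
  rw [h2]
  ext a b
  simp only [Matrix.map_apply]
  exact h1 _

theorem tNdv : NdvStmt := by
  intro n0 n1 d g p B _ T0 S0 T1 S1 hd hm hn h0 h1
  set f : MvPolynomial (Fin 2) ℤ →ₐ[ℤ] B := MvPolynomial.aeval ![T0, T1] with hf
  have key : ((mulM n0 n1 d g p).map f).mulVec
      (fun q : Fin d × Fin d => S0 ^ (q.1 : ℕ) * S1 ^ (q.2 : ℕ)) =
      (fun q : Fin d × Fin d => pv n0 n1 d p T0 S0 T1 S1 * (S0 ^ (q.1 : ℕ) * S1 ^ (q.2 : ℕ))) := by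
    have e1 : (mulM n0 n1 d g p).map f =
        ∑ a ∈ range n0, ∑ j ∈ range d, ∑ b ∈ range n1, ∑ k ∈ range d,
          ((p a j b k : B) * (T0 ^ a * T1 ^ b)) •
            Matrix.kroneckerMap (fun s t => s * t)
              (((cmpM d g).map (Polynomial.aeval T0 : Polynomial ℤ →ₐ[ℤ] B)) ^ j)
              (((cmpM d g).map (Polynomial.aeval T1 : Polynomial ℤ →ₐ[ℤ] B)) ^ k) := by
      have e2 : (mulM n0 n1 d g p).map f = f.toRingHom.mapMatrix (mulM n0 n1 d g p) := rfl
      rw [e2]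
      unfold mulM
      simp only [map_sum]
      refine Finset.sum_congr rfl fun a _ => Finset.sum_congr rfl fun j _ =>
        Finset.sum_congr rfl fun b _ => Finset.sum_congr rfl fun k _ => ?_
      have m0 := Ndv_map d g ![T0, T1] 0 j
      have m1 := Ndv_map d g ![T0, T1] 1 k
      simp only [Matrix.cons_val_zero, Matrix.cons_val_one] at m0 m1
      rw [← m0, ← m1, ← hf]
      ext q q'
      simp only [RingHom.mapMatrix_apply, Matrix.map_apply, Matrix.smul_apply, smul_eq_mul,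
        Matrix.kroneckerMap_apply]
      change f _ = _
      rw [map_mul, map_mul, map_mul, map_mul, map_pow, map_pow, hf, MvPolynomial.aeval_X,
        MvPolynomial.aeval_X, MvPolynomial.aeval_C]
      simp only [Matrix.cons_val_zero, Matrix.cons_val_one]
      rfl
    rw [e1]
    funext q
    simp only [Matrix.sum_mulVec, Finset.sum_apply, Matrix.smul_mulVec, Pi.smul_apply, smul_eq_mul]
    unfold pv
    simp only [Finset.sum_mul]
    refine Finset.sum_congr rfl fun a _ => Finset.sum_congr rfl fun j _ =>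
      Finset.sum_congr rfl fun b _ => Finset.sum_congr rfl fun k _ => ?_
    rw [Ndv_kro d _ _ (fun i : Fin d => S0 ^ (i : ℕ)) (fun i : Fin d => S1 ^ (i : ℕ)),
      Ndv_pow d _ S0 _ (Ndv_row d g T0 S0 hm hn h0) j,
      Ndv_pow d _ S1 _ (Ndv_row d g T1 S1 hm hn h1) k]
    ring
  refine ⟨key, ?_⟩
  set M := (mulM n0 n1 d g p).map f with hM
  set v : Fin d × Fin d → B := fun q => S0 ^ (q.1 : ℕ) * S1 ^ (q.2 : ℕ) with hv
  set P := pv n0 n1 d p T0 S0 T1 S1 with hP
  have z : Fin d := ⟨0, hd⟩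
  have hz0 : (⟨0, hd⟩ : Fin d) = ⟨0, hd⟩ := rfl
  refine ⟨(M.adjugate.mulVec v) (⟨0, hd⟩, ⟨0, hd⟩), ?_⟩
  have e3 : M.adjugate.mulVec (M.mulVec v) = M.det • v := by
    rw [Matrix.mulVec_mulVec, Matrix.adjugate_mul, Matrix.smul_mulVec, Matrix.one_mulVec]
  have e4 : M.mulVec v = P • v := key
  rw [e4, Matrix.mulVec_smul] at e3
  have e5 := congrFun e3 (⟨0, hd⟩, ⟨0, hd⟩)
  simp only [Pi.smul_apply, smul_eq_mul] at e5
  have e6 : v (⟨0, hd⟩, ⟨0, hd⟩) = 1 := by
    rw [hv]
    simp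
  rw [e6, mul_one] at e5
  rw [e5]
  unfold nrmP
  have e7 := RingHom.map_det f.toRingHom (mulM n0 n1 d g p)
  exact e7

end Pool.Agent.Lib.SDC
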