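import Pool.Agent.Lib.SDC.Spec
import Pool.Agent.Lib.MP_cc0c1a_nt.Sub.M5

namespace Pool.Agent.Lib.SDC

open Finset Pool.Agent.Lib.SD

private noncomputable def Nsz_len (f : MvPolynomial (Fin 2) ℤ) : ℝ :=
  MPcc0c1aSub.wl1 (fun _ => 1) f

private theorem Nsz_one : ∀ i : Fin 2, (0 : ℝ) ≤ (fun _ : Fin 2 => (1 : ℝ)) i :=
  fun _ => zero_le_one

private theorem Nsz_len_nonneg (f : MvPolynomial (Fin 2) ℤ) : 0 ≤ Nsz_len f :=
  MPcc0c1aSub.m5_nonneg Nsz_one f

private theorem Nsz_coeff_le (f : MvPolynomial (Fin 2) ℤ) (κ : Fin 2 →₀ ℕ) :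
    |((MvPolynomial.coeff κ f : ℤ) : ℝ)| ≤ Nsz_len f := by
  by_cases h : κ ∈ f.support
  · unfold Nsz_len MPcc0c1aSub.wl1
    have := Finset.single_le_sum (f := fun a : Fin 2 →₀ ℕ =>
      |((MvPolynomial.coeff a f : ℤ) : ℝ)| * ∏ i : Fin 2, (1 : ℝ) ^ a i)
      (fun a _ => mul_nonneg (abs_nonneg _) (by simp)) h
    simpa using this
  · rw [MvPolynomial.notMem_support_iff.mp h]
    simpa using Nsz_len_nonneg f

/-- bounds of the length and of the two degrees -/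
private def Nsz_B (f : MvPolynomial (Fin 2) ℤ) (A : ℝ) (D0 D1 : ℕ) : Prop :=
  Nsz_len f ≤ A ∧ f.degreeOf 0 ≤ D0 ∧ f.degreeOf 1 ≤ D1

private theorem Nsz_mono {f : MvPolynomial (Fin 2) ℤ} {A A' : ℝ} {D0 D1 D0' D1' : ℕ}
    (h : Nsz_B f A D0 D1) (hA : A ≤ A') (h0 : D0 ≤ D0') (h1 : D1 ≤ D1') :
    Nsz_B f A' D0' D1' :=
  ⟨h.1.trans hA, h.2.1.trans h0, h.2.2.trans h1⟩

private theorem Nsz_mul {f g : MvPolynomial (Fin 2) ℤ} {A B : ℝ} {D0 D1 E0 E1 : ℕ}
    (hf : Nsz_B f A D0 D1) (hg : Nsz_B g B E0 E1) : Nsz_B (f * g) (A * B) (D0 + E0) (D1 + E1) := by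
  refine ⟨?_, ?_, ?_⟩
  · refine (MPcc0c1aSub.m5_mul Nsz_one f g).trans ?_
    exact mul_le_mul hf.1 hg.1 (Nsz_len_nonneg g) ((Nsz_len_nonneg f).trans hf.1)
  · exact (MvPolynomial.degreeOf_mul_le 0 f g).trans (add_le_add hf.2.1 hg.2.1)
  · exact (MvPolynomial.degreeOf_mul_le 1 f g).trans (add_le_add hf.2.2 hg.2.2)

private theorem Nsz_sum {ι : Type} (s : Finset ι) (f : ι → MvPolynomial (Fin 2) ℤ) (A : ℝ)
    (D0 D1 : ℕ) (h : ∀ i ∈ s, Nsz_B (f i) A D0 D1) : Nsz_B (∑ i ∈ s, f i) (s.card * A) D0 D1 := by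
  refine ⟨?_, ?_, ?_⟩
  · refine (MPcc0c1aSub.m5_sum Nsz_one s f).trans ?_
    refine (Finset.sum_le_sum fun i hi => (h i hi).1).trans ?_
    simp
  · refine (MvPolynomial.degreeOf_sum_le 0 s f).trans ?_
    exact Finset.sup_le fun i hi => (h i hi).2.1
  · refine (MvPolynomial.degreeOf_sum_le 1 s f).trans ?_
    exact Finset.sup_le fun i hi => (h i hi).2.2

private theorem Nsz_C (c : ℤ) (A : ℝ) (h : |(c : ℝ)| ≤ A) :
    Nsz_B (MvPolynomial.C c) A 0 0 := by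
  refine ⟨?_, ?_, ?_⟩
  · have := MPcc0c1aSub.m5_monomial (σ := Fin 2) (fun _ => 1) 0 c
    have h2 : Nsz_len (MvPolynomial.C c) = |(c : ℝ)| := by
      unfold Nsz_len
      simpa using this
    rw [h2]; exact h
  · exact (MvPolynomial.degreeOf_C c 0).le
  · exact (MvPolynomial.degreeOf_C c 1).le

private theorem Nsz_X (a b : ℕ) :
    Nsz_B (MvPolynomial.X 0 ^ a * MvPolynomial.X 1 ^ b) 1 a b := by
  have e : (MvPolynomial.X 0 ^ a * MvPolynomial.X 1 ^ b : MvPolynomial (Fin 2) ℤ) =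
      MvPolynomial.monomial (Finsupp.single 0 a + Finsupp.single 1 b) 1 := by
    rw [MvPolynomial.X_pow_eq_monomial, MvPolynomial.X_pow_eq_monomial,
      MvPolynomial.monomial_mul, one_mul]
  refine ⟨?_, ?_, ?_⟩
  · rw [e]
    have := MPcc0c1aSub.m5_monomial (σ := Fin 2) (fun _ => 1)
      (Finsupp.single 0 a + Finsupp.single 1 b) 1
    unfold Nsz_len
    rw [this]
    simp
  · refine (MvPolynomial.degreeOf_mul_le 0 _ _).trans ?_
    have h1 : (MvPolynomial.X 0 ^ a : MvPolynomial (Fin 2) ℤ).degreeOf 0 ≤ a := by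
      rw [MvPolynomial.X_pow_eq_monomial, MvPolynomial.degreeOf_monomial_eq _ _ one_ne_zero]
      simp
    have h2 : (MvPolynomial.X 1 ^ b : MvPolynomial (Fin 2) ℤ).degreeOf 0 ≤ 0 := by
      rw [MvPolynomial.X_pow_eq_monomial, MvPolynomial.degreeOf_monomial_eq _ _ one_ne_zero]
      simp
    omega
  · refine (MvPolynomial.degreeOf_mul_le 1 _ _).trans ?_
    have h1 : (MvPolynomial.X 0 ^ a : MvPolynomial (Fin 2) ℤ).degreeOf 1 ≤ 0 := by
      rw [MvPolynomial.X_pow_eq_monomial, MvPolynomial.degreeOf_monomial_eq _ _ one_ne_zero]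
      simp
    have h2 : (MvPolynomial.X 1 ^ b : MvPolynomial (Fin 2) ℤ).degreeOf 1 ≤ b := by
      rw [MvPolynomial.X_pow_eq_monomial, MvPolynomial.degreeOf_monomial_eq _ _ one_ne_zero]
      simp
    omega

private theorem Nsz_prod {ι : Type} (s : Finset ι) (f : ι → MvPolynomial (Fin 2) ℤ) (A : ℝ)
    (D0 D1 : ℕ) (h : ∀ i ∈ s, Nsz_B (f i) A D0 D1) :
    Nsz_B (∏ i ∈ s, f i) (A ^ s.card) (s.card * D0) (s.card * D1) := by
  classical
  induction s using Finset.induction_on with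
  | empty =>
    simp only [Finset.prod_empty, Finset.card_empty, pow_zero, zero_mul]
    have := Nsz_C 1 1 (by simp)
    simpa using this
  | insert i s hi ih =>
    rw [Finset.prod_insert hi, Finset.card_insert_of_notMem hi]
    have h1 := Nsz_mul (h i (Finset.mem_insert_self i s))
      (ih fun j hj => h j (Finset.mem_insert_of_mem hj))
    refine Nsz_mono h1 (le_of_eq ?_) (le_of_eq ?_) (le_of_eq ?_) <;> ring

theorem tNsz : NszStmt := by
  intro d g hd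
  let P : ℕ → Fin d → Fin d → Fin 2 → MvPolynomial (Fin 2) ℤ := fun j i i' h =>
    Polynomial.aeval (MvPolynomial.X h : MvPolynomial (Fin 2) ℤ) ((cmpM d g ^ j) i i')
  let Λ : ℝ := 1 + ∑ j ∈ range d, ∑ i : Fin d, ∑ i' : Fin d, ∑ h : Fin 2, Nsz_len (P j i i' h)
  let D : ℕ := ∑ j ∈ range d, ∑ i : Fin d, ∑ i' : Fin d, ∑ h : Fin 2,
    ((P j i i' h).degreeOf 0 + (P j i i' h).degreeOf 1)
  have hΛ1 : 1 ≤ Λ := by
    have : 0 ≤ ∑ j ∈ range d, ∑ i : Fin d, ∑ i' : Fin d, ∑ h : Fin 2, Nsz_len (P j i i' h) :=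
      Finset.sum_nonneg fun _ _ => Finset.sum_nonneg fun _ _ => Finset.sum_nonneg fun _ _ =>
        Finset.sum_nonneg fun _ _ => Nsz_len_nonneg _
    simp only [Λ]
    linarith
  have hP : ∀ j ∈ range d, ∀ i i' : Fin d, ∀ h : Fin 2, Nsz_B (P j i i' h) Λ D D := by
    intro j hj i i' h
    have hb : Nsz_len (P j i i' h) ≤
        ∑ j ∈ range d, ∑ i : Fin d, ∑ i' : Fin d, ∑ h : Fin 2, Nsz_len (P j i i' h) := by
      refine le_trans ?_ (Finset.single_le_sum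
        (f := fun j => ∑ i : Fin d, ∑ i' : Fin d, ∑ h : Fin 2, Nsz_len (P j i i' h))
        (fun _ _ => Finset.sum_nonneg fun _ _ => Finset.sum_nonneg fun _ _ =>
          Finset.sum_nonneg fun _ _ => Nsz_len_nonneg _) hj)
      refine le_trans ?_ (Finset.single_le_sum
        (f := fun i => ∑ i' : Fin d, ∑ h : Fin 2, Nsz_len (P j i i' h))
        (fun _ _ => Finset.sum_nonneg fun _ _ =>
          Finset.sum_nonneg fun _ _ => Nsz_len_nonneg _) (Finset.mem_univ i))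
      refine le_trans ?_ (Finset.single_le_sum
        (f := fun i' => ∑ h : Fin 2, Nsz_len (P j i i' h))
        (fun _ _ => Finset.sum_nonneg fun _ _ => Nsz_len_nonneg _) (Finset.mem_univ i'))
      exact Finset.single_le_sum (f := fun h => Nsz_len (P j i i' h))
        (fun _ _ => Nsz_len_nonneg _) (Finset.mem_univ h)
    have hd' : (P j i i' h).degreeOf 0 + (P j i i' h).degreeOf 1 ≤ D := by
      refine le_trans ?_ (Finset.single_le_sum
        (f := fun j => ∑ i : Fin d, ∑ i' : Fin d, ∑ h : Fin 2,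
          ((P j i i' h).degreeOf 0 + (P j i i' h).degreeOf 1)) (fun _ _ => Nat.zero_le _) hj)
      refine le_trans ?_ (Finset.single_le_sum
        (f := fun i => ∑ i' : Fin d, ∑ h : Fin 2,
          ((P j i i' h).degreeOf 0 + (P j i i' h).degreeOf 1))
        (fun _ _ => Nat.zero_le _) (Finset.mem_univ i))
      refine le_trans ?_ (Finset.single_le_sum
        (f := fun i' => ∑ h : Fin 2,
          ((P j i i' h).degreeOf 0 + (P j i i' h).degreeOf 1))
        (fun _ _ => Nat.zero_le _) (Finset.mem_univ i'))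
      exact Finset.single_le_sum (f := fun h =>
          ((P j i i' h).degreeOf 0 + (P j i i' h).degreeOf 1))
        (fun _ _ => Nat.zero_le _) (Finset.mem_univ h)
    refine ⟨?_, ?_, ?_⟩
    · simp only [Λ]; linarith
    · omega
    · omega
  have hdR : (1 : ℝ) ≤ d := by exact_mod_cast hd
  obtain ⟨C', hC'⟩ := exists_nat_ge (Real.log ((d : ℝ) ^ 4 * Λ ^ 2))
  refine ⟨1 + C' + 2 * D, by omega, ?_⟩
  intro n0 n1 p h hn0 hn1 hp
  set E : ℝ := (n0 : ℝ) * (d * (n1 * (d * (Real.exp h * Λ ^ 2)))) with hE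
  have hE0 : 0 ≤ E := by positivity
  -- the entries
  have hent : ∀ q q' : Fin d × Fin d, Nsz_B (mulM n0 n1 d g p q q') E (n0 + 2 * D) (n1 + 2 * D) := by
    intro q q'
    have e1 : mulM n0 n1 d g p q q' = ∑ a ∈ range n0, ∑ j ∈ range d, ∑ b ∈ range n1,
        ∑ k ∈ range d, (MvPolynomial.C (p a j b k) * (MvPolynomial.X 0 ^ a * MvPolynomial.X 1 ^ b)) *
          (P j q.1 q'.1 0 * P k q.2 q'.2 1) := by
      unfold mulM
      simp only [Matrix.sum_apply, Matrix.smul_apply, smul_eq_mul, Matrix.kroneckerMap_apply,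
        Matrix.map_apply, P]
    rw [e1]
    have e2 : ∀ a ∈ range n0, ∀ j ∈ range d, ∀ b ∈ range n1, ∀ k ∈ range d,
        Nsz_B ((MvPolynomial.C (p a j b k) * (MvPolynomial.X 0 ^ a * MvPolynomial.X 1 ^ b)) *
          (P j q.1 q'.1 0 * P k q.2 q'.2 1)) (Real.exp h * Λ ^ 2) (n0 + 2 * D) (n1 + 2 * D) := by
      intro a ha j hj b hb k hk
      have h1 := Nsz_mul (Nsz_mul (Nsz_C (p a j b k) (Real.exp h) (hp a j b k)) (Nsz_X a b))
        (Nsz_mul (hP j hj q.1 q'.1 0) (hP k hk q.2 q'.2 1))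
      have ha' := Finset.mem_range.mp ha
      have hb' := Finset.mem_range.mp hb
      refine Nsz_mono h1 (le_of_eq (by ring)) (by omega) (by omega)
    have e3 : E = ((range n0).card : ℝ) * (((range d).card : ℝ) * (((range n1).card : ℝ) *
        (((range d).card : ℝ) * (Real.exp h * Λ ^ 2)))) := by
      simp [hE]
    rw [e3]
    exact Nsz_sum _ _ _ _ _ fun a ha => Nsz_sum _ _ _ _ _ fun j hj =>
      Nsz_sum _ _ _ _ _ fun b hb => Nsz_sum _ _ _ _ _ fun k hk => e2 a ha j hj b hb k hk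
  -- the determinant
  have hdet : Nsz_B (nrmP n0 n1 d g p) (((d ^ 2).factorial : ℝ) * E ^ (d ^ 2))
      (d ^ 2 * (n0 + 2 * D)) (d ^ 2 * (n1 + 2 * D)) := by
    unfold nrmP
    rw [Matrix.det_apply']
    have hcard : Fintype.card (Fin d × Fin d) = d ^ 2 := by
      rw [Fintype.card_prod, Fintype.card_fin, sq]
    have h1 := Nsz_sum (Finset.univ : Finset (Equiv.Perm (Fin d × Fin d)))
      (fun σ => ((Equiv.Perm.sign σ : ℤ) : MvPolynomial (Fin 2) ℤ) *
        ∏ i, mulM n0 n1 d g p (σ i) i) (E ^ (d ^ 2)) (d ^ 2 * (n0 + 2 * D))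
        (d ^ 2 * (n1 + 2 * D)) (by
      intro σ _
      have h2 := Nsz_prod (Finset.univ : Finset (Fin d × Fin d))
        (fun i => mulM n0 n1 d g p (σ i) i) E (n0 + 2 * D) (n1 + 2 * D)
        (fun i _ => hent _ _)
      rw [Finset.card_univ, hcard] at h2
      have h3 : Nsz_B ((Equiv.Perm.sign σ : ℤ) : MvPolynomial (Fin 2) ℤ) 1 0 0 := by
        have := Nsz_C (Equiv.Perm.sign σ : ℤ) 1 (by
          rcases Int.units_eq_one_or (Equiv.Perm.sign σ) with h | h <;> rw [h] <;> simp)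
        simpa using this
      refine Nsz_mono (Nsz_mul h3 h2) (le_of_eq (by ring)) (by omega) (by omega))
    rw [Finset.card_univ, Fintype.card_perm, hcard] at h1
    exact h1
  refine ⟨hdet.2.1.trans ?_, hdet.2.2.trans ?_, fun κ => ?_⟩
  · exact Nat.mul_le_mul_left _ (by omega)
  · exact Nat.mul_le_mul_left _ (by omega)
  refine (Nsz_coeff_le _ κ).trans (hdet.1.trans ?_)
  have hfac : ((d ^ 2).factorial : ℝ) ≤ ((d : ℝ) ^ 2) ^ (d ^ 2) := by
    have := Nat.factorial_le_pow (d ^ 2)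
    exact_mod_cast this
  have h4 : (d : ℝ) ^ 2 * E ≤ Real.exp (h + ((1 + C' + 2 * D : ℕ) : ℝ) * ((n0 : ℝ) + n1)) := by
    have hn0R : (1 : ℝ) ≤ n0 := by exact_mod_cast hn0
    have hn1R : (1 : ℝ) ≤ n1 := by exact_mod_cast hn1
    have hpos : 0 < (d : ℝ) ^ 4 * Λ ^ 2 := by positivity
    have f1 : (d : ℝ) ^ 4 * Λ ^ 2 ≤ Real.exp C' := by
      rw [← Real.exp_log hpos]
      exact Real.exp_le_exp.mpr hC'
    have f2 : (n0 : ℝ) ≤ Real.exp n0 := by linarith [Real.add_one_le_exp (n0 : ℝ)]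
    have f3 : (n1 : ℝ) ≤ Real.exp n1 := by linarith [Real.add_one_le_exp (n1 : ℝ)]
    have f4 : (n0 : ℝ) * n1 ≤ Real.exp n0 * Real.exp n1 :=
      mul_le_mul f2 f3 (by positivity) (Real.exp_pos _).le
    have f5 : (d : ℝ) ^ 4 * Λ ^ 2 * ((n0 : ℝ) * n1) ≤ Real.exp C' * (Real.exp n0 * Real.exp n1) :=
      mul_le_mul f1 f4 (by positivity) (Real.exp_pos _).le
    have f6 : (d : ℝ) ^ 2 * E = Real.exp h * ((d : ℝ) ^ 4 * Λ ^ 2 * ((n0 : ℝ) * n1)) := by
      rw [hE]; ring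
    rw [f6]
    calc Real.exp h * ((d : ℝ) ^ 4 * Λ ^ 2 * ((n0 : ℝ) * n1))
        ≤ Real.exp h * (Real.exp C' * (Real.exp n0 * Real.exp n1)) :=
          mul_le_mul_of_nonneg_left f5 (Real.exp_pos _).le
      _ = Real.exp (h + (C' + (n0 + n1))) := by
          rw [Real.exp_add, Real.exp_add, Real.exp_add]
      _ ≤ _ := by
          apply Real.exp_le_exp.mpr
          push_cast
          have c0 : (0 : ℝ) ≤ C' := Nat.cast_nonneg _
          have c1 : (0 : ℝ) ≤ D := Nat.cast_nonneg _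
          nlinarith [mul_nonneg c0 (by linarith : (0 : ℝ) ≤ (n0 : ℝ) + n1 - 1),
            mul_nonneg c1 (by linarith : (0 : ℝ) ≤ (n0 : ℝ) + n1)]
  have h5 : 0 ≤ (d : ℝ) ^ 2 * E := by positivity
  calc ((d ^ 2).factorial : ℝ) * E ^ (d ^ 2) ≤ ((d : ℝ) ^ 2) ^ (d ^ 2) * E ^ (d ^ 2) :=
        mul_le_mul_of_nonneg_right hfac (by positivity)
    _ = ((d : ℝ) ^ 2 * E) ^ (d ^ 2) := (mul_pow _ _ _).symm
    _ ≤ (Real.exp (h + ((1 + C' + 2 * D : ℕ) : ℝ) * ((n0 : ℝ) + n1))) ^ (d ^ 2) :=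
        pow_le_pow_left₀ h5 h4 _
    _ = _ := by
        rw [← Real.exp_nat_mul]
        push_cast
        rfl

end Pool.Agent.Lib.SDC
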