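import Pool.Agent.Lib.SDC.Spec

/-!
# Lib/SDC: the parameters
-/

namespace Pool.Agent.Lib.SDC

open Finset Pool.Agent.Lib.SD

private lemma Par_fin (m c d τ K C1 h ε n0 n1 l0 l1 k0 k1 A B : ℝ) (hA : A = (τ - 2) * m)
    (hB : B = K + (2 * c + 2 * d + τ * m) * l0) (hm : 1 ≤ m) (hd : 0 ≤ d) (hc : 0 ≤ c)
    (hτ : 2 < τ)
    (hK : 0 ≤ K) (hC1 : 0 ≤ C1) (hh : 0 ≤ h) (hε : 0 < ε) (hε1 : ε ≤ 1)
    (hε2 : ε * (16 * (1 + C1)) ≤ A) (hn0 : 1 ≤ n0) (hn1 : 1 ≤ n1) (hl1 : 1 ≤ l1)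
    (hl01 : l1 ≤ l0) (hle : n0 ≤ n1) (hΘ : n0 * l0 ≤ n1 * l1)
    (hl1' : 4 * (2 * h + 4 * K + τ * m * K) ≤ A * l1)
    (hbig : 4 * (B + 1) ≤ A * (n1 * l1)) (hk0 : 0 ≤ k0) (hk1 : 0 ≤ k1)
    (hk : k0 / n0 + k1 / n1 ≤ ε) :
    h * (n0 + n1) + K * (n0 + n1 + k0 + k1 + 1) + (m * n0 + c + k0) * l0 +
      (m * n1 + c + k1) * l1 - τ * (m * (n1 * (l1 - K) - l0)) +
      ((n0 + d) * (ε * l0) + k0 * (C1 * l0) + (n1 + d) * (ε * l1) + k1 * (C1 * l1)) < 0 := by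
  have hn0' : 0 < n0 := by linarith
  have hn1' : 0 < n1 := by linarith
  have hl0 : 0 < l0 := by linarith
  have hA0 : 0 < A := by rw [hA]; exact mul_pos (by linarith) (by linarith)
  have hq0 : 0 ≤ k0 / n0 := div_nonneg hk0 hn0'.le
  have hq1 : 0 ≤ k1 / n1 := div_nonneg hk1 hn1'.le
  have e0 : k0 = k0 / n0 * n0 := by field_simp
  have e1 : k1 = k1 / n1 * n1 := by field_simp
  have b0 : k0 ≤ n0 := by
    rw [e0]
    have : k0 / n0 ≤ 1 := by linarith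
    have := mul_le_mul_of_nonneg_right this hn0'.le
    linarith
  have b1 : k1 ≤ n1 := by
    rw [e1]
    have : k1 / n1 ≤ 1 := by linarith
    have := mul_le_mul_of_nonneg_right this hn1'.le
    linarith
  set Θ : ℝ := n1 * l1 with hΘd
  have hΘ0 : 0 < Θ := mul_pos hn1' (by linarith)
  have f1 : k0 * l0 + k1 * l1 ≤ ε * Θ := by
    have h1 : k0 * l0 ≤ k0 / n0 * Θ := by
      calc k0 * l0 = k0 / n0 * (n0 * l0) := by field_simp
        _ ≤ k0 / n0 * Θ := mul_le_mul_of_nonneg_left hΘ hq0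
    have h2 : k1 * l1 = k1 / n1 * Θ := by
      rw [hΘd]; field_simp
    calc k0 * l0 + k1 * l1 ≤ (k0 / n0 + k1 / n1) * Θ := by rw [h2]; linarith
      _ ≤ ε * Θ := mul_le_mul_of_nonneg_right hk hΘ0.le
  have f2 : h * (n0 + n1) ≤ 2 * h * n1 := by
    have := mul_le_mul_of_nonneg_left hle hh
    linarith
  have f3 : K * (n0 + n1 + k0 + k1 + 1) ≤ K * (4 * n1 + 1) :=
    mul_le_mul_of_nonneg_left (by linarith) hK
  have f4 : m * (n0 * l0) ≤ m * Θ := mul_le_mul_of_nonneg_left hΘ (by linarith)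
  have f5 : c * l1 ≤ c * l0 := mul_le_mul_of_nonneg_left hl01 hc
  have f6 : ε * (n0 * l0) ≤ ε * Θ := mul_le_mul_of_nonneg_left hΘ hε.le
  have f7 : (d * ε) * l0 ≤ d * l0 := by
    have : d * ε ≤ d := by
      have := mul_le_mul_of_nonneg_left hε1 hd
      linarith
    exact mul_le_mul_of_nonneg_right this hl0.le
  have f8 : (d * ε) * l1 ≤ d * l0 := by
    have h1 : (d * ε) * l1 ≤ (d * ε) * l0 :=
      mul_le_mul_of_nonneg_left hl01 (mul_nonneg hd hε.le)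
    linarith
  have f9 : C1 * (k0 * l0 + k1 * l1) ≤ C1 * (ε * Θ) := mul_le_mul_of_nonneg_left f1 hC1
  have f10 : 4 * ((2 * h + 4 * K + τ * m * K) * n1) ≤ A * Θ := by
    have := mul_le_mul_of_nonneg_right hl1' hn1'.le
    calc 4 * ((2 * h + 4 * K + τ * m * K) * n1) = 4 * (2 * h + 4 * K + τ * m * K) * n1 := by ring
      _ ≤ A * l1 * n1 := this
      _ = A * (n1 * l1) := by ring
  have f11 : 16 * ((3 + C1) * (ε * Θ)) ≤ 3 * (A * Θ) := by
    have h1 : 16 * ((3 + C1) * ε) ≤ 3 * A := by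
      have : 0 ≤ ε * C1 := mul_nonneg hε.le hC1
      linarith
    have := mul_le_mul_of_nonneg_right h1 hΘ0.le
    calc 16 * ((3 + C1) * (ε * Θ)) = 16 * ((3 + C1) * ε) * Θ := by ring
      _ ≤ 3 * A * Θ := this
      _ = 3 * (A * Θ) := by ring
  have f12 : 0 ≤ A * Θ := (mul_pos hA0 hΘ0).le
  have key : h * (n0 + n1) + K * (n0 + n1 + k0 + k1 + 1) + (m * n0 + c + k0) * l0 +
      (m * n1 + c + k1) * l1 - τ * (m * (n1 * (l1 - K) - l0)) +
      ((n0 + d) * (ε * l0) + k0 * (C1 * l0) + (n1 + d) * (ε * l1) + k1 * (C1 * l1)) =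
      h * (n0 + n1) + K * (n0 + n1 + k0 + k1 + 1) + m * (n0 * l0) + m * Θ + c * l0 + c * l1 +
      (k0 * l0 + k1 * l1) - τ * m * Θ + τ * m * K * n1 + τ * m * l0 + ε * (n0 * l0) +
      (d * ε) * l0 + ε * Θ + (d * ε) * l1 + C1 * (k0 * l0 + k1 * l1) := by
    rw [hΘd]; ring
  rw [key]
  have g1 : A * Θ = τ * m * Θ - 2 * (m * Θ) := by rw [hA]; ring
  have g2 : τ * m * K * n1 = (τ * m * K) * n1 := rfl
  have g3 : 4 * (K + (2 * c + 2 * d + τ * m) * l0 + 1) ≤ A * Θ := by rw [← hB]; exact hbig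
  have g4 : 0 ≤ h * n1 := mul_nonneg hh hn1'.le
  linarith [f1, f2, f3, f4, f5, f6, f7, f8, f9, f10, f11, f12]

/-- Module Par. -/
theorem tPar : ParStmt := by
  intro m c d τ K C1 h hm hτ hK hC1 hh
  have hm' : (1 : ℝ) ≤ m := by exact_mod_cast hm
  set A : ℝ := (τ - 2) * m with hA
  have hA0 : 0 < A := mul_pos (by linarith) (by linarith)
  refine ⟨min 1 (A / (16 * (1 + C1))), lt_min one_pos (by positivity), ?_⟩
  intro ω KZ n hω hKZ
  refine ⟨max (max 1 (2 * K)) (max (8 * KZ * (1 + h)) (4 * (2 * h + 4 * K + τ * m * K) / A)),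
    fun l1 hl1 => ⟨max l1 (l1 / ω), fun l0 hl0 => ?_⟩⟩
  have a1 : 1 ≤ l1 := ((le_max_left _ _).trans (le_max_left _ _)).trans hl1
  have a2 : 2 * K ≤ l1 := ((le_max_right _ _).trans (le_max_left _ _)).trans hl1
  have a3 : 8 * KZ * (1 + h) ≤ l1 := ((le_max_left _ _).trans (le_max_right _ _)).trans hl1
  have a4 : 4 * (2 * h + 4 * K + τ * m * K) ≤ A * l1 := by
    have := ((le_max_right _ _).trans (le_max_right _ _)).trans hl1
    rw [div_le_iff₀ hA0] at this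
    linarith
  have a5 : l1 ≤ l0 := (le_max_left _ _).trans hl0
  have a6 : l1 ≤ ω * l0 := by
    have := (le_max_right _ _).trans hl0
    rw [div_le_iff₀ hω] at this
    linarith
  have hl0' : 0 < l0 := by linarith
  set B : ℝ := K + (2 * c + 2 * d + τ * m) * l0 with hB
  have hB0 : 0 ≤ B := by
    have h1 : 0 ≤ τ * m := mul_nonneg (by linarith) (by linarith)
    have h2 : (0 : ℝ) ≤ 2 * c + 2 * d + τ * m := by positivity
    have := mul_nonneg h2 hl0'.le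
    linarith
  obtain ⟨n1, hn1⟩ := exists_nat_ge (4 * l0 + 4 * (B + 1) / A + (n + 1) * l0 + n + 1)
  have p1 : 0 ≤ 4 * (B + 1) / A := by positivity
  have p2 : 0 ≤ ((n : ℝ) + 1) * l0 := by positivity
  have p3 : (0 : ℝ) ≤ n := Nat.cast_nonneg n
  have hn1' : (1 : ℝ) ≤ n1 := by linarith
  have hn1n : (n : ℝ) ≤ n1 := by linarith
  have hT : (n1 : ℝ) ≤ n1 * l1 := le_mul_of_one_le_right (by linarith) a1
  have hT1 : 4 * l0 ≤ n1 * l1 := by linarith
  have hT2 : 4 * (B + 1) ≤ A * (n1 * l1) := by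
    have : 4 * (B + 1) / A ≤ n1 * l1 := by linarith
    rw [div_le_iff₀ hA0] at this
    linarith
  have hT3 : ((n : ℝ) + 1) * l0 ≤ n1 * l1 := by linarith
  set n0 : ℕ := ⌊(n1 : ℝ) * l1 / l0⌋₊ with hn0
  have q1 : (n0 : ℝ) * l0 ≤ n1 * l1 := by
    have := Nat.floor_le (show (0 : ℝ) ≤ n1 * l1 / l0 by positivity)
    rw [← hn0, le_div_iff₀ hl0'] at this
    exact this
  have q2 : (n1 : ℝ) * l1 < (n0 + 1) * l0 := by
    have := Nat.lt_floor_add_one ((n1 : ℝ) * l1 / l0)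
    rw [← hn0, div_lt_iff₀ hl0'] at this
    exact this
  have q3 : n + 1 ≤ n0 := by
    refine Nat.le_floor ?_
    rw [le_div_iff₀ hl0']
    push_cast
    exact hT3
  have q3' : (1 : ℝ) ≤ n0 := by exact_mod_cast (show 1 ≤ n0 by omega)
  have q4 : (n0 : ℝ) ≤ n1 := by
    by_contra hc
    push Not at hc
    have h1 : (n1 : ℝ) * l1 < n0 * l1 := mul_lt_mul_of_pos_right hc (by linarith)
    have h2 : (n0 : ℝ) * l1 ≤ n0 * l0 := mul_le_mul_of_nonneg_left a5 (by linarith)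
    linarith
  have q5 : (n0 : ℝ) ≤ ω * n1 := by
    have h1 : (n1 : ℝ) * l1 ≤ n1 * (ω * l0) := mul_le_mul_of_nonneg_left a6 (by linarith)
    have h2 : (n0 : ℝ) * l0 ≤ (ω * n1) * l0 := by linarith
    exact le_of_mul_le_mul_right h2 hl0'
  have q6 : (n0 : ℝ) * K ≤ n1 * K := mul_le_mul_of_nonneg_right q4 hK
  have q7 : 2 * ((n1 : ℝ) * K) ≤ n1 * l1 := by
    have := mul_le_mul_of_nonneg_left a2 (show (0 : ℝ) ≤ n1 by linarith)
    linarith
  have q8 : KZ * ((n0 : ℝ) + n1 + h * ((n0 : ℝ) + n1)) ≤ n1 * l1 / 4 := by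
    have h1 : KZ * ((n0 : ℝ) + n1 + h * ((n0 : ℝ) + n1)) = (KZ * (1 + h)) * (n0 + n1) := by ring
    have h2 : 0 ≤ KZ * (1 + h) := by positivity
    rw [h1]
    calc (KZ * (1 + h)) * ((n0 : ℝ) + n1) ≤ (KZ * (1 + h)) * (2 * n1) :=
          mul_le_mul_of_nonneg_left (by linarith) h2
      _ = (8 * KZ * (1 + h)) * n1 / 4 := by ring
      _ ≤ l1 * n1 / 4 := by
          have := mul_le_mul_of_nonneg_right a3 (show (0 : ℝ) ≤ n1 by linarith)
          linarith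
      _ = n1 * l1 / 4 := by ring
  have r1 : (n1 : ℝ) * (l1 - K) - l0 ≤ n0 * (l0 - K) := by linarith
  have r2 : (n1 : ℝ) * (l1 - K) - l0 ≤ n1 * (l1 - K) := by linarith
  have r3 : (n1 : ℝ) * l1 / 4 ≤ n1 * (l1 - K) - l0 := by linarith
  have r4 : 0 ≤ (n1 : ℝ) * (l1 - K) - l0 := by
    have : 0 ≤ (n1 : ℝ) * l1 / 4 := by positivity
    linarith
  refine ⟨n0, n1, (m : ℝ) * (n1 * (l1 - K) - l0), by omega, by exact_mod_cast hn1n, by omega,
    by exact_mod_cast hn1', q5, mul_nonneg (by linarith) r4, ?_, ?_, by linarith, by linarith, ?_⟩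
  · rw [mul_assoc]
    exact mul_le_mul_of_nonneg_left r1 (by linarith)
  · rw [mul_assoc]
    exact mul_le_mul_of_nonneg_left r2 (by linarith)
  · intro k0 k1 hk
    refine Par_fin m c d τ K C1 h (min 1 (A / (16 * (1 + C1)))) n0 n1 l0 l1 k0 k1 A B hA hB hm'
      (Nat.cast_nonneg _) (Nat.cast_nonneg _) hτ hK hC1 hh (lt_min one_pos (by positivity))
      (min_le_left _ _) ?_ q3' hn1' a1 a5 q4 q1 a4 hT2 (Nat.cast_nonneg _) (Nat.cast_nonneg _) hk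
    have : min 1 (A / (16 * (1 + C1))) ≤ A / (16 * (1 + C1)) := min_le_right _ _
    rwa [le_div_iff₀ (by positivity)] at this

end Pool.Agent.Lib.SDC
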