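import Pool.Agent.Lib.SDC.Spec

namespace Pool.Agent.Lib.SDC

open Finset Pool.Agent.Lib.SD

private lemma Pts_hom {R R' : Type} [CommRing R] [CommRing R'] (ψ : R →+* R') (a b : R)
    (g : Polynomial (Polynomial ℤ)) : ψ (ev2 a b g) = ev2 (ψ a) (ψ b) g := by
  unfold ev2
  rw [Polynomial.hom_eval₂]
  congr 1
  refine Polynomial.ringHom_ext' ?_ ?_
  · exact RingHom.ext_int _ _
  · simp

private lemma Pts_emb {F : Type} [Field F] [NumberField F] (ρ : F →+* ℝ) (x : F) :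
    |ρ x| ≤ NumberField.house x := by
  have h := NumberField.norm_embedding_le_house x (Complex.ofRealHom.comp ρ)
  simpa using h

private lemma Pts_bnd (f : ℕ → ℝ) (C u v : ℝ) (hC : 1 ≤ C) (hf : ∀ b, |f b| ≤ C ^ (b + 1))
    (hu : 2 * C * |u| ≤ 1) (h : HasSum (fun b => f b * u ^ b) v) : |v| ≤ 2 * C := by
  have hC0 : 0 < C := by linarith
  have h1 : ∀ b, |f b * u ^ b| ≤ C * (1 / 2) ^ b := by
    intro b
    rw [abs_mul, abs_pow]
    have h2 : C * |u| ≤ 1 / 2 := by linarith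
    calc |f b| * |u| ^ b ≤ C ^ (b + 1) * |u| ^ b := by gcongr; exact hf b
      _ = C * (C * |u|) ^ b := by rw [mul_pow]; ring
      _ ≤ C * (1 / 2) ^ b := by gcongr
  have h3 : Summable (fun b : ℕ => C * (1 / 2 : ℝ) ^ b) := (summable_geometric_two).mul_left C
  have h4 : Summable (fun b => |f b * u ^ b|) := Summable.of_nonneg_of_le (fun b => abs_nonneg _) h1 h3
  have h5 : |v| ≤ ∑' b, |f b * u ^ b| := by
    rw [← h.tsum_eq]
    have := norm_tsum_le_tsum_norm (f := fun b => f b * u ^ b) h4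
    simpa [Real.norm_eq_abs] using this
  have h6 : ∑' b, |f b * u ^ b| ≤ ∑' b : ℕ, C * (1 / 2 : ℝ) ^ b := h4.tsum_le_tsum h1 h3
  rw [tsum_mul_left, tsum_geometric_two] at h6
  linarith

/-- the first term dominates -/
private lemma Pts_lim (f : ℕ → ℝ) (C u v : ℝ) (hC : 1 ≤ C) (hf : ∀ b, |f b| ≤ C ^ (b + 1))
    (hu : 2 * C * |u| ≤ 1) (h : HasSum (fun b => f b * u ^ b) v) : |v - f 0| ≤ 2 * C ^ 2 * |u| := by
  have hC0 : 0 < C := by linarith
  have h1 : HasSum (fun b => f (b + 1) * u ^ (b + 1)) (v - f 0) := by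
    have := (hasSum_nat_add_iff' (f := fun b => f b * u ^ b) 1).2 h
    simpa using this
  by_cases hu0 : u = 0
  · subst hu0
    have h2 : HasSum (fun b : ℕ => f (b + 1) * (0 : ℝ) ^ (b + 1)) 0 := by
      simpa using (hasSum_zero (α := ℝ) (β := ℕ))
    rw [h1.unique h2]
    simp
  · have h2 : HasSum (fun b => (f (b + 1) / C) * u ^ b) ((v - f 0) / (C * u)) := by
      have := h1.div_const (C * u)
      refine this.congr_fun ?_ |> fun h => h
      intro b
      rw [pow_succ]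
      field_simp
    have h3 := Pts_bnd (fun b => f (b + 1) / C) C u _ hC (fun b => by
      rw [abs_div, abs_of_pos hC0, div_le_iff₀ hC0, ← pow_succ]
      exact hf (b + 1)) hu h2
    rw [abs_div, abs_mul, abs_of_pos hC0, div_le_iff₀ (by positivity)] at h3
    nlinarith [h3]

/-- a polynomial bound -/
private lemma Pts_pol (g : Polynomial (Polynomial ℤ)) : ∃ c c' : ℕ, 1 ≤ c ∧ ∀ (x s : ℚ) (R : ℝ), 1 ≤ R →
    |(x : ℝ)| ≤ R → |(s : ℝ)| ≤ R → |((ev2 x s g : ℚ) : ℝ)| ≤ c * R ^ c' := by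
  have hadd : ∀ p q : Polynomial (Polynomial ℤ), (∃ c c' : ℕ, 1 ≤ c ∧ ∀ (x s : ℚ) (R : ℝ), 1 ≤ R →
      |(x : ℝ)| ≤ R → |(s : ℝ)| ≤ R → |((ev2 x s p : ℚ) : ℝ)| ≤ c * R ^ c') → (∃ c c' : ℕ, 1 ≤ c ∧ ∀ (x s : ℚ) (R : ℝ), 1 ≤ R →
      |(x : ℝ)| ≤ R → |(s : ℝ)| ≤ R → |((ev2 x s q : ℚ) : ℝ)| ≤ c * R ^ c') → (∃ c c' : ℕ, 1 ≤ c ∧ ∀ (x s : ℚ) (R : ℝ), 1 ≤ R →
      |(x : ℝ)| ≤ R → |(s : ℝ)| ≤ R → |((ev2 x s (p + q) : ℚ) : ℝ)| ≤ c * R ^ c') := by
    rintro p q ⟨c, c', hc, h⟩ ⟨b, b', hb, h'⟩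
    refine ⟨c + b, c' + b', by omega, fun x s R hR hx hs => ?_⟩
    have e : ev2 x s (p + q) = ev2 x s p + ev2 x s q := by unfold ev2; rw [Polynomial.eval₂_add]
    rw [e]
    push_cast
    have h1 := h x s R hR hx hs
    have h2 := h' x s R hR hx hs
    have h3 : (c : ℝ) * R ^ c' ≤ c * R ^ (c' + b') := by
      gcongr <;> first | exact hR | omega
    have h4 : (b : ℝ) * R ^ b' ≤ b * R ^ (c' + b') := by
      gcongr <;> first | exact hR | omega
    calc |((ev2 x s p : ℚ) : ℝ) + ((ev2 x s q : ℚ) : ℝ)| ≤ |((ev2 x s p : ℚ) : ℝ)| + |((ev2 x s q : ℚ) : ℝ)| :=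
          abs_add_le _ _
      _ ≤ (c + b) * R ^ (c' + b') := by linarith
  have hmul : ∀ p q : Polynomial (Polynomial ℤ), (∃ c c' : ℕ, 1 ≤ c ∧ ∀ (x s : ℚ) (R : ℝ), 1 ≤ R →
      |(x : ℝ)| ≤ R → |(s : ℝ)| ≤ R → |((ev2 x s p : ℚ) : ℝ)| ≤ c * R ^ c') → (∃ c c' : ℕ, 1 ≤ c ∧ ∀ (x s : ℚ) (R : ℝ), 1 ≤ R →
      |(x : ℝ)| ≤ R → |(s : ℝ)| ≤ R → |((ev2 x s q : ℚ) : ℝ)| ≤ c * R ^ c') → (∃ c c' : ℕ, 1 ≤ c ∧ ∀ (x s : ℚ) (R : ℝ), 1 ≤ R →
      |(x : ℝ)| ≤ R → |(s : ℝ)| ≤ R → |((ev2 x s (p * q) : ℚ) : ℝ)| ≤ c * R ^ c') := by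
    rintro p q ⟨c, c', hc, h⟩ ⟨b, b', hb, h'⟩
    refine ⟨c * b, c' + b', Nat.mul_pos hc hb, fun x s R hR hx hs => ?_⟩
    have e : ev2 x s (p * q) = ev2 x s p * ev2 x s q := by unfold ev2; rw [Polynomial.eval₂_mul]
    rw [e]
    push_cast
    rw [abs_mul]
    have h1 := h x s R hR hx hs
    have h2 := h' x s R hR hx hs
    calc |((ev2 x s p : ℚ) : ℝ)| * |((ev2 x s q : ℚ) : ℝ)| ≤ (c * R ^ c') * (b * R ^ b') := by
          gcongr
      _ = (c * b) * R ^ (c' + b') := by rw [pow_add]; ring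
  have hY : ∃ c c' : ℕ, 1 ≤ c ∧ ∀ (x s : ℚ) (R : ℝ), 1 ≤ R →
      |(x : ℝ)| ≤ R → |(s : ℝ)| ≤ R → |((ev2 x s (Polynomial.X : Polynomial (Polynomial ℤ)) : ℚ) : ℝ)| ≤ c * R ^ c' := by
    refine ⟨1, 1, le_refl _, fun x s R hR hx hs => ?_⟩
    unfold ev2
    rw [Polynomial.eval₂_X]
    simpa using hs
  have hT : ∃ c c' : ℕ, 1 ≤ c ∧ ∀ (x s : ℚ) (R : ℝ), 1 ≤ R →
      |(x : ℝ)| ≤ R → |(s : ℝ)| ≤ R →
        |((ev2 x s (Polynomial.C Polynomial.X : Polynomial (Polynomial ℤ)) : ℚ) : ℝ)| ≤ c * R ^ c' := by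
    refine ⟨1, 1, le_refl _, fun x s R hR hx hs => ?_⟩
    unfold ev2
    rw [Polynomial.eval₂_C]
    simpa using hx
  have hc : ∀ n : ℤ, ∃ c c' : ℕ, 1 ≤ c ∧ ∀ (x s : ℚ) (R : ℝ), 1 ≤ R →
      |(x : ℝ)| ≤ R → |(s : ℝ)| ≤ R →
        |((ev2 x s (Polynomial.C (Polynomial.C n) : Polynomial (Polynomial ℤ)) : ℚ) : ℝ)| ≤ c * R ^ c' := by
    intro n
    refine ⟨n.natAbs + 1, 0, by omega, fun x s R hR hx hs => ?_⟩
    have e : ev2 x s (Polynomial.C (Polynomial.C n) : Polynomial (Polynomial ℤ)) = (n : ℚ) := by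
      unfold ev2
      rw [Polynomial.eval₂_C, Polynomial.coe_eval₂RingHom, Polynomial.eval₂_C]
      simp
    rw [e, pow_zero, mul_one]
    push_cast
    rw [Nat.cast_natAbs]
    push_cast
    linarith
  have hC : ∀ q : Polynomial ℤ, ∃ c c' : ℕ, 1 ≤ c ∧ ∀ (x s : ℚ) (R : ℝ), 1 ≤ R →
      |(x : ℝ)| ≤ R → |(s : ℝ)| ≤ R →
        |((ev2 x s (Polynomial.C q : Polynomial (Polynomial ℤ)) : ℚ) : ℝ)| ≤ c * R ^ c' := by
    intro q
    induction q using Polynomial.induction_on with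
    | C a => exact hc a
    | add p q hp hq =>
      rw [Polynomial.C_add]
      exact hadd _ _ hp hq
    | monomial n a h =>
      have e : (Polynomial.C (Polynomial.C a * Polynomial.X ^ (n + 1)) : Polynomial (Polynomial ℤ)) =
          Polynomial.C (Polynomial.C a * Polynomial.X ^ n) * Polynomial.C Polynomial.X := by
        rw [← Polynomial.C_mul, pow_succ, mul_assoc]
      rw [e]
      exact hmul _ _ h hT
  induction g using Polynomial.induction_on with
  | C a => exact hC a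
  | add p q hp hq => exact hadd _ _ hp hq
  | monomial n a h =>
    rw [pow_succ, ← mul_assoc]
    exact hmul _ _ h hY

private lemma Pts_cst {F : Type} [Field F] (ρ : F →+* ℝ) (E : PowerSeries F) (u v : ℝ) (m : ℕ) (hu : u ≠ 0)
    (h : HasSum (fun b => ρ (PowerSeries.coeff b E) * u ^ b) (v * u ^ m)) :
    ∃ Tr : PowerSeries ℝ, Rex ρ m E u Tr ∧ PowerSeries.constantCoeff Tr = v := by
  have h1 : PowerSeries.constantCoeff ((PowerSeries.C u + PowerSeries.X : PowerSeries ℝ) ^ m) ≠ 0 := by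
    rw [map_pow, map_add]
    simpa using pow_ne_zero m hu
  have h2 : (PowerSeries.C u + PowerSeries.X : PowerSeries ℝ) ^ m *
      (((PowerSeries.C u + PowerSeries.X : PowerSeries ℝ) ^ m)⁻¹ * sft u (PowerSeries.map ρ E)) =
      sft u (PowerSeries.map ρ E) := by
    rw [← mul_assoc, PowerSeries.mul_inv_cancel _ h1, one_mul]
  refine ⟨((PowerSeries.C u + PowerSeries.X : PowerSeries ℝ) ^ m)⁻¹ * sft u (PowerSeries.map ρ E), h2, ?_⟩
  have h3 := congrArg (PowerSeries.constantCoeff (R := ℝ)) h2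
  rw [map_mul, map_pow, map_add, PowerSeries.constantCoeff_C, PowerSeries.constantCoeff_X, add_zero] at h3
  have h4 : PowerSeries.constantCoeff (sft u (PowerSeries.map ρ E)) = v * u ^ m := by
    rw [← PowerSeries.coeff_zero_eq_constantCoeff_apply]
    unfold sft
    rw [PowerSeries.coeff_mk]
    rw [← h.tsum_eq]
    refine tsum_congr fun n => ?_
    simp
  rw [h4] at h3
  have h5 : u ^ m ≠ 0 := pow_ne_zero m hu
  have h6 : u ^ m * PowerSeries.constantCoeff (((PowerSeries.C u + PowerSeries.X : PowerSeries ℝ) ^ m)⁻¹ *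
      sft u (PowerSeries.map ρ E)) = u ^ m * v := by rw [h3]; ring
  exact mul_left_cancel₀ h5 h6

private lemma Pts_C (a : PowerSeries ℝ) (c : ℝ) :
    PowerSeries.subst a (PowerSeries.C c : PowerSeries ℝ) = (PowerSeries.C c : PowerSeries ℝ) :=
  PowerSeries.subst_C _

private lemma Pts_c0 (a f : PowerSeries ℝ) (ha : PowerSeries.HasSubst a) (h : PowerSeries.constantCoeff a = 0) :
    PowerSeries.constantCoeff (PowerSeries.subst a f : PowerSeries ℝ) = PowerSeries.constantCoeff f := by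
  obtain ⟨q, hq⟩ : (PowerSeries.X : PowerSeries ℝ) ∣ f - PowerSeries.C (PowerSeries.constantCoeff f) := by
    rw [PowerSeries.X_dvd_iff, map_sub, PowerSeries.constantCoeff_C, sub_self]
  have h1 : f = PowerSeries.X * q + PowerSeries.C (PowerSeries.constantCoeff f) := by rw [← hq]; ring
  have h2 : (PowerSeries.subst a f : PowerSeries ℝ) = a * PowerSeries.subst a q +
      PowerSeries.C (PowerSeries.constantCoeff f) := by
    conv_lhs => rw [h1]
    rw [PowerSeries.subst_add ha, PowerSeries.subst_mul ha, PowerSeries.subst_X ha, Pts_C]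
  rw [h2, map_add, map_mul, h, zero_mul, zero_add, PowerSeries.constantCoeff_C]

/-- the values of T avoid the roots of a fixed polynomial -/
private lemma Pts_root (r : Polynomial ℤ) (hr : r ≠ 0) (m : ℕ) (hm : 1 ≤ m) (c : ℝ) (hc : c ≠ 0) (t : ℕ → ℝ) (T : ℕ → ℚ)
    (ht : Filter.Tendsto t Filter.atTop (nhds 0))
    (hT : Filter.Tendsto (fun i => (T i : ℝ) * t i ^ m) Filter.atTop (nhds c)) :
    ∀ᶠ i in Filter.atTop, Polynomial.aeval (T i) r ≠ 0 := by
  have h1 : ({x : ℚ | Polynomial.aeval x r = 0}).Finite := by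
    have h2 : r.map (Int.castRingHom ℚ) ≠ 0 := by
      intro h
      exact hr ((Polynomial.map_eq_zero_iff (RingHom.injective_int (Int.castRingHom ℚ))).1 h)
    have h3 : {x : ℚ | Polynomial.aeval x r = 0} ⊆ ((r.map (Int.castRingHom ℚ)).roots.toFinset : Set ℚ) := by
      intro x hx
      rw [Set.mem_setOf_eq] at hx
      rw [Finset.mem_coe, Multiset.mem_toFinset, Polynomial.mem_roots h2, Polynomial.IsRoot.def, Polynomial.eval_map]
      rw [Polynomial.aeval_def] at hx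
      exact hx
    exact Set.Finite.subset (Finset.finite_toSet _) h3
  obtain ⟨B, hB⟩ : ∃ B : ℝ, ∀ x ∈ {x : ℚ | Polynomial.aeval x r = 0}, |(x : ℝ)| ≤ B := by
    obtain ⟨B, hB⟩ := (h1.image (fun x : ℚ => |(x : ℝ)|)).bddAbove
    exact ⟨B, fun x hx => hB (Set.mem_image_of_mem _ hx)⟩
  have h4 : Filter.Tendsto (fun i => B * |t i|) Filter.atTop (nhds (B * |(0 : ℝ)|)) := (ht.abs).const_mul B
  rw [abs_zero, mul_zero] at h4
  have h5 : Filter.Tendsto (fun i => |(T i : ℝ) * t i ^ m|) Filter.atTop (nhds |c|) := hT.abs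
  have hc' : 0 < |c| := abs_pos.2 hc
  have h6 := h4.eventually (gt_mem_nhds (show (0 : ℝ) < |c| / 2 by positivity))
  have h7 := h5.eventually (lt_mem_nhds (show |c| / 2 < |c| by linarith))
  have h8 := (ht.abs).eventually (gt_mem_nhds (show |(0 : ℝ)| < 1 by simp))
  filter_upwards [h6, h7, h8] with i hi1 hi2 hi3 h0
  have h9 := hB (T i) h0
  have h10 : |(T i : ℝ) * t i ^ m| ≤ B * |t i| := by
    rw [abs_mul, abs_pow]
    have h11 : |t i| ^ m ≤ |t i| := by
      calc |t i| ^ m ≤ |t i| ^ 1 := pow_le_pow_of_le_one (abs_nonneg _) hi3.le hm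
        _ = |t i| := pow_one _
    have hB0 : 0 ≤ B := (abs_nonneg _).trans h9
    exact mul_le_mul h9 h11 (by positivity) hB0
  linarith

theorem tPts (h1 : HnsStmt) (h2 : UnqStmt) (h3 : IdpStmt) (h4 : GsnStmt) (h5 : AnaStmt) (h6 : LamStmt) : PtsStmt := by
  intro F _ _ ρ m μ C0 d g E Y t T S N hm hd hg hdeg hirr hE0 hC0 hE hY hform htend ht0 hT hS hpt hN hNT hNS hnear
  obtain ⟨D, hD⟩ := h1 g
  obtain ⟨r, hr0, hr⟩ := h4 g hirr
  obtain ⟨ul, hul, hlam⟩ := h6 F ρ m C0 E hm hC0 hE hE0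
  obtain ⟨c, c', hc, hpol⟩ := Pts_pol (Polynomial.derivative g)
  have hC0r : (1 : ℝ) ≤ C0 := by exact_mod_cast hC0
  have hEb : ∀ b, |ρ (PowerSeries.coeff b E)| ≤ (C0 : ℝ) ^ (b + 1) := fun b => (Pts_emb ρ _).trans (hE b).2
  have hYb : ∀ b, |ρ (PowerSeries.coeff b Y)| ≤ (C0 : ℝ) ^ (b + 1) := fun b => (Pts_emb ρ _).trans (hY b).2
  -- the limit of T t^m
  have hsmall : ∀ δ : ℝ, 0 < δ → ∀ᶠ i in Filter.atTop, |t i| < δ := by
    intro δ hδ
    have := (htend.abs).eventually (gt_mem_nhds (show |(0 : ℝ)| < δ by simpa using hδ))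
    exact this
  have hlim : Filter.Tendsto (fun i => (T i : ℝ) * t i ^ m) Filter.atTop
      (nhds (ρ (PowerSeries.coeff 0 E))) := by
    rw [tendsto_iff_norm_sub_tendsto_zero]
    have hz : Filter.Tendsto (fun i => 2 * (C0 : ℝ) ^ 2 * |t i|) Filter.atTop (nhds 0) := by
      have := (htend.abs).const_mul (2 * (C0 : ℝ) ^ 2)
      simpa using this
    refine squeeze_zero' (Filter.Eventually.of_forall fun i => norm_nonneg _) ?_ hz
    filter_upwards [hsmall (1 / (2 * C0)) (by positivity)] with i hi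
    rw [Real.norm_eq_abs]
    refine Pts_lim (fun b => ρ (PowerSeries.coeff b E)) C0 (t i) _ hC0r hEb ?_ (hT i)
    have hp : (0 : ℝ) < 2 * C0 := by positivity
    rw [lt_div_iff₀ hp] at hi
    linarith
  have hρ0 : ρ (PowerSeries.coeff 0 E) ≠ 0 := by
    rw [PowerSeries.coeff_zero_eq_constantCoeff_apply]
    exact (map_ne_zero ρ).2 hE0
  have hroot := Pts_root r hr0 m hm _ hρ0 t T htend hlim
  have hlog2 : 0 < Real.log 2 := Real.log_pos (by norm_num)
  have hcr : (1 : ℝ) ≤ c := by exact_mod_cast hc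
  have hlogc : 0 ≤ Real.log c := Real.log_nonneg hcr
  have hlogC : 0 ≤ Real.log (2 * C0) := Real.log_nonneg (by linarith)
  refine ⟨2 * (D + Real.log c / Real.log 2 + c' * (Real.log (2 * C0) / Real.log 2 + (m + μ))), by positivity,
    fun δ hδ => ?_⟩
  have hε : 0 < min δ 1 := lt_min hδ one_pos
  obtain ⟨i, hi1, hi2, hi3, hi4, hi5, hi6⟩ := ((hsmall δ hδ).and ((hsmall ul hul).and
    ((hsmall (1 / (2 * C0)) (by positivity)).and ((hsmall (1 / 2) (by norm_num)).and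
    (hroot.and (hnear (min δ 1) hε)))))).exists
  have hu0 : t i ≠ 0 := ht0 i
  have hau : 0 < |t i| := abs_pos.2 hu0
  have h2C : 2 * (C0 : ℝ) * |t i| < 1 := by
    have hp : (0 : ℝ) < 2 * C0 := by positivity
    rw [lt_div_iff₀ hp] at hi3
    linarith
  have hder : ev2 (T i) (S i) (Polynomial.derivative g) ≠ 0 := fun h => hi5 (hr _ _ (hpt i) h)
  obtain ⟨S', A, hS0, hS1, hA1, hdS, hA⟩ := hD (T i) (S i) (N i) (hN i) (hNT i) (hNS i) (hpt i) hder
  obtain ⟨Tr, hTr, hTr0⟩ := Pts_cst ρ E (t i) (T i) m hu0 (hT i)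
  obtain ⟨Sr, hSr, hSr0⟩ := Pts_cst ρ Y (t i) (S i) μ hu0 (hS i)
  have hev : ev2 Tr Sr g = 0 := h5 F ρ m μ C0 g E Y hC0 hE hY hform (t i) Tr Sr h2C hTr hSr
  -- logarithms
  have hl : Real.log 2 ≤ Real.log (1 / |t i|) := by
    refine Real.log_le_log (by norm_num) ?_
    rw [le_div_iff₀ hau]
    linarith
  have hlN : Real.log (N i) ≤ min δ 1 * Real.log (1 / |t i|) := by
    have hNp : (0 : ℝ) < N i := by exact_mod_cast hN i
    have := Real.log_le_log hNp hi6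
    rw [Real.log_rpow hau] at this
    rw [one_div, Real.log_inv]
    linarith
  have hlam0 : 0 < Real.log (1 / |t i|) := lt_of_lt_of_le hlog2 hl
  -- bound of the derivative
  have hR : (1 : ℝ) ≤ 2 * C0 * (1 / |t i|) ^ (m + μ) := by
    have h7 : (1 : ℝ) ≤ (1 / |t i|) ^ (m + μ) := by
      refine one_le_pow₀ ?_
      rw [le_div_iff₀ hau]
      linarith
    nlinarith
  have hx : |((T i : ℚ) : ℝ)| ≤ 2 * C0 * (1 / |t i|) ^ (m + μ) := by
    have h7 := Pts_bnd (fun b => ρ (PowerSeries.coeff b E)) C0 (t i) _ hC0r hEb h2C.le (hT i)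
    rw [abs_mul, abs_pow] at h7
    have h8 : |(T i : ℝ)| ≤ 2 * C0 * (1 / |t i|) ^ m := by
      rw [one_div, inv_pow, ← div_eq_mul_inv, le_div_iff₀ (by positivity)]
      exact h7
    refine h8.trans ?_
    have h9 : (1 / |t i|) ^ m ≤ (1 / |t i|) ^ (m + μ) := by
      refine pow_le_pow_right₀ ?_ (by omega)
      rw [le_div_iff₀ hau]
      linarith
    have : (0 : ℝ) ≤ 2 * C0 := by positivity
    exact mul_le_mul_of_nonneg_left h9 this
  have hs : |((S i : ℚ) : ℝ)| ≤ 2 * C0 * (1 / |t i|) ^ (m + μ) := by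
    have h7 := Pts_bnd (fun b => ρ (PowerSeries.coeff b Y)) C0 (t i) _ hC0r hYb h2C.le (hS i)
    rw [abs_mul, abs_pow] at h7
    have h8 : |(S i : ℝ)| ≤ 2 * C0 * (1 / |t i|) ^ μ := by
      rw [one_div, inv_pow, ← div_eq_mul_inv, le_div_iff₀ (by positivity)]
      exact h7
    refine h8.trans ?_
    have h9 : (1 / |t i|) ^ μ ≤ (1 / |t i|) ^ (m + μ) := by
      refine pow_le_pow_right₀ ?_ (by omega)
      rw [le_div_iff₀ hau]
      linarith
    have : (0 : ℝ) ≤ 2 * C0 := by positivity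
    exact mul_le_mul_of_nonneg_left h9 this
  have hdb := hpol (T i) (S i) _ hR hx hs
  have hdpos : 0 < |((ev2 (T i) (S i) (Polynomial.derivative g) : ℚ) : ℝ)| := by
    rw [abs_pos]
    exact_mod_cast hder
  have hlogd : Real.log |((ev2 (T i) (S i) (Polynomial.derivative g) : ℚ) : ℝ)| ≤
      Real.log c + c' * (Real.log (2 * C0) + (m + μ) * Real.log (1 / |t i|)) := by
    have h7 := Real.log_le_log hdpos hdb
    have hRp : 0 < 2 * (C0 : ℝ) * (1 / |t i|) ^ (m + μ) := by positivity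
    rw [Real.log_mul (by positivity) (by positivity), Real.log_pow, Real.log_mul (by positivity) (by positivity),
      Real.log_pow] at h7
    push_cast at h7
    exact h7
  have hlogA : Real.log A ≤ 2 * (D + Real.log c / Real.log 2 + c' * (Real.log (2 * C0) / Real.log 2 + (m + μ))) *
      Real.log (1 / |t i|) := by
    have hNp : (0 : ℝ) < N i := by exact_mod_cast hN i
    have hAr : (A : ℝ) = ((N i : ℝ) ^ D * ((ev2 (T i) (S i) (Polynomial.derivative g) : ℚ) : ℝ)) ^ 2 := by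
      exact_mod_cast congrArg (fun q : ℚ => (q : ℝ)) hA
    have h7 : Real.log A = 2 * (D * Real.log (N i) +
        Real.log |((ev2 (T i) (S i) (Polynomial.derivative g) : ℚ) : ℝ)|) := by
      rw [hAr, ← sq_abs, Real.log_pow, abs_mul, abs_of_pos (by positivity : (0 : ℝ) < (N i : ℝ) ^ D),
        Real.log_mul (by positivity) hdpos.ne', Real.log_pow]
      push_cast
      ring
    have h8 : Real.log (N i) ≤ Real.log (1 / |t i|) := by
      refine hlN.trans ?_
      have := min_le_right δ 1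
      nlinarith
    have h9 : Real.log c ≤ Real.log c / Real.log 2 * Real.log (1 / |t i|) := by
      rw [div_mul_eq_mul_div, le_div_iff₀ hlog2]
      exact mul_le_mul_of_nonneg_left hl hlogc
    have h10 : Real.log (2 * C0) ≤ Real.log (2 * C0) / Real.log 2 * Real.log (1 / |t i|) := by
      rw [div_mul_eq_mul_div, le_div_iff₀ hlog2]
      exact mul_le_mul_of_nonneg_left hl hlogC
    rw [h7]
    have h11 : (D : ℝ) * Real.log (N i) ≤ D * Real.log (1 / |t i|) :=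
      mul_le_mul_of_nonneg_left h8 (Nat.cast_nonneg _)
    have h12 : (c' : ℝ) * Real.log (2 * C0) ≤ c' * (Real.log (2 * C0) / Real.log 2 * Real.log (1 / |t i|)) :=
      mul_le_mul_of_nonneg_left h10 (Nat.cast_nonneg _)
    nlinarith [hlogd, h9, h11, h12]
  -- substitution
  have hsub : PowerSeries.HasSubst (Tr - PowerSeries.C ((T i : ℚ) : ℝ)) := by
    refine PowerSeries.HasSubst.of_constantCoeff_zero' ?_
    rw [map_sub, hTr0, PowerSeries.constantCoeff_C, sub_self]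
  let ψ : PowerSeries ℚ →+* PowerSeries ℝ :=
    ((PowerSeries.substAlgHom hsub : PowerSeries ℝ →ₐ[ℝ] PowerSeries ℝ) : PowerSeries ℝ →+* PowerSeries ℝ).comp
      (PowerSeries.map (algebraMap ℚ ℝ))
  have hψ : ∀ f, ψ f = PowerSeries.subst (Tr - PowerSeries.C ((T i : ℚ) : ℝ)) (PowerSeries.map (algebraMap ℚ ℝ) f) := by
    intro f
    show (PowerSeries.substAlgHom hsub) (PowerSeries.map (algebraMap ℚ ℝ) f) = _
    rw [PowerSeries.coe_substAlgHom]
  have hψT : ψ (PowerSeries.C (T i) + PowerSeries.X) = Tr := by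
    rw [hψ, map_add, PowerSeries.map_C, PowerSeries.map_X, PowerSeries.subst_add hsub, PowerSeries.subst_X hsub]
    have : PowerSeries.subst (Tr - PowerSeries.C ((T i : ℚ) : ℝ)) (PowerSeries.C (algebraMap ℚ ℝ (T i))) =
        (PowerSeries.C ((T i : ℚ) : ℝ) : PowerSeries ℝ) := Pts_C _ _
    rw [this]
    ring
  have hSub : Sr = PowerSeries.subst (Tr - PowerSeries.C ((T i : ℚ) : ℝ)) (PowerSeries.map (algebraMap ℚ ℝ) S') := by
    rw [← hψ]
    refine h2 g Tr Sr (ψ S') hev ?_ ?_ ?_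
    · have := Pts_hom ψ (PowerSeries.C (T i) + PowerSeries.X) S' g
      rw [hS1, map_zero, hψT] at this
      exact this.symm
    · rw [hSr0, hψ, Pts_c0 _ _ hsub (by rw [map_sub, hTr0, PowerSeries.constantCoeff_C, sub_self]),
        ← PowerSeries.coeff_zero_eq_constantCoeff_apply, PowerSeries.coeff_map,
        PowerSeries.coeff_zero_eq_constantCoeff_apply, hS0]
      rfl
    · rw [hTr0, hSr0]
      have h7 := Pts_hom (algebraMap ℚ ℝ) (T i) (S i) (Polynomial.derivative g)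
      have h8 : ev2 ((T i : ℚ) : ℝ) ((S i : ℚ) : ℝ) (Polynomial.derivative g) =
          ((ev2 (T i) (S i) (Polynomial.derivative g) : ℚ) : ℝ) := h7.symm
      rw [h8]
      exact_mod_cast hder
  refine ⟨t i, T i, S', Tr, Sr, N i, A, ⟨hu0, hi1, hN i, hA1, ?_, hlogA, ?_, hdS,
    h3 d g (T i) S' hd hg hdeg hirr hS1, hTr, hSr, hTr0, hlam (t i) Tr hu0 hi2 hTr, hSub⟩⟩
  · refine hlN.trans ?_
    exact mul_le_mul_of_nonneg_right (min_le_left _ _) hlam0.le
  · intro k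
    rcases k with _ | k
    · obtain ⟨z, hz⟩ := hNT i
      refine ⟨z, ?_⟩
      rw [← hz]
      simp
    · rcases k with _ | k
      · refine ⟨N i * A, ?_⟩
        push_cast
        simp
      · refine ⟨0, ?_⟩
        rw [map_add, PowerSeries.coeff_C, PowerSeries.coeff_X]
        simp

end Pool.Agent.Lib.SDC
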