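import Pool.Agent.Lib.SDC.Spec

/-! # Module Row: fewer equations than unknowns -/

namespace Pool.Agent.Lib.SDC

open Finset Pool.Agent.Lib.SD

/-- **Row.** -/
theorem tRow : RowStmt := by
  intro τ e m d hτ he hm hd h
  have hd' : (1 : ℝ) ≤ (d : ℝ) := by exact_mod_cast hd
  have hm' : (1 : ℝ) ≤ (m : ℝ) := by exact_mod_cast hm
  have he' : (1 : ℝ) ≤ (e : ℝ) := by exact_mod_cast he
  have hd2 : (0 : ℝ) < (d : ℝ) ^ 2 := by positivity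
  have hA0 : (0 : ℝ) < 2 * (d : ℝ) ^ 2 - (e : ℝ) * τ ^ 2 * (m : ℝ) ^ 2 := by linarith
  have hE0 : (0 : ℝ) < (e : ℝ) * τ ^ 2 * (m : ℝ) ^ 2 := by positivity
  obtain ⟨n, hn⟩ := exists_nat_gt
    (4 * (e : ℝ) * (2 * (τ + 1) * m + 1) / (2 * (d : ℝ) ^ 2 - (e : ℝ) * τ ^ 2 * (m : ℝ) ^ 2))
  rw [div_lt_iff₀ hA0] at hn
  have hpos : (0 : ℝ) < 4 * (e : ℝ) * (2 * (τ + 1) * m + 1) := by positivity
  have hn0 : (0 : ℝ) < (n : ℝ) := by
    by_contra hc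
    have : (n : ℝ) * (2 * (d : ℝ) ^ 2 - (e : ℝ) * τ ^ 2 * (m : ℝ) ^ 2) ≤ 0 :=
      mul_nonpos_of_nonpos_of_nonneg (not_lt.mp hc) hA0.le
    linarith
  have hn1 : 1 ≤ n := by
    have : 0 < n := by exact_mod_cast hn0
    exact this
  refine ⟨(1 + (e : ℝ) * τ ^ 2 * (m : ℝ) ^ 2 / (2 * (d : ℝ) ^ 2)) / 2, n, by positivity, ?_, hn1,
    ?_⟩
  · have : (e : ℝ) * τ ^ 2 * (m : ℝ) ^ 2 / (2 * (d : ℝ) ^ 2) < 1 := by
      rw [div_lt_one (by positivity)]; exact h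
    linarith
  · intro n0 n1 h0 h1
    have h0' : (n : ℝ) ≤ (n0 : ℝ) := by exact_mod_cast h0
    have h1' : (n : ℝ) ≤ (n1 : ℝ) := by exact_mod_cast h1
    have hone : (1 : ℝ) ≤ (n : ℝ) := by exact_mod_cast hn1
    have e1 : (1 + (e : ℝ) * τ ^ 2 * (m : ℝ) ^ 2 / (2 * (d : ℝ) ^ 2)) / 2 *
        ((d : ℝ) ^ 2 * n0 * n1) = (2 * (d : ℝ) ^ 2 + (e : ℝ) * τ ^ 2 * (m : ℝ) ^ 2) / 4 *
          ((n0 : ℝ) * n1) := by
      field_simp
      ring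
    rw [e1]
    set A : ℝ := 2 * (d : ℝ) ^ 2 - (e : ℝ) * τ ^ 2 * (m : ℝ) ^ 2 with hA
    set P : ℝ := (n0 : ℝ) * n1 with hP
    have hP0 : 0 < P := by
      have : (0 : ℝ) < n0 := by linarith
      have : (0 : ℝ) < n1 := by linarith
      positivity
    have a1 : (n : ℝ) * (n0 + n1) ≤ 2 * P := by
      have : (n : ℝ) * n0 ≤ n1 * n0 := mul_le_mul_of_nonneg_right h1' (by linarith)
      have : (n : ℝ) * n1 ≤ n0 * n1 := mul_le_mul_of_nonneg_right h0' (by linarith)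
      rw [hP]; nlinarith
    have a2 : (n : ℝ) ≤ P := by
      rw [hP]
      calc (n : ℝ) = n * 1 := by ring
        _ ≤ n0 * n1 := mul_le_mul h0' (by linarith) zero_le_one (by linarith)
    -- multiply by n
    have key : (n : ℝ) * ((e : ℝ) * ((τ + 1) * m * (n0 + n1) + 1)) ≤ n * (A / 4 * P) := by
      have b1 : (n : ℝ) * ((e : ℝ) * ((τ + 1) * m * (n0 + n1) + 1)) =
          e * ((τ + 1) * m) * (n * (n0 + n1)) + e * n := by ring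
      rw [b1]
      have b2 : (e : ℝ) * ((τ + 1) * m) * (n * (n0 + n1)) ≤ e * ((τ + 1) * m) * (2 * P) :=
        mul_le_mul_of_nonneg_left a1 (by positivity)
      have b3 : (e : ℝ) * n ≤ e * P := mul_le_mul_of_nonneg_left a2 (by positivity)
      have b4 : 4 * (e : ℝ) * (2 * (τ + 1) * m + 1) * P ≤ n * A * P :=
        mul_le_mul_of_nonneg_right hn.le hP0.le
      nlinarith
    have key2 := le_of_mul_le_mul_left key hn0
    have e2 : (e : ℝ) * (τ ^ 2 * ((m : ℝ) * n0) * ((m : ℝ) * n1) / 2 +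
        (τ + 1) * ((m : ℝ) * n0 + (m : ℝ) * n1) + 1) =
        (e : ℝ) * τ ^ 2 * (m : ℝ) ^ 2 / 2 * P + (e : ℝ) * ((τ + 1) * m * (n0 + n1) + 1) := by
      rw [hP]; ring
    rw [e2]
    have e3 : (2 * (d : ℝ) ^ 2 + (e : ℝ) * τ ^ 2 * (m : ℝ) ^ 2) / 4 * P =
        (e : ℝ) * τ ^ 2 * (m : ℝ) ^ 2 / 2 * P + A / 4 * P := by
      rw [hA]; ring
    rw [e3]
    linarith

end Pool.Agent.Lib.SDC
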