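import Pool.Agent.Lib.SDC.Spec

/-!
# Lib/SDC: the reversed polynomial
-/

namespace Pool.Agent.Lib.SDC

open Finset Pool.Agent.Lib.SD

private noncomputable def Rvs_D (D : Fin 2 → ℕ) : Fin 2 →₀ ℕ := Finsupp.equivFunOnFinite.symm D

private lemma Rvs_D_apply (D : Fin 2 → ℕ) (h : Fin 2) : Rvs_D D h = D h := rfl

private noncomputable def Rvs_R (D : Fin 2 → ℕ) (R : MvPolynomial (Fin 2) ℤ) :
    MvPolynomial (Fin 2) ℤ :=
  ∑ κ ∈ R.support, MvPolynomial.monomial (Rvs_D D - κ) (MvPolynomial.coeff κ R)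

private lemma Rvs_le (D : Fin 2 → ℕ) (R : MvPolynomial (Fin 2) ℤ) (hD : ∀ h, R.degreeOf h ≤ D h)
    (κ : Fin 2 →₀ ℕ) (hκ : κ ∈ R.support) : κ ≤ Rvs_D D := fun h =>
  (MvPolynomial.monomial_le_degreeOf h hκ).trans (hD h)

private lemma Rvs_coeff (D : Fin 2 → ℕ) (R : MvPolynomial (Fin 2) ℤ)
    (hD : ∀ h, R.degreeOf h ≤ D h) (l : Fin 2 →₀ ℕ) :
    MvPolynomial.coeff l (Rvs_R D R) =
      if Rvs_D D - (Rvs_D D - l) = l then MvPolynomial.coeff (Rvs_D D - l) R else 0 := by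
  classical
  unfold Rvs_R
  rw [MvPolynomial.coeff_sum]
  simp_rw [MvPolynomial.coeff_monomial]
  rw [Finset.sum_eq_single (Rvs_D D - l)]
  · intro κ hκ hne
    rw [if_neg]
    intro h
    apply hne
    rw [← h, tsub_tsub_cancel_of_le (Rvs_le D R hD κ hκ)]
  · intro h
    rw [MvPolynomial.notMem_support_iff.1 h]
    simp

/-- Module Rvs. -/
theorem tRvs : RvsStmt := by
  classical
  intro D R hR hD
  refine ⟨Rvs_R D R, ?_, ?_, ?_, ?_⟩
  · obtain ⟨κ, hκ⟩ := MvPolynomial.ne_zero_iff.1 hR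
    have hle : κ ≤ Rvs_D D := Rvs_le D R hD κ (MvPolynomial.mem_support_iff.2 hκ)
    refine MvPolynomial.ne_zero_iff.2 ⟨Rvs_D D - κ, ?_⟩
    rw [Rvs_coeff D R hD, tsub_tsub_cancel_of_le hle, if_pos rfl]
    exact hκ
  · intro h
    refine (MvPolynomial.degreeOf_le_iff).2 fun l hl => ?_
    have h1 := MvPolynomial.mem_support_iff.1 hl
    rw [Rvs_coeff D R hD] at h1
    have h2 : Rvs_D D - (Rvs_D D - l) = l := by
      by_contra hc
      exact h1 (if_neg hc)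
    have h3 : l ≤ Rvs_D D := h2 ▸ tsub_le_self
    exact h3 h
  · intro κ
    rw [Rvs_coeff D R hD]
    by_cases h : Rvs_D D - (Rvs_D D - κ) = κ
    · right
      exact ⟨Rvs_D D - κ, if_pos h⟩
    · left
      exact if_neg h
  · intro B _ T z hz
    have h1 : (MvPolynomial.aeval T : MvPolynomial (Fin 2) ℤ →ₐ[ℤ] B) R =
        ∑ κ ∈ R.support, algebraMap ℤ B (MvPolynomial.coeff κ R) * ∏ i, T i ^ κ i := by
      rw [MvPolynomial.aeval_def, MvPolynomial.eval₂_eq']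
    rw [h1]
    unfold Rvs_R
    rw [map_sum, Finset.mul_sum]
    refine Finset.sum_congr rfl fun κ hκ => ?_
    have hle := Rvs_le D R hD κ hκ
    rw [MvPolynomial.aeval_monomial, Finsupp.prod_fintype _ _ (by simp), Fin.prod_univ_two,
      Fin.prod_univ_two, Finsupp.tsub_apply, Finsupp.tsub_apply, Rvs_D_apply, Rvs_D_apply]
    have h2 : ∀ h, z h ^ D h = z h ^ (D h - κ h) * z h ^ κ h := fun h => by
      rw [← pow_add, Nat.sub_add_cancel (show κ h ≤ D h from hle h)]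
    have h3 : ∀ h, z h ^ κ h * T h ^ κ h = 1 := fun h => by rw [← mul_pow, hz, one_pow]
    rw [h2 0, h2 1]
    calc _ = algebraMap ℤ B (MvPolynomial.coeff κ R) *
        (z 0 ^ (D 0 - κ 0) * z 1 ^ (D 1 - κ 1)) * 1 * 1 := by ring
      _ = algebraMap ℤ B (MvPolynomial.coeff κ R) *
        (z 0 ^ (D 0 - κ 0) * z 1 ^ (D 1 - κ 1)) * (z 0 ^ κ 0 * T 0 ^ κ 0) *
          (z 1 ^ κ 1 * T 1 ^ κ 1) := by rw [h3 0, h3 1]
      _ = _ := by ring

end Pool.Agent.Lib.SDC
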