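import Pool.Agent.Lib.SDC.Spec

namespace Pool.Agent.Lib.SDC

open Finset Pool.Agent.Lib.SD

/-- summability of the shifted series -/
private lemma Sft_sum (u r : ℝ) (hu : |u| < r) (c : ℕ → ℝ) (hc : Summable (fun n => |c n| * r ^ n))
    (k : ℕ) : Summable (fun n => ‖c (n + k) * ((n + k).choose k : ℝ) * u ^ n‖) := by
  have hr : 0 < r := lt_of_le_of_lt (abs_nonneg u) hu
  have hq : ‖|u| / r‖ < 1 := by
    rw [Real.norm_eq_abs, abs_of_nonneg (by positivity), div_lt_one hr]
    exact hu
  have h1 : Summable (fun n : ℕ => ((n + k).choose k : ℝ) * (|u| / r) ^ n) :=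
    summable_choose_mul_geometric_of_norm_lt_one k hq
  set M : ℝ := ∑' n : ℕ, ((n + k).choose k : ℝ) * (|u| / r) ^ n with hM
  have h2 : ∀ n : ℕ, ((n + k).choose k : ℝ) * (|u| / r) ^ n ≤ M := by
    intro n
    exact h1.le_tsum n fun j _ => by positivity
  have h3 : Summable (fun n => (M / r ^ k) * (|c (n + k)| * r ^ (n + k))) :=
    ((summable_nat_add_iff k).2 hc).mul_left _
  refine Summable.of_nonneg_of_le (fun n => norm_nonneg _) ?_ h3
  intro n
  rw [norm_mul, norm_mul, Real.norm_eq_abs, Real.norm_eq_abs, Real.norm_eq_abs, Nat.abs_cast, abs_pow]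
  have h4 := h2 n
  rw [div_pow, ← mul_div_assoc, div_le_iff₀ (by positivity)] at h4
  have e : (M / r ^ k) * (|c (n + k)| * r ^ (n + k)) = |c (n + k)| * (M * r ^ n) := by
    rw [pow_add]
    field_simp
  rw [e, mul_assoc]
  exact mul_le_mul_of_nonneg_left h4 (abs_nonneg _)

/-- shift of the antidiagonal -/
private lemma Sft_anti (g : ℕ → ℕ → ℝ) (n a b : ℕ) (hg : ∀ s t, s < a ∨ t < b → g s t = 0) :
    ∑ p ∈ antidiagonal (n + (a + b)), g p.1 p.2 =
      ∑ q ∈ antidiagonal n, g (q.1 + a) (q.2 + b) := by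
  classical
  have hinj : Function.Injective (fun q : ℕ × ℕ => (q.1 + a, q.2 + b)) := by
    rintro ⟨x, y⟩ ⟨x', y'⟩ h
    have h1 := congrArg Prod.fst h
    have h2 := congrArg Prod.snd h
    simp only at h1 h2
    have h3 : x = x' := by omega
    have h4 : y = y' := by omega
    rw [h3, h4]
  have e : ∑ q ∈ antidiagonal n, g (q.1 + a) (q.2 + b) =
      ∑ p ∈ (antidiagonal n).map ⟨fun q : ℕ × ℕ => (q.1 + a, q.2 + b), hinj⟩, g p.1 p.2 := by
    rw [sum_map]
    rfl
  rw [e]
  symm
  apply sum_subset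
  · intro p hp
    rw [mem_map] at hp
    obtain ⟨q, hq, rfl⟩ := hp
    rw [HasAntidiagonal.mem_antidiagonal] at hq ⊢
    simp only [Function.Embedding.coeFn_mk]
    omega
  · intro p hp hp'
    apply hg
    by_contra hcon
    push Not at hcon
    apply hp'
    rw [HasAntidiagonal.mem_antidiagonal] at hp
    rw [mem_map]
    refine ⟨(p.1 - a, p.2 - b), ?_, ?_⟩
    · rw [HasAntidiagonal.mem_antidiagonal]
      simp only
      omega
    · simp only [Function.Embedding.coeFn_mk]
      ext
      · simp only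
        omega
      · simp only
        omega

theorem tSft : SftStmt := by
  intro u r f h hu hf hh
  have hr : 0 < r := lt_of_le_of_lt (abs_nonneg u) hu
  refine ⟨?_, ?_⟩
  · have h1 := summable_norm_sum_mul_antidiagonal_of_summable_norm
      (f := fun n => PowerSeries.coeff n f * r ^ n) (g := fun n => PowerSeries.coeff n h * r ^ n)
      (by
        refine hf.congr fun n => ?_
        rw [norm_mul, Real.norm_eq_abs, Real.norm_eq_abs, abs_of_nonneg (pow_nonneg hr.le n)])
      (by
        refine hh.congr fun n => ?_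
        rw [norm_mul, Real.norm_eq_abs, Real.norm_eq_abs, abs_of_nonneg (pow_nonneg hr.le n)])
    refine h1.congr fun n => ?_
    rw [PowerSeries.coeff_mul]
    have e : ∑ kl ∈ antidiagonal n, PowerSeries.coeff kl.1 f * r ^ kl.1 *
        (PowerSeries.coeff kl.2 h * r ^ kl.2) =
        (∑ kl ∈ antidiagonal n, PowerSeries.coeff kl.1 f * PowerSeries.coeff kl.2 h) * r ^ n := by
      rw [sum_mul]
      apply sum_congr rfl
      intro p hp
      rw [HasAntidiagonal.mem_antidiagonal] at hp
      rw [← hp, pow_add]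
      ring
    rw [e, norm_mul, Real.norm_eq_abs, Real.norm_eq_abs, abs_of_nonneg (pow_nonneg hr.le n)]
  · ext k
    have hF : ∀ a, Summable (fun n => ‖PowerSeries.coeff (n + a) f * ((n + a).choose a : ℝ) * u ^ n‖) :=
      fun a => Sft_sum u r hu (fun n => PowerSeries.coeff n f) hf a
    have hH : ∀ a, Summable (fun n => ‖PowerSeries.coeff (n + a) h * ((n + a).choose a : ℝ) * u ^ n‖) :=
      fun a => Sft_sum u r hu (fun n => PowerSeries.coeff n h) hh a
    rw [PowerSeries.coeff_mul]
    unfold sft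
    simp only [PowerSeries.coeff_mk]
    have e1 : ∀ p ∈ antidiagonal k,
        (∑' n, PowerSeries.coeff (n + p.1) f * ((n + p.1).choose p.1 : ℝ) * u ^ n) *
          (∑' n, PowerSeries.coeff (n + p.2) h * ((n + p.2).choose p.2 : ℝ) * u ^ n) =
        ∑' n, ∑ q ∈ antidiagonal n,
          (PowerSeries.coeff (q.1 + p.1) f * ((q.1 + p.1).choose p.1 : ℝ) * u ^ q.1) *
          (PowerSeries.coeff (q.2 + p.2) h * ((q.2 + p.2).choose p.2 : ℝ) * u ^ q.2) := by
      intro p _
      exact tsum_mul_tsum_eq_tsum_sum_antidiagonal_of_summable_norm (hF p.1) (hH p.2)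
    have e2 : ∀ p ∈ antidiagonal k, Summable (fun n => ∑ q ∈ antidiagonal n,
          (PowerSeries.coeff (q.1 + p.1) f * ((q.1 + p.1).choose p.1 : ℝ) * u ^ q.1) *
          (PowerSeries.coeff (q.2 + p.2) h * ((q.2 + p.2).choose p.2 : ℝ) * u ^ q.2)) := by
      intro p _
      exact (summable_norm_sum_mul_antidiagonal_of_summable_norm (hF p.1) (hH p.2)).of_norm
    rw [sum_congr rfl e1, ← Summable.tsum_finsetSum e2]
    congr 1
    funext n
    rw [PowerSeries.coeff_mul, sum_mul, sum_mul]
    have e3 : ∀ p ∈ antidiagonal k, ∑ q ∈ antidiagonal n,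
          (PowerSeries.coeff (q.1 + p.1) f * ((q.1 + p.1).choose p.1 : ℝ) * u ^ q.1) *
          (PowerSeries.coeff (q.2 + p.2) h * ((q.2 + p.2).choose p.2 : ℝ) * u ^ q.2) =
        ∑ s ∈ antidiagonal (n + k), PowerSeries.coeff s.1 f * PowerSeries.coeff s.2 h *
          ((s.1.choose p.1 : ℝ) * (s.2.choose p.2 : ℝ)) * u ^ n := by
      intro p hp
      rw [HasAntidiagonal.mem_antidiagonal] at hp
      have := Sft_anti (fun s t => PowerSeries.coeff s f * PowerSeries.coeff t h *
          ((s.choose p.1 : ℝ) * (t.choose p.2 : ℝ)) * u ^ n) n p.1 p.2 (by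
        rintro s t (hs | ht)
        · rw [Nat.choose_eq_zero_of_lt hs]
          simp
        · rw [Nat.choose_eq_zero_of_lt ht]
          simp)
      rw [hp] at this
      rw [this]
      apply sum_congr rfl
      intro q hq
      rw [HasAntidiagonal.mem_antidiagonal] at hq
      rw [← hq, pow_add]
      ring
    rw [sum_congr rfl e3, sum_comm]
    apply sum_congr rfl
    intro s hs
    rw [HasAntidiagonal.mem_antidiagonal] at hs
    rw [← sum_mul, ← mul_sum]
    congr 2
    rw [← hs, Nat.add_choose_eq]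
    push_cast
    rfl

end Pool.Agent.Lib.SDC
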