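import Pool.Agent.Lib.SDC.Spec

/-! Module Siz of Lib/SDC: size of the Taylor coefficients of the auxiliary polynomial (helper43). -/

namespace Pool.Agent.Lib.SDC

open Finset Pool.Agent.Lib.SD

theorem Siz_house {F : Type} [Field F] [NumberField F] (ρ : F →+* ℝ) (x : F) :
    |ρ x| ≤ NumberField.house x := by
  have h1 := NumberField.norm_embedding_le_house x (Complex.ofRealHom.comp ρ)
  have h2 : ‖(Complex.ofRealHom.comp ρ) x‖ = |ρ x| := by
    rw [RingHom.comp_apply]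
    exact Complex.norm_real _
  rwa [h2] at h1

/-- summability of a series with geometric growth -/
theorem Siz_summable (e : ℕ → ℝ) (C : ℝ) (hC : 1 ≤ C) (s : ℕ) (he : ∀ n, |e n| ≤ C ^ (s + n + 1)) :
    Summable (fun n => |e n| * (1 / (2 * C)) ^ n) := by
  have hb : ∀ n, ‖|e n| * (1 / (2 * C)) ^ n‖ ≤ C ^ (s + 1) * (1 / 2) ^ n := by
    intro n
    have h0 : (0 : ℝ) ≤ (1 / (2 * C)) ^ n := by positivity
    rw [Real.norm_eq_abs, abs_of_nonneg (mul_nonneg (abs_nonneg _) h0)]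
    calc |e n| * (1 / (2 * C)) ^ n ≤ C ^ (s + n + 1) * (1 / (2 * C)) ^ n := by
          gcongr
          exact he n
      _ = C ^ (s + 1) * (1 / 2) ^ n := by
          have : C ^ (s + n + 1) = C ^ (s + 1) * C ^ n := by ring
          rw [this, mul_assoc, ← mul_pow]
          congr 2
          field_simp
  exact Summable.of_norm_bounded
    ((summable_geometric_of_lt_one (by norm_num) (by norm_num)).mul_left _) hb

/-- combining the two divisions -/
theorem Siz_comb (h5 : InvStmt) (n0 n1 d : ℕ) (p : ℕ → ℕ → ℕ → ℕ → ℤ) (u0 u1 B0 : ℝ)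
    (hu0 : u0 ≠ 0) (hu1 : u1 ≠ 0) (hB0 : 0 ≤ B0) (M0 M1 : ℕ) (T0 S0 T1 S1 : PowerSeries ℝ)
    (Φ0 Φ1 : ℕ → ℕ → PowerSeries ℝ)
    (hΦ0 : ∀ a < n0, ∀ j < d, (PowerSeries.C u0 + PowerSeries.X) ^ M0 * (T0 ^ a * S0 ^ j) = Φ0 a j)
    (hΦ1 : ∀ a < n1, ∀ j < d, (PowerSeries.C u1 + PowerSeries.X) ^ M1 * (T1 ^ a * S1 ^ j) = Φ1 a j)
    (hb : ∀ i l : ℕ, |∑ a ∈ range n0, ∑ j ∈ range d, ∑ b ∈ range n1, ∑ k ∈ range d,
      (p a j b k : ℝ) * PowerSeries.coeff i (Φ0 a j) * PowerSeries.coeff l (Φ1 b k)| ≤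
        B0 * (1 / |u0|) ^ i * (1 / |u1|) ^ l) (k0 k1 : ℕ) :
    |pc n0 n1 d p T0 S0 T1 S1 k0 k1| ≤
      2 ^ (M0 + k0) * (2 ^ (M1 + k1) * B0 * (1 / |u1|) ^ (M1 + k1)) * (1 / |u0|) ^ (M0 + k0) := by
  have hq0 : 0 < 1 / |u0| := by positivity
  have hq1 : 0 < 1 / |u1| := by positivity
  -- the series for fixed `i`
  let hs : ℕ → PowerSeries ℝ := fun i =>
    ∑ a ∈ range n0, ∑ j ∈ range d, ∑ b ∈ range n1, ∑ k ∈ range d,
      PowerSeries.C ((p a j b k : ℝ) * PowerSeries.coeff i (Φ0 a j)) * (T1 ^ b * S1 ^ k)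
  have hs1 : ∀ i, |PowerSeries.coeff k1 (hs i)| ≤
      2 ^ (M1 + k1) * (B0 * (1 / |u0|) ^ i) * (1 / |u1|) ^ (M1 + k1) := by
    intro i
    refine h5 u1 (B0 * (1 / |u0|) ^ i) M1 (hs i) _ hu1 (by positivity) rfl ?_ k1
    intro l
    have h1 : PowerSeries.coeff l ((PowerSeries.C u1 + PowerSeries.X) ^ M1 * hs i) =
        ∑ a ∈ range n0, ∑ j ∈ range d, ∑ b ∈ range n1, ∑ k ∈ range d,
          (p a j b k : ℝ) * PowerSeries.coeff i (Φ0 a j) * PowerSeries.coeff l (Φ1 b k) := by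
      simp only [hs, Finset.mul_sum, map_sum]
      refine sum_congr rfl fun a _ => sum_congr rfl fun j _ => sum_congr rfl fun b hb' =>
        sum_congr rfl fun k hk' => ?_
      rw [← hΦ1 b (mem_range.mp hb') k (mem_range.mp hk')]
      have e1 : (PowerSeries.C u1 + PowerSeries.X) ^ M1 *
          (PowerSeries.C ((p a j b k : ℝ) * PowerSeries.coeff i (Φ0 a j)) * (T1 ^ b * S1 ^ k)) =
          PowerSeries.C ((p a j b k : ℝ) * PowerSeries.coeff i (Φ0 a j)) *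
            ((PowerSeries.C u1 + PowerSeries.X) ^ M1 * (T1 ^ b * S1 ^ k)) := by ring
      rw [e1, PowerSeries.coeff_C_mul]
    rw [h1]
    exact hb i l
  let f : PowerSeries ℝ := ∑ a ∈ range n0, ∑ j ∈ range d, ∑ b ∈ range n1, ∑ k ∈ range d,
      PowerSeries.C ((p a j b k : ℝ) * PowerSeries.coeff k1 (T1 ^ b * S1 ^ k)) * (T0 ^ a * S0 ^ j)
  have hf : ∀ i, PowerSeries.coeff i ((PowerSeries.C u0 + PowerSeries.X) ^ M0 * f) =
      PowerSeries.coeff k1 (hs i) := by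
    intro i
    simp only [f, hs, Finset.mul_sum, map_sum]
    refine sum_congr rfl fun a ha' => sum_congr rfl fun j hj' => sum_congr rfl fun b _ =>
        sum_congr rfl fun k _ => ?_
    rw [PowerSeries.coeff_C_mul, ← hΦ0 a (mem_range.mp ha') j (mem_range.mp hj')]
    have e1 : (PowerSeries.C u0 + PowerSeries.X) ^ M0 *
        (PowerSeries.C ((p a j b k : ℝ) * PowerSeries.coeff k1 (T1 ^ b * S1 ^ k)) *
          (T0 ^ a * S0 ^ j)) =
        PowerSeries.C ((p a j b k : ℝ) * PowerSeries.coeff k1 (T1 ^ b * S1 ^ k)) *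
          ((PowerSeries.C u0 + PowerSeries.X) ^ M0 * (T0 ^ a * S0 ^ j)) := by ring
    rw [e1, PowerSeries.coeff_C_mul]
    ring
  have h2 := h5 u0 (2 ^ (M1 + k1) * B0 * (1 / |u1|) ^ (M1 + k1)) M0 f _ hu0 (by positivity) rfl
    (fun i => by
      rw [hf i]
      refine (hs1 i).trans (le_of_eq ?_)
      ring) k0
  have h3 : PowerSeries.coeff k0 f = pc n0 n1 d p T0 S0 T1 S1 k0 k1 := by
    simp only [f, pc, map_sum]
    refine sum_congr rfl fun a _ => sum_congr rfl fun j _ => sum_congr rfl fun b _ =>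
        sum_congr rfl fun k _ => ?_
    rw [PowerSeries.coeff_C_mul]
    ring
  rw [h3] at h2
  exact h2

theorem Siz_final (C : ℝ) (hC : 1 ≤ C) (d m c0 n0 n1 k0 k1 : ℕ) (hd : 1 ≤ d) (hn0 : 1 ≤ n0)
    (hn1 : 1 ≤ n1) (h τ L l0 l1 K : ℝ)
    (hK : K = Real.log (8 * C) + Real.log 4 + 2 * Real.log d + 1 + 2 * Real.log C +
      ((m : ℝ) + 2 * c0 * d + 1) * Real.log 2) :
    2 ^ (m * n0 + c0 * d + k0) * (2 ^ (m * n1 + c0 * d + k1) *
      (4 * Real.exp h * (d : ℝ) ^ 2 * n0 * n1 * C ^ (n0 + n1 + 2) * Real.exp (-(τ * L))) *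
        (Real.exp l1) ^ (m * n1 + c0 * d + k1)) * (Real.exp l0) ^ (m * n0 + c0 * d + k0) ≤
    Real.exp (h + K * ((n0 : ℝ) + n1 + k0 + k1 + 1) + ((m : ℝ) * n0 + (c0 : ℝ) * d + k0) * l0 +
      ((m : ℝ) * n1 + (c0 : ℝ) * d + k1) * l1 - τ * L) := by
  have hd' : (1 : ℝ) ≤ d := by exact_mod_cast hd
  have hn0' : (1 : ℝ) ≤ n0 := by exact_mod_cast hn0
  have hn1' : (1 : ℝ) ≤ n1 := by exact_mod_cast hn1
  have hk0' : (0 : ℝ) ≤ k0 := Nat.cast_nonneg _
  have hk1' : (0 : ℝ) ≤ k1 := Nat.cast_nonneg _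
  have hm' : (0 : ℝ) ≤ m := Nat.cast_nonneg _
  have hc' : (0 : ℝ) ≤ c0 := Nat.cast_nonneg _
  have hC0 : 0 < C := by linarith
  set Z : ℝ := 4 * (d : ℝ) ^ 2 * n0 * n1 * C ^ (n0 + n1 + 2) *
    2 ^ ((m * n0 + c0 * d + k0) + (m * n1 + c0 * d + k1)) with hZ
  have hZ0 : 0 < Z := by positivity
  have hlog2 : 0 < Real.log 2 := Real.log_pos (by norm_num)
  have hlogC : 0 ≤ Real.log C := Real.log_nonneg hC
  have hlogd : 0 ≤ Real.log d := Real.log_nonneg hd'
  have hlog4 : 0 < Real.log 4 := Real.log_pos (by norm_num)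
  have hlog8 : 0 ≤ Real.log (8 * C) := Real.log_nonneg (by linarith)
  have hlogZ : Real.log Z = Real.log 4 + 2 * Real.log d + Real.log n0 + Real.log n1 +
      ((n0 : ℝ) + n1 + 2) * Real.log C +
      (((m : ℝ) * n0 + c0 * d + k0) + ((m : ℝ) * n1 + c0 * d + k1)) * Real.log 2 := by
    rw [hZ, Real.log_mul (by positivity) (by positivity),
      Real.log_mul (by positivity) (by positivity), Real.log_mul (by positivity) (by positivity),
      Real.log_mul (by positivity) (by positivity), Real.log_mul (by positivity) (by positivity),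
      Real.log_pow, Real.log_pow, Real.log_pow]
    push_cast
    ring
  have hle : Real.log Z ≤ K * ((n0 : ℝ) + n1 + k0 + k1 + 1) := by
    rw [hlogZ, hK]
    have e0 : Real.log n0 ≤ n0 := by
      have := Real.log_le_sub_one_of_pos (by linarith : (0 : ℝ) < n0); linarith
    have e1 : Real.log n1 ≤ n1 := by
      have := Real.log_le_sub_one_of_pos (by linarith : (0 : ℝ) < n1); linarith
    set s : ℝ := (n0 : ℝ) + n1 + k0 + k1 + 1 with hs
    have hs1 : 1 ≤ s := by rw [hs]; linarith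
    have f1 : Real.log 4 ≤ Real.log 4 * s := le_mul_of_one_le_right hlog4.le hs1
    have f2 : 2 * Real.log d ≤ 2 * Real.log d * s := le_mul_of_one_le_right (by linarith) hs1
    have f3 : Real.log n0 + Real.log n1 ≤ 1 * s := by rw [hs]; linarith
    have f4 : ((n0 : ℝ) + n1 + 2) * Real.log C ≤ 2 * Real.log C * s := by
      have : (n0 : ℝ) + n1 + 2 ≤ 2 * s := by rw [hs]; linarith
      have := mul_le_mul_of_nonneg_right this hlogC
      linarith
    have f5 : (((m : ℝ) * n0 + c0 * d + k0) + ((m : ℝ) * n1 + c0 * d + k1)) * Real.log 2 ≤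
        ((m : ℝ) + 2 * c0 * d + 1) * Real.log 2 * s := by
      have g1 : (m : ℝ) * n0 + m * n1 ≤ m * s := by
        have : (n0 : ℝ) + n1 ≤ s := by rw [hs]; linarith
        have := mul_le_mul_of_nonneg_left this hm'
        linarith
      have g2 : 2 * ((c0 : ℝ) * d) ≤ 2 * (c0 * d) * s := by
        have : 0 ≤ 2 * ((c0 : ℝ) * d) := by positivity
        exact le_mul_of_one_le_right this hs1
      have g3 : (k0 : ℝ) + k1 ≤ s := by rw [hs]; linarith
      have g4 : ((m : ℝ) * n0 + c0 * d + k0) + ((m : ℝ) * n1 + c0 * d + k1) ≤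
          ((m : ℝ) + 2 * c0 * d + 1) * s := by linarith
      have := mul_le_mul_of_nonneg_right g4 hlog2.le
      linarith
    have f6 : 0 ≤ Real.log (8 * C) * s := by positivity
    linarith
  have hZle : Z ≤ Real.exp (K * ((n0 : ℝ) + n1 + k0 + k1 + 1)) := by
    rw [← Real.exp_log hZ0]
    exact Real.exp_le_exp.mpr hle
  have hE0 : (Real.exp l0) ^ (m * n0 + c0 * d + k0) =
      Real.exp (((m : ℝ) * n0 + (c0 : ℝ) * d + k0) * l0) := by
    rw [← Real.exp_nat_mul]; push_cast; ring_nf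
  have hE1 : (Real.exp l1) ^ (m * n1 + c0 * d + k1) =
      Real.exp (((m : ℝ) * n1 + (c0 : ℝ) * d + k1) * l1) := by
    rw [← Real.exp_nat_mul]; push_cast; ring_nf
  rw [hE0, hE1]
  set X0 := Real.exp (((m : ℝ) * n0 + (c0 : ℝ) * d + k0) * l0) with hX0
  set X1 := Real.exp (((m : ℝ) * n1 + (c0 : ℝ) * d + k1) * l1) with hX1
  have e : Real.exp (h + K * ((n0 : ℝ) + n1 + k0 + k1 + 1) +
      ((m : ℝ) * n0 + (c0 : ℝ) * d + k0) * l0 +
      ((m : ℝ) * n1 + (c0 : ℝ) * d + k1) * l1 - τ * L) =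
      Real.exp (K * ((n0 : ℝ) + n1 + k0 + k1 + 1)) *
        (Real.exp h * X0 * X1 * Real.exp (-(τ * L))) := by
    rw [hX0, hX1, ← Real.exp_add, ← Real.exp_add, ← Real.exp_add, ← Real.exp_add]
    congr 1
    ring
  rw [e]
  calc _ = Z * (Real.exp h * X0 * X1 * Real.exp (-(τ * L))) := by
        rw [hZ, pow_add (2 : ℝ) (m * n0 + c0 * d + k0)]
        ring
    _ ≤ _ := by gcongr

theorem tSiz (h1 : GrwStmt) (_h2 : SftStmt) (h3 : ValStmt) (h4 : GbdStmt) (h5 : InvStmt) :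
    SizStmt := by
  intro F _ _ ρ d m c0 C0 E Y hd hm hC0 hE hY
  obtain ⟨C, hC1, hC⟩ := h1 F C0 d E Y hC0 hE hY
  have hC1' : (1 : ℝ) ≤ C := by exact_mod_cast hC1
  have hCpos : (0 : ℝ) < C := by linarith
  have hα : ∀ a j l n : ℕ, j ≤ d →
      |ρ (PowerSeries.coeff n (PowerSeries.X ^ l * (E ^ a * Y ^ j)))| ≤ (C : ℝ) ^ (a + n + 1) :=
    fun a j l n hj => (Siz_house ρ _).trans (hC a j l n hj).2
  have hsE : Summable (fun n => |ρ (PowerSeries.coeff n E)| * (1 / (2 * (C : ℝ))) ^ n) := by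
    refine Siz_summable _ C hC1' 1 fun n => ?_
    have := hα 1 0 0 n (Nat.zero_le _)
    simpa using this
  have hsY : Summable (fun n => |ρ (PowerSeries.coeff n Y)| * (1 / (2 * (C : ℝ))) ^ n) := by
    refine Siz_summable _ C hC1' 0 fun n => ?_
    have := hα 0 1 0 n hd
    simpa using this
  set K : ℝ := Real.log (8 * C) + Real.log 4 + 2 * Real.log d + 1 + 2 * Real.log C +
      ((m : ℝ) + 2 * c0 * d + 1) * Real.log 2 with hK
  have hd' : (1 : ℝ) ≤ d := by exact_mod_cast hd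
  have hlog2 : 0 < Real.log 2 := Real.log_pos (by norm_num)
  have hlogC : 0 ≤ Real.log C := Real.log_nonneg hC1'
  have hlogd : 0 ≤ Real.log d := Real.log_nonneg hd'
  have hlog4 : 0 < Real.log 4 := Real.log_pos (by norm_num)
  have hlog8 : 0 ≤ Real.log (8 * C) := Real.log_nonneg (by linarith)
  have hm2 : 0 ≤ ((m : ℝ) + 2 * c0 * d + 1) * Real.log 2 := by positivity
  have hK8 : Real.log (8 * C) ≤ K := by rw [hK]; linarith
  refine ⟨K, by linarith, ?_⟩
  intro n0 n1 p h τ L u0 u1 T0 S0 T1 S1 hn0 hn1 hu0 hu1 hK0 hK1 hT0 hS0 hT1 hS1 hτ hL hL0 hL1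
    hp hVan k0 k1
  -- consequences of `K < log (1/|u|)`
  have hu : ∀ u : ℝ, u ≠ 0 → K < Real.log (1 / |u|) → 4 * (C : ℝ) * |u| < 1 ∧
      |u| < 1 / (2 * (C : ℝ)) ∧
      Real.log (1 / |u|) - K ≤ Real.log (1 / (4 * (C : ℝ) * |u|)) := by
    intro u hu hKu
    have hau : 0 < |u| := abs_pos.mpr hu
    have e1 : Real.log (8 * C) < Real.log (1 / |u|) := hK8.trans_lt hKu
    have e2 : 8 * (C : ℝ) < 1 / |u| := (Real.log_lt_log_iff (by positivity) (by positivity)).mp e1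
    have e3 : 8 * (C : ℝ) * |u| < 1 := by rwa [lt_div_iff₀ hau] at e2
    have hCu : 0 < (C : ℝ) * |u| := mul_pos hCpos hau
    refine ⟨by linarith, ?_, ?_⟩
    · rw [lt_div_iff₀ (by positivity)]
      linarith
    · have e4 : 1 / (4 * (C : ℝ) * |u|) = (1 / |u|) / (4 * C) := by field_simp
      have e6 : Real.log ((1 / |u|) / (4 * C)) = Real.log (1 / |u|) - Real.log (4 * C) :=
        Real.log_div (by positivity) (by positivity)
      rw [e4, e6]
      have e5 : Real.log (4 * C) ≤ Real.log (8 * C) :=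
        Real.log_le_log (by positivity) (by linarith)
      linarith
  obtain ⟨a1, a2, a3⟩ := hu u0 hu0 hK0
  obtain ⟨b1, b2, b3⟩ := hu u1 hu1 hK1
  have hn0' : (0 : ℝ) ≤ n0 := Nat.cast_nonneg _
  have hn1' : (0 : ℝ) ≤ n1 := Nat.cast_nonneg _
  have hm' : (0 : ℝ) ≤ m := Nat.cast_nonneg _
  have hG := h4 F ρ d m c0 n0 n1 C E Y p (Real.exp h) τ L u0 u1 hm hn0 hn1 hC1 hα hu0 hu1 a1 b1
    hτ hL (hL0.trans (mul_le_mul_of_nonneg_left a3 (by positivity)))
    (hL1.trans (mul_le_mul_of_nonneg_left b3 (by positivity))) hp hVan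
  have hmain := Siz_comb h5 n0 n1 d p u0 u1
    (4 * Real.exp h * (d : ℝ) ^ 2 * n0 * n1 * (C : ℝ) ^ (n0 + n1 + 2) * Real.exp (-(τ * L)))
    hu0 hu1 (by positivity) (m * n0 + c0 * d) (m * n1 + c0 * d) T0 S0 T1 S1
    (fun a j => sft u0 (PowerSeries.map ρ (Phi m c0 d n0 E Y a j)))
    (fun a j => sft u1 (PowerSeries.map ρ (Phi m c0 d n1 E Y a j)))
    (fun a ha j hj => h3 F ρ m c0 d n0 E Y u0 (1 / (2 * (C : ℝ))) T0 S0 a j ha.le hj.le a2
      hsE hsY hT0 hS0)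
    (fun a ha j hj => h3 F ρ m c0 d n1 E Y u1 (1 / (2 * (C : ℝ))) T1 S1 a j ha.le hj.le b2
      hsE hsY hT1 hS1)
    (fun i l => by
      refine (hG i l).trans (le_of_eq ?_)
      ring) k0 k1
  refine hmain.trans ?_
  have q0 : 1 / |u0| = Real.exp (Real.log (1 / |u0|)) :=
    (Real.exp_log (by positivity)).symm
  have q1 : 1 / |u1| = Real.exp (Real.log (1 / |u1|)) :=
    (Real.exp_log (by positivity)).symm
  have := Siz_final C hC1' d m c0 n0 n1 k0 k1 hd hn0 hn1 h τ L (Real.log (1 / |u0|))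
    (Real.log (1 / |u1|)) K hK
  rw [← q0, ← q1] at this
  exact this

end Pool.Agent.Lib.SDC
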