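import Pool.Agent.Lib.SDC.Spec

namespace Pool.Agent.Lib.SDC

open Finset Pool.Agent.Lib.SD

private theorem Trn_low (δ : PowerSeries ℚ) (h : PowerSeries.constantCoeff δ = 0) (m n : ℕ)
    (hmn : m < n) : PowerSeries.coeff m (δ ^ n) = 0 := by
  obtain ⟨δ', rfl⟩ := PowerSeries.X_dvd_iff.mpr h
  rw [mul_pow, PowerSeries.coeff_X_pow_mul', if_neg (not_le.mpr hmn)]

private theorem Trn_diag (δ : PowerSeries ℚ) (h : PowerSeries.constantCoeff δ = 0) (n : ℕ) :
    PowerSeries.coeff n (δ ^ n) = (PowerSeries.coeff 1 δ) ^ n := by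
  obtain ⟨δ', rfl⟩ := PowerSeries.X_dvd_iff.mpr h
  rw [mul_pow, PowerSeries.coeff_X_pow_mul', if_pos le_rfl, Nat.sub_self,
    PowerSeries.coeff_zero_eq_constantCoeff, map_pow]
  congr 1
  rw [← pow_one (PowerSeries.X : PowerSeries ℚ), PowerSeries.coeff_X_pow_mul', if_pos le_rfl,
    Nat.sub_self, PowerSeries.coeff_zero_eq_constantCoeff]

private theorem Trn_cf (a b : ℕ) (F G : PowerSeries ℚ) :
    cf a b (e0 F * e1 G) = PowerSeries.coeff a F * PowerSeries.coeff b G := by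
  rw [cf, e0, PowerSeries.coeff_C_mul, e1, PowerSeries.coeff_map, mul_comm F,
    PowerSeries.coeff_C_mul, mul_comm]

theorem tTrn : TrnStmt := by
  intro r x z f κ hr hz0 hz1 hκ
  set s := MPcc0c1aSub.sh x f with hs
  have hκs : κ ∈ s.support := MvPolynomial.mem_support_iff.mpr hκ
  obtain ⟨κ', hκ', hmin⟩ := Finset.exists_min_image s.support (MPcc0c1aSub.wt r) ⟨κ, hκs⟩
  let δ : Fin 2 → PowerSeries ℚ := fun h => z h - PowerSeries.C (x h)
  have hδ0 : ∀ h, PowerSeries.constantCoeff (δ h) = 0 := by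
    intro h
    simp [δ, hz0 h]
  have hδ1 : ∀ h, PowerSeries.coeff 1 (δ h) = PowerSeries.coeff 1 (z h) := by
    intro h
    simp [δ]
  have halg : ∀ q : ℚ, algebraMap ℚ (PowerSeries (PowerSeries ℚ)) q =
      PowerSeries.C (PowerSeries.C q) := by
    intro q
    rw [PowerSeries.algebraMap_apply, PowerSeries.algebraMap_apply]
    simp
  have hcomp : (MvPolynomial.aeval ![e0 (z 0), e1 (z 1)] :
      MvPolynomial (Fin 2) ℚ →ₐ[ℚ] PowerSeries (PowerSeries ℚ)) f =
      (MvPolynomial.aeval ![e0 (δ 0), e1 (δ 1)] :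
      MvPolynomial (Fin 2) ℚ →ₐ[ℚ] PowerSeries (PowerSeries ℚ)) s := by
    rw [hs, ← AlgHom.comp_apply]
    congr 1
    apply MvPolynomial.algHom_ext
    intro i
    fin_cases i
    · simp only [Fin.zero_eta, AlgHom.comp_apply, MPcc0c1aSub.sh, MvPolynomial.aeval_X, map_add,
        MvPolynomial.algHom_C, halg, Matrix.cons_val_zero, δ, map_sub]
      simp [e0]
    · simp only [Fin.mk_one, AlgHom.comp_apply, MPcc0c1aSub.sh, MvPolynomial.aeval_X, map_add,
        MvPolynomial.algHom_C, halg, Matrix.cons_val_one, Matrix.cons_val_zero, δ, map_sub]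
      simp [e1]
  have hexp : ∀ a b, cf a b ((MvPolynomial.aeval ![e0 (δ 0), e1 (δ 1)] :
      MvPolynomial (Fin 2) ℚ →ₐ[ℚ] PowerSeries (PowerSeries ℚ)) s) =
      ∑ lam ∈ s.support, MvPolynomial.coeff lam s *
        (PowerSeries.coeff a (δ 0 ^ lam 0) * PowerSeries.coeff b (δ 1 ^ lam 1)) := by
    intro a b
    rw [MvPolynomial.aeval_def, MvPolynomial.eval₂_eq', cf, map_sum, map_sum]
    refine Finset.sum_congr rfl fun lam _ => ?_
    rw [Fin.prod_univ_two, halg, PowerSeries.coeff_C_mul, PowerSeries.coeff_C_mul]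
    congr 1
    have := Trn_cf a b (δ 0 ^ lam 0) (δ 1 ^ lam 1)
    rw [cf, map_pow, map_pow] at this
    simpa using this
  refine ⟨κ' 0, κ' 1, ?_, ?_⟩
  · have h1 := hmin κ hκs
    have h2 : MPcc0c1aSub.wt r κ' = (κ' 0 : ℝ) / r 0 + (κ' 1 : ℝ) / r 1 := by
      rw [MPcc0c1aSub.wt, Fin.sum_univ_two]
    rw [← h2]
    exact h1
  · rw [hcomp, hexp, Finset.sum_eq_single κ']
    · rw [Trn_diag _ (hδ0 0), Trn_diag _ (hδ0 1), hδ1, hδ1]
      exact mul_ne_zero (MvPolynomial.mem_support_iff.mp hκ')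
        (mul_ne_zero (pow_ne_zero _ (hz1 0)) (pow_ne_zero _ (hz1 1)))
    · intro lam hlam hne
      by_cases h0 : κ' 0 < lam 0
      · rw [Trn_low _ (hδ0 0) _ _ h0]; ring
      by_cases h1 : κ' 1 < lam 1
      · rw [Trn_low _ (hδ0 1) _ _ h1]; ring
      exfalso
      have h2 := hmin lam hlam
      rw [MPcc0c1aSub.wt, MPcc0c1aSub.wt, Fin.sum_univ_two, Fin.sum_univ_two] at h2
      have h3 : (lam 0 : ℝ) ≤ κ' 0 := by exact_mod_cast not_lt.mp h0
      have h4 : (lam 1 : ℝ) ≤ κ' 1 := by exact_mod_cast not_lt.mp h1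
      have r0 : (0 : ℝ) < r 0 := by exact_mod_cast hr 0
      have r1 : (0 : ℝ) < r 1 := by exact_mod_cast hr 1
      have h5 : (lam 0 : ℝ) / r 0 ≤ (κ' 0 : ℝ) / r 0 := div_le_div_of_nonneg_right h3 r0.le
      have h6 : (lam 1 : ℝ) / r 1 ≤ (κ' 1 : ℝ) / r 1 := div_le_div_of_nonneg_right h4 r1.le
      have h7 : (lam 0 : ℝ) / r 0 = (κ' 0 : ℝ) / r 0 := by linarith
      have h8 : (lam 1 : ℝ) / r 1 = (κ' 1 : ℝ) / r 1 := by linarith
      have h9 : lam 0 = κ' 0 := by
        have := (div_left_inj' r0.ne').mp h7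
        exact_mod_cast this
      have h10 : lam 1 = κ' 1 := by
        have := (div_left_inj' r1.ne').mp h8
        exact_mod_cast this
      apply hne
      ext i
      fin_cases i
      · exact h9
      · exact h10
    · intro h
      exact absurd hκ' h

end Pool.Agent.Lib.SDC
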