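import Pool.Agent.Lib.SDC.Spec

/-!
# Lib/SDC, module Unq: uniqueness of the expansion
-/

namespace Pool.Agent.Lib.SDC

open Finset Pool.Agent.Lib.SD

private lemma Unq_ev2_map {R S : Type} [CommRing R] [CommRing S] (f : R →+* S) (a b : R)
    (G : Polynomial (Polynomial ℤ)) : f (ev2 a b G) = ev2 (f a) (f b) G := by
  unfold ev2
  rw [Polynomial.hom_eval₂]
  congr 1
  refine Polynomial.ringHom_ext' (RingHom.ext_int _ _) ?_
  rw [RingHom.comp_apply, Polynomial.coe_eval₂RingHom, Polynomial.coe_eval₂RingHom,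
    Polynomial.eval₂_X, Polynomial.eval₂_X]

theorem tUnq : UnqStmt := by
  intro g T S S' h1 h2 h3 h4
  obtain ⟨P, hP⟩ : ∃ P : Polynomial (PowerSeries ℝ),
      P = g.map (Polynomial.eval₂RingHom (Int.castRingHom (PowerSeries ℝ)) T) := ⟨_, rfl⟩
  have e1 : P.eval S = 0 := by
    rw [hP, Polynomial.eval_map]
    exact h1
  have e2 : P.eval S' = 0 := by
    rw [hP, Polynomial.eval_map]
    exact h2
  have e3 : (Polynomial.derivative P).eval S = ev2 T S (Polynomial.derivative g) := by
    rw [hP, Polynomial.derivative_map, Polynomial.eval_map]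
    rfl
  obtain ⟨k, hk⟩ := Polynomial.binomExpansion P S (S' - S)
  rw [add_sub_cancel, e1, e2, zero_add] at hk
  have h5 : (S' - S) * ((Polynomial.derivative P).eval S + k * (S' - S)) = 0 := by
    rw [hk]
    ring
  rcases mul_eq_zero.1 h5 with h6 | h6
  · exact (sub_eq_zero.1 h6).symm
  · exfalso
    apply h4
    have h7 := congrArg (PowerSeries.constantCoeff (R := ℝ)) h6
    rw [map_add, map_mul, map_sub, ← h3, sub_self, mul_zero, add_zero, map_zero, e3,
      Unq_ev2_map] at h7
    exact h7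

end Pool.Agent.Lib.SDC
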