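import Pool.Agent.Lib.SDC.Spec

/-! Module Val: shift of Phi. -/

namespace Pool.Agent.Lib.SDC

open Finset Pool.Agent.Lib.SD

private theorem Val_summable_one (r : ℝ) :
    Summable (fun n => |PowerSeries.coeff n (1 : PowerSeries ℝ)| * r ^ n) := by
  refine summable_of_ne_finset_zero (s := {0}) ?_
  intro n hn
  rw [Finset.mem_singleton] at hn
  rw [PowerSeries.coeff_one, if_neg hn, abs_zero, zero_mul]

private theorem Val_summable_X (r : ℝ) :
    Summable (fun n => |PowerSeries.coeff n (PowerSeries.X : PowerSeries ℝ)| * r ^ n) := by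
  refine summable_of_ne_finset_zero (s := {1}) ?_
  intro n hn
  rw [Finset.mem_singleton] at hn
  rw [PowerSeries.coeff_X, if_neg hn, abs_zero, zero_mul]

private theorem Val_sft_one (u : ℝ) : sft u 1 = 1 := by
  ext k
  rw [sft, PowerSeries.coeff_mk]
  by_cases hk : k = 0
  · subst hk
    rw [tsum_eq_single 0]
    · simp
    · intro n hn
      rw [PowerSeries.coeff_one, if_neg (by omega), zero_mul, zero_mul]
  · rw [PowerSeries.coeff_one, if_neg hk]
    have h : ∀ n : ℕ, PowerSeries.coeff (n + k) (1 : PowerSeries ℝ) * ((n + k).choose k : ℝ) * u ^ n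
        = 0 := by
      intro n
      rw [PowerSeries.coeff_one, if_neg (by omega), zero_mul, zero_mul]
    simp only [h, tsum_zero]

private theorem Val_sft_X (u : ℝ) :
    sft u PowerSeries.X = PowerSeries.C u + PowerSeries.X := by
  ext k
  rw [sft, PowerSeries.coeff_mk, map_add]
  by_cases hk : k = 0
  · subst hk
    rw [tsum_eq_single 1]
    · simp [PowerSeries.coeff_X]
    · intro n hn
      rw [PowerSeries.coeff_X, if_neg (by omega), zero_mul, zero_mul]
  · by_cases hk1 : k = 1
    · subst hk1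
      rw [tsum_eq_single 0]
      · simp [PowerSeries.coeff_X, PowerSeries.coeff_C]
      · intro n hn
        rw [PowerSeries.coeff_X, if_neg (by omega), zero_mul, zero_mul]
    · rw [PowerSeries.coeff_C, if_neg hk, PowerSeries.coeff_X, if_neg hk1, add_zero]
      have h : ∀ n : ℕ, PowerSeries.coeff (n + k) (PowerSeries.X : PowerSeries ℝ) *
          ((n + k).choose k : ℝ) * u ^ n = 0 := by
        intro n
        rw [PowerSeries.coeff_X, if_neg (by omega), zero_mul, zero_mul]
      simp only [h, tsum_zero]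

private theorem Val_pow (h1 : SftStmt) (u r : ℝ) (hu : |u| < r) (f : PowerSeries ℝ)
    (hf : Summable (fun n => |PowerSeries.coeff n f| * r ^ n)) (a : ℕ) :
    Summable (fun n => |PowerSeries.coeff n (f ^ a)| * r ^ n) ∧ sft u (f ^ a) = (sft u f) ^ a := by
  induction a with
  | zero =>
    rw [pow_zero, pow_zero]
    exact ⟨Val_summable_one r, Val_sft_one u⟩
  | succ a ih =>
    obtain ⟨h2, h3⟩ := ih
    obtain ⟨h4, h5⟩ := h1 u r (f ^ a) f hu h2 hf
    rw [pow_succ, pow_succ, ← h3]
    exact ⟨h4, h5⟩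

theorem tVal (h1 : SftStmt) : ValStmt := by
  intro F _ ρ m c0 d n E Y u r T S a j ha hj hu hE hY hT hS
  have hE' : Summable (fun n => |PowerSeries.coeff n (PowerSeries.map ρ E)| * r ^ n) := by
    simpa only [PowerSeries.coeff_map] using hE
  have hY' : Summable (fun n => |PowerSeries.coeff n (PowerSeries.map ρ Y)| * r ^ n) := by
    simpa only [PowerSeries.coeff_map] using hY
  obtain ⟨hX1, hX2⟩ := Val_pow h1 u r hu PowerSeries.X (Val_summable_X r) (m * (n - a) + c0 * (d - j))
  obtain ⟨hE1, hE2⟩ := Val_pow h1 u r hu _ hE' a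
  obtain ⟨hY1, hY2⟩ := Val_pow h1 u r hu _ hY' j
  obtain ⟨hP1, hP2⟩ := h1 u r _ _ hu hE1 hY1
  obtain ⟨-, hQ2⟩ := h1 u r _ _ hu hX1 hP1
  have hPhi : PowerSeries.map ρ (Phi m c0 d n E Y a j) =
      PowerSeries.X ^ (m * (n - a) + c0 * (d - j)) *
        ((PowerSeries.map ρ E) ^ a * (PowerSeries.map ρ Y) ^ j) := by
    unfold Phi
    rw [map_mul, map_mul, map_pow, map_pow, map_pow, PowerSeries.map_X]
  rw [hPhi, hQ2, hP2, hX2, hE2, hY2, Val_sft_X]
  unfold Rex at hT hS
  rw [← hT, ← hS, mul_pow, mul_pow, ← pow_mul, ← pow_mul]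
  have hexp : m * n + c0 * d = (m * (n - a) + c0 * (d - j)) + (m * a + c0 * j) := by
    obtain ⟨s, rfl⟩ := Nat.exists_eq_add_of_le ha
    obtain ⟨t, rfl⟩ := Nat.exists_eq_add_of_le hj
    rw [Nat.add_sub_cancel_left, Nat.add_sub_cancel_left]
    ring
  rw [hexp, pow_add, pow_add]
  ring

end Pool.Agent.Lib.SDC
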