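import Pool.Agent.Lib.SDC.Spec

/-!
MP_9f7b43_nt, Lib/SDC, module Zer (helper40): the zero estimate.
-/

namespace Pool.Agent.Lib.SDC

open Finset Pool.Agent.Lib.SD

theorem Zer_ev2 {R S : Type} [CommRing R] [CommRing S] (f : R →+* S) (a b : R)
    (G : Polynomial (Polynomial ℤ)) : f (ev2 a b G) = ev2 (f a) (f b) G := by
  unfold ev2
  rw [Polynomial.hom_eval₂]
  congr 1
  apply Polynomial.ringHom_ext
  · intro z
    simp
  · simp

theorem Zer_aeval {B : Type} [CommRing B] {inst : Algebra ℤ B} (x : Fin 2 → B)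
    (q : MvPolynomial (Fin 2) ℤ) :
    (@MvPolynomial.aeval ℤ B (Fin 2) _ _ inst x) q =
      MvPolynomial.eval₂ (Int.castRingHom B) x q := by
  have h1 : @algebraMap ℤ B _ _ inst = Int.castRingHom B := RingHom.ext_int _ _
  rw [← h1]
  rfl

theorem Zer_aevalQ {B : Type} [CommRing B] {inst : Algebra ℚ B} (x : Fin 2 → B)
    (q : MvPolynomial (Fin 2) ℤ) :
    (@MvPolynomial.aeval ℚ B (Fin 2) _ _ inst x) (MPcc0c1aSub.toQ q) =
      MvPolynomial.eval₂ (Int.castRingHom B) x q := by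
  have h1 : (@algebraMap ℚ B _ _ inst).comp (Int.castRingHom ℚ) = Int.castRingHom B :=
    RingHom.ext_int _ _
  rw [← h1]
  unfold MPcc0c1aSub.toQ
  exact MvPolynomial.eval₂_map _ _ _ _

theorem Zer_coeff (c : ℤ) (a b a' b' : ℕ) :
    MvPolynomial.coeff (Finsupp.single 0 a + Finsupp.single 1 b)
      (MvPolynomial.C c * (MvPolynomial.X 0 ^ a' * MvPolynomial.X 1 ^ b') :
        MvPolynomial (Fin 2) ℤ) = if a' = a ∧ b' = b then c else 0 := by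
  have h1 : (MvPolynomial.C c * (MvPolynomial.X 0 ^ a' * MvPolynomial.X 1 ^ b') :
      MvPolynomial (Fin 2) ℤ) =
      MvPolynomial.monomial (Finsupp.single 0 a' + Finsupp.single 1 b') c := by
    rw [MvPolynomial.X_pow_eq_monomial, MvPolynomial.X_pow_eq_monomial,
      MvPolynomial.monomial_mul, MvPolynomial.C_mul_monomial, mul_one, mul_one]
  rw [h1, MvPolynomial.coeff_monomial]
  have h2 : (Finsupp.single (0 : Fin 2) a' + Finsupp.single 1 b' =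
      Finsupp.single 0 a + Finsupp.single 1 b) ↔ (a' = a ∧ b' = b) := by
    constructor
    · intro h
      have e0 := DFunLike.congr_fun h 0
      have e1 := DFunLike.congr_fun h 1
      simp at e0 e1
      exact ⟨e0, e1⟩
    · rintro ⟨rfl, rfl⟩
      rfl
  by_cases h3 : a' = a ∧ b' = b
  · rw [if_pos h3, if_pos (h2.2 h3)]
  · rw [if_neg h3, if_neg (fun h => h3 (h2.1 h))]

theorem Zer_jnt (h5 : JntStmt) (d : ℕ) (g : Polynomial (Polynomial ℤ))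
    (T0 S0 T1 S1 : PowerSeries ℚ) (h0 : Ptz d g T0 S0) (h1 : Ptz d g T1 S1)
    (w : ℕ → ℕ → MvPolynomial (Fin 2) ℤ)
    (hw : ∑ j ∈ range d, ∑ k ∈ range d,
      MvPolynomial.eval₂ (Int.castRingHom (PowerSeries (PowerSeries ℚ))) ![e0 T0, e1 T1] (w j k) *
      (e0 S0 ^ j * e1 S1 ^ k) = 0) : ∀ j < d, ∀ k < d, w j k = 0 := by
  apply h5 d g T0 S0 T1 S1 h0 h1 w
  rw [← hw]
  apply Finset.sum_congr rfl
  intro j _
  apply Finset.sum_congr rfl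
  intro k _
  rw [Zer_aeval]

theorem Zer_pv (h5 : JntStmt) (d n0 n1 : ℕ) (g : Polynomial (Polynomial ℤ))
    (p : ℕ → ℕ → ℕ → ℕ → ℤ) (T0 S0 T1 S1 : PowerSeries ℚ) (hp : pne n0 n1 d p)
    (h0 : Ptz d g T0 S0) (h1 : Ptz d g T1 S1) :
    pv n0 n1 d p (e0 T0) (e0 S0) (e1 T1) (e1 S1) ≠ 0 := by
  intro hz
  have h2 := Zer_jnt h5 d g T0 S0 T1 S1 h0 h1 (fun j k => ∑ a ∈ range n0, ∑ b ∈ range n1,
    MvPolynomial.C (p a j b k) * (MvPolynomial.X 0 ^ a * MvPolynomial.X 1 ^ b)) ?_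
  · obtain ⟨a, ha, j, hj, b, hb, k, hk, hne⟩ := hp
    have h3 := h2 j hj k hk
    apply hne
    have h4 := congrArg (MvPolynomial.coeff (Finsupp.single 0 a + Finsupp.single 1 b)) h3
    rw [MvPolynomial.coeff_sum, MvPolynomial.coeff_zero,
      Finset.sum_eq_single_of_mem a (Finset.mem_range.2 ha) ?_, MvPolynomial.coeff_sum,
      Finset.sum_eq_single_of_mem b (Finset.mem_range.2 hb) ?_, Zer_coeff,
      if_pos ⟨rfl, rfl⟩] at h4
    · exact h4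
    · intro b' _ hb'
      rw [Zer_coeff, if_neg (fun h => hb' h.2)]
    · intro a' _ ha'
      rw [MvPolynomial.coeff_sum]
      apply Finset.sum_eq_zero
      intro b' _
      rw [Zer_coeff, if_neg (fun h => ha' h.1)]
  · rw [← hz]
    unfold pv
    rw [Finset.sum_comm (s := range n0) (t := range d)]
    apply Finset.sum_congr rfl
    intro j _
    have h6 : ∀ a ∈ range n0, (∑ b ∈ range n1, ∑ k ∈ range d,
        ((p a j b k : ℤ) : PowerSeries (PowerSeries ℚ)) * (e0 T0 ^ a * e0 S0 ^ j) *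
          (e1 T1 ^ b * e1 S1 ^ k)) = ∑ k ∈ range d, ∑ b ∈ range n1,
        ((p a j b k : ℤ) : PowerSeries (PowerSeries ℚ)) * (e0 T0 ^ a * e0 S0 ^ j) *
          (e1 T1 ^ b * e1 S1 ^ k) := fun a _ => Finset.sum_comm
    rw [Finset.sum_congr rfl h6, Finset.sum_comm]
    apply Finset.sum_congr rfl
    intro k _
    rw [MvPolynomial.eval₂_sum, Finset.sum_mul]
    apply Finset.sum_congr rfl
    intro a _
    rw [MvPolynomial.eval₂_sum, Finset.sum_mul]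
    apply Finset.sum_congr rfl
    intro b _
    rw [MvPolynomial.eval₂_mul, MvPolynomial.eval₂_mul, MvPolynomial.eval₂_pow,
      MvPolynomial.eval₂_pow, MvPolynomial.eval₂_X, MvPolynomial.eval₂_X, MvPolynomial.eval₂_C]
    have e1' : (![e0 T0, e1 T1] : Fin 2 → PowerSeries (PowerSeries ℚ)) 0 = e0 T0 := rfl
    have e2' : (![e0 T0, e1 T1] : Fin 2 → PowerSeries (PowerSeries ℚ)) 1 = e1 T1 := rfl
    rw [e1', e2', eq_intCast (Int.castRingHom (PowerSeries (PowerSeries ℚ)))]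
    ring

theorem Zer_height (d K1 n0 n1 : ℕ) (ω' C' K h μ c : ℝ) (hK1 : 1 ≤ K1)
    (hn0 : 1 ≤ n0) (hn1 : 1 ≤ n1) (hω : 0 < ω') (hC : 1 ≤ C') (hh : 0 ≤ h)
    (hK : ((1 + K1) * Real.log C' + K1 + 1) / ω' ≤ K) (hμ : K * ((n0 : ℝ) + n1 + h) ≤ μ)
    (hc : |c| ≤ Real.exp ((d : ℝ) ^ 2 * (h + K1 * ((n0 : ℝ) + n1)))) :
    C' ^ (d ^ 2 * (n0 + K1) + d ^ 2 * (n1 + K1)) * |c| ≤ (Real.exp ((d : ℝ) ^ 2 * μ)) ^ ω' := by
  have hn0' : (1 : ℝ) ≤ n0 := by exact_mod_cast hn0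
  have hn1' : (1 : ℝ) ≤ n1 := by exact_mod_cast hn1
  have hK1' : (1 : ℝ) ≤ K1 := by exact_mod_cast hK1
  have l1 := Real.log_nonneg hC
  have e1 : C' ^ (d ^ 2 * (n0 + K1) + d ^ 2 * (n1 + K1)) =
      Real.exp (((d ^ 2 * (n0 + K1) + d ^ 2 * (n1 + K1) : ℕ) : ℝ) * Real.log C') := by
    rw [Real.exp_nat_mul, Real.exp_log (by linarith)]
  rw [e1, ← Real.exp_mul]
  refine (mul_le_mul_of_nonneg_left hc (Real.exp_pos _).le).trans ?_
  rw [← Real.exp_add]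
  apply Real.exp_le_exp.2
  push_cast
  set N : ℝ := (n0 : ℝ) + n1 with hN
  have hN2 : 2 ≤ N := by linarith
  have h1 : (1 + K1) * Real.log C' + K1 + 1 ≤ K * ω' := (div_le_iff₀ hω).1 hK
  have h2 : ((1 + K1) * Real.log C' + K1 + 1) * (N + h) ≤ μ * ω' := by
    calc ((1 + K1) * Real.log C' + K1 + 1) * (N + h) ≤ K * ω' * (N + h) :=
          mul_le_mul_of_nonneg_right h1 (by linarith)
      _ = (K * (N + h)) * ω' := by ring
      _ ≤ μ * ω' := mul_le_mul_of_nonneg_right hμ hω.le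
  have h3 : (N + 2 * K1) * Real.log C' + (h + K1 * N) ≤
      ((1 + K1) * Real.log C' + K1 + 1) * (N + h) := by
    have a1 : (2 : ℝ) * K1 ≤ K1 * N := by nlinarith
    have a2 : (N + 2 * K1) * Real.log C' ≤ ((1 + K1) * N) * Real.log C' :=
      mul_le_mul_of_nonneg_right (by linarith) l1
    have a3 : 0 ≤ (1 + K1) * Real.log C' * h := by positivity
    have a4 : 0 ≤ (K1 : ℝ) * h := by positivity
    nlinarith
  have h4 : 0 ≤ (d : ℝ) ^ 2 := by positivity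
  have h5 := mul_le_mul_of_nonneg_left (h3.trans h2) h4
  calc ((d : ℝ) ^ 2 * ((n0 : ℝ) + K1) + (d : ℝ) ^ 2 * ((n1 : ℝ) + K1)) * Real.log C' +
        (d : ℝ) ^ 2 * (h + K1 * N)
      = (d : ℝ) ^ 2 * ((N + 2 * K1) * Real.log C' + (h + K1 * N)) := by
        rw [hN]
        ring
    _ ≤ (d : ℝ) ^ 2 * (μ * ω') := h5
    _ = (d : ℝ) ^ 2 * μ * ω' := by ring

/-- the reciprocal of a rational number of absolute value greater than one -/
theorem Zer_rat (x : ℚ) (hx : x ≠ 0) : |(x : ℝ)| ≤ ((x⁻¹.den : ℤ) : ℝ) := by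
  have h1 : x⁻¹ ≠ 0 := inv_ne_zero hx
  have h2 : x⁻¹.num ≠ 0 := Rat.num_ne_zero.2 h1
  have h3 : (1 : ℤ) ≤ |x⁻¹.num| := Int.one_le_abs h2
  have h4 : |x| * |x⁻¹.num| = (x⁻¹.den : ℚ) := by
    have h5 : (x⁻¹.num : ℚ) = x⁻¹ * x⁻¹.den := (Rat.mul_den_eq_num _).symm
    have h6 : |(x⁻¹.num : ℚ)| = |x|⁻¹ * x⁻¹.den := by
      rw [h5, abs_mul, abs_inv, Nat.abs_cast]
    rw [Int.cast_abs, h6, ← mul_assoc, mul_inv_cancel₀ (abs_ne_zero.2 hx), one_mul]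
  have h7 : |x| ≤ (x⁻¹.den : ℚ) := by
    rw [← h4]
    have h8 : (1 : ℚ) ≤ ((|x⁻¹.num| : ℤ) : ℚ) := by exact_mod_cast h3
    nlinarith [abs_nonneg x]
  have h9 : ((|x| : ℚ) : ℝ) ≤ ((x⁻¹.den : ℚ) : ℝ) := by exact_mod_cast h7
  rw [Rat.cast_abs] at h9
  refine h9.trans (le_of_eq ?_)
  push_cast
  rfl

theorem Zer_log {K N n : ℝ} (x : ℚ) (hK : 0 < K) (hN : 0 < N) (hn : 0 < n)
    (h : K * N ≤ n * Real.log |(x : ℝ)|) : x ≠ 0 ∧ 0 < Real.log |(x : ℝ)| := by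
  have h1 : 0 < n * Real.log |(x : ℝ)| := lt_of_lt_of_le (by positivity) h
  have h2 : 0 < Real.log |(x : ℝ)| := by
    by_contra hcon
    push Not at hcon
    nlinarith
  refine ⟨?_, h2⟩
  rintro rfl
  simp at h2

/-- the size condition on the denominators -/
theorem Zer_R (d K1 n : ℕ) (x : ℚ) (μ : ℝ) (hx : x ≠ 0) (hl : 0 < Real.log |(x : ℝ)|)
    (hμ : μ ≤ n * Real.log |(x : ℝ)|) :
    Real.exp ((d : ℝ) ^ 2 * μ) ≤ ((x⁻¹.den : ℤ) : ℝ) ^ (d ^ 2 * (n + K1)) := by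
  have h1 := Zer_rat x hx
  have h2 : 0 < |(x : ℝ)| := abs_pos.2 (by exact_mod_cast hx)
  have h3 : 0 ≤ (d : ℝ) ^ 2 := by positivity
  calc Real.exp ((d : ℝ) ^ 2 * μ)
      ≤ Real.exp (((d ^ 2 * (n + K1) : ℕ) : ℝ) * Real.log |(x : ℝ)|) := by
        apply Real.exp_le_exp.2
        push_cast
        have h4 : μ ≤ ((n : ℝ) + K1) * Real.log |(x : ℝ)| := by
          have : 0 ≤ (K1 : ℝ) * Real.log |(x : ℝ)| := by positivity
          nlinarith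
        calc (d : ℝ) ^ 2 * μ ≤ (d : ℝ) ^ 2 * (((n : ℝ) + K1) * Real.log |(x : ℝ)|) :=
              mul_le_mul_of_nonneg_left h4 h3
          _ = (d : ℝ) ^ 2 * ((n : ℝ) + K1) * Real.log |(x : ℝ)| := by ring
    _ = |(x : ℝ)| ^ (d ^ 2 * (n + K1)) := by
        rw [Real.exp_nat_mul, Real.exp_log h2]
    _ ≤ ((x⁻¹.den : ℤ) : ℝ) ^ (d ^ 2 * (n + K1)) := pow_le_pow_left₀ h2.le h1 _

theorem Zer_inv (T : PowerSeries ℚ) (h0 : PowerSeries.constantCoeff T ≠ 0)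
    (h1 : PowerSeries.coeff 1 T ≠ 0) :
    PowerSeries.constantCoeff T⁻¹ = (PowerSeries.constantCoeff T)⁻¹ ∧
      PowerSeries.coeff 1 T⁻¹ ≠ 0 ∧ T⁻¹ * T = 1 := by
  have h2 : PowerSeries.constantCoeff T⁻¹ = (PowerSeries.constantCoeff T)⁻¹ :=
    PowerSeries.constantCoeff_inv T
  have h3 : T⁻¹ * T = 1 := PowerSeries.inv_mul_cancel T h0
  refine ⟨h2, ?_, h3⟩
  intro h4
  have h5 := congrArg (PowerSeries.coeff 1) h3
  rw [PowerSeries.coeff_mul, Finset.Nat.antidiagonal_succ] at h5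
  simp only [Finset.sum_cons, PowerSeries.coeff_zero_eq_constantCoeff_apply] at h5
  simp [h4, h2, PowerSeries.coeff_one] at h5
  rcases h5 with h5 | h5
  · exact h0 h5
  · exact h1 h5

theorem Zer_norm (h2 : NdvStmt) (h3 : NneStmt) (n0 n1 d : ℕ) (g : Polynomial (Polynomial ℤ))
    (p : ℕ → ℕ → ℕ → ℕ → ℤ) (B : Type) [CommRing B] [IsDomain B] (T0 S0 T1 S1 : B) (hd : 1 ≤ d)
    (hg : g.Monic) (hgd : g.natDegree = d) (hev0 : ev2 T0 S0 g = 0) (hev1 : ev2 T1 S1 g = 0)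
    (hJ : ∀ w : ℕ → ℕ → MvPolynomial (Fin 2) ℤ, (∑ j ∈ range d, ∑ k ∈ range d,
      MvPolynomial.eval₂ (Int.castRingHom B) ![T0, T1] (w j k) * (S0 ^ j * S1 ^ k) = 0) →
        ∀ j < d, ∀ k < d, w j k = 0)
    (hpv : pv n0 n1 d p T0 S0 T1 S1 ≠ 0) : nrmP n0 n1 d g p ≠ 0 ∧
    ∃ P' : B, MvPolynomial.eval₂ (Int.castRingHom B) ![T0, T1] (nrmP n0 n1 d g p) =
      pv n0 n1 d p T0 S0 T1 S1 * P' := by
  refine ⟨h3 n0 n1 d g p B T0 S0 T1 S1 hd hg hgd hev0 hev1 ?_ hpv, ?_⟩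
  · intro w hw
    apply hJ w
    rw [← hw]
    apply Finset.sum_congr rfl
    intro j _
    apply Finset.sum_congr rfl
    intro k _
    rw [Zer_aeval]
  · obtain ⟨P', hP'⟩ := (h2 n0 n1 d g p B T0 S0 T1 S1 hd hg hgd hev0 hev1).2
    refine ⟨P', ?_⟩
    rw [← hP', Zer_aeval]

theorem Zer_rev (h7 : RvsStmt) (D : Fin 2 → ℕ) (R : MvPolynomial (Fin 2) ℤ) (hR : R ≠ 0)
    (hD : ∀ h, R.degreeOf h ≤ D h) :
    ∃ R' : MvPolynomial (Fin 2) ℤ, R' ≠ 0 ∧ (∀ h, R'.degreeOf h ≤ D h) ∧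
    (∀ κ, MvPolynomial.coeff κ R' = 0 ∨ ∃ κ', MvPolynomial.coeff κ R' = MvPolynomial.coeff κ' R) ∧
    ∀ (B : Type) [CommRing B] (T z : Fin 2 → B), (∀ h, z h * T h = 1) →
      MvPolynomial.eval₂ (Int.castRingHom B) z R' =
        z 0 ^ D 0 * z 1 ^ D 1 * MvPolynomial.eval₂ (Int.castRingHom B) T R := by
  obtain ⟨R', a1, a2, a3, a4⟩ := h7 D R hR hD
  refine ⟨R', a1, a2, a3, ?_⟩
  intro B _ T z h
  have h1 := a4 B T z h
  rw [Zer_aeval, Zer_aeval] at h1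
  exact h1

theorem tZer (h1 : MPcc0c1aSub.RothLemma 2) (h2 : NdvStmt) (h3 : NneStmt) (h4 : NszStmt)
    (h5 : JntStmt) (h6 : TrnStmt) (h7 : RvsStmt) (h8 : CfpStmt) : ZerStmt := by
  intro d g ε hd hg hgd hε
  obtain ⟨K1, hK1, hN⟩ := h4 d g hd
  have hd1 : (1 : ℝ) ≤ d := by exact_mod_cast hd
  have hK1' : (1 : ℝ) ≤ K1 := by exact_mod_cast hK1
  have hfac : (0 : ℝ) < (d : ℝ) ^ 2 * (1 + K1) := by positivity
  obtain ⟨ω', C', hω', hC', hRoth⟩ := h1 (ε / ((d : ℝ) ^ 2 * (1 + K1))) (div_pos hε hfac)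
  refine ⟨ω' / (1 + K1), max 1 (((1 + K1) * Real.log C' + K1 + 1) / ω'), by positivity,
    le_max_left _ _, ?_⟩
  intro n0 n1 p h T0 S0 T1 S1 hn0 hn1 hn hp hh hpb hP0 hP1 hL0 hL1
  set K : ℝ := max 1 (((1 + K1) * Real.log C' + K1 + 1) / ω') with hK
  have hK0 : 1 ≤ K := le_max_left _ _
  have hKω : ((1 + K1) * Real.log C' + K1 + 1) / ω' ≤ K := le_max_right _ _
  have hn0' : (1 : ℝ) ≤ n0 := by exact_mod_cast hn0
  have hn1' : (1 : ℝ) ≤ n1 := by exact_mod_cast hn1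
  set x0 : ℚ := PowerSeries.constantCoeff T0 with hx0
  set x1 : ℚ := PowerSeries.constantCoeff T1 with hx1
  have hNpos : 0 < (n0 : ℝ) + n1 + h := by linarith
  obtain ⟨hx0n, hl0⟩ := Zer_log x0 (by linarith) hNpos (by linarith) hL0
  obtain ⟨hx1n, hl1⟩ := Zer_log x1 (by linarith) hNpos (by linarith) hL1
  -- the norm
  have hpv := Zer_pv h5 d n0 n1 g p T0 S0 T1 S1 hp hP0 hP1
  have hev0 : ev2 (e0 T0) (e0 S0) g = 0 := by rw [← Zer_ev2, hP0.eqn, map_zero]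
  have hev1 : ev2 (e1 T1) (e1 S1) g = 0 := by rw [← Zer_ev2, hP1.eqn, map_zero]
  obtain ⟨hR, P', hP'⟩ := Zer_norm h2 h3 n0 n1 d g p (PowerSeries (PowerSeries ℚ)) (e0 T0) (e0 S0)
    (e1 T1) (e1 S1) hd hg hgd hev0 hev1 (Zer_jnt h5 d g T0 S0 T1 S1 hP0 hP1) hpv
  obtain ⟨hdeg0, hdeg1, hcoef⟩ := hN n0 n1 p h hn0 hn1 hpb
  -- the reversed polynomial
  let D : Fin 2 → ℕ := ![d ^ 2 * (n0 + K1), d ^ 2 * (n1 + K1)]
  have hD0 : D 0 = d ^ 2 * (n0 + K1) := rfl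
  have hD1 : D 1 = d ^ 2 * (n1 + K1) := rfl
  obtain ⟨R', hR'0, hR'deg, hR'c, hR'v⟩ := Zer_rev h7 D (nrmP n0 n1 d g p) hR (by
    rw [Fin.forall_fin_two]
    exact ⟨hdeg0, hdeg1⟩)
  -- Roth's lemma
  let μ : ℝ := min ((n0 : ℝ) * Real.log |(x0 : ℝ)|) ((n1 : ℝ) * Real.log |(x1 : ℝ)|)
  have hμ : K * ((n0 : ℝ) + n1 + h) ≤ μ := le_min hL0 hL1
  have hμ0 : 0 ≤ μ := le_trans (by positivity) hμ
  let y : Fin 2 → ℚ := ![x0⁻¹, x1⁻¹]
  obtain ⟨κ, hκ1, hκ2⟩ := hRoth D (fun i => (y i).num) (fun i => ((y i).den : ℤ))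
    (Real.exp ((d : ℝ) ^ 2 * μ)) R' (by
      rw [Fin.forall_fin_two, hD0, hD1]
      exact ⟨by positivity, by positivity⟩) (by
      rw [Fin.forall_fin_two]
      refine ⟨?_, ?_⟩
      · rw [Fin.forall_fin_two]
        refine ⟨fun h => absurd h (by decide), fun _ => ?_⟩
        rw [hD0, hD1]
        push_cast
        have a1 : (n0 : ℝ) ≤ ω' / (1 + K1) * n1 := hn
        have a2 : (1 + (K1 : ℝ)) * n0 ≤ ω' * n1 := by
          calc (1 + (K1 : ℝ)) * n0 ≤ (1 + (K1 : ℝ)) * (ω' / (1 + K1) * n1) :=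
                mul_le_mul_of_nonneg_left a1 (by linarith)
            _ = ω' * n1 := by field_simp
        have a3 : (n0 : ℝ) + K1 ≤ ω' * (n1 + K1) := by
          have : (K1 : ℝ) ≤ K1 * n0 := by nlinarith
          have : 0 ≤ ω' * K1 := by positivity
          nlinarith
        calc (d : ℝ) ^ 2 * ((n0 : ℝ) + K1) ≤ (d : ℝ) ^ 2 * (ω' * (n1 + K1)) :=
              mul_le_mul_of_nonneg_left a3 (by positivity)
          _ = ω' * ((d : ℝ) ^ 2 * ((n1 : ℝ) + K1)) := by ring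
      · rw [Fin.forall_fin_two]
        exact ⟨fun h => absurd h (by decide), fun h => absurd h (by decide)⟩) (by
      rw [Fin.forall_fin_two]
      refine ⟨⟨?_, ?_, ?_⟩, ⟨?_, ?_, ?_⟩⟩
      · exact_mod_cast (y 0).den_pos
      · exact (Rat.isCoprime_num_den (y 0))
      · exact Zer_R d K1 n0 x0 μ hx0n hl0 (min_le_left _ _)
      · exact_mod_cast (y 1).den_pos
      · exact (Rat.isCoprime_num_den (y 1))
      · exact Zer_R d K1 n1 x1 μ hx1n hl1 (min_le_right _ _)) (by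
      apply Real.one_le_exp
      positivity) hR'0 hR'deg (by
      intro a
      have a1 : |((MvPolynomial.coeff a R' : ℤ) : ℝ)| ≤
          Real.exp ((d : ℝ) ^ 2 * (h + K1 * ((n0 : ℝ) + n1))) := by
        rcases hR'c a with h9 | ⟨κ', h9⟩
        · rw [h9]
          simp only [Int.cast_zero, abs_zero]
          exact (Real.exp_pos _).le
        · rw [h9]
          exact hcoef κ'
      have a2 : ∑ i, D i = d ^ 2 * (n0 + K1) + d ^ 2 * (n1 + K1) := by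
        rw [Fin.sum_univ_two, hD0, hD1]
      rw [a2]
      exact Zer_height d K1 n0 n1 ω' C' K h μ _ hK1 hn0 hn1 hω' hC' hh hKω hμ a1)
  -- transfer
  obtain ⟨i00, i01, i02⟩ := Zer_inv T0 hx0n hP0.unr
  obtain ⟨i10, i11, i12⟩ := Zer_inv T1 hx1n hP1.unr
  have hy : (fun i => (((y i).num : ℤ) : ℚ) / (((y i).den : ℤ) : ℚ)) = y := by
    funext i
    rw [Int.cast_natCast]
    exact Rat.num_div_den (y i)
  rw [hy] at hκ2
  obtain ⟨a, b, hab1, hab2⟩ := h6 D y ![T0⁻¹, T1⁻¹] (MPcc0c1aSub.toQ R') κ (by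
      rw [Fin.forall_fin_two, hD0, hD1]
      exact ⟨by positivity, by positivity⟩) (by
      rw [Fin.forall_fin_two]
      exact ⟨i00, i10⟩) (by
      rw [Fin.forall_fin_two]
      exact ⟨i01, i11⟩) hκ2
  have hval : (MvPolynomial.aeval ![e0 T0⁻¹, e1 T1⁻¹] :
      MvPolynomial (Fin 2) ℚ →ₐ[ℚ] PowerSeries (PowerSeries ℚ)) (MPcc0c1aSub.toQ R') =
      pv n0 n1 d p (e0 T0) (e0 S0) (e1 T1) (e1 S1) *
        (e0 T0⁻¹ ^ D 0 * e1 T1⁻¹ ^ D 1 * P') := by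
    rw [Zer_aevalQ, hR'v (PowerSeries (PowerSeries ℚ)) ![e0 T0, e1 T1] ![e0 T0⁻¹, e1 T1⁻¹] (by
      rw [Fin.forall_fin_two]
      refine ⟨?_, ?_⟩
      · show e0 T0⁻¹ * e0 T0 = 1
        rw [← map_mul, i02, map_one]
      · show e1 T1⁻¹ * e1 T1 = 1
        rw [← map_mul, i12, map_one]), hP']
    show e0 T0⁻¹ ^ D 0 * e1 T1⁻¹ ^ D 1 * (pv n0 n1 d p (e0 T0) (e0 S0) (e1 T1) (e1 S1) * P') = _
    ring
  have hab3 : cf a b (pv n0 n1 d p (e0 T0) (e0 S0) (e1 T1) (e1 S1) *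
        (e0 T0⁻¹ ^ D 0 * e1 T1⁻¹ ^ D 1 * P')) ≠ 0 := by
    rw [← hval]
    exact hab2
  obtain ⟨k0, hk0, k1, hk1, hk⟩ := h8.2 _ _ a b hab3
  rw [h8.1] at hk
  refine ⟨k0, k1, ?_, hk⟩
  -- the weights
  have c1 : (a : ℝ) / D 0 + (b : ℝ) / D 1 ≤ ε / ((d : ℝ) ^ 2 * (1 + K1)) := hab1.trans hκ1
  have key : ∀ (k a n : ℕ), 1 ≤ n → k ≤ a →
      (k : ℝ) / n ≤ ((d : ℝ) ^ 2 * (1 + K1)) * ((a : ℝ) / ((d ^ 2 * (n + K1) : ℕ) : ℝ)) := by
    intro k a n hn hka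
    have hn' : (1 : ℝ) ≤ n := by exact_mod_cast hn
    have hka' : (k : ℝ) ≤ a := by exact_mod_cast hka
    push_cast
    have hden : (0 : ℝ) < (d : ℝ) ^ 2 * ((n : ℝ) + K1) := by positivity
    rw [← mul_div_assoc, div_le_div_iff₀ (by linarith) hden]
    have ha0 : (0 : ℝ) ≤ a := Nat.cast_nonneg _
    have e1 : (n : ℝ) + K1 ≤ (1 + K1) * n := by nlinarith
    have e2 : (k : ℝ) * ((n : ℝ) + K1) ≤ a * ((1 + K1) * n) :=
      mul_le_mul hka' e1 (by positivity) ha0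
    have e3 := mul_le_mul_of_nonneg_left e2 (show (0 : ℝ) ≤ (d : ℝ) ^ 2 by positivity)
    calc (k : ℝ) * ((d : ℝ) ^ 2 * ((n : ℝ) + K1)) = (d : ℝ) ^ 2 * (k * ((n : ℝ) + K1)) := by ring
      _ ≤ (d : ℝ) ^ 2 * (a * ((1 + K1) * n)) := e3
      _ = (d : ℝ) ^ 2 * (1 + K1) * a * n := by ring
  have c2 := key k0 a n0 hn0 hk0
  have c3 := key k1 b n1 hn1 hk1
  rw [← hD0] at c2
  rw [← hD1] at c3
  calc (k0 : ℝ) / n0 + (k1 : ℝ) / n1
      ≤ ((d : ℝ) ^ 2 * (1 + K1)) * ((a : ℝ) / D 0 + (b : ℝ) / D 1) := by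
        rw [mul_add]
        exact add_le_add c2 c3
    _ ≤ ((d : ℝ) ^ 2 * (1 + K1)) * (ε / ((d : ℝ) ^ 2 * (1 + K1))) :=
        mul_le_mul_of_nonneg_left c1 hfac.le
    _ = ε := by field_simp

end Pool.Agent.Lib.SDC
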