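import Pool.Agent.Lib.SDC.Roth
import Pool.Agent.Lib.SDC.Grw
import Pool.Agent.Lib.SDC.Coo
import Pool.Agent.Lib.SDC.Cnt
import Pool.Agent.Lib.SDC.Row
import Pool.Agent.Lib.SDC.Auxi
import Pool.Agent.Lib.SDC.Sft
import Pool.Agent.Lib.SDC.Val
import Pool.Agent.Lib.SDC.Gbd
import Pool.Agent.Lib.SDC.Inv
import Pool.Agent.Lib.SDC.Siz
import Pool.Agent.Lib.SDC.Den
import Pool.Agent.Lib.SDC.Ltc
import Pool.Agent.Lib.SDC.Ndv
import Pool.Agent.Lib.SDC.Nne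
import Pool.Agent.Lib.SDC.Nsz
import Pool.Agent.Lib.SDC.Jnt
import Pool.Agent.Lib.SDC.Trn
import Pool.Agent.Lib.SDC.Rvs
import Pool.Agent.Lib.SDC.Cfp
import Pool.Agent.Lib.SDC.Zer
import Pool.Agent.Lib.SDC.Par
import Pool.Agent.Lib.SDC.Hen
import Pool.Agent.Lib.SDC.Hns
import Pool.Agent.Lib.SDC.Unq
import Pool.Agent.Lib.SDC.Idp
import Pool.Agent.Lib.SDC.Gsn
import Pool.Agent.Lib.SDC.Ana
import Pool.Agent.Lib.SDC.Lam
import Pool.Agent.Lib.SDC.Tri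
import Pool.Agent.Lib.SDC.Pts
import Pool.Agent.Lib.SDC.Cor

/-!
The two-variable core of the theorem of Thue, Siegel and Dyson, without hypotheses (assembly).
-/

namespace Pool.Agent.Lib.SDC

open Finset Pool.Agent.Lib.SD

theorem core : CoreStmt :=
  tCor (tAux tGrw tCoo tCnt tRow) (tSiz tGrw tSft (tVal tSft) tGbd tInv) tDen tLtc
    (tZer roth2 tNdv (tNne tNdv) tNsz tJnt tTrn tRvs tCfp) tPar tTri
    (tPts (tHns tHen) tUnq tIdp tGsn (tAna tSft) tLam)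

end Pool.Agent.Lib.SDC
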