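import Pool.Agent.Lib.SD.Defs
import Pool.Agent.Lib.MP_cc0c1a_nt.Sub.SpecR

/-!
MP_9f7b43_nt, directory Lib/SDC: the two-variable core of the theorem of Thue, Siegel and Dyson (helper57).
Definitions.

Two-variable power series are elements of `PowerSeries (PowerSeries ℚ)`: the variable of index 0 is the inner
one, the variable of index 1 is the outer one.
-/

namespace Pool.Agent.Lib.SDC

open Finset Pool.Agent.Lib.SD

/-- the Eisenstein property with the constant C -/
def EisC {F : Type} [Field F] [NumberField F] (C : ℕ) (f : PowerSeries F) : Prop :=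
  ∀ n, IsIntegral ℤ ((C : F) ^ (n + 1) * PowerSeries.coeff n f) ∧
    NumberField.house (PowerSeries.coeff n f) ≤ (C : ℝ) ^ (n + 1)

/-- the Taylor shift f(u + X) of a convergent real power series -/
noncomputable def sft (u : ℝ) (f : PowerSeries ℝ) : PowerSeries ℝ :=
  PowerSeries.mk fun k => ∑' n : ℕ, PowerSeries.coeff (n + k) f * ((n + k).choose k : ℝ) * u ^ n

/-- embedding of one-variable series as series in the variable 0 -/
noncomputable def e0 : PowerSeries ℚ →+* PowerSeries (PowerSeries ℚ) := PowerSeries.C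

/-- embedding of one-variable series as series in the variable 1 -/
noncomputable def e1 : PowerSeries ℚ →+* PowerSeries (PowerSeries ℚ) :=
  PowerSeries.map (PowerSeries.C : ℚ →+* PowerSeries ℚ)

/-- the coefficient with indices (a, b) of a two-variable series -/
noncomputable def cf (a b : ℕ) (G : PowerSeries (PowerSeries ℚ)) : ℚ :=
  PowerSeries.coeff a (PowerSeries.coeff b G)

/-- the value of the auxiliary polynomial ∑ p_{ajbk} T0^a S0^j T1^b S1^k (a < n0, j < d, b < n1, k < d) -/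
noncomputable def pv {R : Type} [CommRing R] (n0 n1 d : ℕ) (p : ℕ → ℕ → ℕ → ℕ → ℤ) (T0 S0 T1 S1 : R) : R :=
  ∑ a ∈ range n0, ∑ j ∈ range d, ∑ b ∈ range n1, ∑ k ∈ range d,
    (p a j b k : R) * (T0 ^ a * S0 ^ j) * (T1 ^ b * S1 ^ k)

/-- the coefficient with indices (k0, k1) of the auxiliary polynomial at the point (expansions T0, S0, T1, S1) -/
noncomputable def pc {R : Type} [CommRing R] (n0 n1 d : ℕ) (p : ℕ → ℕ → ℕ → ℕ → ℤ) (T0 S0 T1 S1 : PowerSeries R)
    (k0 k1 : ℕ) : R :=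
  ∑ a ∈ range n0, ∑ j ∈ range d, ∑ b ∈ range n1, ∑ k ∈ range d,
    (p a j b k : R) * PowerSeries.coeff k0 (T0 ^ a * S0 ^ j) * PowerSeries.coeff k1 (T1 ^ b * S1 ^ k)

/-- t^(m n + c0 d) T^a S^j as a power series, where T = E/t^m, S = Y/t^c0, a ≤ n, j ≤ d -/
noncomputable def Phi {F : Type} [CommRing F] (m c0 d n : ℕ) (E Y : PowerSeries F) (a j : ℕ) : PowerSeries F :=
  PowerSeries.X ^ (m * (n - a) + c0 * (d - j)) * (E ^ a * Y ^ j)

/-- the coefficient with indices (μ, ν) of t0^(m n0 + c0 d) t1^(m n1 + c0 d) P -/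
noncomputable def cc {F : Type} [CommRing F] (m c0 d n0 n1 : ℕ) (p : ℕ → ℕ → ℕ → ℕ → ℤ) (E Y : PowerSeries F)
    (μ ν : ℕ) : F :=
  ∑ a ∈ range n0, ∑ j ∈ range d, ∑ b ∈ range n1, ∑ k ∈ range d,
    (p a j b k : F) * PowerSeries.coeff μ (Phi m c0 d n0 E Y a j) * PowerSeries.coeff ν (Phi m c0 d n1 E Y b k)

/-- the auxiliary polynomial is not zero -/
def pne (n0 n1 d : ℕ) (p : ℕ → ℕ → ℕ → ℕ → ℤ) : Prop := ∃ a < n0, ∃ j < d, ∃ b < n1, ∃ k < d, p a j b k ≠ 0

/-- the index at the diagonal point at infinity is at least τ -/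
def Van {F : Type} [CommRing F] (m c0 d n0 n1 : ℕ) (p : ℕ → ℕ → ℕ → ℕ → ℤ) (E Y : PowerSeries F) (τ : ℝ) : Prop :=
  ∀ μ ν : ℕ, (μ : ℝ) / ((m : ℝ) * n0) + (ν : ℝ) / ((m : ℝ) * n1) < τ → cc m c0 d n0 n1 p E Y μ ν = 0

/-- T, S are the Taylor expansions of the two functions at a rational point with g(T, S) = 0, unramified, and
1, S, ..., S^(d-1) are independent over ℤ[T] -/
structure Ptz (d : ℕ) (g : Polynomial (Polynomial ℤ)) (T S : PowerSeries ℚ) : Prop where
  eqn : ev2 T S g = 0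
  unr : PowerSeries.coeff 1 T ≠ 0
  ind : ∀ q : ℕ → Polynomial ℤ, (∑ j ∈ range d, Polynomial.aeval T (q j) * S ^ j = 0) → ∀ j < d, q j = 0

/-- denominators of a power series -/
def Dnm (N A : ℕ) (f : PowerSeries ℚ) : Prop := ∀ k, ∃ z : ℤ, (N : ℚ) * (A : ℚ) ^ k * PowerSeries.coeff k f = z

/-- the real expansion in terms of the expansion at the place at infinity: (u + X)^m T = E(u + X) -/
def Rex {F : Type} [Field F] (ρ : F →+* ℝ) (m : ℕ) (E : PowerSeries F) (u : ℝ) (T : PowerSeries ℝ) : Prop :=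
  (PowerSeries.C u + PowerSeries.X) ^ m * T = sft u (PowerSeries.map ρ E)

/-- a good point: (x, S(0)) is the rational point, S is the expansion of the second function in the coordinate
T - x; u is the real value of the local parameter t, and Tr, Sr are the real expansions in the coordinate t - u -/
structure GPt {F : Type} [Field F] (ρ : F →+* ℝ) (d m c0 : ℕ) (g : Polynomial (Polynomial ℤ)) (E Y : PowerSeries F)
    (C1 δ u : ℝ) (x : ℚ) (S : PowerSeries ℚ) (Tr Sr : PowerSeries ℝ) (N A : ℕ) : Prop where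
  u0 : u ≠ 0
  small : |u| < δ
  N1 : 1 ≤ N
  A1 : 1 ≤ A
  logN : Real.log N ≤ δ * Real.log (1 / |u|)
  logA : Real.log A ≤ C1 * Real.log (1 / |u|)
  denT : Dnm N A (PowerSeries.C x + PowerSeries.X)
  denS : Dnm N A S
  ptz : Ptz d g (PowerSeries.C x + PowerSeries.X) S
  reT : Rex ρ m E u Tr
  reS : Rex ρ c0 Y u Sr
  cx : PowerSeries.constantCoeff Tr = (x : ℝ)
  lam : 1 ≤ |PowerSeries.coeff 1 Tr|
  sub : Sr = PowerSeries.subst (Tr - PowerSeries.C (x : ℝ)) (PowerSeries.map (algebraMap ℚ ℝ) S)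

end Pool.Agent.Lib.SDC
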