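import Pool.Agent.Lib.SDC.Spec

/-!
MP_9f7b43_nt, directory Lib/SDC, module Nne (helper50): the norm of the auxiliary polynomial is
not zero.
-/

namespace Pool.Agent.Lib.SDC

open Finset Pool.Agent.Lib.SD

theorem tNne (h1 : NdvStmt) : NneStmt := by
  intro n0 n1 d g p B _ _ T0 S0 T1 S1 hd hg hdeg he0 he1 hind hpv hdet
  unfold nrmP at hdet
  obtain ⟨w, hw, hwM⟩ := Matrix.exists_vecMul_eq_zero_iff.mpr hdet
  have hN := (h1 n0 n1 d g p B T0 S0 T1 S1 hd hg hdeg he0 he1).1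
  let φ : MvPolynomial (Fin 2) ℤ →ₐ[ℤ] B := MvPolynomial.aeval ![T0, T1]
  let vv : Fin d × Fin d → B := fun q => S0 ^ (q.1 : ℕ) * S1 ^ (q.2 : ℕ)
  have hz : dotProduct (fun q => φ (w q)) (((mulM n0 n1 d g p).map φ).mulVec vv) = 0 := by
    rw [Matrix.dotProduct_mulVec]
    have hv : Matrix.vecMul (fun q => φ (w q)) ((mulM n0 n1 d g p).map φ) = 0 := by
      funext q
      have h2 := congrArg φ (congrFun hwM q)
      simp only [Matrix.vecMul, dotProduct, Pi.zero_apply, map_zero, map_sum, map_mul] at h2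
      simpa only [Matrix.vecMul, dotProduct, Matrix.map_apply, Pi.zero_apply] using h2
    rw [hv, zero_dotProduct]
  have hN' : ((mulM n0 n1 d g p).map φ).mulVec vv =
      fun q : Fin d × Fin d => pv n0 n1 d p T0 S0 T1 S1 * (S0 ^ (q.1 : ℕ) * S1 ^ (q.2 : ℕ)) := hN
  rw [hN'] at hz
  have hz2 : pv n0 n1 d p T0 S0 T1 S1 *
      ∑ q : Fin d × Fin d, φ (w q) * (S0 ^ (q.1 : ℕ) * S1 ^ (q.2 : ℕ)) = 0 := by
    rw [← hz, Finset.mul_sum]
    unfold dotProduct
    exact Finset.sum_congr rfl fun q _ => by ring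
  have hz3 := (mul_eq_zero.mp hz2).resolve_left hpv
  let w' : ℕ → ℕ → MvPolynomial (Fin 2) ℤ := fun j k =>
    if h : j < d ∧ k < d then w (⟨j, h.1⟩, ⟨k, h.2⟩) else 0
  have hw' : ∀ j k : Fin d, w' j k = w (j, k) := by
    intro j k
    simp only [w']
    rw [dif_pos ⟨j.2, k.2⟩]
  have h3 := hind w' (by
    rw [Finset.sum_range]
    rw [← hz3, Fintype.sum_prod_type]
    refine Finset.sum_congr rfl fun j _ => ?_
    rw [Finset.sum_range]
    exact Finset.sum_congr rfl fun k _ => by rw [hw'])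
  apply hw
  funext q
  have h4 := h3 q.1 q.1.2 q.2 q.2.2
  rw [hw'] at h4
  exact h4

end Pool.Agent.Lib.SDC
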