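import Pool.Agent.Lib.MP_cc0c1a_nt.Sub.Asm
import Pool.Agent.Lib.MP_cc0c1a_nt.Sub.R1
import Pool.Agent.Lib.MP_cc0c1a_nt.Sub.R2
import Pool.Agent.Lib.MP_cc0c1a_nt.Sub.R3
import Pool.Agent.Lib.MP_cc0c1a_nt.Sub.R4
import Pool.Agent.Lib.MP_cc0c1a_nt.Sub.R5
import Pool.Agent.Lib.MP_cc0c1a_nt.Sub.R6
import Pool.Agent.Lib.MP_cc0c1a_nt.Sub.R7
import Pool.Agent.Lib.MP_cc0c1a_nt.Sub.R8
import Pool.Agent.Lib.MP_cc0c1a_nt.Sub.R9
import Pool.Agent.Lib.MP_cc0c1a_nt.Sub.R10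
import Pool.Agent.Lib.MP_cc0c1a_nt.Sub.R11
import Pool.Agent.Lib.MP_cc0c1a_nt.Sub.R12
import Pool.Agent.Lib.MP_cc0c1a_nt.Sub.R13
import Pool.Agent.Lib.MP_cc0c1a_nt.Sub.R14
import Pool.Agent.Lib.MP_cc0c1a_nt.Sub.R15
import Pool.Agent.Lib.MP_cc0c1a_nt.Sub.M5

/-! Roth's lemma (all numbers of variables), without hypotheses. -/

namespace Pool.Agent.Lib.SDC

open MPcc0c1aSub

theorem rothAll' : RothAll :=
  rothAll (rothStep hasseCoeff (hasseShift hasseCoeff)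
    (indexCalc hasseCoeff (hasseShift hasseCoeff))
    (indexDet (indexCalc hasseCoeff (hasseShift hasseCoeff))) uniMult uniWronskian
    (genWronskian hasseCoeff uniWronskian kronecker curveDeriv) rankFactor
    (separated hasseCoeff) (detFactor hasseCoeff (separated hasseCoeff))
    (detHeight hasseCoeff normCalc) numSum)

theorem roth2 : RothLemma 2 := rothAll' 2

end Pool.Agent.Lib.SDC
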