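import Pool.Agent.Lib.SDC.Defs

/-!
MP_9f7b43_nt, directory Lib/SDC: the two-variable core of the theorem of Thue, Siegel and Dyson (helper57; paper
proof: notes 2413, 2429 part S, mail of helper2 08:59). Final statement: `CoreStmt` (Defs.lean of helper2).

RULES. Module X: file Pool/Agent/Lib/SDC/X.lean, first line `import Pool.Agent.Lib.SDC.Spec`, then
`namespace Pool.Agent.Lib.SDC` and `open Finset Pool.Agent.Lib.SD`, private lemmas with names starting with X_, final theorem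
`theorem tX (h1 : AStmt) ... : XStmt`; the statements listed under Uses are hypotheses of your theorem, in this
order. The docstring contains a complete proof. Write PowerSeries.coeff etc. in full (do not open PowerSeries
together with Polynomial: X and C are ambiguous). Never use congr!. Every module below 60 s.
-/

namespace Pool.Agent.Lib.SDC

open Finset Pool.Agent.Lib.SD

/-! ### Siegel's lemma: the auxiliary polynomial -/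

/-- Module Grw (theorem tGrw; growth of the coefficients of E^a Y^j). Uses: nothing.
Proof. C = (2 C0)^(d+1). INTEGRALITY: say f ∈ J(k) if C0^(n+k) f_n is integral for all n. E, Y ∈ J(1), 1 and X^l ∈ J(0), and
f ∈ J(k), h ∈ J(l) give f h ∈ J(k+l): (f h)_n = ∑_{i+j=n} f_i h_j (PowerSeries.coeff_mul), C0^(n+k+l) = C0^(i+k) C0^(j+l). So the
series is in J(a+j), and C^(a+n+1) = (2 C0)^((d+1)(a+n+1)) is a multiple of C0^(n+a+j), as a + j + n ≤ (d+1)(a+n+1).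
SIZE: r = 1/(2 C0); say f ∈ G(A) if ∑_{n<M} house(f_n) r^n ≤ A for all M. E, Y ∈ G(2 C0) (C0^(n+1) r^n = C0 2^(-n)); X^l ∈ G(1)
(house 1 = 1, r ≤ 1); f ∈ G(A), h ∈ G(B) (A, B ≥ 0) give f h ∈ G(A B): house((f h)_n) r^n ≤ ∑_{i+j=n} house(f_i) r^i house(h_j) r^j
(house_add_le, house_mul_le, house_sum_le_sum_house) and the sum over n < M is at most the product of the sums over i < M and j < M. Hence
house(f_n) ≤ (2 C0)^(a+j) r^(-n) = (2 C0)^(a+j+n) ≤ C^(a+n+1). -/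
def GrwStmt : Prop := ∀ (F : Type) [Field F] [NumberField F] (C0 d : ℕ) (E Y : PowerSeries F), 1 ≤ C0 →
  EisC C0 E → EisC C0 Y → ∃ C : ℕ, 1 ≤ C ∧ ∀ a j l n : ℕ, j ≤ d →
    IsIntegral ℤ ((C : F) ^ (a + n + 1) * PowerSeries.coeff n (PowerSeries.X ^ l * (E ^ a * Y ^ j))) ∧
    NumberField.house (PowerSeries.coeff n (PowerSeries.X ^ l * (E ^ a * Y ^ j))) ≤ (C : ℝ) ^ (a + n + 1)

/-- Module Coo (theorem tCoo; coordinates of algebraic integers). Uses: nothing.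
Proof. NumberField.house.basis_repr_norm_le_const_mul_house (Mathlib/NumberTheory/NumberField/House.lean) is the bound for
((integralBasis F).reindex (equivReindex F).symm).repr with a private constant: obtain it by
`obtain ⟨c, hc⟩ : ∃ c : ℝ, ∀ α i, _ ≤ c * _ := ⟨_, fun α i => NumberField.house.basis_repr_norm_le_const_mul_house F α i⟩`
(needs DecidableEq (F →+* ℂ): classical). Then Module.Basis.repr_reindex, NumberField.integralBasis_repr_apply turn the coordinates into those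
for RingOfIntegers.basis; take C = max c 1 (house ≥ 0). -/
def CooStmt : Prop := ∀ (F : Type) [Field F] [NumberField F], ∃ C : ℝ, 1 ≤ C ∧
  ∀ (x : NumberField.RingOfIntegers F) (i : Module.Free.ChooseBasisIndex ℤ (NumberField.RingOfIntegers F)),
    |(((NumberField.RingOfIntegers.basis F).repr x i : ℤ) : ℝ)| ≤
      C * NumberField.house (algebraMap (NumberField.RingOfIntegers F) F x)

open Classical in
/-- Module Cnt (theorem tCnt; counting). Uses: nothing.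
Proof. For fixed μ the number of ν with ν < y (τ - μ/x) is at most y (τ - μ/x) + 1, and 0 if τ - μ/x ≤ 0. Put s = τ x and let k = min(M, ⌈s⌉) be
the number of the μ < M with μ < s; k ≤ s + 1. So the count is at most ∑_{μ<k} (y/x)(s - μ) + k = (y/x)(k s - k(k-1)/2) + k, and
k s - k(k-1)/2 = ((s + 1/2)² - (k - s - 1/2)²)/2 ≤ (s + 1/2)²/2. Total ≤ τ² x y/2 + τ y/2 + y/(8x) + τ x + 1. -/
def CntStmt : Prop := ∀ (τ x y : ℝ) (M : ℕ), 0 < τ → 1 ≤ x → 1 ≤ y →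
  ((((range M) ×ˢ (range M)).filter (fun q : ℕ × ℕ => (q.1 : ℝ) / x + (q.2 : ℝ) / y < τ)).card : ℝ) ≤
    τ ^ 2 * x * y / 2 + (τ + 1) * (x + y) + 1

/-- Module Row (theorem tRow; fewer equations than unknowns). Uses: nothing.
Proof. θ0 = e τ² m²/(2 d²) < 1, θ = (1 + θ0)/2. To show: e((τ+1) m (n0 + n1) + 1) ≤ ((1 - θ0)/2) d² n0 n1. For n0, n1 ≥ n ≥ 1:
n0 + n1 ≤ 2 n0 n1/n and 1 ≤ n0 n1/n; so n ≥ 2 e (2 (τ+1) m + 1)/((1 - θ0) d²) suffices. -/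
def RowStmt : Prop := ∀ (τ : ℝ) (e m d : ℕ), 0 < τ → 1 ≤ e → 1 ≤ m → 1 ≤ d →
  (e : ℝ) * τ ^ 2 * (m : ℝ) ^ 2 < 2 * (d : ℝ) ^ 2 → ∃ (θ : ℝ) (n : ℕ), 0 < θ ∧ θ < 1 ∧ 1 ≤ n ∧
    ∀ n0 n1 : ℕ, n ≤ n0 → n ≤ n1 →
      (e : ℝ) * (τ ^ 2 * ((m : ℝ) * n0) * ((m : ℝ) * n1) / 2 + (τ + 1) * ((m : ℝ) * n0 + (m : ℝ) * n1) + 1) ≤
        θ * ((d : ℝ) ^ 2 * n0 * n1)

/-- Module Aux (theorem tAux; the auxiliary polynomial). Uses: Grw, Coo, Cnt, Row.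
Proof. C from Grw, C' from Coo, θ and n from Row for e = [F:ℚ]. Let A(a,j,μ) = C^(n0+μ+1) coeff μ (Phi m c0 d n0 E Y a j) for a < n0, j < d: by Grw
an element of the ring of integers with house ≤ C^(2(n0+μ+1)) (house_mul_le, house_natCast; C^(n0+μ+1) is a multiple of C^(a+μ+1)); similarly
B(b,k,ν) with n1. Let Q be the set of (μ,ν) with μ/(m n0) + ν/(m n1) < τ (then μ < τ m n0, ν < τ m n1, so Q is a filter of range M ×ˢ range M,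
M = ⌈τ m (n0+n1)⌉ + 1), ι = the index type of RingOfIntegers.basis F, card ι = e (NumberField.RingOfIntegers.rank, Module.finrank_eq_card_chooseBasisIndex).
Integer matrix with rows (μ,ν,i) ∈ Q × ι and columns (a,j,b,k) ∈ Fin n0 × Fin d × Fin n1 × Fin d: the i-th coordinate of A(a,j,μ) B(b,k,ν). All
entries are ≤ C' C^(2(n0+μ+1)+2(n1+ν+1)) ≤ A1 := C' C^(2(1+τ m)(n0+n1)+4) in absolute value (Coo). Number of rows ≤ e (count) ≤ θ d² n0 n1 < number of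
columns = d² n0 n1 (Cnt with x = m n0, y = m n1, Row), and it is > 0 ((0,0) ∈ Q). Siegel's lemma (Int.Matrix.exists_ne_zero_int_vec_norm_le, with
the sup norm of matrices) gives t ≠ 0 with all equations and ‖t‖ ≤ (cols * max 1 ‖A‖)^(rows/(cols - rows)), exponent ≤ θ/(1-θ), base ≥ 1; and
d² n0 n1 A1 ≤ exp(K (n0+n1)) with K depending only on d, C, C', τ, m (n0 n1 ≤ e^(n0+n1), n0 + n1 ≥ 1). p = t, extended by 0. For (μ,ν) ∈ Q the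
element ∑ p A(a,j,μ) B(b,k,ν) has all coordinates 0, so it is 0, and it is C^(n0+μ+1) C^(n1+ν+1) cc μ ν: so cc μ ν = 0. -/
def AuxStmt : Prop := ∀ (F : Type) [Field F] [NumberField F] (d m c0 C0 : ℕ) (E Y : PowerSeries F) (τ : ℝ),
  1 ≤ d → 1 ≤ m → 1 ≤ C0 → EisC C0 E → EisC C0 Y → 0 < τ →
  (Module.finrank ℚ F : ℝ) * τ ^ 2 * (m : ℝ) ^ 2 < 2 * (d : ℝ) ^ 2 → ∃ (h : ℝ) (n : ℕ), 0 ≤ h ∧ 1 ≤ n ∧
    ∀ n0 n1 : ℕ, n ≤ n0 → n ≤ n1 → ∃ p : ℕ → ℕ → ℕ → ℕ → ℤ, pne n0 n1 d p ∧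
      (∀ a j b k, |(p a j b k : ℝ)| ≤ Real.exp (h * ((n0 : ℝ) + n1))) ∧ Van m c0 d n0 n1 p E Y τ

/-! ### Size of the Taylor coefficients -/

/-- Module Sft (theorem tSft; the Taylor shift is multiplicative). Uses: nothing.
Proof. Summability of the product: Cauchy product (summable_norm_sum_mul_antidiagonal_of_summable_norm or the real version), because
|(f h)_n| r^n ≤ ∑_{i+j=n} |f_i| r^i |h_j| r^j. For k fixed, binom(n+k,k) (|u|/r)^n is bounded in n (polynomial times geometric), so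
∑_n |f_(n+k)| binom(n+k,k) |u|^n converges. Coefficient k of sft u f * sft u h: ∑_{a+b=k} (∑_i f_(i+a) binom(i+a,a) u^i)(∑_j h_(j+b) binom(j+b,b) u^j) =
∑_n u^n ∑_{a+b=k} ∑_{i+j=n} f_(i+a) h_(j+b) binom(i+a,a) binom(j+b,b) (tsum_mul_tsum_eq_tsum_sum_antidiagonal_of_summable_norm, finite sums
and tsum commute). By Vandermonde (Nat.add_choose_eq: binom(s+t,k) = ∑_{a+b=k} binom(s,a) binom(t,b)) the inner double sum is
∑_{s+t=n+k} f_s h_t binom(n+k,k) (put s = i+a, t = j+b; the terms with s < a or t < b vanish) = (f h)_(n+k) binom(n+k,k). -/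
def SftStmt : Prop := ∀ (u r : ℝ) (f h : PowerSeries ℝ), |u| < r →
  Summable (fun n => |PowerSeries.coeff n f| * r ^ n) → Summable (fun n => |PowerSeries.coeff n h| * r ^ n) →
    Summable (fun n => |PowerSeries.coeff n (f * h)| * r ^ n) ∧ sft u (f * h) = sft u f * sft u h

/-- Module Val (theorem tVal). Uses: Sft.
Proof. map ρ (Phi ...) = X^l (ρ E)^a (ρ Y)^j with l = m (n - a) + c0 (d - j). From the definition sft u 1 = 1 and sft u X = C u + X (the sums have one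
term); X, 1 are summable. Sft and induction: sft u (map ρ Phi) = (C u + X)^l (sft u (ρ E))^a (sft u (ρ Y))^j =
(C u + X)^l ((C u + X)^m T)^a ((C u + X)^c0 S)^j and l + m a + c0 j = m n + c0 d. -/
def ValStmt : Prop := ∀ (F : Type) [Field F] (ρ : F →+* ℝ) (m c0 d n : ℕ) (E Y : PowerSeries F) (u r : ℝ)
    (T S : PowerSeries ℝ) (a j : ℕ), a ≤ n → j ≤ d → |u| < r →
  Summable (fun n => |ρ (PowerSeries.coeff n E)| * r ^ n) → Summable (fun n => |ρ (PowerSeries.coeff n Y)| * r ^ n) →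
  Rex ρ m E u T → Rex ρ c0 Y u S →
    (PowerSeries.C u + PowerSeries.X) ^ (m * n + c0 * d) * (T ^ a * S ^ j) =
      sft u (PowerSeries.map ρ (Phi m c0 d n E Y a j))

/-- Module Gbd (theorem tGbd; the size bound before division by the powers of t). Uses: nothing.
Proof. With α(a,j,μ) = ρ (coeff μ (Phi m c0 d n0 E Y a j)), |α| ≤ C^(n0+μ) (Phi = X^l (E^a Y^j), a < n0), β similarly, coeff k0 of the first shift is
∑_{μ ≥ k0} α(a,j,μ) binom(μ,k0) u0^(μ-k0), absolutely convergent (binom(μ,k0) ≤ 2^μ and 2 C |u0| < 1/2), and the same for the second. So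
the quadruple sum is the sum over μ ≥ k0, ν ≥ k1 (write μ = k0 + i, ν = k1 + l, tsum over ℕ × ℕ of an absolutely summable family) of
ρ(cc μ ν) binom(μ,k0) binom(ν,k1) u0^(μ-k0) u1^(ν-k1). The terms with index μ/(m n0) + ν/(m n1) < τ vanish (Van). For the others
|ρ(cc μ ν)| ≤ H d² n0 n1 C^(n0+n1+μ+ν), binomials ≤ 2^(μ+ν), and with ℓ_h = log(1/(4 C |u_h|)) > 0: (2 C |u0|)^μ (2 C |u1|)^ν =
2^(-μ-ν) exp(-μ ℓ0 - ν ℓ1), μ ℓ0 + ν ℓ1 ≥ (μ/(m n0) + ν/(m n1)) L ≥ τ L. Sum: 4 H d² n0 n1 C^(n0+n1) |u0|^(-k0) |u1|^(-k1) exp(-τ L). -/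
def GbdStmt : Prop := ∀ (F : Type) [Field F] (ρ : F →+* ℝ) (d m c0 n0 n1 C : ℕ) (E Y : PowerSeries F)
    (p : ℕ → ℕ → ℕ → ℕ → ℤ) (H τ L u0 u1 : ℝ), 1 ≤ m → 1 ≤ n0 → 1 ≤ n1 → 1 ≤ C →
  (∀ a j l n : ℕ, j ≤ d → |ρ (PowerSeries.coeff n (PowerSeries.X ^ l * (E ^ a * Y ^ j)))| ≤ (C : ℝ) ^ (a + n + 1)) →
  u0 ≠ 0 → u1 ≠ 0 → 4 * (C : ℝ) * |u0| < 1 → 4 * (C : ℝ) * |u1| < 1 → 0 ≤ τ → 0 ≤ L →
  L ≤ (m : ℝ) * n0 * Real.log (1 / (4 * (C : ℝ) * |u0|)) → L ≤ (m : ℝ) * n1 * Real.log (1 / (4 * (C : ℝ) * |u1|)) →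
  (∀ a j b k, |(p a j b k : ℝ)| ≤ H) → Van m c0 d n0 n1 p E Y τ → ∀ k0 k1 : ℕ,
    |∑ a ∈ range n0, ∑ j ∈ range d, ∑ b ∈ range n1, ∑ k ∈ range d, (p a j b k : ℝ) *
        PowerSeries.coeff k0 (sft u0 (PowerSeries.map ρ (Phi m c0 d n0 E Y a j))) *
        PowerSeries.coeff k1 (sft u1 (PowerSeries.map ρ (Phi m c0 d n1 E Y b k)))| ≤
      4 * H * (d : ℝ) ^ 2 * n0 * n1 * (C : ℝ) ^ (n0 + n1 + 2) * (1 / |u0|) ^ k0 * (1 / |u1|) ^ k1 * Real.exp (-(τ * L))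

/-- Module Inv (theorem tInv; division by (u + X)^M). Uses: nothing.
Proof. Claim by induction on M: |coeff k f| ≤ binom(M+k,k) B |u|^(-M-k) (then binom ≤ 2^(M+k)). M = 0: f = h. Step: f1 = (C u + X) f satisfies
(C u + X)^M f1 = h. From u f_k + f_(k-1) = (f1)_k: f_k = ∑_{i ≤ k} (f1)_i (-1)^(k-i) u^(-(k-i)-1) (induction on k), so
|f_k| ≤ |u|^(-M-1-k) B ∑_{i ≤ k} binom(M+i,i) = |u|^(-M-1-k) B binom(M+1+k,k) (hockey stick; or prove the recursion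
|f_k| ≤ (|(f1)_k| + |f_(k-1)|)/|u| and Pascal: binom(M+1+k,k) = binom(M+k,k) + binom(M+k,k-1)). -/
def InvStmt : Prop := ∀ (u B : ℝ) (M : ℕ) (f h : PowerSeries ℝ), u ≠ 0 → 0 ≤ B →
  (PowerSeries.C u + PowerSeries.X) ^ M * f = h → (∀ i, |PowerSeries.coeff i h| ≤ B * (1 / |u|) ^ i) →
    ∀ k, |PowerSeries.coeff k f| ≤ 2 ^ (M + k) * B * (1 / |u|) ^ (M + k)

/-- Module Siz (theorem tSiz; size of the Taylor coefficients of the auxiliary polynomial). Uses: Grw, Sft, Val, Gbd, Inv.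
Proof. C from Grw; |ρ x| ≤ house x (NumberField.norm_embedding_le_house for the embedding Complex.ofRealHom.comp ρ). r = 1/(2C): |ρ E_n| r^n ≤
C² 2^(-n), |ρ Y_n| r^n ≤ C 2^(-n) (Grw with (a,j,l) = (1,0,0), (0,1,0)). K = log(8 C) + log 4 + 2 log d + 1 + 2 log C + (m + 2 c0 d + 1) log 2 (all terms ≥ 0):
K < log(1/|u|) gives 8 C |u| < 1, |u| < r and log(1/(4C|u|)) ≥ log(1/|u|) - K. M_h = m n_h + c0 d. Val: (u0+X)^M0 T0^a S0^j =
sft u0 Φ0(a,j), (u1+X)^M1 T1^b S1^k = sft u1 Φ1(b,k). B0 := 4 e^h d² n0 n1 C^(n0+n1+2) exp(-τL). For fixed i the series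
h_i = ∑ p coeff i (sft u0 Φ0(a,j)) T1^b S1^k satisfies (u1+X)^M1 h_i = ∑ p coeff i (sft u0 Φ0(a,j)) sft u1 Φ1(b,k), whose coefficients l are bounded by
B0 |u0|^(-i) |u1|^(-l) (Gbd), so |coeff k1 h_i| ≤ 2^(M1+k1) B0 |u0|^(-i) |u1|^(-M1-k1) (Inv). For fixed k1 the series f = ∑ p coeff k1 (T1^b S1^k) T0^a S0^j
satisfies (u0+X)^M0 f = ∑ p coeff k1 (T1^b S1^k) sft u0 Φ0(a,j), whose coefficient i is coeff k1 h_i; so (Inv)
|pc k0 k1| = |coeff k0 f| ≤ 2^(M0+k0+M1+k1) B0 |u0|^(-M0-k0) |u1|^(-M1-k1). Take logarithms; log n0 + log n1 ≤ n0 + n1, n0 + n1 ≥ 1. -/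
def SizStmt : Prop := ∀ (F : Type) [Field F] [NumberField F] (ρ : F →+* ℝ) (d m c0 C0 : ℕ) (E Y : PowerSeries F),
  1 ≤ d → 1 ≤ m → 1 ≤ C0 → EisC C0 E → EisC C0 Y → ∃ K : ℝ, 0 ≤ K ∧
    ∀ (n0 n1 : ℕ) (p : ℕ → ℕ → ℕ → ℕ → ℤ) (h τ L u0 u1 : ℝ) (T0 S0 T1 S1 : PowerSeries ℝ), 1 ≤ n0 → 1 ≤ n1 →
      u0 ≠ 0 → u1 ≠ 0 → K < Real.log (1 / |u0|) → K < Real.log (1 / |u1|) →
      Rex ρ m E u0 T0 → Rex ρ c0 Y u0 S0 → Rex ρ m E u1 T1 → Rex ρ c0 Y u1 S1 → 0 ≤ τ → 0 ≤ L →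
      L ≤ (m : ℝ) * n0 * (Real.log (1 / |u0|) - K) → L ≤ (m : ℝ) * n1 * (Real.log (1 / |u1|) - K) →
      (∀ a j b k, |(p a j b k : ℝ)| ≤ Real.exp h) → Van m c0 d n0 n1 p E Y τ → ∀ k0 k1 : ℕ,
        |pc n0 n1 d p T0 S0 T1 S1 k0 k1| ≤ Real.exp (h + K * ((n0 : ℝ) + n1 + k0 + k1 + 1) +
          ((m : ℝ) * n0 + (c0 : ℝ) * d + k0) * Real.log (1 / |u0|) +
          ((m : ℝ) * n1 + (c0 : ℝ) * d + k1) * Real.log (1 / |u1|) - τ * L)

/-- Module Den (theorem tDen; denominators). Uses: nothing.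
Proof. Dnm N A f and Dnm N' A h give Dnm (N N') A (f h) (coefficient k = ∑_{i+j=k}, A^k = A^i A^j); so Dnm (N^(a+j)) A (T^a S^j), and N^(n+d) is a multiple
of N^(a+j) for a < n, j < d. Sum over a, j, b, k. -/
def DenStmt : Prop := ∀ (n0 n1 d N0 A0 N1 A1 : ℕ) (p : ℕ → ℕ → ℕ → ℕ → ℤ) (T0 S0 T1 S1 : PowerSeries ℚ),
  Dnm N0 A0 T0 → Dnm N0 A0 S0 → Dnm N1 A1 T1 → Dnm N1 A1 S1 → ∀ k0 k1 : ℕ, ∃ z : ℤ,
    (N0 : ℚ) ^ (n0 + d) * (A0 : ℚ) ^ k0 * ((N1 : ℚ) ^ (n1 + d) * (A1 : ℚ) ^ k1) *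
      pc n0 n1 d p T0 S0 T1 S1 k0 k1 = z

/-- Module Ltc (theorem tLtc; size of T at a good point). Uses: nothing.
Proof. Coefficient 0 of Rex: u^m T(0) = ∑_n ρ(E_n) u^n. |ρ(E_n)| ≤ house ≤ C0^(n+1) (NumberField.norm_embedding_le_house for
Complex.ofRealHom.comp ρ). For |u| ≤ u* (small, depending on C0 and |ρ(E_0)| > 0) the tail ∑_{n≥1} C0^(n+1) |u|^n ≤ 2 C0² |u| is
≤ |ρ(E_0)|/2. So |T(0)| ≥ (|ρ E_0|/2) |u|^(-m), m ≥ 1 and log(1/|u|) ≥ 0. -/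
def LtcStmt : Prop := ∀ (F : Type) [Field F] [NumberField F] (ρ : F →+* ℝ) (m C0 : ℕ) (E : PowerSeries F), 1 ≤ m →
  1 ≤ C0 → EisC C0 E → PowerSeries.constantCoeff E ≠ 0 → ∃ K : ℝ, 0 ≤ K ∧ ∀ (u : ℝ) (T : PowerSeries ℝ), u ≠ 0 →
    K < Real.log (1 / |u|) → Rex ρ m E u T →
      Real.log (1 / |u|) - K ≤ Real.log |PowerSeries.constantCoeff T|

/-! ### The zero estimate -/

/-- the companion matrix: row i < d - 1 is the unit vector i + 1, the last row is minus the coefficients of g -/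
noncomputable def cmpM (d : ℕ) (g : Polynomial (Polynomial ℤ)) : Matrix (Fin d) (Fin d) (Polynomial ℤ) :=
  Matrix.of fun i j => if (i : ℕ) + 1 < d then (if (j : ℕ) = (i : ℕ) + 1 then 1 else 0) else - g.coeff (j : ℕ)

/-- the matrix of multiplication by the auxiliary polynomial -/
noncomputable def mulM (n0 n1 d : ℕ) (g : Polynomial (Polynomial ℤ)) (p : ℕ → ℕ → ℕ → ℕ → ℤ) :
    Matrix (Fin d × Fin d) (Fin d × Fin d) (MvPolynomial (Fin 2) ℤ) :=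
  ∑ a ∈ range n0, ∑ j ∈ range d, ∑ b ∈ range n1, ∑ k ∈ range d,
    (MvPolynomial.C (p a j b k) * (MvPolynomial.X 0 ^ a * MvPolynomial.X 1 ^ b) : MvPolynomial (Fin 2) ℤ) •
      Matrix.kroneckerMap (fun s t => s * t)
        (((cmpM d g) ^ j).map (Polynomial.aeval (MvPolynomial.X 0 : MvPolynomial (Fin 2) ℤ)))
        (((cmpM d g) ^ k).map (Polynomial.aeval (MvPolynomial.X 1 : MvPolynomial (Fin 2) ℤ)))

/-- the norm of the auxiliary polynomial -/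
noncomputable def nrmP (n0 n1 d : ℕ) (g : Polynomial (Polynomial ℤ)) (p : ℕ → ℕ → ℕ → ℕ → ℤ) :
    MvPolynomial (Fin 2) ℤ := (mulM n0 n1 d g p).det

/-- Module Ndv (theorem tNdv; the matrix acts on the vector (S0^j S1^k) as multiplication by the auxiliary polynomial). Uses: nothing.
Proof. Let A(T) = (cmpM d g).map (aeval T), v = (S^i)_{i<d}. If ev2 T S g = 0 then A(T) v = S v: row i < d-1: S^(i+1); last row (i = d - 1):
-∑_{j<d} (aeval T (g.coeff j)) S^j = S^d, because g is monic of degree d (Polynomial.eval₂_eq_sum_range, ev2 T S g = 0; aeval T = eval₂RingHom (Int.castRingHom _) T). So A(T)^j v = S^j v. The map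
aeval ![T0, T1] applied to (cmpM^j).map (aeval X_h) is A(T_h)^j (Matrix.map_mul, RingHom.map_matrix..., composition of aeval's); Kronecker product:
(A ⊗ B)(v ⊗ w) = (A v) ⊗ (B w). Sum: the first claim. Second claim: with M = mulM mapped, adj(M) M = det(M) 1 gives
det(M) (v ⊗ w) = P adj(M)(v ⊗ w); component (0,0) of v ⊗ w is 1 (d ≥ 1). RingHom.map_det. -/
def NdvStmt : Prop := ∀ (n0 n1 d : ℕ) (g : Polynomial (Polynomial ℤ)) (p : ℕ → ℕ → ℕ → ℕ → ℤ) (B : Type) [CommRing B]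
    (T0 S0 T1 S1 : B), 1 ≤ d → g.Monic → g.natDegree = d → ev2 T0 S0 g = 0 → ev2 T1 S1 g = 0 →
  ((mulM n0 n1 d g p).map (MvPolynomial.aeval ![T0, T1] : MvPolynomial (Fin 2) ℤ →ₐ[ℤ] B)).mulVec
      (fun q : Fin d × Fin d => S0 ^ (q.1 : ℕ) * S1 ^ (q.2 : ℕ)) =
    (fun q : Fin d × Fin d => pv n0 n1 d p T0 S0 T1 S1 * (S0 ^ (q.1 : ℕ) * S1 ^ (q.2 : ℕ))) ∧
  ∃ P' : B, (MvPolynomial.aeval ![T0, T1] : MvPolynomial (Fin 2) ℤ →ₐ[ℤ] B) (nrmP n0 n1 d g p) =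
    pv n0 n1 d p T0 S0 T1 S1 * P'

/-- Module Nne (theorem tNne; the norm is not zero). Uses: Ndv.
Proof. Suppose det (mulM) = 0. MvPolynomial (Fin 2) ℤ is a domain, so there is w ≠ 0 with w ᵥ* mulM = 0 (Matrix.exists_vecMul_eq_zero_iff). Map by
aeval ![T0, T1] and multiply by the vector vv = (S0^j S1^k): 0 = (w M) vv = w (M vv) = P (w · vv) (Ndv). B is a domain and P ≠ 0, so
∑_{j,k} aeval(w_{jk}) S0^j S1^k = 0 and w = 0 by independence. Contradiction. -/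
def NneStmt : Prop := ∀ (n0 n1 d : ℕ) (g : Polynomial (Polynomial ℤ)) (p : ℕ → ℕ → ℕ → ℕ → ℤ) (B : Type) [CommRing B]
    [IsDomain B] (T0 S0 T1 S1 : B), 1 ≤ d → g.Monic → g.natDegree = d → ev2 T0 S0 g = 0 → ev2 T1 S1 g = 0 →
  (∀ w : ℕ → ℕ → MvPolynomial (Fin 2) ℤ,
    (∑ j ∈ range d, ∑ k ∈ range d, (MvPolynomial.aeval ![T0, T1] : MvPolynomial (Fin 2) ℤ →ₐ[ℤ] B) (w j k) *
      (S0 ^ j * S1 ^ k) = 0) → ∀ j < d, ∀ k < d, w j k = 0) →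
  pv n0 n1 d p T0 S0 T1 S1 ≠ 0 → nrmP n0 n1 d g p ≠ 0

/-- Module Nsz (theorem tNsz; degrees and height of the norm). Uses: nothing.
Proof. For f ∈ MvPolynomial (Fin 2) ℤ let len f = ∑_{κ ∈ support} |coeff κ f|: len(f + h) ≤ len f + len h, len(f h) ≤ len f len h, |coeff κ f| ≤ len f (there are
such lemmas for MPcc0c1aSub.wl1 in Lib/MP_cc0c1a_nt/Sub/R13.lean, private or not). Let Λ ≥ 1 be a common bound for the len of the entries of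
(cmpM^j).map(aeval X_h), j < d, h = 0, 1, and D a bound of their degrees. Entries of mulM: len ≤ n0 n1 d² e^h Λ², degreeOf 0 ≤ n0 + D, degreeOf 1 ≤ n1 + D.
The determinant is a sum of (d²)! ≤ (d²)^(d²) products of d² entries (Matrix.det_apply): len ≤ (d⁴ n0 n1 e^h Λ²)^(d²) and degreeOf h ≤ d² (n_h + D). log(d⁴ n0 n1 Λ²) ≤
4 log d + 2 log Λ + n0 + n1 ≤ K (n0 + n1). Take K ≥ D. -/
def NszStmt : Prop := ∀ (d : ℕ) (g : Polynomial (Polynomial ℤ)), 1 ≤ d → ∃ K : ℕ, 1 ≤ K ∧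
  ∀ (n0 n1 : ℕ) (p : ℕ → ℕ → ℕ → ℕ → ℤ) (h : ℝ), 1 ≤ n0 → 1 ≤ n1 → (∀ a j b k, |(p a j b k : ℝ)| ≤ Real.exp h) →
    (nrmP n0 n1 d g p).degreeOf 0 ≤ d ^ 2 * (n0 + K) ∧ (nrmP n0 n1 d g p).degreeOf 1 ≤ d ^ 2 * (n1 + K) ∧
    ∀ κ, |((MvPolynomial.coeff κ (nrmP n0 n1 d g p) : ℤ) : ℝ)| ≤
      Real.exp ((d : ℝ) ^ 2 * (h + K * ((n0 : ℝ) + n1)))

/-- Module Jnt (theorem tJnt; joint independence). Uses: nothing.
Proof. Write w j k = ∑_{a,b} c(j,k,a,b) X0^a X1^b (finitely many). Outer coefficient n of the sum (coeff n (e0 f * e1 h) = (coeff n h) • f):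
∑_{j<d} ∑_a W(j,a,n) T0^a S0^j = 0 in ℚ⟦X⟧ with W(j,a,n) = ∑_{k<d} ∑_b c(j,k,a,b) coeff n (T1^b S1^k) ∈ ℚ. For fixed n multiply by a common denominator of the
finitely many rational numbers W(j,a,n): Ptz.ind for (T0, S0) with q_j = ∑_a (denominator * W(j,a,n)) X^a gives W(j,a,n) = 0 for all j < d, all a, all n.
So ∑_{k<d} (∑_b c(j,k,a,b) T1^b) S1^k = 0 in ℚ⟦X⟧ for all j < d, a; Ptz.ind for (T1, S1) with q_k = ∑_b c(j,k,a,b) X^b gives c(j,k,a,b) = 0. -/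
def JntStmt : Prop := ∀ (d : ℕ) (g : Polynomial (Polynomial ℤ)) (T0 S0 T1 S1 : PowerSeries ℚ), Ptz d g T0 S0 →
  Ptz d g T1 S1 → ∀ w : ℕ → ℕ → MvPolynomial (Fin 2) ℤ,
    (∑ j ∈ range d, ∑ k ∈ range d,
      (MvPolynomial.aeval ![e0 T0, e1 T1] : MvPolynomial (Fin 2) ℤ →ₐ[ℤ] PowerSeries (PowerSeries ℚ)) (w j k) *
      (e0 S0 ^ j * e1 S1 ^ k) = 0) → ∀ j < d, ∀ k < d, w j k = 0

/-- Module Trn (theorem tTrn; transfer of the index to other local coordinates). Uses: nothing.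
Proof. s_λ = coeff λ (sh x f), finitely many nonzero; choose κ' with s_κ' ≠ 0 and wt r κ' minimal, so wt r κ' ≤ wt r κ. With δ_h = z_h - x_h (constant coefficient
0, coefficient 1 = λ_h ≠ 0): aeval ![e0 z0, e1 z1] f = aeval ![e0 δ0, e1 δ1] (sh x f) = ∑_λ s_λ e0(δ0)^(λ0) e1(δ1)^(λ1) (sh x = aeval (C x_i + X_i), compose aeval's).
cf a b (e0 F * e1 G) = coeff a F * coeff b G. With (a,b) = κ': coeff a (δ0^(λ0)) = 0 if λ0 > a (order ≥ λ0), = λ_0^a if λ0 = a; same for b. So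
cf a b = ∑_{λ ≤ κ'} s_λ coeff a (δ0^(λ0)) coeff b (δ1^(λ1)); for λ ≤ κ', λ ≠ κ' we have wt r λ < wt r κ' (r_h > 0), so s_λ = 0 by minimality. What remains is
s_κ' λ_0^a λ_1^b ≠ 0. -/
def TrnStmt : Prop := ∀ (r : Fin 2 → ℕ) (x : Fin 2 → ℚ) (z : Fin 2 → PowerSeries ℚ) (f : MvPolynomial (Fin 2) ℚ)
    (κ : Fin 2 →₀ ℕ), (∀ h, 0 < r h) → (∀ h, PowerSeries.constantCoeff (z h) = x h) →
  (∀ h, PowerSeries.coeff 1 (z h) ≠ 0) → MvPolynomial.coeff κ (MPcc0c1aSub.sh x f) ≠ 0 →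
  ∃ a b : ℕ, (a : ℝ) / r 0 + (b : ℝ) / r 1 ≤ MPcc0c1aSub.wt r κ ∧
    cf a b ((MvPolynomial.aeval ![e0 (z 0), e1 (z 1)] :
      MvPolynomial (Fin 2) ℚ →ₐ[ℚ] PowerSeries (PowerSeries ℚ)) f) ≠ 0

/-- Module Rvs (theorem tRvs; the reversed polynomial). Uses: nothing.
Proof. R' = ∑_{κ ∈ supp R} monomial (D - κ) (coeff κ R) (κ_h ≤ degreeOf h R ≤ D_h). The map κ ↦ D - κ is injective on the κ ≤ D, so the coefficients of R' are those of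
R (or 0) and R' ≠ 0. z^(D-κ) = z^D T^κ because z_h T_h = 1. -/
def RvsStmt : Prop := ∀ (D : Fin 2 → ℕ) (R : MvPolynomial (Fin 2) ℤ), R ≠ 0 → (∀ h, R.degreeOf h ≤ D h) →
  ∃ R' : MvPolynomial (Fin 2) ℤ, R' ≠ 0 ∧ (∀ h, R'.degreeOf h ≤ D h) ∧
    (∀ κ, MvPolynomial.coeff κ R' = 0 ∨ ∃ κ', MvPolynomial.coeff κ R' = MvPolynomial.coeff κ' R) ∧
    ∀ (B : Type) [CommRing B] (T z : Fin 2 → B), (∀ h, z h * T h = 1) →
      (MvPolynomial.aeval z : MvPolynomial (Fin 2) ℤ →ₐ[ℤ] B) R' =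
        z 0 ^ D 0 * z 1 ^ D 1 * (MvPolynomial.aeval T : MvPolynomial (Fin 2) ℤ →ₐ[ℤ] B) R

/-- Module Cfp (theorem tCfp; coefficients of the auxiliary polynomial as a two-variable series). Uses: nothing.
Proof. cf a b (e0 F * e1 G) = coeff a F * coeff b G (e0 F = C F; coeff b (e1 G) = C (coeff b G)), e0, e1 are ring homs, cf is additive, and the integer p is
(p : ℚ) • . The second claim: coefficients of a product: cf a b (F G) = ∑_{b'+b''=b} ∑_{a'+a''=a} cf a' b' F * cf a'' b'' G. -/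
def CfpStmt : Prop := (∀ (n0 n1 d : ℕ) (p : ℕ → ℕ → ℕ → ℕ → ℤ) (T0 S0 T1 S1 : PowerSeries ℚ) (k0 k1 : ℕ),
    cf k0 k1 (pv n0 n1 d p (e0 T0) (e0 S0) (e1 T1) (e1 S1)) = pc n0 n1 d p T0 S0 T1 S1 k0 k1) ∧
  ∀ (F G : PowerSeries (PowerSeries ℚ)) (a b : ℕ), cf a b (F * G) ≠ 0 → ∃ a' ≤ a, ∃ b' ≤ b, cf a' b' F ≠ 0

/-- Module Zer (theorem tZer; the zero estimate). Uses: MPcc0c1aSub.RothLemma 2, Ndv, Nne, Nsz, Jnt, Trn, Rvs, Cfp.
Proof. K1 ∈ ℕ from Nsz. ε' = ε/(d² (1 + K1)); ω', C' from RothLemma 2 for ε'. ω = ω'/(1 + K1), K = max 1 (((1+K1) log C' + K1 + 1)/ω'). Given the data put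
x_h = constantCoeff T_h ∈ ℚ; K (n0 + n1 + h) ≤ n_h log|x_h| gives |x_h| > 1. B = PowerSeries (PowerSeries ℚ) is a domain, ring homs e0, e1 map the equations
ev2 T_h S_h g = 0 into B. By Jnt the joint independence holds; applied to w j k = ∑_{a<n0,b<n1} p a j b k X0^a X1^b (some w j k ≠ 0 by pne) it gives pv ≠ 0
in B. So R = nrmP ≠ 0 (Nne), R(e0 T0, e1 T1) = pv * P' (Ndv). D_h = d² (n_h + K1); R' from Rvs. RothLemma 2 for r = D, q_h = |num x_h| > 0, p_h = sign * den x_h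
(p_h/q_h = 1/x_h, coprime), R0 = exp(d² min_h(n_h log|x_h|)) ≥ 1: R0 ≤ q_h^(D_h) as q_h ≥ |x_h| and D_h ≥ d² n_h; D_0 ≤ ω' D_1: n0 + K1 ≤ (1 + K1) n0 ≤ ω' n1;
heights: C'^(D0+D1) |coeff| ≤ R0^ω': (D0 + D1) log C' + d² (h + K1 (n0+n1)) ≤ d² [(1+K1)(n0+n1) log C' + h + K1 (n0+n1)] ≤ ω' d² K (n0+n1+h) ≤ ω' log R0 (the coefficients of R' are
coefficients of R or 0). So there is κ with wt D κ ≤ ε' and coeff κ (sh (1/x) (toQ R')) ≠ 0. Trn with z_h = (T_h)⁻¹ ∈ ℚ⟦X⟧ (constant coefficient 1/x_h, coefficient 1 =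
-coeff 1 T_h/x_h² ≠ 0): (a, b) with a/D0 + b/D1 ≤ ε' and cf a b of aeval ![e0 z0, e1 z1] (toQ R') = aeval over ℤ of R' = (e0 z0)^(D0) (e1 z1)^(D1) R(e0 T0, e1 T1)
(Rvs) = pv * (...) not zero. Cfp: k0 ≤ a, k1 ≤ b with pc k0 k1 ≠ 0. Finally k0/n0 + k1/n1 ≤ a/n0 + b/n1 ≤ d² (1 + K1) (a/D0 + b/D1) ≤ ε. -/
def ZerStmt : Prop := ∀ (d : ℕ) (g : Polynomial (Polynomial ℤ)) (ε : ℝ), 1 ≤ d → g.Monic → g.natDegree = d → 0 < ε →
  ∃ ω K : ℝ, 0 < ω ∧ 1 ≤ K ∧ ∀ (n0 n1 : ℕ) (p : ℕ → ℕ → ℕ → ℕ → ℤ) (h : ℝ) (T0 S0 T1 S1 : PowerSeries ℚ), 1 ≤ n0 →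
    1 ≤ n1 → (n0 : ℝ) ≤ ω * n1 → pne n0 n1 d p → 0 ≤ h → (∀ a j b k, |(p a j b k : ℝ)| ≤ Real.exp h) →
    Ptz d g T0 S0 → Ptz d g T1 S1 →
    K * ((n0 : ℝ) + n1 + h) ≤ n0 * Real.log |((PowerSeries.constantCoeff T0 : ℚ) : ℝ)| →
    K * ((n0 : ℝ) + n1 + h) ≤ n1 * Real.log |((PowerSeries.constantCoeff T1 : ℚ) : ℝ)| →
    ∃ k0 k1 : ℕ, (k0 : ℝ) / n0 + (k1 : ℝ) / n1 ≤ ε ∧ pc n0 n1 d p T0 S0 T1 S1 k0 k1 ≠ 0

/-! ### End of the proof -/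

/-- Module Par (theorem tPar; the parameters). Uses: nothing.
Proof. ε = min(1, (τ-2) m/(16 (1 + C1))). Given ω, KZ, n: Λ1 = max(1, 2K, 8 KZ (1+h), 4 (2h + 4K + τ m K)/((τ-2) m)). Given l1 ≥ Λ1: Λ0 = max(l1, l1/ω). Given l0 ≥ Λ0 take n1 large
(bounds below), Θ = n1 l1, n0 = ⌊Θ/l0⌋, L = m (Θ (1 - K/l1) - l0). (a) n0 l0 ≤ Θ < (n0+1) l0, n0 ≤ n1 l1/l0 ≤ ω n1, n0 ≥ n for n1 large. (b) n0 (l0 - K) ≥ (Θ/l0 - 1)(l0 - K) ≥
Θ (1 - K/l0) - l0 ≥ Θ (1 - K/l1) - l0 = L/m, n1 (l1 - K) = Θ (1 - K/l1) ≥ L/m, and L/m ≥ Θ/2 - l0 ≥ Θ/4 ≥ 0 if Θ ≥ 4 l0. (c) n0 + n1 ≤ 2Θ/l1, so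
KZ (n0 + n1 + h (n0+n1)) ≤ 2 KZ (1+h) Θ/l1 ≤ Θ/4 ≤ L/m. (d) Let k0/n0 + k1/n1 ≤ ε: k0 l0 + k1 l1 ≤ ε Θ (n_h l_h ≤ Θ), k_h ≤ ε n_h ≤ n_h, and the quantity is at most
2 h Θ/l1 + K (4Θ/l1 + 1) + 2 m Θ + 2 c l0 + ε Θ - τ m Θ + τ m K Θ/l1 + τ m l0 + 2 ε Θ + 2 ε d l0 + C1 ε Θ
≤ Θ [-(τ-2) m + (2h + 4K + τ m K)/l1 + ε (3 + C1)] + [K + (2c + 2 d + τ m) l0]. The terms in the first bracket after -(τ-2)m are ≤ (τ-2)m/4 each (3 + C1 ≤ 3 (1 + C1)), and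
the second bracket is < (τ-2) m Θ/4 for n1 large. So the quantity is < 0. -/
def ParStmt : Prop := ∀ (m c d : ℕ) (τ K C1 h : ℝ), 1 ≤ m → 2 < τ → 0 ≤ K → 0 ≤ C1 → 0 ≤ h → ∃ ε : ℝ, 0 < ε ∧
  ∀ (ω KZ : ℝ) (n : ℕ), 0 < ω → 1 ≤ KZ → ∃ Λ1 : ℝ, ∀ l1 : ℝ, Λ1 ≤ l1 → ∃ Λ0 : ℝ, ∀ l0 : ℝ, Λ0 ≤ l0 →
    ∃ (n0 n1 : ℕ) (L : ℝ), n ≤ n0 ∧ n ≤ n1 ∧ 1 ≤ n0 ∧ 1 ≤ n1 ∧ (n0 : ℝ) ≤ ω * n1 ∧ 0 ≤ L ∧
      L ≤ (m : ℝ) * n0 * (l0 - K) ∧ L ≤ (m : ℝ) * n1 * (l1 - K) ∧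
      KZ * ((n0 : ℝ) + n1 + h * ((n0 : ℝ) + n1)) ≤ n0 * (l0 - K) ∧
      KZ * ((n0 : ℝ) + n1 + h * ((n0 : ℝ) + n1)) ≤ n1 * (l1 - K) ∧
      ∀ k0 k1 : ℕ, (k0 : ℝ) / n0 + (k1 : ℝ) / n1 ≤ ε →
        h * ((n0 : ℝ) + n1) + K * ((n0 : ℝ) + n1 + k0 + k1 + 1) + ((m : ℝ) * n0 + c + k0) * l0 +
          ((m : ℝ) * n1 + c + k1) * l1 - τ * L +
          (((n0 : ℝ) + d) * (ε * l0) + k0 * (C1 * l0) + ((n1 : ℝ) + d) * (ε * l1) + k1 * (C1 * l1)) < 0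

/-! ### The points -/

/-- Module Hen (theorem tHen; formal implicit function theorem over any ring). Uses: nothing.
Proof. G(ξ, η) = ∑ c_ij ξ^i η^j with c_00 = 0, c_01 = 1. Put Ψ(η) = η - G(ξ, η). For η, η' with constant coefficient 0 and η ≡ η' mod ξ^n: Ψ(η) ≡ Ψ(η') mod ξ^(n+1)
(Ψ(η) = -∑_{(i,j) ≠ (0,1)} c_ij ξ^i η^j; for i ≥ 1 the factor ξ, for j ≥ 2: η^j - η'^j = (η - η')(sum of products of j - 1 ≥ 1 factors with constant coefficient 0)), and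
Ψ(η) has constant coefficient 0. So η_0 = 0, η_(k+1) = Ψ(η_k) satisfies η_(k+1) ≡ η_k mod ξ^(k+1), and η = mk (k ↦ coeff k η_k) satisfies η ≡ η_k mod ξ^(k+1), Ψ(η) ≡ Ψ(η_k) = η_(k+1) ≡ η
mod ξ^(k+1) for all k: Ψ(η) = η, that is G(ξ, η) = 0. (Alternatively Mathlib's Hensel lemma for X-adically complete rings.) -/
def HenStmt : Prop := ∀ (R : Type) [CommRing R] (G : Polynomial (Polynomial R)), (G.coeff 0).coeff 0 = 0 →
  (G.coeff 1).coeff 0 = 1 → ∃ η : PowerSeries R, PowerSeries.constantCoeff η = 0 ∧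
    Polynomial.eval₂ (Polynomial.coeToPowerSeries.ringHom : Polynomial R →+* PowerSeries R) η G = 0

/-- Module Hns (theorem tHns; the expansion of the second function in the coordinate T - x). Uses: Hen.
Proof. Write g = ∑ g_ij T^i Y^j and let D1 ≥ 1 bound all i + j with g_ij ≠ 0; D = D1 - 1. With a = N x, b = N s ∈ ℤ the polynomial
G*(X, Y) = ∑ g_ij N^(D1-i-j) (a + X)^i (b + Y)^j ∈ ℤ[X][Y] satisfies G*(N h, N y) = N^D1 g(x + h, s + y). Its constant term is 0 and its coefficient at Y is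
δ = N^D1 g_Y(x, s)/N = N^D g_Y(x, s) ∈ ℤ, δ ≠ 0. Write G* = ∑ c_ij X^i Y^j (c_00 = 0, c_01 = δ). G** = ∑_{(i,j) ≠ (0,0)} c_ij δ^(2i+j-2) ξ^i η^j ∈ ℤ[ξ][η] (2 i + j ≥ 2 except for
(0,1), where the coefficient is 1) satisfies G*(δ² ξ, δ η) = δ² G**(ξ, η). Hen over ℤ: η ∈ ξ ℤ⟦ξ⟧ with G**(ξ, η) = 0. Put S = s + (δ/N) η(N X/δ²), that is coeff 0 = s and
coeff k S = η_k N^(k-1) δ^(1-2k) for k ≥ 1 (PowerSeries.rescale). Then g(x + X, S) = 0 (N^D1 g(x + X, S) = G*(N X, N (S - s)) = δ² G**(N X/δ², η(N X/δ²)) = 0), and with A = δ²: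
N A^k coeff k S ∈ ℤ. -/
def HnsStmt : Prop := ∀ g : Polynomial (Polynomial ℤ), ∃ D : ℕ, ∀ (x s : ℚ) (N : ℕ), 1 ≤ N →
  (∃ z : ℤ, (N : ℚ) * x = z) → (∃ z : ℤ, (N : ℚ) * s = z) → ev2 x s g = 0 →
  ev2 x s (Polynomial.derivative g) ≠ 0 → ∃ (S : PowerSeries ℚ) (A : ℕ), PowerSeries.constantCoeff S = s ∧
    ev2 (PowerSeries.C x + PowerSeries.X) S g = 0 ∧ 1 ≤ A ∧ Dnm N A S ∧
    (A : ℚ) = ((N : ℚ) ^ D * ev2 x s (Polynomial.derivative g)) ^ 2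

/-- Module Unq (theorem tUnq; uniqueness of the expansion). Uses: nothing.
Proof. Let P = g mapped to R⟦X⟧[Y] (T inserted): P(S) = P(S') = 0. Polynomial.binomExpansion: P(S') = P(S) + P'(S)(S' - S) + k (S' - S)^2, so
(S' - S)(P'(S) + k (S' - S)) = 0. The constant coefficient of the second factor is ev2 (T(0)) (S(0)) (derivative g) ≠ 0 (constantCoeff is a ring hom,
S' - S has constant coefficient 0). R⟦X⟧ is a domain, so S' = S. -/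
def UnqStmt : Prop := ∀ (g : Polynomial (Polynomial ℤ)) (T S S' : PowerSeries ℝ), ev2 T S g = 0 → ev2 T S' g = 0 →
  PowerSeries.constantCoeff S = PowerSeries.constantCoeff S' →
  ev2 (PowerSeries.constantCoeff T) (PowerSeries.constantCoeff S) (Polynomial.derivative g) ≠ 0 → S = S'

/-- Module Idp (theorem tIdp; independence at a rational point). Uses: nothing.
Proof. eqn is the hypothesis, coeff 1 (C x + X) = 1. ind: suppose some q_j ≠ 0, j < d, and put Q = ∑_{j<d} q_j Y^j ∈ ℤ[T][Y], nonzero, of degree < d. Over K = ℚ(T) (RatFunc ℚ) the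
image of Q is not divisible by the irreducible ratG g of degree d, so they are coprime: a ratG(g) + b Q = 1 with a, b ∈ K[Y]. Multiply by a common denominator r ∈ ℚ[T],
r ≠ 0 (IsLocalization.integerNormalization or exist_integer_multiples): a' g + b' Q = r in ℚ[T][Y]. Evaluate with the ring hom ℚ[T] → ℚ⟦X⟧, T ↦ C x + X, and Y ↦ S: r(C x + X) = 0. But
r(C x + X) is the polynomial r(X + x) ≠ 0 viewed as a power series (Polynomial.comp_X_add_C / taylor is injective): contradiction. -/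
def IdpStmt : Prop := ∀ (d : ℕ) (g : Polynomial (Polynomial ℤ)) (x : ℚ) (S : PowerSeries ℚ), 1 ≤ d → g.Monic →
  g.natDegree = d → Irreducible (ratG g) → ev2 (PowerSeries.C x + PowerSeries.X) S g = 0 →
    Ptz d g (PowerSeries.C x + PowerSeries.X) S

/-- Module Gsn (theorem tGsn; the points where the derivative vanishes). Uses: nothing.
Proof. ratG g is irreducible over the field RatFunc ℚ of characteristic 0, so separable (Irreducible.separable): a ratG(g) + b (ratG g)' = 1. (ratG g)' = ratG (derivative g) in the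
obvious sense (Polynomial.derivative_map). Multiply by a common denominator: a' g + b' g' = r with a', b' ∈ ℤ[T][Y], r ∈ ℤ[T], r ≠ 0. Evaluate at (x, s). -/
def GsnStmt : Prop := ∀ g : Polynomial (Polynomial ℤ), Irreducible (ratG g) → ∃ r : Polynomial ℤ, r ≠ 0 ∧
  ∀ x s : ℚ, ev2 x s g = 0 → ev2 x s (Polynomial.derivative g) = 0 → Polynomial.aeval x r = 0

/-- Module Ana (theorem tAna; the real expansions satisfy the equation). Uses: Sft.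
Proof. r = 1/(2 C0) (|ρ E_n| ≤ house ≤ C0^(n+1), so |ρ E_n| r^n ≤ C0 2^(-n) is summable, same for Y). Let M ≥ m i + μ j for all monomials g_ij T^i Y^j of g. Multiply the
formal equation by t^M: ∑ g_ij X^(M - m i - μ j) E^i Y^j = 0 in F⟦X⟧ (the map F⟦X⟧ → Laurent series is an injective ring hom, single (-m) 1 * single m 1 = 1). Apply map ρ and
sft u (additive on summable series, multiplicative by Sft; sft u X = C u + X, sft u 1 = 1): ∑ g_ij (C u + X)^(M - m i - μ j) (sft u (ρ E))^i (sft u (ρ Y))^j = 0. By Rex this is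
(C u + X)^M ∑ g_ij Tr^i Sr^j = (C u + X)^M ev2 Tr Sr g; ℝ⟦X⟧ is a domain and C u + X ≠ 0. -/
def AnaStmt : Prop := ∀ (F : Type) [Field F] [NumberField F] (ρ : F →+* ℝ) (m μ C0 : ℕ) (g : Polynomial (Polynomial ℤ))
    (E Y : PowerSeries F), 1 ≤ C0 → EisC C0 E → EisC C0 Y → ev2 (lau m E) (lau μ Y) g = 0 →
  ∀ (u : ℝ) (Tr Sr : PowerSeries ℝ), 2 * (C0 : ℝ) * |u| < 1 → Rex ρ m E u Tr → Rex ρ μ Y u Sr → ev2 Tr Sr g = 0

/-- Module Lam (theorem tLam; the derivative of T with respect to t is large). Uses: nothing.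
Proof. Coefficients 0 and 1 of Rex: u^m Tr_0 = ∑_n ρ(E_n) u^n and m u^(m-1) Tr_0 + u^m Tr_1 = ∑_n (n+1) ρ(E_(n+1)) u^n. So
u^(m+1) Tr_1 = -m ∑_n ρ(E_n) u^n + u ∑_n (n+1) ρ(E_(n+1)) u^n, which differs from -m ρ(E_0) by at most c |u| for |u| ≤ 1/(2 C0) (|ρ(E_n)| ≤ C0^(n+1)); so for |u| small
|Tr_1| ≥ (m |ρ(E_0)|/2) |u|^(-m-1) ≥ 1. -/
def LamStmt : Prop := ∀ (F : Type) [Field F] [NumberField F] (ρ : F →+* ℝ) (m C0 : ℕ) (E : PowerSeries F), 1 ≤ m →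
  1 ≤ C0 → EisC C0 E → PowerSeries.constantCoeff E ≠ 0 → ∃ u0 : ℝ, 0 < u0 ∧ ∀ (u : ℝ) (Tr : PowerSeries ℝ), u ≠ 0 →
    |u| < u0 → Rex ρ m E u Tr → 1 ≤ |PowerSeries.coeff 1 Tr|

/-- Module Tri (theorem tTri; change of the local coordinates at a coefficient of minimal weight). Uses: nothing.
Proof. δ_h = Tr_h - C x_h has constant coefficient 0 (HasSubst), λ_h = coeff 1 Tr_h = coeff 1 δ_h. Substitution of δ_h is a ring hom ℝ⟦X⟧ → ℝ⟦X⟧ mapping C x_h + X to Tr_h, so Tr_h^a Sr_h^j =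
subst δ_h (map F_h), F_h = (C x_h + X)^a S_h^j ∈ ℚ⟦X⟧. coeff k (subst δ G) = ∑_{i ≤ k} coeff i G coeff k (δ^i) (coeff k (δ^i) = 0 for i > k; PowerSeries.coeff_subst, a finite sum) and
coeff k (δ^k) = λ^k. Hence pc ℝ k0 k1 = ∑_{i ≤ k0, l ≤ k1} (pc ℚ i l) coeff k0 (δ_0^i) coeff k1 (δ_1^l); for (i,l) ≠ (k0,k1) the weight i/n0 + l/n1 is smaller (n0, n1 ≥ 1), so that
coefficient vanishes; the remaining term is pc ℚ k0 k1 * λ_0^k0 * λ_1^k1. -/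
def TriStmt : Prop := ∀ (n0 n1 d : ℕ) (p : ℕ → ℕ → ℕ → ℕ → ℤ) (x0 x1 : ℚ) (S0 S1 : PowerSeries ℚ)
    (T0r S0r T1r S1r : PowerSeries ℝ) (k0 k1 : ℕ), 1 ≤ n0 → 1 ≤ n1 →
  PowerSeries.constantCoeff T0r = (x0 : ℝ) → PowerSeries.constantCoeff T1r = (x1 : ℝ) →
  S0r = PowerSeries.subst (T0r - PowerSeries.C (x0 : ℝ)) (PowerSeries.map (algebraMap ℚ ℝ) S0) →
  S1r = PowerSeries.subst (T1r - PowerSeries.C (x1 : ℝ)) (PowerSeries.map (algebraMap ℚ ℝ) S1) →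
  (∀ a b : ℕ, (a : ℝ) / n0 + (b : ℝ) / n1 < (k0 : ℝ) / n0 + (k1 : ℝ) / n1 →
    pc n0 n1 d p (PowerSeries.C x0 + PowerSeries.X) S0 (PowerSeries.C x1 + PowerSeries.X) S1 a b = 0) →
  pc n0 n1 d p T0r S0r T1r S1r k0 k1 =
    ((pc n0 n1 d p (PowerSeries.C x0 + PowerSeries.X) S0 (PowerSeries.C x1 + PowerSeries.X) S1 k0 k1 : ℚ) : ℝ) *
      PowerSeries.coeff 1 T0r ^ k0 * PowerSeries.coeff 1 T1r ^ k1

/-- Module Pts (theorem tPts; good points exist). Uses: Hns, Unq, Idp, Gsn, Ana, Lam.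
Proof. D from Hns, r from Gsn, u0 from Lam. Constants: for |u| ≤ 1/(2 C0): |T u^m| ≤ 2 C0, |S u^μ| ≤ 2 C0 (HasSum, |ρ(E_b)| ≤ C0^(b+1)), and |ev2 x s (derivative g)| ≤ c |u|^(-c') for |x|, |s| ≤
2 C0 |u|^(-max(m, μ)) (a fixed polynomial). Given δ > 0 take i large: |t i| < min(δ, u0, 1/(2 C0), 1/2), N i ≤ |t i|^(-min(δ,1)), and |T i| so large that aeval (T i) r ≠ 0 (|T i| → ∞ since
|T_i t_i^m| → |ρ(E_0)| > 0; a nonzero polynomial has finitely many roots). u = t i, x = T i, N = N i. ev2 x (S i) (derivative g) ≠ 0 (Gsn). Hns: S, A with Dnm N A S, A = (N^D g_Y(x,s))²; log A ≤ 2 D log N + 2 log(c |u|^(-c')) ≤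
C1 log(1/|u|) with C1 independent of δ (log N ≤ log(1/|u|), log(1/|u|) ≥ log 2). Dnm N A (C x + X): N x ∈ ℤ, N A ∈ ℤ. Ptz: Idp. Tr := (C u + X)^(-m) sft u (map ρ E) (C u + X is a unit of ℝ⟦X⟧: constant coefficient
u ≠ 0), Sr similarly: Rex; constant coefficients: u^m Tr_0 = ∑ ρ(E_b) u^b = T i u^m (HasSum), so Tr_0 = x, Sr_0 = S i. Ana: ev2 Tr Sr g = 0. The series S' = subst (Tr - C x) (map S) satisfies ev2 Tr S' g = 0 (apply the ring hom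
(substitute Tr - C x) to ev2 (C x + X) S g = 0 over ℝ) and has constant coefficient S i; Unq: Sr = S'. lam: Lam. -/
def PtsStmt : Prop := ∀ (F : Type) [Field F] [NumberField F] (ρ : F →+* ℝ) (m μ C0 d : ℕ)
    (g : Polynomial (Polynomial ℤ)) (E Y : PowerSeries F) (t : ℕ → ℝ) (T S : ℕ → ℚ) (N : ℕ → ℕ),
  1 ≤ m → 1 ≤ d → g.Monic → g.natDegree = d → Irreducible (ratG g) → PowerSeries.constantCoeff E ≠ 0 → 1 ≤ C0 →
  EisC C0 E → EisC C0 Y → ev2 (lau m E) (lau μ Y) g = 0 → Filter.Tendsto t Filter.atTop (nhds 0) → (∀ i, t i ≠ 0) →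
  (∀ i, HasSum (fun b => ρ (PowerSeries.coeff b E) * t i ^ b) ((T i : ℝ) * t i ^ m)) →
  (∀ i, HasSum (fun b => ρ (PowerSeries.coeff b Y) * t i ^ b) ((S i : ℝ) * t i ^ μ)) →
  (∀ i, ev2 (T i) (S i) g = 0) → (∀ i, 0 < N i) → (∀ i, ∃ z : ℤ, (N i : ℚ) * T i = z) →
  (∀ i, ∃ z : ℤ, (N i : ℚ) * S i = z) →
  (∀ ε : ℝ, 0 < ε → ∀ᶠ i in Filter.atTop, (N i : ℝ) ≤ |t i| ^ (-ε)) →
  ∃ C1 : ℝ, 0 ≤ C1 ∧ ∀ δ : ℝ, 0 < δ → ∃ (u : ℝ) (x : ℚ) (S' : PowerSeries ℚ) (Tr Sr : PowerSeries ℝ) (N' A : ℕ),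
    GPt ρ d m μ g E Y C1 δ u x S' Tr Sr N' A

/-- Module Cor (theorem `tCor (h1 : AuxStmt) (h2 : SizStmt) (h3 : DenStmt) (h4 : LtcStmt) (h5 : ZerStmt) (h6 : ParStmt) (h7 : TriStmt)
(h8 : PtsStmt) : CoreStmt`; the end of the proof; CoreStmt is in SD/Defs.lean).
Proof. d = m e, ρ = emb; EisBd with D, C gives EisC (D C) (EisBd X, EisBd Y: take the product of all constants; house ≤ C^(b+1) from the bounds for all embeddings: NumberField.house_eq_sup' or the pi norm),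
PowerSeries.coeff 0 = constantCoeff. 2 e m² < d² since e ≥ 3: so there is τ > 2 with e τ² m² < 2 d² (e ≥ 3: τ = 12/5, (144/25) e m² < 2 e² m²). Aux (c0 = μ): h, n. Siz: K1. Ltc: K2. K = max(K1, K2) (the conclusions
remain true with the larger K: L ≤ m n_h (l_h - K) ≤ m n_h (l_h - K1), and K1 (..) ≤ K (..)). Pts: C1 ≥ 0. Par with m, c = μ d, d, τ, K, C1, h gives ε. Zer for g, ε: ω, KZ. Par: Λ1. Take a
good point (u1, x1, S1, T1r, S1r, N1, A1) with δ = min(ε, exp(-max(Λ1, K, 0) - 1)): l1 = log(1/|u1|) ≥ Λ1, > K, > 0, log N1 ≤ ε l1, log A1 ≤ C1 l1. Par: Λ0; take a good point (u0, ...) with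
l0 ≥ Λ0, > K, > 0 in the same way. Par: n0, n1, L. Aux: p. Zer for the expansions C x_h + X, S_h with h (n0+n1) in place of h (constantCoeff (C x_h + X) = x_h = constantCoeff T_hr, log|x_h| ≥ l_h - K by Ltc): some (k0, k1) with
k0/n0 + k1/n1 ≤ ε and pc ≠ 0 over ℚ; choose one with k0/n0 + k1/n1 minimal. Den: the nonzero integer N0^(n0+d) A0^k0 N1^(n1+d) A1^k1 pc has absolute value ≥ 1, so log|pc| ≥ -((n0+d) ε l0 + k0 C1 l0 + (n1+d) ε l1 + k1 C1 l1).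
Tri and lam: |pc over ℝ| ≥ |pc over ℚ|. Siz (with h (n0+n1) for h): log|pc over ℝ| ≤ h (n0+n1) + K (...) + (...) l0 + (...) l1 - τ L. Sum: contradiction to the last inequality of Par. -/
def CorNote : Prop := CoreStmt

end Pool.Agent.Lib.SDC
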