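import Pool.Agent.Lib.SDC.Spec

/-! Module Tri of Lib/SDC: change of the local coordinates at a coefficient of minimal weight
(helper43). -/

namespace Pool.Agent.Lib.SDC

open Finset Pool.Agent.Lib.SD

theorem Tri_dvd (δ : PowerSeries ℝ) (h0 : PowerSeries.constantCoeff δ = 0) :
    ∃ δ' : PowerSeries ℝ, δ = PowerSeries.X * δ' ∧
      PowerSeries.constantCoeff δ' = PowerSeries.coeff 1 δ := by
  obtain ⟨δ', h⟩ := PowerSeries.X_dvd_iff.mpr h0
  refine ⟨δ', h, ?_⟩
  rw [h]
  have := PowerSeries.coeff_succ_X_mul 0 δ'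
  rw [zero_add] at this
  rw [this]
  simp

theorem Tri_coeff_zero (δ : PowerSeries ℝ) (h0 : PowerSeries.constantCoeff δ = 0) (i k : ℕ)
    (hik : k < i) : PowerSeries.coeff k (δ ^ i) = 0 := by
  obtain ⟨δ', h, _⟩ := Tri_dvd δ h0
  rw [h, mul_pow, PowerSeries.coeff_X_pow_mul', if_neg (by omega)]

theorem Tri_coeff_self (δ : PowerSeries ℝ) (h0 : PowerSeries.constantCoeff δ = 0) (k : ℕ) :
    PowerSeries.coeff k (δ ^ k) = PowerSeries.coeff 1 δ ^ k := by
  obtain ⟨δ', h, h1⟩ := Tri_dvd δ h0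
  rw [← h1, h, mul_pow, PowerSeries.coeff_X_pow_mul', if_pos le_rfl, Nat.sub_self,
    PowerSeries.coeff_zero_eq_constantCoeff_apply, map_pow]

theorem Tri_subst (δ : PowerSeries ℝ) (h0 : PowerSeries.constantCoeff δ = 0) (G : PowerSeries ℚ)
    (k : ℕ) : PowerSeries.coeff k (PowerSeries.subst δ (PowerSeries.map (algebraMap ℚ ℝ) G)) =
      ∑ i ∈ range (k + 1), ((PowerSeries.coeff i G : ℚ) : ℝ) * PowerSeries.coeff k (δ ^ i) := by
  have hs : PowerSeries.HasSubst δ := PowerSeries.HasSubst.of_constantCoeff_zero' h0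
  rw [PowerSeries.coeff_subst' hs]
  rw [finsum_eq_sum_of_support_subset (s := range (k + 1))]
  · refine Finset.sum_congr rfl fun i _ => ?_
    rw [PowerSeries.coeff_map, smul_eq_mul]
    rfl
  · intro i hi
    rw [Finset.mem_coe, mem_range]
    by_contra hcon
    apply hi
    show PowerSeries.coeff i _ • PowerSeries.coeff k (δ ^ i) = 0
    rw [Tri_coeff_zero δ h0 i k (by omega), smul_zero]

/-- the monomials in the real expansions -/
theorem Tri_mono (x : ℚ) (S : PowerSeries ℚ) (Tr Sr : PowerSeries ℝ)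
    (hT : PowerSeries.constantCoeff Tr = (x : ℝ))
    (hS : Sr = PowerSeries.subst (Tr - PowerSeries.C (x : ℝ))
      (PowerSeries.map (algebraMap ℚ ℝ) S)) (a j k : ℕ) :
    PowerSeries.coeff k (Tr ^ a * Sr ^ j) =
      ∑ i ∈ range (k + 1),
        ((PowerSeries.coeff i ((PowerSeries.C x + PowerSeries.X) ^ a * S ^ j) : ℚ) : ℝ) *
          PowerSeries.coeff k ((Tr - PowerSeries.C (x : ℝ)) ^ i) := by
  have h0 : PowerSeries.constantCoeff (Tr - PowerSeries.C (x : ℝ)) = 0 := by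
    rw [map_sub, hT, PowerSeries.constantCoeff_C, sub_self]
  have hs : PowerSeries.HasSubst (Tr - PowerSeries.C (x : ℝ)) :=
    PowerSeries.HasSubst.of_constantCoeff_zero' h0
  rw [← Tri_subst _ h0]
  congr 1
  rw [map_mul, map_pow, map_pow, PowerSeries.subst_mul hs, PowerSeries.subst_pow hs,
    PowerSeries.subst_pow hs, ← hS, map_add, PowerSeries.subst_add hs, PowerSeries.map_C,
    PowerSeries.map_X, PowerSeries.subst_X hs]
  have hC : PowerSeries.subst (Tr - PowerSeries.C (x : ℝ))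
      (PowerSeries.C ((algebraMap ℚ ℝ) x) : PowerSeries ℝ) = PowerSeries.C (x : ℝ) :=
    PowerSeries.subst_C _
  rw [hC]
  congr 2
  ring

theorem tTri : TriStmt := by
  intro n0 n1 d p x0 x1 S0 S1 T0r S0r T1r S1r k0 k1 hn0 hn1 hT0 hT1 hS0 hS1 hv
  set δ0 := T0r - PowerSeries.C (x0 : ℝ) with hδ0
  set δ1 := T1r - PowerSeries.C (x1 : ℝ) with hδ1
  have h00 : PowerSeries.constantCoeff δ0 = 0 := by
    rw [hδ0, map_sub, hT0, PowerSeries.constantCoeff_C, sub_self]
  have h01 : PowerSeries.constantCoeff δ1 = 0 := by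
    rw [hδ1, map_sub, hT1, PowerSeries.constantCoeff_C, sub_self]
  have hc0 : PowerSeries.coeff 1 δ0 = PowerSeries.coeff 1 T0r := by
    rw [hδ0, map_sub, PowerSeries.coeff_C, if_neg one_ne_zero, sub_zero]
  have hc1 : PowerSeries.coeff 1 δ1 = PowerSeries.coeff 1 T1r := by
    rw [hδ1, map_sub, PowerSeries.coeff_C, if_neg one_ne_zero, sub_zero]
  have key : pc n0 n1 d p T0r S0r T1r S1r k0 k1 =
      ∑ i ∈ range (k0 + 1), ∑ l ∈ range (k1 + 1),
        ((pc n0 n1 d p (PowerSeries.C x0 + PowerSeries.X) S0 (PowerSeries.C x1 + PowerSeries.X)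
          S1 i l : ℚ) : ℝ) * (PowerSeries.coeff k0 (δ0 ^ i) * PowerSeries.coeff k1 (δ1 ^ l)) := by
    have h1 : pc n0 n1 d p T0r S0r T1r S1r k0 k1 =
        ∑ a ∈ range n0, ∑ j ∈ range d, ∑ b ∈ range n1, ∑ k ∈ range d,
          ∑ i ∈ range (k0 + 1), ∑ l ∈ range (k1 + 1),
          (((p a j b k : ℚ) * PowerSeries.coeff i ((PowerSeries.C x0 + PowerSeries.X) ^ a * S0 ^ j)
            * PowerSeries.coeff l ((PowerSeries.C x1 + PowerSeries.X) ^ b * S1 ^ k) : ℚ) : ℝ) *
            (PowerSeries.coeff k0 (δ0 ^ i) * PowerSeries.coeff k1 (δ1 ^ l)) := by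
      unfold pc
      refine sum_congr rfl fun a _ => sum_congr rfl fun j _ => sum_congr rfl fun b _ =>
        sum_congr rfl fun k _ => ?_
      rw [Tri_mono x0 S0 T0r S0r hT0 hS0, Tri_mono x1 S1 T1r S1r hT1 hS1, mul_assoc,
        Finset.sum_mul_sum, Finset.mul_sum]
      refine sum_congr rfl fun i _ => ?_
      rw [Finset.mul_sum]
      refine sum_congr rfl fun l _ => ?_
      push_cast
      ring
    rw [h1]
    have h2 : ∀ i l : ℕ, ((pc n0 n1 d p (PowerSeries.C x0 + PowerSeries.X) S0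
        (PowerSeries.C x1 + PowerSeries.X) S1 i l : ℚ) : ℝ) *
          (PowerSeries.coeff k0 (δ0 ^ i) * PowerSeries.coeff k1 (δ1 ^ l)) =
        ∑ a ∈ range n0, ∑ j ∈ range d, ∑ b ∈ range n1, ∑ k ∈ range d,
          (((p a j b k : ℚ) * PowerSeries.coeff i ((PowerSeries.C x0 + PowerSeries.X) ^ a * S0 ^ j)
            * PowerSeries.coeff l ((PowerSeries.C x1 + PowerSeries.X) ^ b * S1 ^ k) : ℚ) : ℝ) *
            (PowerSeries.coeff k0 (δ0 ^ i) * PowerSeries.coeff k1 (δ1 ^ l)) := by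
      intro i l
      unfold pc
      push_cast
      simp only [Finset.sum_mul]
    simp only [h2]
    have e1 : ∀ (f : ℕ → ℕ → ℕ → ℕ → ℕ → ℕ → ℝ),
        ∑ a ∈ range n0, ∑ j ∈ range d, ∑ b ∈ range n1, ∑ k ∈ range d,
          ∑ i ∈ range (k0 + 1), ∑ l ∈ range (k1 + 1), f a j b k i l =
        ∑ i ∈ range (k0 + 1), ∑ l ∈ range (k1 + 1), ∑ a ∈ range n0, ∑ j ∈ range d,
          ∑ b ∈ range n1, ∑ k ∈ range d, f a j b k i l := by
      intro f
      have s1 : ∀ (a j b : ℕ), ∑ k ∈ range d, ∑ i ∈ range (k0 + 1), ∑ l ∈ range (k1 + 1),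
          f a j b k i l = ∑ i ∈ range (k0 + 1), ∑ l ∈ range (k1 + 1), ∑ k ∈ range d,
            f a j b k i l := by
        intro a j b
        rw [Finset.sum_comm]
        exact sum_congr rfl fun i _ => Finset.sum_comm
      have s2 : ∀ (a j : ℕ), ∑ b ∈ range n1, ∑ i ∈ range (k0 + 1), ∑ l ∈ range (k1 + 1),
          ∑ k ∈ range d, f a j b k i l = ∑ i ∈ range (k0 + 1), ∑ l ∈ range (k1 + 1),
            ∑ b ∈ range n1, ∑ k ∈ range d, f a j b k i l := by
        intro a j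
        rw [Finset.sum_comm]
        exact sum_congr rfl fun i _ => Finset.sum_comm
      have s3 : ∀ (a : ℕ), ∑ j ∈ range d, ∑ i ∈ range (k0 + 1), ∑ l ∈ range (k1 + 1),
          ∑ b ∈ range n1, ∑ k ∈ range d, f a j b k i l = ∑ i ∈ range (k0 + 1),
            ∑ l ∈ range (k1 + 1), ∑ j ∈ range d, ∑ b ∈ range n1, ∑ k ∈ range d,
              f a j b k i l := by
        intro a
        rw [Finset.sum_comm]
        exact sum_congr rfl fun i _ => Finset.sum_comm
      simp only [s1, s2, s3]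
      rw [Finset.sum_comm]
      exact sum_congr rfl fun i _ => Finset.sum_comm
    exact e1 _
  rw [key]
  have hn0' : (0 : ℝ) < n0 := by exact_mod_cast hn0
  have hn1' : (0 : ℝ) < n1 := by exact_mod_cast hn1
  have hz : ∀ i ∈ range (k0 + 1), ∀ l ∈ range (k1 + 1), ¬ (i = k0 ∧ l = k1) →
      pc n0 n1 d p (PowerSeries.C x0 + PowerSeries.X) S0 (PowerSeries.C x1 + PowerSeries.X)
        S1 i l = 0 := by
    intro i hi l hl hne
    rw [mem_range] at hi hl
    apply hv
    have hi' : i ≤ k0 := by omega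
    have hl' : l ≤ k1 := by omega
    have c1 : (i : ℝ) / n0 ≤ (k0 : ℝ) / n0 := by gcongr
    have c2 : (l : ℝ) / n1 ≤ (k1 : ℝ) / n1 := by gcongr
    rcases Nat.lt_or_ge i k0 with h | h
    · have : (i : ℝ) / n0 < (k0 : ℝ) / n0 := by gcongr
      linarith
    · have hl2 : l < k1 := by
        rcases Nat.lt_or_ge l k1 with h' | h'
        · exact h'
        · exact absurd ⟨by omega, by omega⟩ hne
      have : (l : ℝ) / n1 < (k1 : ℝ) / n1 := by gcongr
      linarith
  rw [Finset.sum_eq_single_of_mem k0 (mem_range.mpr (Nat.lt_succ_self _))]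
  · rw [Finset.sum_eq_single_of_mem k1 (mem_range.mpr (Nat.lt_succ_self _))]
    · rw [Tri_coeff_self δ0 h00, Tri_coeff_self δ1 h01, hc0, hc1]
      ring
    · intro l hl hne
      rw [hz k0 (mem_range.mpr (Nat.lt_succ_self _)) l hl (fun h => hne h.2)]
      simp
  · intro i hi hne
    refine Finset.sum_eq_zero fun l hl => ?_
    rw [hz i hi l hl (fun h => hne h.1)]
    simp

end Pool.Agent.Lib.SDC
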